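import Pool.Agent.H60.HM.Defs

/-!
# HM-05 Asg: distributing the junk sums over the connectors

Induction on `N`.  `N = 0`: clear.  Case `par = 0` (then all `r k = 0`): split `J` into three element sets in
any way.  Case of the second alternative: let `J0`, `J1` be the numbers of the elements of `J` of parity
`0` and `1`, `J0 + J1 = 3 N`, `J0, J1 ≥ N`.  Choose three elements of `J` for the last connector `k = N - 1`
such that the rest has at least `N - 1` elements of each parity, and the sum of the parities of the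
three elements is `r k`:
* `r k = 0`: if `J0 ≥ N + 2` take three elements of parity `0` (then `J0 - 3 ≥ N - 1`).  Otherwise
`J0 ≤ N + 1`, so `J1 ≥ 2 N - 1`; if `N ≥ 2` then `J1 ≥ N + 1`, take one of parity `0` and two of parity `1`.
If `N = 1`: `J0 + J1 = 3` and the sum of all parities `J1 = r k = 0` mod 2, so `J1 = 2` (as `J1 ≥ 1`) and
`J0 = 1`: take all.
* `r k = 1`: if `J1 ≥ N + 2` take three elements of parity `1`.  Otherwise `J0 ≥ 2 N - 1`; if `N ≥ 2`
take two of parity `0` and one of parity `1`.  If `N = 1`: `J1` is odd, `J0 ≥ 1`, so `J1 = 1`, `J0 = 2`: take all.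
The condition `∑ par = ∑ r` is inherited.
-/

namespace Pool.Agent.H60.HM

open Finset Classical Pool.Agent.H60.HL

private theorem Asg_two (x : ZMod 2) : x = 0 ∨ x = 1 := by
  revert x
  decide

private theorem Asg_sum {G : Type} [AddCommGroup G] (par : G →+ ZMod 2) (T : Finset G) :
    ∑ w ∈ T, par w = (((T.filter fun w => par w = 1).card : ℕ) : ZMod 2) := by
  rw [Finset.card_filter, Nat.cast_sum]
  refine Finset.sum_congr rfl fun w _ => ?_
  rcases Asg_two (par w) with h | h
  · rw [h, if_neg (by decide)]
    rfl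
  · rw [h, if_pos rfl]
    rfl

private theorem Asg_card {G : Type} [AddCommGroup G] (par : G →+ ZMod 2) (T : Finset G) :
    (T.filter fun w => par w = 0).card + (T.filter fun w => par w = 1).card = T.card := by
  rw [← Finset.card_filter_add_card_filter_not (s := T) (fun w => par w = 0)]
  congr 2
  refine Finset.filter_congr fun w _ => ?_
  rcases Asg_two (par w) with h | h
  · rw [h]
    decide
  · rw [h]
    decide

/-- the numbers -/
private theorem Asg_num {N J0 J1 : ℕ} (h : J0 + J1 = 3 * (N + 1)) (h0 : N + 1 ≤ J0)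
    (h1 : N + 1 ≤ J1) (r : ZMod 2) (hr : N = 0 → ((J1 : ℕ) : ZMod 2) = r) :
    ∃ a b : ℕ, a + b = 3 ∧ ((b : ℕ) : ZMod 2) = r ∧ a + N ≤ J0 ∧ b + N ≤ J1 := by
  rcases Asg_two r with rfl | rfl
  · by_cases h2 : N + 3 ≤ J0
    · exact ⟨3, 0, rfl, rfl, by omega, by omega⟩
    · refine ⟨1, 2, rfl, rfl, by omega, ?_⟩
      by_cases hN : N = 0
      · have h3 := hr hN
        by_contra h4
        have h5 : J1 = 1 := by omega
        rw [h5] at h3
        exact absurd h3 (by decide)
      · omega
  · by_cases h2 : N + 3 ≤ J1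
    · exact ⟨0, 3, rfl, rfl, by omega, by omega⟩
    · refine ⟨2, 1, rfl, rfl, ?_, by omega⟩
      by_cases hN : N = 0
      · have h3 := hr hN
        by_contra h4
        have h5 : J1 = 2 := by omega
        rw [h5] at h3
        exact absurd h3 (by decide)
      · omega

/-- choice of the three elements for the last connector -/
private theorem Asg_choose {G : Type} [AddCommGroup G] (par : G →+ ZMod 2) {N : ℕ} {J : Finset G}
    (r : Fin (N + 1) → ZMod 2) (hJ : J.card = 3 * (N + 1)) (hs : ∑ w ∈ J, par w = ∑ k, r k)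
    (h : (par = 0 ∧ ∀ k, r k = 0) ∨
      (N + 1 ≤ (J.filter fun w => par w = 0).card ∧ N + 1 ≤ (J.filter fun w => par w = 1).card)) :
    ∃ T ⊆ J, T.card = 3 ∧ ∑ w ∈ T, par w = r (Fin.last N) ∧
      ((par = 0 ∧ ∀ k : Fin N, r k.castSucc = 0) ∨
        (N ≤ ((J \ T).filter fun w => par w = 0).card ∧
          N ≤ ((J \ T).filter fun w => par w = 1).card)) := by
  rcases h with ⟨hp, hr⟩ | ⟨h0, h1⟩
  · obtain ⟨T, hT, hTc⟩ := Finset.exists_subset_card_eq (s := J) (n := 3) (by omega)
    refine ⟨T, hT, hTc, ?_, Or.inl ⟨hp, fun k => hr _⟩⟩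
    rw [hp, hr]
    simp
  · have hc := Asg_card par J
    rw [hJ] at hc
    obtain ⟨a, b, hab, hb, ha0, hb1⟩ := Asg_num hc h0 h1 (r (Fin.last N)) (by
      intro hN
      subst hN
      rw [← Asg_sum par J, hs]
      simp)
    obtain ⟨T0, hT0, hT0c⟩ := Finset.exists_subset_card_eq
      (s := J.filter fun w => par w = 0) (n := a) (by omega)
    obtain ⟨T1, hT1, hT1c⟩ := Finset.exists_subset_card_eq
      (s := J.filter fun w => par w = 1) (n := b) (by omega)
    have m0 : ∀ x ∈ T0, x ∈ J ∧ par x = 0 := fun x hx => Finset.mem_filter.1 (hT0 hx)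
    have m1 : ∀ x ∈ T1, x ∈ J ∧ par x = 1 := fun x hx => Finset.mem_filter.1 (hT1 hx)
    have hd : Disjoint T0 T1 := by
      rw [Finset.disjoint_left]
      intro x hx hx'
      have e1 := (m0 x hx).2
      rw [(m1 x hx').2] at e1
      exact absurd e1 (by decide)
    have f0 : ((T0 ∪ T1).filter fun w => par w = 0) = T0 := by
      ext x
      rw [Finset.mem_filter, Finset.mem_union]
      constructor
      · rintro ⟨hx | hx, h2⟩
        · exact hx
        · rw [(m1 x hx).2] at h2
          exact absurd h2 (by decide)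
      · intro hx
        exact ⟨Or.inl hx, (m0 x hx).2⟩
    have f1 : ((T0 ∪ T1).filter fun w => par w = 1) = T1 := by
      ext x
      rw [Finset.mem_filter, Finset.mem_union]
      constructor
      · rintro ⟨hx | hx, h2⟩
        · rw [(m0 x hx).2] at h2
          exact absurd h2 (by decide)
        · exact hx
      · intro hx
        exact ⟨Or.inr hx, (m1 x hx).2⟩
    have hsub : T0 ∪ T1 ⊆ J := by
      intro x hx
      rcases Finset.mem_union.1 hx with hx | hx
      · exact (m0 x hx).1
      · exact (m1 x hx).1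
    refine ⟨T0 ∪ T1, hsub, ?_, ?_, Or.inr ⟨?_, ?_⟩⟩
    · rw [Finset.card_union_of_disjoint hd, hT0c, hT1c, hab]
    · rw [Asg_sum, f1, hT1c, hb]
    · have e1 : ((J \ (T0 ∪ T1)).filter fun w => par w = 0) =
          (J.filter fun w => par w = 0) \ ((T0 ∪ T1).filter fun w => par w = 0) := by
        ext x
        simp only [Finset.mem_filter, Finset.mem_sdiff]
        tauto
      rw [e1, f0, Finset.card_sdiff_of_subset hT0]
      omega
    · have e1 : ((J \ (T0 ∪ T1)).filter fun w => par w = 1) =
          (J.filter fun w => par w = 1) \ ((T0 ∪ T1).filter fun w => par w = 1) := by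
        ext x
        simp only [Finset.mem_filter, Finset.mem_sdiff]
        tauto
      rw [e1, f1, Finset.card_sdiff_of_subset hT1]
      omega

theorem assign {G : Type} [AddCommGroup G] (par : G →+ ZMod 2) :
    ∀ (N : ℕ) (J : Finset G) (r : Fin N → ZMod 2), J.card = 3 * N →
      ∑ w ∈ J, par w = ∑ k, r k →
      ((par = 0 ∧ ∀ k, r k = 0) ∨
        (N ≤ (J.filter fun w => par w = 0).card ∧ N ≤ (J.filter fun w => par w = 1).card)) →
      ∃ w : Fin N → Fin 3 → G, (∀ k k' i i', w k i = w k' i' → k = k' ∧ i = i') ∧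
        (∀ k i, w k i ∈ J) ∧ ∀ k, par (w k 0) + par (w k 1) + par (w k 2) = r k := by
  intro N
  induction N with
  | zero =>
    intro J r _ _ _
    exact ⟨fun k => k.elim0, fun k => k.elim0, fun k => k.elim0, fun k => k.elim0⟩
  | succ N ih =>
    intro J r hJ hs halt
    obtain ⟨T, hTJ, hTc, hTs, halt'⟩ := Asg_choose par r hJ hs halt
    obtain ⟨x, y, z, hxy, hxz, hyz, rfl⟩ := Finset.card_eq_three.1 hTc
    have hsT : ∑ w ∈ ({x, y, z} : Finset G), par w = par x + par y + par z := by
      rw [Finset.sum_insert (by simp [hxy, hxz]), Finset.sum_insert (by simp [hyz]),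
        Finset.sum_singleton, add_assoc]
    have hJ' : (J \ {x, y, z}).card = 3 * N := by
      rw [Finset.card_sdiff_of_subset hTJ, hJ, hTc]
      omega
    have hs' : ∑ w ∈ J \ {x, y, z}, par w = ∑ k : Fin N, r k.castSucc := by
      have h1 := Finset.sum_sdiff (f := fun w => par w) hTJ
      rw [hs, Fin.sum_univ_castSucc, hTs] at h1
      exact add_right_cancel h1
    obtain ⟨w, hw1, hw2, hw3⟩ := ih (J \ {x, y, z}) (fun k => r k.castSucc) hJ' hs' halt'
    have hlast : ∀ i : Fin 3, (![x, y, z] : Fin 3 → G) i ∈ ({x, y, z} : Finset G) := by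
      intro i
      fin_cases i <;> simp
    have hinj : ∀ i i' : Fin 3, (![x, y, z] : Fin 3 → G) i = ![x, y, z] i' → i = i' := by
      intro i i' h
      fin_cases i <;> fin_cases i' <;> simp_all
    refine ⟨Fin.snoc (α := fun _ => Fin 3 → G) w ![x, y, z], ?_, ?_, ?_⟩
    · intro k k' i i' h
      refine Fin.lastCases ?_ (fun k => ?_) k h
      · intro h
        refine Fin.lastCases ?_ (fun k' => ?_) k' h
        · intro h
          rw [Fin.snoc_last] at h
          exact ⟨rfl, hinj i i' h⟩
        · intro h
          rw [Fin.snoc_last, Fin.snoc_castSucc] at h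
          exfalso
          have h1 := hw2 k' i'
          rw [← h, Finset.mem_sdiff] at h1
          exact h1.2 (hlast i)
      · intro h
        refine Fin.lastCases ?_ (fun k' => ?_) k' h
        · intro h
          rw [Fin.snoc_last, Fin.snoc_castSucc] at h
          exfalso
          have h1 := hw2 k i
          rw [h, Finset.mem_sdiff] at h1
          exact h1.2 (hlast i')
        · intro h
          rw [Fin.snoc_castSucc, Fin.snoc_castSucc] at h
          obtain ⟨e1, e2⟩ := hw1 k k' i i' h
          exact ⟨by rw [e1], e2⟩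
    · intro k i
      refine Fin.lastCases ?_ (fun k => ?_) k
      · rw [Fin.snoc_last]
        exact hTJ (hlast i)
      · rw [Fin.snoc_castSucc]
        exact (Finset.mem_sdiff.1 (hw2 k i)).1
    · intro k
      refine Fin.lastCases ?_ (fun k => ?_) k
      · rw [Fin.snoc_last, ← hTs, hsT]
        rfl
      · rw [Fin.snoc_castSucc]
        exact hw3 k

end Pool.Agent.H60.HM
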