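import Pool.Agent.H60.HM.Defs

/-!
# HM-11 AtomB: atoms

`atom f e A' x = (f x, f (x - e))` if `f x ∈ A'` and `(f x, f (x + e))` otherwise: every atom
`(i, j) ∈ Fin M × Fin M` has the density `1 / M²`.

`atom_dcl`: if `f x ∈ A0` then `f x ∉ A0'`, so the atom of `x` is `(f x, f (x + e))`.
`atom_end`: `x - e ∈ dcl f e A0 A0'` iff `f (x - e) ∈ A0` and `f x ∈ A0'` (`x - e + e = x`).
`atom_pat`: `Rnd χ 6 η`.  `q = card G`.  One atom `(i, j)`: the set of the `x` with this atom is
`{x : f x = i, f (x - e) = j}` if `i ∈ A'` and `{x : f x = i, f (x + e) = j}` otherwise: two conditions at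
different places.  (1): sum over the atoms in `W`: `W.card` terms with error `η q`, `W.card ≤ M²`.
(2), (3): sums over pairs of atoms, `W.card * W'.card ≤ M^4` terms: for each pair of atoms four
conditions at different places: in (2) the conditions on `t` are at places of the space `true`, those on
`t + z` at places `(false, true, z)`, `(false, true, z ± e)`; in (3) the conditions on `t` are at the
places `(true, true, 0)`, `(true, true, ± e)`, those on `z - t` at `(true, false, z)`,
`(true, false, z ± e)` (`(z - t) ± e = (z ± e) - t`).  The density of one pair is `1 / M^4`.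
-/

namespace Pool.Agent.H60.HM

open Finset Classical Pool.Agent.H60.HL

/-- The atom of `x`. -/
noncomputable def atom {G : Type} [AddCommGroup G] {M : ℕ} (f : G → Fin M) (e : G)
    (A' : Finset (Fin M)) (x : G) : Fin M × Fin M :=
  if f x ∈ A' then (f x, f (x - e)) else (f x, f (x + e))

variable {G : Type} [AddCommGroup G] [Fintype G]

private theorem AtomB_cc {P Q : G → Prop} {i1 : DecidablePred P} {i2 : DecidablePred Q}
    (h : ∀ t, P t ↔ Q t) :
    (@Finset.filter G P i1 univ).card = (@Finset.filter G Q i2 univ).card := by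
  have : @Finset.filter G P i1 univ = @Finset.filter G Q i2 univ := by
    ext t
    simp only [mem_filter, mem_univ, true_and]
    exact h t
  rw [this]

private noncomputable def AtomB_cnt (P : G → Prop) : ℕ :=
  (@Finset.filter G P (Classical.decPred P) univ).card

private theorem AtomB_cnt_eq {P Q : G → Prop} {i : DecidablePred P} (h : ∀ t, P t ↔ Q t) :
    (@Finset.filter G P i univ).card = AtomB_cnt Q := AtomB_cc h

private theorem AtomB_sum {α : Type} (a : G → α) (W : Finset α) (D E : ℝ)
    (h : ∀ w ∈ W, |((AtomB_cnt fun t : G => a t = w : ℕ) : ℝ) - D| ≤ E) :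
    |((AtomB_cnt fun t : G => a t ∈ W : ℕ) : ℝ) - W.card * D| ≤ W.card * E := by
  have h1 : (AtomB_cnt fun t : G => a t ∈ W) =
      ∑ w ∈ W, (AtomB_cnt fun t : G => a t = w) := by
    have h3 := Finset.card_eq_sum_card_fiberwise (f := a)
      (s := @Finset.filter G (fun t : G => a t ∈ W) (Classical.decPred _) univ) (t := W)
      (fun t ht => by simpa using ht)
    refine h3.trans ?_
    refine Finset.sum_congr rfl fun w hw => ?_
    rw [Finset.filter_filter]
    apply AtomB_cnt_eq
    intro t
    constructor
    · exact fun h => h.2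
    · intro h
      exact ⟨by rw [h]; exact hw, h⟩
  rw [h1]
  push_cast
  have h2 : (∑ w ∈ W, ((AtomB_cnt fun t : G => a t = w : ℕ) : ℝ)) - W.card * D =
      ∑ w ∈ W, (((AtomB_cnt fun t : G => a t = w : ℕ) : ℝ) - D) := by
    rw [Finset.sum_sub_distrib, Finset.sum_const, nsmul_eq_mul]
  rw [h2]
  refine (Finset.abs_sum_le_sum_abs _ _).trans ((Finset.sum_le_sum h).trans ?_)
  rw [Finset.sum_const, nsmul_eq_mul]

private theorem AtomB_pat {M : ℕ} {χ : Bool → G → Fin M} {η : ℝ} (h : Rnd χ 6 η) {n : ℕ}
    (hn : n ≤ 6) (v : Fin n → Bool × Bool × G) (hv : Function.Injective v) (k : Fin n → Fin M) :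
    |((AtomB_cnt fun t : G => ∀ x, χ (v x).1 (pt (v x).2.1 (v x).2.2 t) = k x : ℕ) : ℝ) -
      Fintype.card G * (1 / M) ^ n| ≤ η * Fintype.card G := by
  have h1 := h (Fin n) (by rw [Fintype.card_fin]; exact hn) v hv (fun x => {k x})
  rw [AtomB_cnt_eq (Q := fun t : G => ∀ x, χ (v x).1 (pt (v x).2.1 (v x).2.2 t) = k x)
    (fun t => forall_congr' fun x => Finset.mem_singleton)] at h1
  simpa using h1

private theorem AtomB_congr {P Q : G → Prop} (h : ∀ t, P t ↔ Q t) :
    AtomB_cnt P = AtomB_cnt Q := AtomB_cc h

private theorem AtomB_tf : ¬ (true = false) := by decide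

private theorem AtomB_ft : ¬ (false = true) := by decide

omit [Fintype G] in
private theorem AtomB_iff {M : ℕ} (f : G → Fin M) (e : G) (A' : Finset (Fin M)) (t : G)
    (w : Fin M × Fin M) : atom f e A' t = w ↔
      f t = w.1 ∧ f (t + (if w.1 ∈ A' then -e else e)) = w.2 := by
  obtain ⟨i, j⟩ := w
  unfold atom
  by_cases h1 : f t = i
  · by_cases h2 : i ∈ A'
    · simp [h1, h2, sub_eq_add_neg]
    · simp [h1, h2]
  · by_cases h2 : f t ∈ A'
    · simp [h1, h2]
    · simp [h1, h2]

omit [Fintype G] in
private theorem AtomB_shift {e : G} (he : e ≠ 0) (P : Prop) [Decidable P] :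
    (if P then -e else e) ≠ 0 := by
  split_ifs
  · exact neg_ne_zero.mpr he
  · exact he

private theorem AtomB_cardW {M : ℕ} (W : Finset (Fin M × Fin M)) : (W.card : ℝ) ≤ M ^ 2 := by
  have := Finset.card_le_univ W
  rw [Fintype.card_prod, Fintype.card_fin] at this
  rw [sq]
  exact_mod_cast this

theorem atom_dcl {M : ℕ} (f : G → Fin M) (e : G) (A0 A0' : Finset (Fin M))
    (h : Disjoint A0 A0') (x : G) : x ∈ dcl f e A0 A0' ↔ atom f e A0' x ∈ A0 ×ˢ A0' := by
  have hd : ∀ y, y ∈ A0 → y ∉ A0' := fun y hy => Finset.disjoint_left.mp h hy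
  unfold dcl atom
  rw [mem_filter, mem_product]
  by_cases h2 : f x ∈ A0'
  · rw [if_pos h2]
    constructor
    · rintro ⟨-, h3, -⟩
      exact absurd h2 (hd _ h3)
    · rintro ⟨h3, -⟩
      exact absurd h2 (hd _ h3)
  · rw [if_neg h2]
    simp

theorem atom_end {M : ℕ} (f : G → Fin M) (e : G) (A0 A0' : Finset (Fin M))
    (h : Disjoint A0 A0') (x : G) : x - e ∈ dcl f e A0 A0' ↔ atom f e A0' x ∈ A0' ×ˢ A0 := by
  unfold dcl atom
  rw [mem_filter, mem_product, sub_add_cancel]
  by_cases h2 : f x ∈ A0'
  · rw [if_pos h2]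
    simp [h2]
  · rw [if_neg h2]
    simp [h2]

theorem atom_fst {M : ℕ} (f : G → Fin M) (e : G) (A0' : Finset (Fin M)) (x : G) :
    (atom f e A0' x).1 = f x := by
  unfold atom
  split_ifs <;> rfl

theorem atom_pat {M : ℕ} {χ : Bool → G → Fin M} {η : ℝ} (h : Rnd χ 6 η) (hη : 0 ≤ η) {e : G}
    (he : e ≠ 0) (A' B' : Finset (Fin M)) (W W' : Finset (Fin M × Fin M)) :
    |((univ.filter fun t : G => atom (χ true) e A' t ∈ W).card : ℝ) -
        (W.card : ℝ) / M ^ 2 * Fintype.card G| ≤ M ^ 4 * η * Fintype.card G ∧
    (∀ z : G, |((univ.filter fun t : G => atom (χ true) e A' t ∈ W ∧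
        atom (χ false) e B' (t + z) ∈ W').card : ℝ) -
        (W.card : ℝ) / M ^ 2 * (W'.card / M ^ 2) * Fintype.card G| ≤
          M ^ 4 * η * Fintype.card G) ∧
    ∀ z : G, |((univ.filter fun t : G => atom (χ true) e A' t ∈ W ∧
        atom (χ true) e A' (z - t) ∈ W').card : ℝ) -
        (W.card : ℝ) / M ^ 2 * (W'.card / M ^ 2) * Fintype.card G| ≤
          M ^ 4 * η * Fintype.card G := by
  have hM : (1:ℝ) ≤ M := by
    have : 0 < M := Fin.pos (χ true 0)
    exact_mod_cast this
  have hM0 : (0:ℝ) < M := by linarith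
  have hq : (0:ℝ) ≤ Fintype.card G := by positivity
  have hηq : 0 ≤ η * Fintype.card G := mul_nonneg hη hq
  have hW := AtomB_cardW W
  have hW' := AtomB_cardW W'
  have hW0 : (0:ℝ) ≤ W.card := by positivity
  have hW0' : (0:ℝ) ≤ W'.card := by positivity
  have hpair : ∀ b : G → Fin M × Fin M, (∀ w ∈ W, ∀ w' ∈ W',
      |((AtomB_cnt fun t : G => (atom (χ true) e A' t, b t) = (w, w') : ℕ) : ℝ) -
        Fintype.card G * (1 / M) ^ 4| ≤ η * Fintype.card G) →
      |((AtomB_cnt fun t : G => atom (χ true) e A' t ∈ W ∧ b t ∈ W' : ℕ) : ℝ) -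
        (W.card : ℝ) / M ^ 2 * (W'.card / M ^ 2) * Fintype.card G| ≤
          M ^ 4 * η * Fintype.card G := by
    intro b hb
    have h1 := AtomB_sum (fun t : G => (atom (χ true) e A' t, b t)) (W ×ˢ W')
      (Fintype.card G * (1 / M) ^ 4) (η * Fintype.card G) (by
        rintro ⟨w, w'⟩ hw
        rw [mem_product] at hw
        exact hb w hw.1 w' hw.2)
    rw [AtomB_congr (Q := fun t : G => atom (χ true) e A' t ∈ W ∧ b t ∈ W')
      (fun t => Finset.mem_product), Finset.card_product] at h1
    push_cast at h1
    have h2 : (W.card : ℝ) / M ^ 2 * (W'.card / M ^ 2) * Fintype.card G =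
        (W.card : ℝ) * W'.card * (Fintype.card G * (1 / M) ^ 4) := by
      field_simp
    rw [h2]
    refine h1.trans ?_
    have h3 : (W.card : ℝ) * W'.card ≤ M ^ 4 := by
      calc (W.card : ℝ) * W'.card ≤ M ^ 2 * M ^ 2 := mul_le_mul hW hW' hW0' (by positivity)
        _ = M ^ 4 := by ring
    calc (W.card : ℝ) * W'.card * (η * Fintype.card G) ≤ M ^ 4 * (η * Fintype.card G) :=
          mul_le_mul_of_nonneg_right h3 hηq
      _ = M ^ 4 * η * Fintype.card G := by ring
  refine ⟨?_, ?_, ?_⟩
  · rw [AtomB_cnt_eq (fun t => Iff.rfl)]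
    have h1 := AtomB_sum (atom (χ true) e A') W (Fintype.card G * (1 / M) ^ 2)
      (η * Fintype.card G) (by
        intro w _
        have hs := AtomB_shift he (w.1 ∈ A')
        have h2 := AtomB_pat h (n := 2) (by norm_num)
          ![(true, true, 0), (true, true, if w.1 ∈ A' then -e else e)]
          (by
            intro a b hab
            fin_cases a <;> fin_cases b
            · rfl
            · exact absurd (congrArg (fun z : Bool × Bool × G => z.2.2) hab).symm hs
            · exact absurd (congrArg (fun z : Bool × Bool × G => z.2.2) hab) hs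
            · rfl) ![w.1, w.2]
        rw [AtomB_congr (Q := fun t : G => atom (χ true) e A' t = w) (fun t => by
          rw [AtomB_iff, Fin.forall_fin_two]
          show (χ true (0 + t) = w.1 ∧ χ true ((if w.1 ∈ A' then -e else e) + t) = w.2) ↔ _
          rw [zero_add, add_comm t])] at h2
        exact h2)
    have h2 : (W.card : ℝ) / M ^ 2 * Fintype.card G =
        (W.card : ℝ) * (Fintype.card G * (1 / M) ^ 2) := by
      field_simp
    rw [h2]
    refine h1.trans ?_
    have h3 : (W.card : ℝ) ≤ M ^ 4 := by
      refine hW.trans ?_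
      exact pow_le_pow_right₀ hM (by norm_num)
    calc (W.card : ℝ) * (η * Fintype.card G) ≤ M ^ 4 * (η * Fintype.card G) :=
          mul_le_mul_of_nonneg_right h3 hηq
      _ = M ^ 4 * η * Fintype.card G := by ring
  · intro z
    rw [AtomB_cnt_eq (fun t => Iff.rfl)]
    apply hpair
    intro w _ w' _
    have hs := AtomB_shift he (w.1 ∈ A')
    have hs' := AtomB_shift he (w'.1 ∈ B')
    have h2 := AtomB_pat h (n := 4) (by norm_num)
      ![(true, true, 0), (true, true, if w.1 ∈ A' then -e else e), (false, true, z),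
        (false, true, z + if w'.1 ∈ B' then -e else e)]
      (by
        intro a b hab
        fin_cases a <;> fin_cases b
        · rfl
        · exact absurd (congrArg (fun z : Bool × Bool × G => z.2.2) hab).symm hs
        · exact absurd (congrArg (fun z : Bool × Bool × G => z.1) hab) AtomB_tf
        · exact absurd (congrArg (fun z : Bool × Bool × G => z.1) hab) AtomB_tf
        · exact absurd (congrArg (fun z : Bool × Bool × G => z.2.2) hab) hs
        · rfl
        · exact absurd (congrArg (fun z : Bool × Bool × G => z.1) hab) AtomB_tf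
        · exact absurd (congrArg (fun z : Bool × Bool × G => z.1) hab) AtomB_tf
        · exact absurd (congrArg (fun z : Bool × Bool × G => z.1) hab) AtomB_ft
        · exact absurd (congrArg (fun z : Bool × Bool × G => z.1) hab) AtomB_ft
        · rfl
        · exact absurd (left_eq_add.mp (congrArg (fun z : Bool × Bool × G => z.2.2) hab)) hs'
        · exact absurd (congrArg (fun z : Bool × Bool × G => z.1) hab) AtomB_ft
        · exact absurd (congrArg (fun z : Bool × Bool × G => z.1) hab) AtomB_ft
        · exact absurd (add_eq_left.mp (congrArg (fun z : Bool × Bool × G => z.2.2) hab)) hs'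
        · rfl) ![w.1, w.2, w'.1, w'.2]
    rw [AtomB_congr (Q := fun t : G => (atom (χ true) e A' t, atom (χ false) e B' (t + z)) = (w, w'))
      (fun t => by
        rw [Prod.mk.injEq, AtomB_iff, AtomB_iff]
        have h3 : ∀ p : Fin 4 → Prop, (∀ x, p x) ↔ ((p 0 ∧ p 1) ∧ p 2 ∧ p 3) := by
          intro p
          constructor
          · exact fun h => ⟨⟨h 0, h 1⟩, h 2, h 3⟩
          · rintro ⟨⟨h0, h1⟩, h2, h3⟩ x
            fin_cases x
            · exact h0
            · exact h1
            · exact h2
            · exact h3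
        rw [h3]
        show ((χ true (0 + t) = w.1 ∧ χ true ((if w.1 ∈ A' then -e else e) + t) = w.2) ∧
          χ false (z + t) = w'.1 ∧ χ false ((z + if w'.1 ∈ B' then -e else e) + t) = w'.2) ↔ _
        rw [zero_add, add_comm t, add_comm t z, add_right_comm])] at h2
    exact h2
  · intro z
    rw [AtomB_cnt_eq (fun t => Iff.rfl)]
    apply hpair
    intro w _ w' _
    have hs := AtomB_shift he (w.1 ∈ A')
    have hs' := AtomB_shift he (w'.1 ∈ A')
    have h2 := AtomB_pat h (n := 4) (by norm_num)
      ![(true, true, 0), (true, true, if w.1 ∈ A' then -e else e), (true, false, z),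
        (true, false, z + if w'.1 ∈ A' then -e else e)]
      (by
        intro a b hab
        fin_cases a <;> fin_cases b
        · rfl
        · exact absurd (congrArg (fun z : Bool × Bool × G => z.2.2) hab).symm hs
        · exact absurd (congrArg (fun z : Bool × Bool × G => z.2.1) hab) AtomB_tf
        · exact absurd (congrArg (fun z : Bool × Bool × G => z.2.1) hab) AtomB_tf
        · exact absurd (congrArg (fun z : Bool × Bool × G => z.2.2) hab) hs
        · rfl
        · exact absurd (congrArg (fun z : Bool × Bool × G => z.2.1) hab) AtomB_tf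
        · exact absurd (congrArg (fun z : Bool × Bool × G => z.2.1) hab) AtomB_tf
        · exact absurd (congrArg (fun z : Bool × Bool × G => z.2.1) hab) AtomB_ft
        · exact absurd (congrArg (fun z : Bool × Bool × G => z.2.1) hab) AtomB_ft
        · rfl
        · exact absurd (left_eq_add.mp (congrArg (fun z : Bool × Bool × G => z.2.2) hab)) hs'
        · exact absurd (congrArg (fun z : Bool × Bool × G => z.2.1) hab) AtomB_ft
        · exact absurd (congrArg (fun z : Bool × Bool × G => z.2.1) hab) AtomB_ft
        · exact absurd (add_eq_left.mp (congrArg (fun z : Bool × Bool × G => z.2.2) hab)) hs'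
        · rfl) ![w.1, w.2, w'.1, w'.2]
    rw [AtomB_congr (Q := fun t : G => (atom (χ true) e A' t, atom (χ true) e A' (z - t)) = (w, w'))
      (fun t => by
        rw [Prod.mk.injEq, AtomB_iff, AtomB_iff]
        have h3 : ∀ p : Fin 4 → Prop, (∀ x, p x) ↔ ((p 0 ∧ p 1) ∧ p 2 ∧ p 3) := by
          intro p
          constructor
          · exact fun h => ⟨⟨h 0, h 1⟩, h 2, h 3⟩
          · rintro ⟨⟨h0, h1⟩, h2, h3⟩ x
            fin_cases x
            · exact h0
            · exact h1
            · exact h2
            · exact h3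
        rw [h3]
        show ((χ true (0 + t) = w.1 ∧ χ true ((if w.1 ∈ A' then -e else e) + t) = w.2) ∧
          χ true (z - t) = w'.1 ∧ χ true ((z + if w'.1 ∈ A' then -e else e) - t) = w'.2) ↔ _
        rw [zero_add, add_comm t, add_sub_right_comm])] at h2
    exact h2

end Pool.Agent.H60.HM
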