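import Pool.Agent.H60.HL.TrB

/-!
# HM-09 CodeB: counting the copies of a small tree with prescribed sets and offsets

Adapt the finished files `Pool/Agent/H60/HL/TrB1.lean` and `Pool/Agent/H60/HL/TrB.lean` (colours are
replaced by sets `A j`, `B j` of density `α`, the sums have offsets `o j`, a root condition `0 < j`).

`code_codeg2`: as `code_codeg`, a translation of the prescribed values by the offsets.
`code_count2`: `D = (α² q)^(k-1)`.  Induction on `k ≥ 1` with the error factors `(1 ± δ)^(k-1)`, `δ = η / κ²`: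
for all `z`, `j`, `j'`, by the hypotheses and `α ≥ κ`:
(a), (b) `#{t ∈ A j : t + z ∈ B j'} = α² q (1 ± δ)`; (c) `#{t ∈ A j : z - t ∈ A j'} = α² q (1 ± δ)`.
`k = 1`: exactly one `x` with `x 0 = z` for each `z ∈ A 0`.  Step `k → k + 1`, the last vertex is `l = k`,
`i = P l < l`, `x = (x', s)` (`Fin.snoc`):
* `x j = z`, `j < l`: for each `x'` with `x' j = z` the number of the `s ∈ A l` with `s + x' i + o l ∈ B l` is
`α² q (1 ± δ)` by (a).
* `x l = z`: sum over the `t ∈ A i` with `t + z + o l ∈ B l` (`α² q (1 ± δ)` values) of the number of the `x'` with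
`x' i = t` (induction hypothesis).
* `x j + x (P j) + o j = z`, `j < l`: as the first case.
* `x l + x i + o l = z`, `z ∈ B l`: sum over the `t ∈ A i` with `z - o l - t ∈ A l` (by (c)) of the number of the
`x'` with `x' i = t`.
Finally `(1 + δ)^K ≤ 1 + ε`, `(1 - δ)^K ≥ 1 - ε` for small `δ`.
-/

namespace Pool.Agent.H60.HM

open Finset Classical Pool.Agent.H60.HL

/-- The copies of a small tree with prescribed sets. -/
noncomputable def Cpy2 {G : Type} [AddCommGroup G] [Fintype G] {k : ℕ} (P : Fin k → Fin k)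
    (o : Fin k → G) (A B : Fin k → Finset G) : Finset (Fin k → G) :=
  univ.filter fun x => (∀ j, x j ∈ A j) ∧
    ∀ j : Fin k, 0 < (j : ℕ) → x j + x (P j) + o j ∈ B j

/-- The sets behave like random sets of density `α`. -/
def QS {G : Type} [AddCommGroup G] [Fintype G] {k : ℕ} (A B : Fin k → Finset G) (α η : ℝ) :
    Prop :=
  (∀ j, |((A j).card : ℝ) - α * Fintype.card G| ≤ η * Fintype.card G) ∧
  (∀ (j j' : Fin k) (z : G), 0 < (j' : ℕ) →
    |(((A j).filter fun t => t + z ∈ B j').card : ℝ) - α ^ 2 * Fintype.card G| ≤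
      η * Fintype.card G) ∧
  (∀ (j j' : Fin k) (z : G), |(((A j).filter fun t => z - t ∈ A j').card : ℝ) -
    α ^ 2 * Fintype.card G| ≤ η * Fintype.card G)

theorem code_codeg2 {G : Type} [AddCommGroup G] [Fintype G] (k : ℕ) (hk : 2 ≤ k)
    (P : Fin k → Fin k) (hP : ∀ j : Fin k, 0 < (j : ℕ) → P j < j) (o : Fin k → G) :
    (∀ i j : Fin k, i ≠ j → ∀ v w : G,
      (univ.filter fun x : Fin k → G => x i = v ∧ x j = w).card ≤ Fintype.card G ^ (k - 2)) ∧
    (∀ i j : Fin k, 0 < (j : ℕ) → ∀ v w : G,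
      (univ.filter fun x : Fin k → G => x i = v ∧ x j + x (P j) + o j = w).card ≤
        Fintype.card G ^ (k - 2)) ∧
    (∀ i j : Fin k, i ≠ j → 0 < (i : ℕ) → 0 < (j : ℕ) → ∀ v w : G,
      (univ.filter fun x : Fin k → G => x i + x (P i) + o i = v ∧
        x j + x (P j) + o j = w).card ≤ Fintype.card G ^ (k - 2)) := by
  obtain ⟨h1, h2, h3⟩ := code_codeg (G := G) k hk P hP
  refine ⟨h1, ?_, ?_⟩
  · intro i j hj v w
    refine (Finset.card_le_card fun x hx => ?_).trans (h2 i j hj v (w - o j))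
    rw [Finset.mem_filter] at hx ⊢
    exact ⟨Finset.mem_univ _, hx.2.1, eq_sub_of_add_eq hx.2.2⟩
  · intro i j hij hi hj v w
    refine (Finset.card_le_card fun x hx => ?_).trans (h3 i j hij hi hj (v - o i) (w - o j))
    rw [Finset.mem_filter] at hx ⊢
    exact ⟨Finset.mem_univ _, eq_sub_of_add_eq hx.2.1, eq_sub_of_add_eq hx.2.2⟩

/-- the copies on `n + 2` vertices in terms of the copies on the first `n + 1` vertices -/
private theorem CodeB_mem {G : Type} [AddCommGroup G] [Fintype G]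
    {n : ℕ} (P : Fin (n + 2) → Fin (n + 2)) (P' : Fin (n + 1) → Fin (n + 1))
    (hP' : ∀ j : Fin (n + 1), 0 < (j : ℕ) → (P' j).castSucc = P j.castSucc)
    (i : Fin (n + 1)) (hi : i.castSucc = P (Fin.last (n + 1))) (o : Fin (n + 2) → G)
    (A B : Fin (n + 2) → Finset G) (x : Fin (n + 2) → G) :
    x ∈ Cpy2 P o A B ↔ Fin.init x ∈ Cpy2 P' (fun j => o j.castSucc) (fun j => A j.castSucc)
        (fun j => B j.castSucc) ∧
      x (Fin.last (n + 1)) ∈ A (Fin.last (n + 1)) ∧
      x (Fin.last (n + 1)) + Fin.init x i + o (Fin.last (n + 1)) ∈ B (Fin.last (n + 1)) := by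
  have hI : ∀ j : Fin (n + 1), (Fin.init x : Fin (n + 1) → G) j = x j.castSucc := fun j => rfl
  simp only [Cpy2, mem_filter, mem_univ, true_and]
  constructor
  · rintro ⟨h1, h2⟩
    refine ⟨⟨fun j => h1 _, fun j hj => ?_⟩, h1 _, ?_⟩
    · have := h2 j.castSucc (by simpa using hj)
      rw [hI, hI, hP' j hj]
      exact this
    · rw [hI, hi]
      exact h2 _ (by simp)
  · rintro ⟨⟨h1, h2⟩, h3, h4⟩
    refine ⟨fun j => ?_, fun j hj => ?_⟩
    · refine Fin.lastCases (motive := fun j => x j ∈ A j) h3 (fun k => ?_) j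
      exact h1 k
    · revert hj
      refine Fin.lastCases (motive := fun j : Fin (n + 2) => 0 < (j : ℕ) →
        x j + x (P j) + o j ∈ B j) (fun _ => ?_) (fun k hk => ?_) j
      · rw [← hi]
        exact h4
      · have h5 := h2 k (by simpa using hk)
        rw [hI, hI, hP' k (by simpa using hk)] at h5
        exact h5

/-- the number of copies with a property as a sum -/
private theorem CodeB_card {G : Type} [AddCommGroup G] [Fintype G]
    {n : ℕ} (P : Fin (n + 2) → Fin (n + 2)) (P' : Fin (n + 1) → Fin (n + 1))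
    (hP' : ∀ j : Fin (n + 1), 0 < (j : ℕ) → (P' j).castSucc = P j.castSucc)
    (i : Fin (n + 1)) (hi : i.castSucc = P (Fin.last (n + 1))) (o : Fin (n + 2) → G)
    (A B : Fin (n + 2) → Finset G) (Φ : (Fin (n + 1) → G) → G → Prop)
    (S : Finset (Fin (n + 2) → G))
    (hS : ∀ x, x ∈ S ↔ x ∈ Cpy2 P o A B ∧ Φ (Fin.init x) (x (Fin.last (n + 1))))
    (T : (Fin (n + 1) → G) → Finset G)
    (hT : ∀ y s, s ∈ T y ↔ (s ∈ A (Fin.last (n + 1)) ∧
          s + y i + o (Fin.last (n + 1)) ∈ B (Fin.last (n + 1))) ∧ Φ y s) :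
    S.card = ∑ y ∈ Cpy2 P' (fun j => o j.castSucc) (fun j => A j.castSucc)
      (fun j => B j.castSucc), (T y).card := by
  have hm := CodeB_mem P P' hP' i hi o A B
  rw [Finset.card_eq_sum_card_fiberwise (f := fun x : Fin (n + 2) → G => (Fin.init x : Fin (n + 1) → G))
    (t := Cpy2 P' (fun j => o j.castSucc) (fun j => A j.castSucc) (fun j => B j.castSucc))]
  · refine Finset.sum_congr rfl fun y hy => ?_
    refine Finset.card_nbij' (fun x => x (Fin.last (n + 1)))
      (fun s => (Fin.snoc y s : Fin (n + 2) → G)) ?_ ?_ ?_ ?_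
    · intro x hx
      obtain ⟨hx1, hx3⟩ := mem_filter.1 (Finset.mem_coe.1 hx)
      obtain ⟨hx1, hx2⟩ := (hS x).1 hx1
      have h3 := (hm x).1 hx1
      rw [hx3] at h3 hx2
      exact Finset.mem_coe.2 ((hT y _).2 ⟨h3.2, hx2⟩)
    · intro s hs
      obtain ⟨hs1, hs2⟩ := (hT y s).1 (Finset.mem_coe.1 hs)
      have e1 : (Fin.init (Fin.snoc y s : Fin (n + 2) → G) : Fin (n + 1) → G) = y :=
        Fin.init_snoc _ _
      have e2 : (Fin.snoc y s : Fin (n + 2) → G) (Fin.last (n + 1)) = s := Fin.snoc_last _ _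
      refine Finset.mem_coe.2 (mem_filter.2 ⟨(hS _).2 ⟨(hm _).2 ?_, ?_⟩, e1⟩)
      · dsimp only
        rw [e1, e2]
        exact ⟨hy, hs1⟩
      · dsimp only
        rw [e1, e2]
        exact hs2
    · intro x hx
      obtain ⟨hx1, hx3⟩ := mem_filter.1 (Finset.mem_coe.1 hx)
      simp only
      rw [← hx3]
      exact Fin.snoc_init_self _
    · intro s hs
      exact Fin.snoc_last _ _
  · intro x hx
    exact Finset.mem_coe.2 ((hm x).1 ((hS x).1 (Finset.mem_coe.1 hx)).1).1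

private theorem CodeB_sum {G : Type} [Fintype G] {k : ℕ}
    (S : Finset (Fin k → G)) (i : Fin k) (K : Finset G) (hS : ∀ x ∈ S, x i ∈ K)
    (C : G → Prop) (T : Finset G) (hT : ∀ t, t ∈ T ↔ t ∈ K ∧ C t) (f : (Fin k → G) → ℕ)
    (hf1 : ∀ x, C (x i) → f x = 1) (hf0 : ∀ x, ¬ C (x i) → f x = 0) :
    (∑ x ∈ S, f x) = ∑ t ∈ T, (S.filter fun x => x i = t).card := by
  have e0 : (∑ x ∈ S, f x) = (S.filter fun x => C (x i)).card := by
    rw [Finset.card_filter]
    refine Finset.sum_congr rfl fun x _ => ?_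
    by_cases hx : C (x i)
    · rw [hf1 x hx, if_pos hx]
    · rw [hf0 x hx, if_neg hx]
  rw [e0, Finset.card_eq_sum_card_fiberwise (f := fun x : Fin k → G => x i) (t := T)]
  · refine Finset.sum_congr rfl fun t ht => ?_
    congr 1
    ext x
    rw [mem_filter, mem_filter, mem_filter]
    constructor
    · rintro ⟨⟨h1, h2⟩, h3⟩
      exact ⟨h1, h3⟩
    · rintro ⟨h1, h3⟩
      exact ⟨⟨h1, by rw [h3]; exact ((hT t).1 ht).2⟩, h3⟩
  · intro x hx
    obtain ⟨h1, h2⟩ := mem_filter.1 (Finset.mem_coe.1 hx)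
    exact Finset.mem_coe.2 ((hT _).2 ⟨hS x h1, h2⟩)

private theorem CodeB_bd {ι : Type} (S : Finset ι) (f : ι → ℕ) (lo hi l h : ℝ) (hl : 0 ≤ l)
    (hh : 0 ≤ h) (hS : lo ≤ (S.card : ℝ) ∧ (S.card : ℝ) ≤ hi)
    (hf : ∀ x ∈ S, l ≤ (f x : ℝ) ∧ (f x : ℝ) ≤ h) :
    l * lo ≤ ((∑ x ∈ S, f x : ℕ) : ℝ) ∧ ((∑ x ∈ S, f x : ℕ) : ℝ) ≤ h * hi := by
  push_cast
  constructor
  · calc l * lo ≤ l * (S.card : ℝ) := mul_le_mul_of_nonneg_left hS.1 hl
      _ = ∑ x ∈ S, l := by rw [Finset.sum_const, nsmul_eq_mul, mul_comm]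
      _ ≤ ∑ x ∈ S, (f x : ℝ) := Finset.sum_le_sum fun x hx => (hf x hx).1
  · calc ∑ x ∈ S, (f x : ℝ) ≤ ∑ x ∈ S, h := Finset.sum_le_sum fun x hx => (hf x hx).2
      _ = h * (S.card : ℝ) := by rw [Finset.sum_const, nsmul_eq_mul, mul_comm]
      _ ≤ h * hi := mul_le_mul_of_nonneg_left hS.2 hh

/-- the cardinality lies between the bounds -/
private def CodeB_in {X : Type} (lo hi : ℝ) (S : Finset X) : Prop :=
  lo ≤ (S.card : ℝ) ∧ (S.card : ℝ) ≤ hi

private theorem CodeB_core {G : Type} [AddCommGroup G] [Fintype G] (CA CB : Finset G → Prop)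
    (lo up : ℝ) (hlo : 0 ≤ lo) (hhi : 0 ≤ up)
    (h1 : ∀ (z : G) (K0 K1 : Finset G), CA K0 → CB K1 → ∀ S : Finset G,
      (∀ t, t ∈ S ↔ t ∈ K0 ∧ t + z ∈ K1) → CodeB_in lo up S)
    (h2 : ∀ (z : G) (K0 K1 : Finset G), CA K0 → CA K1 → ∀ S : Finset G,
      (∀ t, t ∈ S ↔ t ∈ K0 ∧ z - t ∈ K1) → CodeB_in lo up S) :
    ∀ n : ℕ, ∀ (P : Fin (n + 1) → Fin (n + 1)), (∀ j : Fin (n + 1), 0 < (j : ℕ) → P j < j) →
      ∀ (o : Fin (n + 1) → G) (A B : Fin (n + 1) → Finset G), (∀ j, CA (A j)) →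
      (∀ j : Fin (n + 1), 0 < (j : ℕ) → CB (B j)) →
      (∀ j z, z ∈ A j → ∀ S : Finset (Fin (n + 1) → G),
        (∀ x, x ∈ S ↔ x ∈ Cpy2 P o A B ∧ x j = z) → CodeB_in (lo ^ n) (up ^ n) S) ∧
      (∀ j : Fin (n + 1), 0 < (j : ℕ) → ∀ z, z ∈ B j → ∀ S : Finset (Fin (n + 1) → G),
        (∀ x, x ∈ S ↔ x ∈ Cpy2 P o A B ∧ x j + x (P j) + o j = z) →
        CodeB_in (lo ^ n) (up ^ n) S) := by
  intro n
  induction n with
  | zero =>
    intro P hP o A B hA hB
    refine ⟨fun j z hz S hS => ?_, fun j hj => ?_⟩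
    · have e1 : S = {fun _ => z} := by
        ext x
        rw [hS, mem_singleton]
        simp only [Cpy2, mem_filter, mem_univ, true_and]
        constructor
        · rintro ⟨_, h⟩
          funext i
          rw [show i = j from Fin.ext (by omega), h]
        · rintro rfl
          refine ⟨⟨fun i => by rw [show i = j from Fin.ext (by omega)]; exact hz,
            fun i hi => ?_⟩, rfl⟩
          exact absurd hi (by omega)
      rw [e1]
      simp [CodeB_in]
    · exact absurd hj (by omega)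
  | succ n ih =>
    intro P hP o A B hA hB
    -- the parent function on the first vertices
    obtain ⟨P', hP'⟩ : ∃ P' : Fin (n + 1) → Fin (n + 1),
        ∀ j : Fin (n + 1), 0 < (j : ℕ) → (P' j).castSucc = P j.castSucc := by
      refine ⟨fun j => if h : (P j.castSucc : ℕ) < n + 1 then ⟨P j.castSucc, h⟩ else 0,
        fun j hj => ?_⟩
      have h3 : P j.castSucc < j.castSucc := hP _ (by simpa using hj)
      have h4 : (P j.castSucc : ℕ) < n + 1 := by
        have h5 : (P j.castSucc : ℕ) < (j : ℕ) := h3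
        omega
      dsimp only
      rw [dif_pos h4]
      exact Fin.ext rfl
    have hP'lt : ∀ j : Fin (n + 1), 0 < (j : ℕ) → P' j < j := by
      intro j hj
      have h3 : P j.castSucc < j.castSucc := hP _ (by simpa using hj)
      rw [← hP' j hj] at h3
      exact h3
    obtain ⟨i, hil⟩ : ∃ i : Fin (n + 1), i.castSucc = P (Fin.last (n + 1)) := by
      have h3 : P (Fin.last (n + 1)) < Fin.last (n + 1) := hP _ (by simp)
      have h4 : (P (Fin.last (n + 1)) : ℕ) < n + 1 := h3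
      exact ⟨⟨P (Fin.last (n + 1)), h4⟩, Fin.ext rfl⟩
    obtain ⟨IH1, IH2⟩ := ih P' hP'lt (fun j => o j.castSucc) (fun j => A j.castSucc)
      (fun j => B j.castSucc) (fun j => hA _) (fun j hj => hB _ (by simpa using hj))
    have hBl : CB (B (Fin.last (n + 1))) := hB _ (by simp)
    have hcard := CodeB_card P P' hP' i hil o A B
    -- first type: the property only depends on the first vertices
    have key1 : ∀ Φ : (Fin (n + 1) → G) → Prop,
        (∀ S' : Finset (Fin (n + 1) → G), (∀ y, y ∈ S' ↔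
          y ∈ Cpy2 P' (fun j => o j.castSucc) (fun j => A j.castSucc)
            (fun j => B j.castSucc) ∧ Φ y) →
          CodeB_in (lo ^ n) (up ^ n) S') →
        ∀ S : Finset (Fin (n + 2) → G), (∀ x, x ∈ S ↔ x ∈ Cpy2 P o A B ∧ Φ (Fin.init x)) →
        CodeB_in (lo ^ (n + 1)) (up ^ (n + 1)) S := by
      intro Φ hΦ S hS
      have e1 := hcard (fun y _ => Φ y) S hS (fun y => univ.filter fun s : G =>
        (s ∈ A (Fin.last (n + 1)) ∧
          s + y i + o (Fin.last (n + 1)) ∈ B (Fin.last (n + 1))) ∧ Φ y)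
        (fun y s => by rw [mem_filter]; exact ⟨fun h => h.2, fun h => ⟨mem_univ _, h⟩⟩)
      have e2 : (∑ y ∈ Cpy2 P' (fun j => o j.castSucc) (fun j => A j.castSucc)
          (fun j => B j.castSucc),
          (univ.filter fun s : G => (s ∈ A (Fin.last (n + 1)) ∧
            s + y i + o (Fin.last (n + 1)) ∈ B (Fin.last (n + 1))) ∧ Φ y).card) =
          ∑ y ∈ (Cpy2 P' (fun j => o j.castSucc) (fun j => A j.castSucc)
            (fun j => B j.castSucc)).filter Φ,
            (univ.filter fun s : G => s ∈ A (Fin.last (n + 1)) ∧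
              s + y i + o (Fin.last (n + 1)) ∈ B (Fin.last (n + 1))).card := by
        rw [Finset.sum_filter]
        refine Finset.sum_congr rfl fun y _ => ?_
        by_cases hy : Φ y
        · rw [if_pos hy]
          congr 1
          ext s
          rw [mem_filter, mem_filter]
          exact ⟨fun h => ⟨h.1, h.2.1⟩, fun h => ⟨h.1, h.2, hy⟩⟩
        · rw [if_neg hy, Finset.card_eq_zero, Finset.filter_eq_empty_iff]
          exact fun s _ h => hy h.2
      rw [e2] at e1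
      unfold CodeB_in
      rw [e1, pow_succ', pow_succ']
      refine CodeB_bd _ _ _ _ _ _ hlo hhi (hΦ _ fun y => mem_filter) (fun y _ => ?_)
      exact h1 (y i + o (Fin.last (n + 1))) _ _ (hA _) hBl _
        (fun t => by
          rw [mem_filter, add_assoc]
          exact ⟨fun h => h.2, fun h => ⟨mem_univ _, h⟩⟩)
    -- second type: the last vertex is determined by the first ones
    have key2 : ∀ (Φ : (Fin (n + 1) → G) → G → Prop) (C : G → Prop)
        (e : (Fin (n + 1) → G) → G),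
        (∀ (y : Fin (n + 1) → G) (s : G), ((s ∈ A (Fin.last (n + 1)) ∧
            s + y i + o (Fin.last (n + 1)) ∈ B (Fin.last (n + 1))) ∧ Φ y s) ↔
              (C (y i) ∧ s = e y)) →
        (∀ T : Finset G, (∀ t, t ∈ T ↔ t ∈ A i.castSucc ∧ C t) → CodeB_in lo up T) →
        ∀ S : Finset (Fin (n + 2) → G), (∀ x, x ∈ S ↔ x ∈ Cpy2 P o A B ∧
          Φ (Fin.init x) (x (Fin.last (n + 1)))) →
        CodeB_in (lo ^ (n + 1)) (up ^ (n + 1)) S := by
      intro Φ C e hΦ hC S hS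
      have e1 := hcard Φ S hS (fun y => univ.filter fun s : G =>
        (s ∈ A (Fin.last (n + 1)) ∧
          s + y i + o (Fin.last (n + 1)) ∈ B (Fin.last (n + 1))) ∧ Φ y s)
        (fun y s => by rw [mem_filter]; exact ⟨fun h => h.2, fun h => ⟨mem_univ _, h⟩⟩)
      have e2 := CodeB_sum (Cpy2 P' (fun j => o j.castSucc) (fun j => A j.castSucc)
        (fun j => B j.castSucc)) i
        (A i.castSucc) (fun x hx => by
          simp only [Cpy2, mem_filter, mem_univ, true_and] at hx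
          exact hx.1 i) C (univ.filter fun t : G => t ∈ A i.castSucc ∧ C t)
        (fun t => by rw [mem_filter]; exact ⟨fun h => h.2, fun h => ⟨mem_univ _, h⟩⟩)
        (fun y => (univ.filter fun s : G =>
        (s ∈ A (Fin.last (n + 1)) ∧
          s + y i + o (Fin.last (n + 1)) ∈ B (Fin.last (n + 1))) ∧
          Φ y s).card)
        (fun y hy => by
          rw [Finset.card_eq_one]
          refine ⟨e y, ?_⟩
          ext s
          rw [mem_filter, mem_singleton, hΦ]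
          exact ⟨fun h => h.2.2, fun h => ⟨mem_univ _, hy, h⟩⟩)
        (fun y hy => by
          rw [Finset.card_eq_zero, Finset.filter_eq_empty_iff]
          exact fun s _ h => hy ((hΦ y s).1 h).1)
      rw [e2] at e1
      unfold CodeB_in
      rw [e1, pow_succ, pow_succ]
      refine CodeB_bd _ _ _ _ _ _ (pow_nonneg hlo n) (pow_nonneg hhi n)
        (hC _ (fun t => by rw [mem_filter]; exact ⟨fun h => h.2, fun h => ⟨mem_univ _, h⟩⟩))
        (fun t ht => ?_)
      exact IH1 i t (mem_filter.1 ht).2.1 _ (fun x => mem_filter)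
    refine ⟨fun j z hz S hS => ?_, fun j hj z hz S hS => ?_⟩
    · rcases Fin.eq_castSucc_or_eq_last j with ⟨k, rfl⟩ | rfl
      · exact key1 (fun y => y k = z) (IH1 k z hz) S hS
      · refine key2 (fun _ s => s = z)
          (fun t => t + (z + o (Fin.last (n + 1))) ∈ B (Fin.last (n + 1)))
          (fun _ => z) (fun y s => ?_) (h1 (z + o (Fin.last (n + 1))) _ _ (hA _) hBl) S hS
        have e3 : z + y i + o (Fin.last (n + 1)) = y i + (z + o (Fin.last (n + 1))) := by abel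
        constructor
        · rintro ⟨⟨_, h⟩, h3⟩
          rw [h3, e3] at h
          exact ⟨h, h3⟩
        · rintro ⟨h, h3⟩
          rw [h3, e3]
          exact ⟨⟨hz, h⟩, rfl⟩
    · rcases Fin.eq_castSucc_or_eq_last j with ⟨k, rfl⟩ | rfl
      · have hk' : 0 < (k : ℕ) := hj
        rw [← hP' k hk'] at hS
        exact key1 (fun y => y k + y (P' k) + o k.castSucc = z) (IH2 k hk' z hz) S hS
      · rw [← hil] at hS
        refine key2 (fun y s => s + y i + o (Fin.last (n + 1)) = z)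
          (fun t => z - o (Fin.last (n + 1)) - t ∈ A (Fin.last (n + 1)))
          (fun y => z - o (Fin.last (n + 1)) - y i) (fun y s => ?_)
          (h2 (z - o (Fin.last (n + 1))) _ _ (hA _) (hA _)) S hS
        constructor
        · rintro ⟨⟨h, _⟩, h3⟩
          have e4 : s = z - o (Fin.last (n + 1)) - y i := by
            rw [← h3]
            abel
          rw [e4] at h
          exact ⟨h, e4⟩
        · rintro ⟨h, rfl⟩
          have e4 : z - o (Fin.last (n + 1)) - y i + y i + o (Fin.last (n + 1)) = z := by abel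
          exact ⟨⟨h, by rw [e4]; exact hz⟩, e4⟩

theorem code_count2 (K : ℕ) (κ ε : ℝ) (hκ : 0 < κ) (hε : 0 < ε) :
    ∃ η : ℝ, 0 < η ∧ ∀ (G : Type) [AddCommGroup G] [Fintype G] (k : ℕ), 1 ≤ k → k ≤ K →
      ∀ (P : Fin k → Fin k), (∀ j : Fin k, 0 < (j : ℕ) → P j < j) → ∀ (o : Fin k → G)
      (A B : Fin k → Finset G) (α : ℝ), κ ≤ α → α ≤ 1 → QS A B α η →
      (∀ j, ∀ z ∈ A j,
        |(((Cpy2 P o A B).filter fun x => x j = z).card : ℝ) -
          (α ^ 2 * Fintype.card G) ^ (k - 1)| ≤ ε * (α ^ 2 * Fintype.card G) ^ (k - 1)) ∧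
      (∀ j : Fin k, 0 < (j : ℕ) → ∀ z ∈ B j,
        |(((Cpy2 P o A B).filter fun x => x j + x (P j) + o j = z).card : ℝ) -
          (α ^ 2 * Fintype.card G) ^ (k - 1)| ≤ ε * (α ^ 2 * Fintype.card G) ^ (k - 1)) := by
  obtain ⟨δ, hδ0, hδ1, hδ2⟩ : ∃ δ : ℝ, 0 < δ ∧ (K : ℝ) * δ ≤ 1 ∧ 2 * ((K : ℝ) * δ) ≤ ε ∧ δ ≤ 1 := by
    have hK : (0 : ℝ) < (K : ℝ) + 1 := by positivity
    have hm : 0 < min 1 (ε / 2) := lt_min one_pos (half_pos hε)
    refine ⟨min 1 (ε / 2) / ((K : ℝ) + 1), div_pos hm hK, ?_, ?_, ?_⟩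
    · have : (K : ℝ) * (min 1 (ε / 2) / ((K : ℝ) + 1)) ≤ min 1 (ε / 2) := by
        rw [← mul_div_assoc, div_le_iff₀ hK]
        nlinarith
      exact this.trans (min_le_left _ _)
    · have : (K : ℝ) * (min 1 (ε / 2) / ((K : ℝ) + 1)) ≤ min 1 (ε / 2) := by
        rw [← mul_div_assoc, div_le_iff₀ hK]
        nlinarith
      have h2 := this.trans (min_le_right _ _)
      linarith
    · rw [div_le_one hK]
      have := min_le_left 1 (ε / 2)
      have hK0 : (0 : ℝ) ≤ (K : ℝ) := Nat.cast_nonneg _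
      linarith
  obtain ⟨hδ2, hδ3⟩ := hδ2
  refine ⟨δ * κ ^ 2, by positivity, ?_⟩
  intro G _ _ k hk1 hkK P hP o A B α hα hα1 hQ
  have hqR : (0 : ℝ) ≤ Fintype.card G := Nat.cast_nonneg _
  set D : ℝ := α ^ 2 * Fintype.card G with hD
  have hD0 : 0 ≤ D := by positivity
  have hη : δ * κ ^ 2 * Fintype.card G ≤ δ * D := by
    rw [hD, mul_assoc]
    have h3 : κ ^ 2 ≤ α ^ 2 := pow_le_pow_left₀ hκ.le hα 2
    exact mul_le_mul_of_nonneg_left (mul_le_mul_of_nonneg_right h3 hqR) hδ0.le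
  have hc1 : ∀ (z : G) (K0 K1 : Finset G), (∃ j, K0 = A j) →
      (∃ j : Fin k, 0 < (j : ℕ) ∧ K1 = B j) → ∀ S : Finset G,
      (∀ t, t ∈ S ↔ t ∈ K0 ∧ t + z ∈ K1) →
      CodeB_in ((1 - δ) * D) ((1 + δ) * D) S := by
    rintro z K0 K1 ⟨j, rfl⟩ ⟨j', hj', rfl⟩ S hS
    have h2 := hQ.2.1 j j' z hj'
    have e1 : ((A j).filter fun t => t + z ∈ B j') = S := by
      ext t
      rw [hS, mem_filter]
    rw [e1] at h2
    have h4 := abs_le.1 (h2.trans hη)
    constructor <;> linarith [h4.1, h4.2]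
  have hc2 : ∀ (z : G) (K0 K1 : Finset G), (∃ j, K0 = A j) → (∃ j, K1 = A j) →
      ∀ S : Finset G,
      (∀ t, t ∈ S ↔ t ∈ K0 ∧ z - t ∈ K1) →
      CodeB_in ((1 - δ) * D) ((1 + δ) * D) S := by
    rintro z K0 K1 ⟨j, rfl⟩ ⟨j', rfl⟩ S hS
    have h2 := hQ.2.2 j j' z
    have e1 : ((A j).filter fun t => z - t ∈ A j') = S := by
      ext t
      rw [hS, mem_filter]
    rw [e1] at h2
    have h4 := abs_le.1 (h2.trans hη)
    constructor <;> linarith [h4.1, h4.2]
  have hcore := CodeB_core (fun K0 => ∃ j, K0 = A j) (fun K1 => ∃ j : Fin k, 0 < (j : ℕ) ∧ K1 = B j)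
    ((1 - δ) * D) ((1 + δ) * D)
    (mul_nonneg (by linarith) hD0) (mul_nonneg (by linarith) hD0) hc1 hc2
  obtain ⟨n, rfl⟩ : ∃ n, k = n + 1 := ⟨k - 1, by omega⟩
  have hfin : ∀ N : ℝ, ((1 - δ) * D) ^ n ≤ N ∧ N ≤ ((1 + δ) * D) ^ n →
      |N - D ^ (n + 1 - 1)| ≤ ε * D ^ (n + 1 - 1) := by
    rintro N ⟨hN1, hN2⟩
    rw [Nat.add_sub_cancel]
    have hDn : 0 ≤ D ^ n := pow_nonneg hD0 n
    have hnK : n ≤ K := by omega
    have hu : (1 + δ) ^ n ≤ 1 + ε := by
      have h5 : (1 + δ) ^ n ≤ (1 + δ) ^ K := pow_le_pow_right₀ (by linarith) hnK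
      have h6 : (1 + δ) ^ K ≤ Real.exp ((K : ℝ) * δ) := by
        rw [Real.exp_nat_mul]
        exact pow_le_pow_left₀ (by linarith) (by linarith [Real.add_one_le_exp δ]) K
      have hKδ : 0 ≤ (K : ℝ) * δ := by positivity
      have h7 := Real.abs_exp_sub_one_le (x := (K : ℝ) * δ) (by rw [abs_of_nonneg hKδ]; exact hδ1)
      rw [abs_of_nonneg hKδ] at h7
      have h8 := (abs_le.1 h7).2
      linarith
    have hl : 1 - ε ≤ (1 - δ) ^ n := by
      have h5 : (1 - δ) ^ K ≤ (1 - δ) ^ n :=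
        pow_le_pow_of_le_one (by linarith) (by linarith) hnK
      have h6 : 1 + (K : ℝ) * (-δ) ≤ (1 + (-δ)) ^ K :=
        one_add_mul_le_pow (by linarith) K
      have h7 : (1 + (-δ)) = 1 - δ := by ring
      rw [h7] at h6
      have hKδ : 0 ≤ (K : ℝ) * δ := by positivity
      linarith
    rw [mul_pow] at hN1 hN2
    rw [abs_le]
    constructor
    · have := mul_le_mul_of_nonneg_right hl hDn
      linarith
    · have := mul_le_mul_of_nonneg_right hu hDn
      linarith
  obtain ⟨hX, hY⟩ := hcore n P hP o A B (fun j => ⟨j, rfl⟩) (fun j hj => ⟨j, hj, rfl⟩)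
  exact ⟨fun j z hz => hfin _ (hX j z hz _ fun x => mem_filter),
    fun j hj z hz => hfin _ (hY j hj z hz _ fun x => mem_filter)⟩

end Pool.Agent.H60.HM
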