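import Pool.Agent.H60.HM.Multi

/-!
# HM-03 ConA: one connector

A connector is a path `v 0, ..., v 11` with prescribed ends; its `11` sums are, in this order,
`s0, s1, s0 + e, s2, s3, s1 + e, s3 + e, w0, w1, w2, s2 + e` (see `cd`, `fs`).  The free parameters are
`t0 = s0`, `t1 = s2`, `t2 = s3`, and `s1 = s0 + s3 + c` with `c + c = e + e - v0 - v11 - w0 + w1 - w2`.
The labels are
`v1 = s0 - v0`, `v2 = s3 + c + v0`, `v3 = s0 - s3 + e - c - v0`, `v4 = -s0 + s2 + s3 - e + c + v0`,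
`v5 = s0 - s2 + e - c - v0`, `v6 = s2 + s3 + 2 c + v0`, `v7 = -s2 + e - 2 c - v0`,
`v8 = s2 - e + 2 c + v0 + w0`, `v9 = -s2 + e - 2 c - v0 - w0 + w1`,
`v10 = s2 - e + 2 c + v0 + w0 - w1 + w2`, and then `v11 = s2 + e - v10` is the prescribed value.
`conn_eq` is this computation.
`conn_one`: `multi` with `d = 3`, `m = 18`: ten conditions `χ true (v r) ∈ A1` (`1 ≤ r ≤ 10`) and eight
conditions `χ false (s j) ∈ A2`, `χ false (s j + e) ∈ A2'`.  The vectors (coefficients of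
`t0 = s0, t1 = s2, t2 = s3`): `v1 (1,0,0)`, `v2 (0,0,1)`, `v3 (1,0,-1)`, `v4 (-1,1,1)`, `v5 (1,-1,0)`,
`v6 (0,1,1)`, `v7 (0,-1,0)`, `v8 (0,1,0)`, `v9 (0,-1,0)`, `v10 (0,1,0)`; `s0 (1,0,0)`, `s1 (1,0,1)`,
`s2 (0,1,0)`, `s3 (0,0,1)`.  Equal vectors in the same space: `v7, v9` with constants which differ by
`w1 - w0 ≠ 0`; `v8, v10` with constants which differ by `w2 - w1 ≠ 0`; `s j, s j + e`, `e ≠ 0`.
So at least `(α^18 - 3 η) q^3 - C q^2` triples `t` satisfy the conditions.  Exclude: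
`v r ∈ FL` (`lin_mem`, at most `f q^3` for each of the ten `r`), `s j ∈ FS` (at most `f q^3` each, four
times), `v r = v r'` for `r ≠ r'` and `s j = s j'` for `j ≠ j'`: if the vectors differ at most `2 q^2` (`lin_count`,
the difference of two different vectors in the list has a coefficient `±1` or `±2`), if they are equal
the constants differ.  With `η = α^18 / 12`, `f = α^18 / 100` and `q` large a triple is left.
-/

namespace Pool.Agent.H60.HM

open Finset Classical Pool.Agent.H60.HL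

/-- The labels of a connector as functions of the parameters. -/
def cv {G : Type} [AddCommGroup G] (e v0 v11 c : G) (w : Fin 3 → G) (t : Fin 3 → G) :
    Fin 12 → G :=
  ![v0, t 0 - v0, t 2 + c + v0, t 0 - t 2 + e - c - v0, t 1 + t 2 - t 0 - e + c + v0,
    t 0 - t 1 + e - c - v0, t 1 + t 2 + (c + c) + v0, e - (c + c) - v0 - t 1,
    t 1 - e + (c + c) + v0 + w 0, e - (c + c) - v0 - w 0 + w 1 - t 1,
    t 1 - e + (c + c) + v0 + w 0 - w 1 + w 2, v11]

/-- The starts of a connector as functions of the parameters. -/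
def cs {G : Type} [AddCommGroup G] (c : G) (t : Fin 3 → G) : Fin 4 → G :=
  ![t 0, t 0 + t 2 + c, t 1, t 2]

theorem conn_eq {G : Type} [AddCommGroup G] (e v0 v11 c : G) (w : Fin 3 → G) (t : Fin 3 → G)
    (hc : c + c = e + e - v0 - v11 - w 0 + w 1 - w 2) (r : Fin 11) :
    cv e v0 v11 c w t r.castSucc + cv e v0 v11 c w t r.succ = fs e (cs c t) w (cd r) := by
  fin_cases r
  · show v0 + (t 0 - v0) = t 0 + (if false = true then e else 0)
    simp
  · show (t 0 - v0) + (t 2 + c + v0) = (t 0 + t 2 + c) + (if false = true then e else 0)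
    simp
    abel
  · show (t 2 + c + v0) + (t 0 - t 2 + e - c - v0) = t 0 + (if true = true then e else 0)
    rw [if_pos rfl]
    abel
  · show (t 0 - t 2 + e - c - v0) + (t 1 + t 2 - t 0 - e + c + v0) =
      t 1 + (if false = true then e else 0)
    rw [if_neg Bool.false_ne_true]
    abel
  · show (t 1 + t 2 - t 0 - e + c + v0) + (t 0 - t 1 + e - c - v0) =
      t 2 + (if false = true then e else 0)
    rw [if_neg Bool.false_ne_true]
    abel
  · show (t 0 - t 1 + e - c - v0) + (t 1 + t 2 + (c + c) + v0) =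
      (t 0 + t 2 + c) + (if true = true then e else 0)
    simp
    abel
  · show (t 1 + t 2 + (c + c) + v0) + (e - (c + c) - v0 - t 1) =
      t 2 + (if true = true then e else 0)
    simp
    abel
  · show (e - (c + c) - v0 - t 1) + (t 1 - e + (c + c) + v0 + w 0) = w 0
    abel
  · show (t 1 - e + (c + c) + v0 + w 0) + (e - (c + c) - v0 - w 0 + w 1 - t 1) = w 1
    abel
  · show (e - (c + c) - v0 - w 0 + w 1 - t 1) + (t 1 - e + (c + c) + v0 + w 0 - w 1 + w 2) = w 2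
    abel
  · show (t 1 - e + (c + c) + v0 + w 0 - w 1 + w 2) + v11 =
      t 1 + (if true = true then e else 0)
    rw [hc]
    simp
    abel

private def ConA_av : Fin 10 → Fin 3 → ℤ :=
  ![![1, 0, 0], ![0, 0, 1], ![1, 0, -1], ![-1, 1, 1], ![1, -1, 0], ![0, 1, 1], ![0, -1, 0],
    ![0, 1, 0], ![0, -1, 0], ![0, 1, 0]]

private def ConA_kv {G : Type} [AddCommGroup G] (e v0 c : G) (w : Fin 3 → G) : Fin 10 → G :=
  ![-v0, c + v0, e - c - v0, -e + c + v0, e - c - v0, (c + c) + v0, e - (c + c) - v0,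
    -e + (c + c) + v0 + w 0, e - (c + c) - v0 - w 0 + w 1,
    -e + (c + c) + v0 + w 0 - w 1 + w 2]

private def ConA_as : Fin 4 → Fin 3 → ℤ := ![![1, 0, 0], ![1, 0, 1], ![0, 1, 0], ![0, 0, 1]]

private def ConA_ks {G : Type} [AddCommGroup G] (c : G) : Fin 4 → G := ![0, c, 0, 0]

private theorem ConA_v {G : Type} [AddCommGroup G] (e v0 v11 c : G) (w : Fin 3 → G)
    (t : Fin 3 → G) (i : Fin 10) :
    cv e v0 v11 c w t ⟨i + 1, by omega⟩ = ∑ l, ConA_av i l • t l + ConA_kv e v0 c w i := by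
  rw [Fin.sum_univ_three]
  fin_cases i
  · show t 0 - v0 = (1 : ℤ) • t 0 + (0 : ℤ) • t 1 + (0 : ℤ) • t 2 + -v0
    simp only [one_smul, zero_smul]
    abel
  · show t 2 + c + v0 = (0 : ℤ) • t 0 + (0 : ℤ) • t 1 + (1 : ℤ) • t 2 + (c + v0)
    simp only [one_smul, zero_smul]
    abel
  · show t 0 - t 2 + e - c - v0 = (1 : ℤ) • t 0 + (0 : ℤ) • t 1 + (-1 : ℤ) • t 2 + (e - c - v0)
    simp only [one_smul, zero_smul, neg_smul]
    abel
  · show t 1 + t 2 - t 0 - e + c + v0 =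
      (-1 : ℤ) • t 0 + (1 : ℤ) • t 1 + (1 : ℤ) • t 2 + (-e + c + v0)
    simp only [one_smul, neg_smul]
    abel
  · show t 0 - t 1 + e - c - v0 = (1 : ℤ) • t 0 + (-1 : ℤ) • t 1 + (0 : ℤ) • t 2 + (e - c - v0)
    simp only [one_smul, zero_smul, neg_smul]
    abel
  · show t 1 + t 2 + (c + c) + v0 = (0 : ℤ) • t 0 + (1 : ℤ) • t 1 + (1 : ℤ) • t 2 + ((c + c) + v0)
    simp only [one_smul, zero_smul]
    abel
  · show e - (c + c) - v0 - t 1 =
      (0 : ℤ) • t 0 + (-1 : ℤ) • t 1 + (0 : ℤ) • t 2 + (e - (c + c) - v0)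
    simp only [one_smul, zero_smul, neg_smul]
    abel
  · show t 1 - e + (c + c) + v0 + w 0 =
      (0 : ℤ) • t 0 + (1 : ℤ) • t 1 + (0 : ℤ) • t 2 + (-e + (c + c) + v0 + w 0)
    simp only [one_smul, zero_smul]
    abel
  · show e - (c + c) - v0 - w 0 + w 1 - t 1 =
      (0 : ℤ) • t 0 + (-1 : ℤ) • t 1 + (0 : ℤ) • t 2 + (e - (c + c) - v0 - w 0 + w 1)
    simp only [one_smul, zero_smul, neg_smul]
    abel
  · show t 1 - e + (c + c) + v0 + w 0 - w 1 + w 2 =
      (0 : ℤ) • t 0 + (1 : ℤ) • t 1 + (0 : ℤ) • t 2 + (-e + (c + c) + v0 + w 0 - w 1 + w 2)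
    simp only [one_smul, zero_smul]
    abel

private theorem ConA_s {G : Type} [AddCommGroup G] (c : G) (t : Fin 3 → G) (j : Fin 4) :
    cs c t j = ∑ l, ConA_as j l • t l + ConA_ks c j := by
  rw [Fin.sum_univ_three]
  fin_cases j
  · show t 0 = (1 : ℤ) • t 0 + (0 : ℤ) • t 1 + (0 : ℤ) • t 2 + 0
    simp only [one_smul, zero_smul, add_zero]
  · show t 0 + t 2 + c = (1 : ℤ) • t 0 + (0 : ℤ) • t 1 + (1 : ℤ) • t 2 + c
    simp only [one_smul, zero_smul, add_zero]
  · show t 1 = (0 : ℤ) • t 0 + (1 : ℤ) • t 1 + (0 : ℤ) • t 2 + 0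
    simp only [one_smul, zero_smul, add_zero, zero_add]
  · show t 2 = (0 : ℤ) • t 0 + (0 : ℤ) • t 1 + (1 : ℤ) • t 2 + 0
    simp only [one_smul, zero_smul, add_zero, zero_add]

private theorem ConA_av_val : ∀ i l, ConA_av i l = 0 ∨ ConA_av i l = 1 ∨ ConA_av i l = -1 := by
  decide

private theorem ConA_as_val : ∀ i l, ConA_as i l = 0 ∨ ConA_as i l = 1 ∨ ConA_as i l = -1 := by
  decide

private theorem ConA_av_ne : ∀ i, ∃ l, ConA_av i l = 1 ∨ ConA_av i l = -1 := by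
  decide

private theorem ConA_as_ne : ∀ i, ∃ l, ConA_as i l = 1 ∨ ConA_as i l = -1 := by
  decide

private theorem ConA_as_inj : ∀ i j, (∀ l, ConA_as i l = ConA_as j l) → i = j := by
  decide

private theorem ConA_av_eq : ∀ i j, (∀ l, ConA_av i l = ConA_av j l) → i = j ∨
    (i = 6 ∧ j = 8) ∨ (i = 8 ∧ j = 6) ∨ (i = 7 ∧ j = 9) ∨ (i = 9 ∧ j = 7) := by
  decide

private theorem ConA_kv_ne {G : Type} [AddCommGroup G] (e v0 c : G) (w : Fin 3 → G)
    (h01 : w 0 ≠ w 1) (h12 : w 1 ≠ w 2) {i j : Fin 10} (hij : i ≠ j)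
    (h : ConA_av i = ConA_av j) : ConA_kv e v0 c w i ≠ ConA_kv e v0 c w j := by
  have k68 : ConA_kv e v0 c w 6 ≠ ConA_kv e v0 c w 8 := by
    intro h1
    apply h01
    have h2 : e - (c + c) - v0 = e - (c + c) - v0 - w 0 + w 1 := h1
    have h3 : w 1 - w 0 = (e - (c + c) - v0 - w 0 + w 1) - (e - (c + c) - v0) := by abel
    rw [← h2, sub_self] at h3
    exact (sub_eq_zero.1 h3).symm
  have k79 : ConA_kv e v0 c w 7 ≠ ConA_kv e v0 c w 9 := by
    intro h1
    apply h12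
    have h2 : -e + (c + c) + v0 + w 0 = -e + (c + c) + v0 + w 0 - w 1 + w 2 := h1
    have h3 : w 2 - w 1 = (-e + (c + c) + v0 + w 0 - w 1 + w 2) -
      (-e + (c + c) + v0 + w 0) := by abel
    rw [← h2, sub_self] at h3
    exact (sub_eq_zero.1 h3).symm
  rcases ConA_av_eq i j (fun l => congrFun h l) with h1 | ⟨h1, h2⟩ | ⟨h1, h2⟩ | ⟨h1, h2⟩ | ⟨h1, h2⟩
  · exact absurd h1 hij
  · rw [h1, h2]
    exact k68
  · rw [h1, h2]
    exact k68.symm
  · rw [h1, h2]
    exact k79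
  · rw [h1, h2]
    exact k79.symm

/-- the difference of two different vectors with entries `0, ±1` -/
private theorem ConA_diff {a b : Fin 3 → ℤ} (ha : ∀ l, a l = 0 ∨ a l = 1 ∨ a l = -1)
    (hb : ∀ l, b l = 0 ∨ b l = 1 ∨ b l = -1) (h : a ≠ b) :
    ∃ l, a l - b l = 1 ∨ a l - b l = -1 ∨ a l - b l = 2 ∨ a l - b l = -2 := by
  obtain ⟨l, hl⟩ := Function.ne_iff.1 h
  refine ⟨l, ?_⟩
  rcases ha l with h1 | h1 | h1 <;> rcases hb l with h2 | h2 | h2 <;> rw [h1, h2] at hl ⊢ <;>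
    omega

private theorem ConA_coll {G : Type} [AddCommGroup G] [Fintype G] (hT : Tor2 G)
    {a b : Fin 3 → ℤ} (ha : ∀ l, a l = 0 ∨ a l = 1 ∨ a l = -1)
    (hb : ∀ l, b l = 0 ∨ b l = 1 ∨ b l = -1) (h : a ≠ b) (k k' : G) :
    (univ.filter fun t : Fin 3 → G => ∑ l, a l • t l + k = ∑ l, b l • t l + k').card ≤
      2 * Fintype.card G ^ 2 := by
  have h1 := lin_count hT (fun l => a l - b l) (ConA_diff ha hb h) (k' - k)
  refine le_trans (Finset.card_le_card fun t ht => ?_) h1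
  rw [Finset.mem_filter] at ht ⊢
  refine ⟨Finset.mem_univ _, ?_⟩
  have h2 : ∑ l, (a l - b l) • t l = ∑ l, a l • t l - ∑ l, b l • t l := by
    rw [← Finset.sum_sub_distrib]
    exact Finset.sum_congr rfl fun l _ => sub_smul _ _ _
  rw [h2]
  have h3 := ht.2
  have h4 : ∑ l, a l • t l - ∑ l, b l • t l = (∑ l, a l • t l + k) - (∑ l, b l • t l + k') +
    (k' - k) := by abel
  rw [h4, h3, sub_self, zero_add]

/-- index type of the conditions -/
private abbrev ConA_I : Type := Fin 10 ⊕ (Fin 4 × Bool)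

private def ConA_sp : ConA_I → Bool
  | Sum.inl _ => true
  | Sum.inr _ => false

private def ConA_a : ConA_I → Fin 3 → ℤ
  | Sum.inl i => ConA_av i
  | Sum.inr x => ConA_as x.1

private def ConA_k {G : Type} [AddCommGroup G] (e v0 c : G) (w : Fin 3 → G) : ConA_I → G
  | Sum.inl i => ConA_kv e v0 c w i
  | Sum.inr x => ConA_ks c x.1 + (if x.2 then e else 0)

private def ConA_K {M : ℕ} (A1 A2 A2' : Finset (Fin M)) : ConA_I → Finset (Fin M)
  | Sum.inl _ => A1
  | Sum.inr x => if x.2 then A2' else A2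

/-- a triple of parameters -/
private theorem ConA_main (α : ℝ) (hα : 0 < α) :
    ∃ q0 : ℕ, ∀ (G : Type) [AddCommGroup G] [Fintype G],
      Tor2 G → q0 ≤ Fintype.card G → ∀ (e : G), e ≠ 0 → ∀ (M : ℕ) (χ : Bool → G → Fin M),
      Rnd χ 18 (α ^ 18 / 12) → ∀ (A1 A2 A2' : Finset (Fin M)), α ≤ (A1.card : ℝ) / M →
      α ≤ (A2.card : ℝ) / M → α ≤ (A2'.card : ℝ) / M →
      ∀ (v0 c : G) (w : Fin 3 → G),
      w 0 ≠ w 1 → w 1 ≠ w 2 → ∀ FL FS : Finset G,
      (FL.card : ℝ) ≤ α ^ 18 / 100 * Fintype.card G →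
      (FS.card : ℝ) ≤ α ^ 18 / 100 * Fintype.card G →
      ∃ t : Fin 3 → G, (∀ x : ConA_I, χ (ConA_sp x) (∑ l, ConA_a x l • t l +
          ConA_k e v0 c w x) ∈ ConA_K A1 A2 A2' x) ∧
        (∀ i : Fin 10, ∑ l, ConA_av i l • t l + ConA_kv e v0 c w i ∉ FL) ∧
        (∀ j : Fin 4, ∑ l, ConA_as j l • t l + ConA_ks c j ∉ FS) ∧
        (∀ i j : Fin 10, ConA_av i ≠ ConA_av j →
          ∑ l, ConA_av i l • t l + ConA_kv e v0 c w i ≠
            ∑ l, ConA_av j l • t l + ConA_kv e v0 c w j) ∧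
        (∀ i j : Fin 4, ConA_as i ≠ ConA_as j →
          ∑ l, ConA_as i l • t l + ConA_ks c i ≠ ∑ l, ConA_as j l • t l + ConA_ks c j) := by
  obtain ⟨C, hC0, hC⟩ := multi 3 18
  have hα18 : 0 < α ^ 18 := pow_pos hα 18
  obtain ⟨q0, hq0⟩ := exists_nat_gt (2 * (C + 232) / α ^ 18)
  refine ⟨q0, ?_⟩
  intro G _ _ hT hq e he M χ hR A1 A2 A2' hA1 hA2 hA2' v0 c w h01 h12 FL FS hFL hFS
  by_contra hcon
  have hcount := hC G hT M χ (α ^ 18 / 12) (by positivity) hR ConA_I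
    (by simp) ConA_sp ConA_a (ConA_k e v0 c w)
    (by
      intro x l
      rcases x with i | x
      · exact ConA_av_val i l
      · exact ConA_as_val x.1 l)
    (by
      intro x
      rcases x with i | x
      · obtain ⟨l, hl⟩ := ConA_av_ne i
        refine ⟨l, fun h => ?_⟩
        have h' : ConA_av i l = 0 := h
        rcases hl with hl | hl <;> rw [h'] at hl <;> omega
      · obtain ⟨l, hl⟩ := ConA_as_ne x.1
        refine ⟨l, fun h => ?_⟩
        have h' : ConA_as x.1 l = 0 := h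
        rcases hl with hl | hl <;> rw [h'] at hl <;> omega)
    (by
      intro x y hxy hsp ha
      rcases x with i | x <;> rcases y with j | y
      · exact ConA_kv_ne e v0 c w h01 h12 (fun h => hxy (by rw [h])) ha
      · exact absurd hsp (fun h => Bool.noConfusion (h : true = false))
      · exact absurd hsp (fun h => Bool.noConfusion (h : false = true))
      · have h1 : x.1 = y.1 := ConA_as_inj _ _ (fun l => congrFun ha l)
        have h2 : x.2 ≠ y.2 := fun h => hxy (by rw [Prod.ext h1 h])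
        show ConA_ks c x.1 + (if x.2 then e else 0) ≠ ConA_ks c y.1 + (if y.2 then e else 0)
        rw [h1]
        intro h3
        have h4 := add_left_cancel h3
        cases hx : x.2 <;> cases hy : y.2 <;> rw [hx, hy] at h4 h2
        · exact h2 rfl
        · exact he h4.symm
        · exact he h4
        · exact h2 rfl)
    (ConA_K A1 A2 A2')
  obtain ⟨Gd, hGd⟩ : ∃ Gd : Finset (Fin 3 → G), Gd = univ.filter fun t : Fin 3 → G =>
      ∀ x, χ (ConA_sp x) (∑ i, ConA_a x i • t i + ConA_k e v0 c w x) ∈ ConA_K A1 A2 A2' x :=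
    ⟨_, rfl⟩
  rw [← hGd] at hcount
  obtain ⟨B1, hB1⟩ : ∃ B1 : Fin 10 → Finset (Fin 3 → G), ∀ i, B1 i =
      univ.filter fun t : Fin 3 → G => ∑ l, ConA_av i l • t l + ConA_kv e v0 c w i ∈ FL :=
    ⟨_, fun _ => rfl⟩
  obtain ⟨B2, hB2⟩ : ∃ B2 : Fin 4 → Finset (Fin 3 → G), ∀ i, B2 i =
      univ.filter fun t : Fin 3 → G => ∑ l, ConA_as i l • t l + ConA_ks c i ∈ FS :=
    ⟨_, fun _ => rfl⟩
  obtain ⟨B3, hB3⟩ : ∃ B3 : Fin 10 × Fin 10 → Finset (Fin 3 → G), ∀ p, B3 p =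
      univ.filter fun t : Fin 3 → G => ConA_av p.1 ≠ ConA_av p.2 ∧
        ∑ l, ConA_av p.1 l • t l + ConA_kv e v0 c w p.1 =
          ∑ l, ConA_av p.2 l • t l + ConA_kv e v0 c w p.2 :=
    ⟨_, fun _ => rfl⟩
  obtain ⟨B4, hB4⟩ : ∃ B4 : Fin 4 × Fin 4 → Finset (Fin 3 → G), ∀ p, B4 p =
      univ.filter fun t : Fin 3 → G => ConA_as p.1 ≠ ConA_as p.2 ∧
        ∑ l, ConA_as p.1 l • t l + ConA_ks c p.1 =
          ∑ l, ConA_as p.2 l • t l + ConA_ks c p.2 :=
    ⟨_, fun _ => rfl⟩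
  have c1 : ∀ i, (B1 i).card ≤ FL.card * Fintype.card G ^ 2 := by
    intro i
    rw [hB1]
    exact lin_mem (ConA_av i) (ConA_av_ne i) _ FL
  have c2 : ∀ i, (B2 i).card ≤ FS.card * Fintype.card G ^ 2 := by
    intro i
    rw [hB2]
    exact lin_mem (ConA_as i) (ConA_as_ne i) _ FS
  have c3 : ∀ p, (B3 p).card ≤ 2 * Fintype.card G ^ 2 := by
    intro p
    rw [hB3]
    by_cases hp : ConA_av p.1 = ConA_av p.2
    · rw [Finset.filter_false_of_mem (fun t _ h => h.1 hp), Finset.card_empty]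
      exact Nat.zero_le _
    · refine le_trans (Finset.card_le_card fun t ht => ?_)
        (ConA_coll hT (ConA_av_val p.1) (ConA_av_val p.2) hp (ConA_kv e v0 c w p.1)
          (ConA_kv e v0 c w p.2))
      rw [Finset.mem_filter] at ht ⊢
      exact ⟨ht.1, ht.2.2⟩
  have c4 : ∀ p, (B4 p).card ≤ 2 * Fintype.card G ^ 2 := by
    intro p
    rw [hB4]
    by_cases hp : ConA_as p.1 = ConA_as p.2
    · rw [Finset.filter_false_of_mem (fun t _ h => h.1 hp), Finset.card_empty]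
      exact Nat.zero_le _
    · refine le_trans (Finset.card_le_card fun t ht => ?_)
        (ConA_coll hT (ConA_as_val p.1) (ConA_as_val p.2) hp (ConA_ks c p.1) (ConA_ks c p.2))
      rw [Finset.mem_filter] at ht ⊢
      exact ⟨ht.1, ht.2.2⟩
  have hsub : Gd ⊆ ((univ.biUnion B1 ∪ univ.biUnion B2) ∪ univ.biUnion B3) ∪
      univ.biUnion B4 := by
    intro t ht
    rw [hGd, Finset.mem_filter] at ht
    by_contra hno
    simp only [Finset.mem_union, Finset.mem_biUnion, Finset.mem_univ, true_and, not_or,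
      not_exists] at hno
    obtain ⟨⟨⟨n1, n2⟩, n3⟩, n4⟩ := hno
    apply hcon
    refine ⟨t, ht.2, fun i hi => ?_, fun j hj => ?_, fun i j hij h => ?_, fun i j hij h => ?_⟩
    · apply n1 i
      rw [hB1, Finset.mem_filter]
      exact ⟨Finset.mem_univ _, hi⟩
    · apply n2 j
      rw [hB2, Finset.mem_filter]
      exact ⟨Finset.mem_univ _, hj⟩
    · apply n3 (i, j)
      rw [hB3, Finset.mem_filter]
      exact ⟨Finset.mem_univ _, hij, h⟩
    · apply n4 (i, j)
      rw [hB4, Finset.mem_filter]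
      exact ⟨Finset.mem_univ _, hij, h⟩
  have s1 : (univ.biUnion B1).card ≤ 10 * (FL.card * Fintype.card G ^ 2) := by
    refine Finset.card_biUnion_le.trans ((Finset.sum_le_sum fun i _ => c1 i).trans ?_)
    rw [Finset.sum_const, Finset.card_univ, Fintype.card_fin, smul_eq_mul]
  have s2 : (univ.biUnion B2).card ≤ 4 * (FS.card * Fintype.card G ^ 2) := by
    refine Finset.card_biUnion_le.trans ((Finset.sum_le_sum fun i _ => c2 i).trans ?_)
    rw [Finset.sum_const, Finset.card_univ, Fintype.card_fin, smul_eq_mul]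
  have s3 : (univ.biUnion B3).card ≤ 100 * (2 * Fintype.card G ^ 2) := by
    refine Finset.card_biUnion_le.trans ((Finset.sum_le_sum fun i _ => c3 i).trans ?_)
    rw [Finset.sum_const, Finset.card_univ, Fintype.card_prod, Fintype.card_fin, smul_eq_mul]
  have s4 : (univ.biUnion B4).card ≤ 16 * (2 * Fintype.card G ^ 2) := by
    refine Finset.card_biUnion_le.trans ((Finset.sum_le_sum fun i _ => c4 i).trans ?_)
    rw [Finset.sum_const, Finset.card_univ, Fintype.card_prod, Fintype.card_fin, smul_eq_mul]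
  have hbad : Gd.card ≤ 10 * (FL.card * Fintype.card G ^ 2) +
      4 * (FS.card * Fintype.card G ^ 2) + 232 * Fintype.card G ^ 2 := by
    have h1 := Finset.card_le_card hsub
    have h2 := Finset.card_union_le ((univ.biUnion B1 ∪ univ.biUnion B2) ∪ univ.biUnion B3)
      (univ.biUnion B4)
    have h3 := Finset.card_union_le (univ.biUnion B1 ∪ univ.biUnion B2) (univ.biUnion B3)
    have h4 := Finset.card_union_le (univ.biUnion B1) (univ.biUnion B2)
    omega
  have hbadR : (Gd.card : ℝ) ≤ 10 * (FL.card * (Fintype.card G : ℝ) ^ 2) +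
      4 * (FS.card * (Fintype.card G : ℝ) ^ 2) + 232 * (Fintype.card G : ℝ) ^ 2 := by
    exact_mod_cast hbad
  obtain ⟨q, hqd⟩ : ∃ q : ℝ, q = (Fintype.card G : ℝ) := ⟨_, rfl⟩
  rw [← hqd] at hbadR hFL hFS hcount
  have hq1 : 2 * (C + 232) / α ^ 18 < q := by
    rw [hqd]
    exact hq0.trans_le (by exact_mod_cast hq)
  have hqpos : 0 < q := lt_of_le_of_lt (by positivity) hq1
  have hprod : α ^ 18 ≤ ∏ x : ConA_I, (((ConA_K A1 A2 A2' x).card : ℝ) / M) := by
    have h1 : ∏ x : ConA_I, α ≤ ∏ x : ConA_I, (((ConA_K A1 A2 A2' x).card : ℝ) / M) := by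
      refine Finset.prod_le_prod (fun _ _ => hα.le) fun x _ => ?_
      rcases x with i | ⟨j, b⟩
      · exact hA1
      · cases b
        · exact hA2
        · exact hA2'
    rw [Finset.prod_const, Finset.card_univ] at h1
    have h2 : Fintype.card ConA_I = 18 := by simp
    rw [h2] at h1
    exact h1
  have hlow := (abs_le.1 hcount).1
  have hq2 : 0 < q ^ 2 := pow_pos hqpos 2
  have hq3 : 0 < q ^ 3 := pow_pos hqpos 3
  have e1 : q ^ 3 * α ^ 18 ≤ q ^ 3 * ∏ x : ConA_I, (((ConA_K A1 A2 A2' x).card : ℝ) / M) :=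
    mul_le_mul_of_nonneg_left hprod hq3.le
  have e2 : (FL.card : ℝ) * q ^ 2 ≤ α ^ 18 / 100 * q ^ 3 := by
    calc (FL.card : ℝ) * q ^ 2 ≤ (α ^ 18 / 100 * q) * q ^ 2 :=
          mul_le_mul_of_nonneg_right hFL hq2.le
      _ = α ^ 18 / 100 * q ^ 3 := by ring
  have e3 : (FS.card : ℝ) * q ^ 2 ≤ α ^ 18 / 100 * q ^ 3 := by
    calc (FS.card : ℝ) * q ^ 2 ≤ (α ^ 18 / 100 * q) * q ^ 2 :=
          mul_le_mul_of_nonneg_right hFS hq2.le
      _ = α ^ 18 / 100 * q ^ 3 := by ring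
  have e4 : 2 * (C + 232) * q ^ 2 < α ^ 18 * q ^ 3 := by
    rw [div_lt_iff₀ hα18] at hq1
    have h1 := mul_lt_mul_of_pos_right hq1 hq2
    calc 2 * (C + 232) * q ^ 2 < q * α ^ 18 * q ^ 2 := h1
      _ = α ^ 18 * q ^ 3 := by ring
  have e5 : (0 : ℝ) ≤ C * q ^ 2 := mul_nonneg hC0 hq2.le
  push_cast at hlow
  nlinarith

theorem conn_one (α : ℝ) (hα : 0 < α) (hα1 : α ≤ 1) :
    ∃ η : ℝ, 0 < η ∧ ∃ f : ℝ, 0 < f ∧ ∃ q0 : ℕ, ∀ (G : Type) [AddCommGroup G] [Fintype G],
      Tor2 G → q0 ≤ Fintype.card G → ∀ (e : G), e ≠ 0 → ∀ (M : ℕ) (χ : Bool → G → Fin M),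
      Rnd χ 18 η → ∀ (A1 A2 A2' : Finset (Fin M)), α ≤ (A1.card : ℝ) / M →
      α ≤ (A2.card : ℝ) / M → α ≤ (A2'.card : ℝ) / M →
      ∀ (v0 v11 c : G) (w : Fin 3 → G), c + c = e + e - v0 - v11 - w 0 + w 1 - w 2 →
      w 0 ≠ w 1 → w 1 ≠ w 2 → ∀ FL FS : Finset G, (FL.card : ℝ) ≤ f * Fintype.card G →
      (FS.card : ℝ) ≤ f * Fintype.card G →
      ∃ (v : Fin 12 → G) (s : Fin 4 → G), v 0 = v0 ∧ v 11 = v11 ∧
        (∀ r r' : Fin 12, 0 < r → r < 11 → 0 < r' → r' < 11 → v r = v r' → r = r') ∧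
        (∀ r : Fin 12, 0 < r → r < 11 → χ true (v r) ∈ A1 ∧ v r ∉ FL) ∧
        Function.Injective s ∧ (∀ j, s j ∈ dcl (χ false) e A2 A2' ∧ s j ∉ FS) ∧
        ∀ r : Fin 11, v r.castSucc + v r.succ = fs e s w (cd r) := by
  obtain ⟨q0, hq0⟩ := ConA_main α hα
  have hα18 : 0 < α ^ 18 := pow_pos hα 18
  refine ⟨α ^ 18 / 12, by positivity, α ^ 18 / 100, by positivity, q0, ?_⟩
  intro G _ _ hT hq e he M χ hR A1 A2 A2' hA1 hA2 hA2' v0 v11 c w hc h01 h12 FL FS hFL hFS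
  obtain ⟨t, t1, t2, t3, t4, t5⟩ := hq0 G hT hq e he M χ hR A1 A2 A2' hA1 hA2 hA2' v0 c w h01 h12
    FL FS hFL hFS
  have hidx : ∀ r : Fin 12, 0 < r → r < 11 → ∃ i : Fin 10, r = ⟨i + 1, by omega⟩ := by
    intro r h0 h11
    have h0' : 0 < r.1 := h0
    have h11' : r.1 < 11 := h11
    exact ⟨⟨r.1 - 1, by omega⟩, Fin.ext (by simp only; omega)⟩
  refine ⟨cv e v0 v11 c w t, cs c t, rfl, rfl, ?_, ?_, ?_, ?_, conn_eq e v0 v11 c w t hc⟩
  · intro r r' h0 h11 h0' h11' h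
    obtain ⟨i, rfl⟩ := hidx r h0 h11
    obtain ⟨j, rfl⟩ := hidx r' h0' h11'
    rw [ConA_v, ConA_v] at h
    by_cases hij : i = j
    · rw [hij]
    · exfalso
      by_cases ha : ConA_av i = ConA_av j
      · rw [ha] at h
        exact ConA_kv_ne e v0 c w h01 h12 hij ha (add_left_cancel h)
      · exact t4 i j ha h
  · intro r h0 h11
    obtain ⟨i, rfl⟩ := hidx r h0 h11
    rw [ConA_v]
    exact ⟨t1 (Sum.inl i), t2 i⟩
  · intro i j h
    by_contra hij
    rw [ConA_s, ConA_s] at h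
    exact t5 i j (fun ha => hij (ConA_as_inj i j fun l => congrFun ha l)) h
  · intro j
    rw [ConA_s]
    refine ⟨?_, t3 j⟩
    unfold dcl
    rw [Finset.mem_filter]
    refine ⟨Finset.mem_univ _, ?_, ?_⟩
    · have h1 := t1 (Sum.inr (j, false))
      have h2 : ConA_k e v0 c w (Sum.inr (j, false)) = ConA_ks c j := by
        show ConA_ks c j + (if false = true then e else 0) = _
        simp
      rw [h2] at h1
      exact h1
    · have h1 := t1 (Sum.inr (j, true))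
      have h2 : ConA_k e v0 c w (Sum.inr (j, true)) = ConA_ks c j + e := by
        show ConA_ks c j + (if true = true then e else 0) = _
        simp
      rw [h2, ← add_assoc] at h1
      exact h1

end Pool.Agent.H60.HM
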