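import Pool.Agent.H60.HM.ConA

/-!
# HM-04 ConB: a family of connectors

Induction on `N` (or on an initial segment of `Fin N`): `conn_one α` gives `η`, `f1`, `q1`; take
`f = f1 / 20`.  The connectors `k < n` have been constructed; for the connector `n` use
`FL' = FL ∪ {c k r : k < n, 0 < r < 11}` (at most `f q + 10 f q` elements) and
`FS' = FS ∪ {s k j : k < n}` (at most `f q + 4 f q` elements).
-/

namespace Pool.Agent.H60.HM

open Finset Classical Pool.Agent.H60.HL

theorem conn_fam (α : ℝ) (hα : 0 < α) (hα1 : α ≤ 1) :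
    ∃ η : ℝ, 0 < η ∧ ∃ f : ℝ, 0 < f ∧ ∃ q0 : ℕ, ∀ (G : Type) [AddCommGroup G] [Fintype G],
      Tor2 G → q0 ≤ Fintype.card G → ∀ (e : G), e ≠ 0 → ∀ (M : ℕ) (χ : Bool → G → Fin M),
      Rnd χ 18 η → ∀ (A1 A2 A2' : Finset (Fin M)), α ≤ (A1.card : ℝ) / M →
      α ≤ (A2.card : ℝ) / M → α ≤ (A2'.card : ℝ) / M →
      ∀ (N : ℕ) (v0 v11 c : Fin N → G) (w : Fin N → Fin 3 → G), (N : ℝ) ≤ f * Fintype.card G →
      (∀ k, c k + c k = e + e - v0 k - v11 k - w k 0 + w k 1 - w k 2) →
      (∀ k, w k 0 ≠ w k 1) → (∀ k, w k 1 ≠ w k 2) →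
      ∀ FL FS : Finset G, (FL.card : ℝ) ≤ f * Fintype.card G →
      (FS.card : ℝ) ≤ f * Fintype.card G →
      ∃ (v : Fin N → Fin 12 → G) (s : Fin N → Fin 4 → G),
        (∀ k, v k 0 = v0 k ∧ v k 11 = v11 k) ∧
        (∀ k k' (r r' : Fin 12), 0 < r → r < 11 → 0 < r' → r' < 11 → v k r = v k' r' →
          k = k' ∧ r = r') ∧
        (∀ k (r : Fin 12), 0 < r → r < 11 → χ true (v k r) ∈ A1 ∧ v k r ∉ FL) ∧
        (∀ k k' j j', s k j = s k' j' → k = k' ∧ j = j') ∧
        (∀ k j, s k j ∈ dcl (χ false) e A2 A2' ∧ s k j ∉ FS) ∧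
        ∀ k (r : Fin 11), v k r.castSucc + v k r.succ = fs e (s k) (w k) (cd r) := by
  obtain ⟨η, hη, f1, hf1, q1, h1⟩ := conn_one α hα hα1
  refine ⟨η, hη, f1 / 20, by positivity, q1, ?_⟩
  intro G _ _ hT hq e he M χ hR A1 A2 A2' hA1 hA2 hA2' N
  induction N with
  | zero =>
    intro v0 v11 c w _ _ _ _ FL FS _ _
    exact ⟨fun k => k.elim0, fun k => k.elim0, fun k => k.elim0, fun k => k.elim0,
      fun k => k.elim0, fun k => k.elim0, fun k => k.elim0, fun k => k.elim0⟩
  | succ N ih =>
    intro v0 v11 c w hN hc hw1 hw2 FL FS hFL hFS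
    have hN' : (N : ℝ) ≤ f1 / 20 * Fintype.card G := by
      push_cast at hN
      linarith
    obtain ⟨v, s, g1, g2, g3, g4, g5, g6⟩ := ih (fun k => v0 k.castSucc)
      (fun k => v11 k.castSucc) (fun k => c k.castSucc) (fun k => w k.castSucc) hN'
      (fun k => hc _) (fun k => hw1 _) (fun k => hw2 _) FL FS hFL hFS
    have hV : (((univ : Finset (Fin N × Fin 12)).image fun x => v x.1 x.2).card : ℝ) ≤
        12 * N := by
      have h2 : ((univ : Finset (Fin N × Fin 12)).image fun x => v x.1 x.2).card ≤ N * 12 := by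
        refine Finset.card_image_le.trans ?_
        rw [Finset.card_univ, Fintype.card_prod, Fintype.card_fin, Fintype.card_fin]
      have h3 : (((univ : Finset (Fin N × Fin 12)).image fun x => v x.1 x.2).card : ℝ) ≤
          ((N * 12 : ℕ) : ℝ) := by exact_mod_cast h2
      push_cast at h3
      linarith
    have hS : (((univ : Finset (Fin N × Fin 4)).image fun x => s x.1 x.2).card : ℝ) ≤
        4 * N := by
      have h2 : ((univ : Finset (Fin N × Fin 4)).image fun x => s x.1 x.2).card ≤ N * 4 := by
        refine Finset.card_image_le.trans ?_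
        rw [Finset.card_univ, Fintype.card_prod, Fintype.card_fin, Fintype.card_fin]
      have h3 : (((univ : Finset (Fin N × Fin 4)).image fun x => s x.1 x.2).card : ℝ) ≤
          ((N * 4 : ℕ) : ℝ) := by exact_mod_cast h2
      push_cast at h3
      linarith
    have hq0 : (0 : ℝ) ≤ f1 * Fintype.card G := mul_nonneg hf1.le (Nat.cast_nonneg _)
    have hFL' : ((FL ∪ (univ : Finset (Fin N × Fin 12)).image fun x => v x.1 x.2).card : ℝ) ≤
        f1 * Fintype.card G := by
      have h2 : ((FL ∪ (univ : Finset (Fin N × Fin 12)).image fun x => v x.1 x.2).card : ℝ) ≤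
          (FL.card : ℝ) + ((univ : Finset (Fin N × Fin 12)).image fun x => v x.1 x.2).card := by
        exact_mod_cast Finset.card_union_le _ _
      linarith
    have hFS' : ((FS ∪ (univ : Finset (Fin N × Fin 4)).image fun x => s x.1 x.2).card : ℝ) ≤
        f1 * Fintype.card G := by
      have h2 : ((FS ∪ (univ : Finset (Fin N × Fin 4)).image fun x => s x.1 x.2).card : ℝ) ≤
          (FS.card : ℝ) + ((univ : Finset (Fin N × Fin 4)).image fun x => s x.1 x.2).card := by
        exact_mod_cast Finset.card_union_le _ _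
      linarith
    obtain ⟨v', s', k0, k11, k2, k3, k4, k5, k6⟩ := h1 G hT hq e he M χ hR A1 A2 A2' hA1 hA2
      hA2' (v0 (Fin.last N)) (v11 (Fin.last N)) (c (Fin.last N)) (w (Fin.last N)) (hc _)
      (hw1 _) (hw2 _) _ _ hFL' hFS'
    have kV : ∀ k (r r' : Fin 12), 0 < r' → r' < 11 → v k r ≠ v' r' := by
      intro k r r' h2 h3 h4
      refine (k3 r' h2 h3).2 (Finset.mem_union_right _ (Finset.mem_image.2 ⟨(k, r), ?_, h4⟩))
      exact Finset.mem_univ _
    have kS : ∀ k j j', s k j ≠ s' j' := by
      intro k j j' h4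
      refine (k5 j').2 (Finset.mem_union_right _ (Finset.mem_image.2 ⟨(k, j), ?_, h4⟩))
      exact Finset.mem_univ _
    refine ⟨Fin.snoc (α := fun _ => Fin 12 → G) v v', Fin.snoc (α := fun _ => Fin 4 → G) s s',
      ?_, ?_, ?_, ?_, ?_, ?_⟩
    · intro k
      induction k using Fin.lastCases with
      | last =>
        rw [Fin.snoc_last]
        exact ⟨k0, k11⟩
      | cast k =>
        rw [Fin.snoc_castSucc]
        exact g1 k
    · intro k k' r r' hr0 hr1 hr0' hr1' heq
      induction k using Fin.lastCases with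
      | last =>
        induction k' using Fin.lastCases with
        | last =>
          rw [Fin.snoc_last] at heq
          exact ⟨rfl, k2 r r' hr0 hr1 hr0' hr1' heq⟩
        | cast k' =>
          rw [Fin.snoc_last, Fin.snoc_castSucc] at heq
          exact absurd heq.symm (kV k' r' r hr0 hr1)
      | cast k =>
        induction k' using Fin.lastCases with
        | last =>
          rw [Fin.snoc_last, Fin.snoc_castSucc] at heq
          exact absurd heq (kV k r r' hr0' hr1')
        | cast k' =>
          rw [Fin.snoc_castSucc, Fin.snoc_castSucc] at heq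
          obtain ⟨h2, h3⟩ := g2 k k' r r' hr0 hr1 hr0' hr1' heq
          exact ⟨by rw [h2], h3⟩
    · intro k r hr0 hr1
      induction k using Fin.lastCases with
      | last =>
        rw [Fin.snoc_last]
        obtain ⟨h2, h3⟩ := k3 r hr0 hr1
        exact ⟨h2, fun h => h3 (Finset.mem_union_left _ h)⟩
      | cast k =>
        rw [Fin.snoc_castSucc]
        exact g3 k r hr0 hr1
    · intro k k' j j' heq
      induction k using Fin.lastCases with
      | last =>
        induction k' using Fin.lastCases with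
        | last =>
          rw [Fin.snoc_last] at heq
          exact ⟨rfl, k4 heq⟩
        | cast k' =>
          rw [Fin.snoc_last, Fin.snoc_castSucc] at heq
          exact absurd heq.symm (kS k' j' j)
      | cast k =>
        induction k' using Fin.lastCases with
        | last =>
          rw [Fin.snoc_last, Fin.snoc_castSucc] at heq
          exact absurd heq (kS k j j')
        | cast k' =>
          rw [Fin.snoc_castSucc, Fin.snoc_castSucc] at heq
          obtain ⟨h2, h3⟩ := g4 k k' j j' heq
          exact ⟨by rw [h2], h3⟩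
    · intro k j
      induction k using Fin.lastCases with
      | last =>
        rw [Fin.snoc_last]
        obtain ⟨h2, h3⟩ := k5 j
        exact ⟨h2, fun h => h3 (Finset.mem_union_left _ h)⟩
      | cast k =>
        rw [Fin.snoc_castSucc]
        exact g5 k j
    · intro k r
      induction k using Fin.lastCases with
      | last =>
        rw [Fin.snoc_last, Fin.snoc_last]
        exact k6 r
      | cast k =>
        rw [Fin.snoc_castSucc, Fin.snoc_castSucc]
        exact g6 k r

end Pool.Agent.H60.HM
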