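import Pool.Agent.H60.HM.Defs

/-!
# HM-12 DecB: a forest is cut into small pieces

Adapt the finished files `Pool/Agent/H60/HL/TrA1.lean` (`dec`) and `Pool/Agent/H60/HL/TrA.lean` (`pieces`,
`alloc`): the same statements for a forest with the vertices `0, ..., n - 1`; `rt i` means that `i` is a root,
`p i < i` for the other vertices.

`dec2`, proof by induction on `n` (for all `w`), as before.  Step from `n` to `n + 1`: the vertex `n` has no
children.  If `w n ≥ K`: `C = insert n C'`.  If `w n < K` and `rt n`: take `C`, `comp` for `n` and `w`, and put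
`comp n = n` (a new class).  If `w n < K` and `n` is not a root: let `w' = w` with
`w' (p n) = w (p n) + w n`, take `C`, `comp` for `n`, `w'`; if `p n ∉ C` put `comp n = comp (p n)`; if
`p n ∈ C` put `comp n = n` (a new class of weight `w n < K`).
`pieces2` (with `w = 1`): `R = {i < n : i ∉ C, comp i = i}`, `Pc r = {i < n : i ∉ C, comp i = r}`,
`k r = (Pc r).card`, `e r j` the elements of `Pc r` in increasing order.
`alloc2`: disjoint subsets of `W` of prescribed sizes (e.g. from `alloc` and a bijection of `W` with
`Fin W.card`).
-/

namespace Pool.Agent.H60.HM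

open Finset Classical

theorem dec2 (K : ℕ) (hK : 1 ≤ K) (n : ℕ) (p : ℕ → ℕ) (rt : ℕ → Prop)
    (hp : ∀ i, i < n → ¬ rt i → p i < i) (w : ℕ → ℕ) :
    ∃ (C : Finset ℕ) (comp : ℕ → ℕ), C ⊆ range n ∧ C.card * K ≤ ∑ i ∈ range n, w i ∧
      (∀ i < n, i ∉ C → comp i ∉ C ∧ comp i ≤ i ∧ comp (comp i) = comp i) ∧
      (∀ i < n, i ∉ C → (rt i ∨ p i ∈ C) → comp i = i) ∧
      (∀ i < n, i ∉ C → ¬ rt i → p i ∉ C → comp i = comp (p i)) ∧
      ∀ r, ∑ i ∈ (range n).filter (fun i => i ∉ C ∧ comp i = r), w i ≤ K := by
  induction n generalizing w with
  | zero =>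
    refine ⟨∅, id, by simp, by simp, ?_, ?_, ?_, ?_⟩
    · intro i hi; omega
    · intro i hi; omega
    · intro i hi; omega
    · intro r; simp
  | succ n ih =>
    have hp' : ∀ i, i < n → ¬ rt i → p i < i := fun i h0 h1 => hp i (by omega) h1
    by_cases hw : K ≤ w n
    · obtain ⟨C, comp, hC, hcard, h1, h2, h3, h4⟩ := ih hp' w
      have hnC : n ∉ C := fun h => by
        have := mem_range.1 (hC h); omega
      refine ⟨insert n C, comp, ?_, ?_, ?_, ?_, ?_, ?_⟩
      · intro x hx
        rcases mem_insert.1 hx with rfl | hx
        · exact mem_range.2 (by omega)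
        · have := mem_range.1 (hC hx)
          exact mem_range.2 (by omega)
      · rw [card_insert_of_notMem hnC, sum_range_succ, add_mul, one_mul]
        omega
      · intro i hi hiC
        have hin : i ≠ n := fun h => hiC (by rw [h]; exact mem_insert_self _ _)
        have hiC' : i ∉ C := fun h => hiC (mem_insert_of_mem h)
        have hi' : i < n := by omega
        obtain ⟨a, b, c⟩ := h1 i hi' hiC'
        refine ⟨fun h => ?_, b, c⟩
        rcases mem_insert.1 h with h | h
        · omega
        · exact a h
      · intro i hi hiC hor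
        have hin : i ≠ n := fun h => hiC (by rw [h]; exact mem_insert_self _ _)
        have hiC' : i ∉ C := fun h => hiC (mem_insert_of_mem h)
        have hi' : i < n := by omega
        refine h2 i hi' hiC' ?_
        by_cases h0 : rt i
        · exact Or.inl h0
        · right
          rcases hor with h | h
          · exact absurd h h0
          · rcases mem_insert.1 h with h | h
            · have := hp' i hi' h0; omega
            · exact h
      · intro i hi hiC h0 hpi
        have hin : i ≠ n := fun h => hiC (by rw [h]; exact mem_insert_self _ _)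
        have hiC' : i ∉ C := fun h => hiC (mem_insert_of_mem h)
        have hi' : i < n := by omega
        exact h3 i hi' hiC' h0 (fun h => hpi (mem_insert_of_mem h))
      · intro r
        have hf : (range (n + 1)).filter (fun i => i ∉ insert n C ∧ comp i = r) =
            (range n).filter (fun i => i ∉ C ∧ comp i = r) := by
          ext i
          simp only [mem_filter, mem_range, mem_insert, not_or]
          constructor
          · rintro ⟨a, ⟨b, c⟩, d⟩
            exact ⟨by omega, c, d⟩
          · rintro ⟨a, c, d⟩
            exact ⟨by omega, ⟨by omega, c⟩, d⟩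
        rw [hf]
        exact h4 r
    · have hw' : w n < K := not_le.1 hw
      by_cases hn : rt n
      · obtain ⟨C, comp, hC, hcard, h1, h2, h3, h4⟩ := ih hp' w
        have hnC : n ∉ C := fun h => by
          have := mem_range.1 (hC h); omega
        refine ⟨C, Function.update comp n n, ?_, ?_, ?_, ?_, ?_, ?_⟩
        · intro x hx
          have := mem_range.1 (hC hx)
          exact mem_range.2 (by omega)
        · rw [sum_range_succ]
          omega
        · intro i hi hiC
          by_cases hin : i = n
          · subst hin
            rw [Function.update_self]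
            exact ⟨hnC, le_refl _, by rw [Function.update_self]⟩
          · have hi' : i < n := by omega
            obtain ⟨a, b, c⟩ := h1 i hi' hiC
            rw [Function.update_of_ne hin]
            refine ⟨a, b, ?_⟩
            rw [Function.update_of_ne (by omega), c]
        · intro i hi hiC hor
          by_cases hin : i = n
          · subst hin
            rw [Function.update_self]
          · have hi' : i < n := by omega
            rw [Function.update_of_ne hin]
            exact h2 i hi' hiC hor
        · intro i hi hiC h0 hpi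
          by_cases hin : i = n
          · subst hin
            exact absurd hn h0
          · have hi' : i < n := by omega
            have := hp' i hi' h0
            rw [Function.update_of_ne hin, Function.update_of_ne (by omega)]
            exact h3 i hi' hiC h0 hpi
        · intro r
          have h4r := h4 r
          have hsum2 : ∑ i ∈ (range (n + 1)).filter (fun i => i ∉ C ∧
              Function.update comp n n i = r), w i =
              ∑ i ∈ (range n).filter (fun i => i ∉ C ∧ comp i = r), w i +
                if n = r then w n else 0 := by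
            rw [sum_filter, sum_range_succ, sum_filter]
            refine congrArg₂ (fun a b => a + b) ?_ ?_
            · refine sum_congr rfl fun i hi => ?_
              have hi' : i < n := mem_range.1 hi
              rw [Function.update_of_ne (by omega)]
            · rw [Function.update_self]
              by_cases hc : n = r
              · rw [if_pos ⟨hnC, hc⟩, if_pos hc]
              · rw [if_neg (fun h => hc h.2), if_neg hc]
          rw [hsum2]
          by_cases hr : n = r
          · rw [if_pos hr]
            have hz : ∑ i ∈ (range n).filter (fun i => i ∉ C ∧ comp i = r), w i = 0 := by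
              refine sum_eq_zero fun i hi => ?_
              obtain ⟨hi1, hi2, hi3⟩ := mem_filter.1 hi
              have hi' : i < n := mem_range.1 hi1
              obtain ⟨a, b, c⟩ := h1 i hi' hi2
              omega
            rw [hz]
            omega
          · rw [if_neg hr]
            exact h4r
      · have hpn : p n < n := hp n (by omega) hn
        obtain ⟨C, comp, hC, hcard, h1, h2, h3, h4⟩ :=
          ih hp' (fun i => w i + if i = p n then w n else 0)
        have hnC : n ∉ C := fun h => by
          have := mem_range.1 (hC h); omega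
        refine ⟨C, Function.update comp n (if p n ∈ C then n else comp (p n)), ?_, ?_, ?_, ?_, ?_, ?_⟩
        · intro x hx
          have := mem_range.1 (hC hx)
          exact mem_range.2 (by omega)
        · refine le_trans hcard ?_
          rw [sum_add_distrib, sum_range_succ]
          refine Nat.add_le_add_left ?_ _
          rw [sum_ite_eq' (range n) (p n) (fun _ => w n)]
          split_ifs <;> omega
        · intro i hi hiC
          by_cases hin : i = n
          · rw [hin, Function.update_self]
            by_cases hpC : p n ∈ C
            · rw [if_pos hpC]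
              exact ⟨hnC, le_refl _, by rw [Function.update_self]⟩
            · rw [if_neg hpC]
              obtain ⟨a, b, c⟩ := h1 (p n) hpn hpC
              refine ⟨a, by omega, ?_⟩
              rw [Function.update_of_ne (by omega), c]
          · have hi' : i < n := by omega
            obtain ⟨a, b, c⟩ := h1 i hi' hiC
            rw [Function.update_of_ne hin]
            refine ⟨a, b, ?_⟩
            rw [Function.update_of_ne (by omega), c]
        · intro i hi hiC hor
          by_cases hin : i = n
          · rw [hin, Function.update_self]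
            rw [hin] at hor
            rcases hor with h | h
            · exact absurd h hn
            · rw [if_pos h]
          · have hi' : i < n := by omega
            rw [Function.update_of_ne hin]
            exact h2 i hi' hiC hor
        · intro i hi hiC h0 hpi
          by_cases hin : i = n
          · rw [hin] at hpi ⊢
            rw [Function.update_self, if_neg hpi, Function.update_of_ne (by omega)]
          · have hi' : i < n := by omega
            have := hp' i hi' h0
            rw [Function.update_of_ne hin, Function.update_of_ne (by omega)]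
            exact h3 i hi' hiC h0 hpi
        · intro r
          have h4r := h4 r
          have hsum : ∑ i ∈ (range n).filter (fun i => i ∉ C ∧ comp i = r),
              (w i + if i = p n then w n else 0) =
              ∑ i ∈ (range n).filter (fun i => i ∉ C ∧ comp i = r), w i +
                if p n ∉ C ∧ comp (p n) = r then w n else 0 := by
            rw [sum_add_distrib]
            refine congrArg (fun t => _ + t) ?_
            rw [sum_ite_eq' _ (p n) (fun _ => w n)]
            by_cases hc : p n ∉ C ∧ comp (p n) = r
            · rw [if_pos hc, if_pos (mem_filter.2 ⟨mem_range.2 hpn, hc⟩)]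
            · have hn' : p n ∉ (range n).filter (fun i => i ∉ C ∧ comp i = r) :=
                fun h => hc (mem_filter.1 h).2
              rw [if_neg hc, if_neg hn']
          rw [hsum] at h4r
          have hsum2 : ∑ i ∈ (range (n + 1)).filter (fun i => i ∉ C ∧
              Function.update comp n (if p n ∈ C then n else comp (p n)) i = r), w i =
              ∑ i ∈ (range n).filter (fun i => i ∉ C ∧ comp i = r), w i +
                if (if p n ∈ C then n else comp (p n)) = r then w n else 0 := by
            rw [sum_filter, sum_range_succ, sum_filter]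
            refine congrArg₂ (fun a b => a + b) ?_ ?_
            · refine sum_congr rfl fun i hi => ?_
              have hi' : i < n := mem_range.1 hi
              rw [Function.update_of_ne (by omega)]
            · rw [Function.update_self]
              by_cases hc : (if p n ∈ C then n else comp (p n)) = r
              · rw [if_pos ⟨hnC, hc⟩, if_pos hc]
              · rw [if_neg (fun h => hc h.2), if_neg hc]
          rw [hsum2]
          by_cases hpC : p n ∈ C
          · rw [if_pos hpC]
            rw [if_neg (fun h => h.1 hpC)] at h4r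
            by_cases hr : n = r
            · rw [if_pos hr]
              have hz : ∑ i ∈ (range n).filter (fun i => i ∉ C ∧ comp i = r), w i = 0 := by
                refine sum_eq_zero fun i hi => ?_
                obtain ⟨hi1, hi2, hi3⟩ := mem_filter.1 hi
                have hi' : i < n := mem_range.1 hi1
                obtain ⟨a, b, c⟩ := h1 i hi' hi2
                omega
              rw [hz]
              omega
            · rw [if_neg hr]
              exact h4r
          · rw [if_neg hpC]
            have he : (if p n ∉ C ∧ comp (p n) = r then w n else 0) =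
                if comp (p n) = r then w n else 0 := by
              by_cases hc : comp (p n) = r
              · rw [if_pos ⟨hpC, hc⟩, if_pos hc]
              · rw [if_neg (fun h => hc h.2), if_neg hc]
            rw [he] at h4r
            exact h4r

private theorem DecB_mem (n : ℕ) (C : Finset ℕ) (comp : ℕ → ℕ) (r i : ℕ) :
    i ∈ (range n).filter (fun i => i ∉ C ∧ comp i = r) ↔ i < n ∧ i ∉ C ∧ comp i = r := by
  simp [Finset.mem_filter]

/-- an increasing enumeration of a finite set -/
private theorem DecB_enum (S : Finset ℕ) : ∃ e : ℕ → ℕ, (∀ j < S.card, e j ∈ S) ∧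
    (∀ i ∈ S, ∃ j < S.card, e j = i) ∧
    (∀ j < S.card, ∀ j' < S.card, e j < e j' → j < j') ∧
    (∀ j < S.card, ∀ j' < S.card, e j = e j' → j = j') := by
  refine ⟨fun j => if h : j < S.card then S.orderEmbOfFin rfl ⟨j, h⟩ else 0, ?_, ?_, ?_, ?_⟩
  · intro j hj
    simp only [hj, dif_pos]
    exact Finset.orderEmbOfFin_mem S rfl _
  · intro i hi
    have h : i ∈ Set.range (S.orderEmbOfFin rfl) := by
      rw [Finset.range_orderEmbOfFin]; exact hi
    obtain ⟨j, hj⟩ := h
    refine ⟨j.1, j.2, ?_⟩
    simp only [j.2, dif_pos]
    exact hj
  · intro j hj j' hj' h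
    simp only [hj, hj', dif_pos] at h
    have := (S.orderEmbOfFin rfl).lt_iff_lt.1 h
    exact this
  · intro j hj j' hj' h
    simp only [hj, hj', dif_pos] at h
    have := (S.orderEmbOfFin rfl).injective h
    exact congrArg Fin.val this

theorem pieces2 (K : ℕ) (hK : 1 ≤ K) (n : ℕ) (p : ℕ → ℕ) (rt : ℕ → Prop)
    (hp : ∀ i, i < n → ¬ rt i → p i < i) :
    ∃ (C R : Finset ℕ) (k : ℕ → ℕ) (e P : ℕ → ℕ → ℕ), C ⊆ range n ∧ C.card * K ≤ n ∧
      (∀ r ∈ R, 1 ≤ k r ∧ k r ≤ K) ∧
      (∀ r ∈ R, ∀ j < k r, e r j < n ∧ e r j ∉ C) ∧
      (∀ i < n, i ∉ C → ∃ r ∈ R, ∃ j < k r, e r j = i) ∧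
      (∀ r ∈ R, ∀ r' ∈ R, ∀ j < k r, ∀ j' < k r', e r j = e r' j' → r = r' ∧ j = j') ∧
      (∀ r ∈ R, ∀ j, 0 < j → j < k r → ¬ rt (e r j) ∧ P r j < j ∧ e r (P r j) = p (e r j)) ∧
      ∀ r ∈ R, rt (e r 0) ∨ p (e r 0) ∈ C := by
  obtain ⟨C, comp, hCn, hCc, h1, h2, h3, h4⟩ := dec2 K hK n p rt hp (fun _ => 1)
  set Pc : ℕ → Finset ℕ := fun r => (range n).filter (fun i => i ∉ C ∧ comp i = r) with hPc
  have hmem : ∀ r i, i ∈ Pc r ↔ i < n ∧ i ∉ C ∧ comp i = r := fun r i => DecB_mem n C comp r i
  choose e he1 he2 he3 he4 using fun r => DecB_enum (Pc r)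
  set R : Finset ℕ := (range n).filter (fun i => i ∉ C ∧ comp i = i) with hR
  have hRm : ∀ r, r ∈ R ↔ r < n ∧ r ∉ C ∧ comp r = r := by
    intro r; simp [hR, Finset.mem_filter]
  have hself : ∀ r ∈ R, r ∈ Pc r := fun r hr => (hmem r r).2 ((hRm r).1 hr)
  have hpos : ∀ r ∈ R, 1 ≤ (Pc r).card := fun r hr => Finset.card_pos.2 ⟨r, hself r hr⟩
  have hge : ∀ r, ∀ i ∈ Pc r, r ≤ i := by
    intro r i hi
    obtain ⟨hi1, hi2, hi3⟩ := (hmem r i).1 hi
    have := (h1 i hi1 hi2).2.1
    omega
  have he0 : ∀ r ∈ R, e r 0 = r := by
    intro r hr
    obtain ⟨j, hj, hje⟩ := he2 r r (hself r hr)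
    have h0 := hge r _ (he1 r 0 (hpos r hr))
    rcases Nat.lt_or_ge r (e r 0) with h | h
    · have := he3 r j hj 0 (hpos r hr) (by rw [hje]; exact h)
      omega
    · omega
  have hpar : ∀ r ∈ R, ∀ j, 0 < j → j < (Pc r).card →
      ¬ rt (e r j) ∧ ∃ j', j' < j ∧ e r j' = p (e r j) := by
    intro r hr j hj0 hj
    have hi := he1 r j hj
    obtain ⟨hi1, hi2, hi3⟩ := (hmem r _).1 hi
    have hne : e r j ≠ r := by
      intro h
      have := he4 r j hj 0 (hpos r hr) (by rw [h, he0 r hr])
      omega
    have hci : comp (e r j) ≠ e r j := by rw [hi3]; exact fun h => hne h.symm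
    have hi0 : ¬ rt (e r j) := fun h => hci (h2 _ hi1 hi2 (Or.inl h))
    have hpC : p (e r j) ∉ C := fun h => hci (h2 _ hi1 hi2 (Or.inr h))
    have hlt := hp _ hi1 hi0
    have hcp := h3 _ hi1 hi2 hi0 hpC
    have hpm : p (e r j) ∈ Pc r := (hmem r _).2 ⟨by omega, hpC, by rw [← hcp, hi3]⟩
    obtain ⟨j', hj', hje'⟩ := he2 r _ hpm
    exact ⟨hi0, j', he3 r j' hj' j hj (by rw [hje']; exact hlt), hje'⟩
  refine ⟨C, R, fun r => (Pc r).card, e,
    fun r j => if h : ∃ j', j' < j ∧ e r j' = p (e r j) then h.choose else 0, hCn, ?_, ?_, ?_, ?_,
    ?_, ?_, ?_⟩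
  · simpa using hCc
  · intro r hr
    refine ⟨hpos r hr, ?_⟩
    have := h4 r
    simpa using this
  · intro r hr j hj
    have := (hmem r _).1 (he1 r j hj)
    exact ⟨this.1, this.2.1⟩
  · intro i hi hiC
    obtain ⟨ha, hb, hc⟩ := h1 i hi hiC
    refine ⟨comp i, (hRm _).2 ⟨by omega, ha, hc⟩, ?_⟩
    exact he2 (comp i) i ((hmem _ _).2 ⟨hi, hiC, rfl⟩)
  · intro r hr r' hr' j hj j' hj' h
    have ha := ((hmem r _).1 (he1 r j hj)).2.2
    have hb := ((hmem r' _).1 (he1 r' j' hj')).2.2
    have hrr : r = r' := by rw [← ha, h, hb]
    subst hrr
    exact ⟨rfl, he4 r j hj j' hj' h⟩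
  · intro r hr j hj0 hj
    obtain ⟨h0, h⟩ := hpar r hr j hj0 hj
    refine ⟨h0, ?_⟩
    simp only [h, dif_pos]
    exact h.choose_spec
  · intro r hr
    rw [he0 r hr]
    obtain ⟨hr1, hr2, hr3⟩ := (hRm r).1 hr
    by_contra hcon
    push Not at hcon
    have hc := h3 r hr1 hr2 hcon.1 hcon.2
    have hlt := hp r hr1 hcon.1
    have := (h1 (p r) (by omega) hcon.2).2.1
    omega

theorem alloc2 {J β : Type} [Fintype J] (s : J → ℕ) (W : Finset β) (h : ∑ j, s j ≤ W.card) :
    ∃ K : J → Finset β, (∀ j, K j ⊆ W) ∧ (∀ j, (K j).card = s j) ∧
      ∀ j j', j ≠ j' → Disjoint (K j) (K j') := by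
  have hc : Fintype.card (Σ j, Fin (s j)) ≤ Fintype.card W := by
    simpa using h
  obtain ⟨f⟩ := Function.Embedding.nonempty_of_card_le hc
  refine ⟨fun j => (Finset.univ : Finset (Fin (s j))).image (fun x => (f ⟨j, x⟩ : β)), ?_, ?_, ?_⟩
  · intro j x hx
    obtain ⟨a, -, ha⟩ := Finset.mem_image.1 hx
    rw [← ha]
    exact (f ⟨j, a⟩).2
  · intro j
    rw [Finset.card_image_of_injective]
    · simp
    · intro x y hxy
      have := f.injective (Subtype.ext hxy)
      simpa using this
  · intro j j' hjj
    rw [Finset.disjoint_left]
    intro x hx hx'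
    obtain ⟨a, -, ha⟩ := Finset.mem_image.1 hx
    obtain ⟨b, -, hb⟩ := Finset.mem_image.1 hx'
    have := f.injective (Subtype.ext (ha.trans hb.symm))
    exact hjj (congrArg Sigma.fst this)

end Pool.Agent.H60.HM
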