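import Pool.Agent.H60.HL.Defs

/-!
# HM: harmonious labellings of all bounded degree trees of large order.  Definitions

`G` is a finite abelian group (in the end `ZMod q`), `q = card G`, `e : G` is a fixed nonzero element
(in the end `1`).  Pairs `{x, x + e}` play the main role.
-/

namespace Pool.Agent.H60.HM

open Finset Classical Pool.Agent.H60.HL

section

variable {G : Type} [AddCommGroup G]

/-- The starts `x` of the pairs `{x, x + e}` with colours in `K` and `K'`. -/
noncomputable def dcl [Fintype G] {M : ℕ} (f : G → Fin M) (e : G) (K K' : Finset (Fin M)) :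
    Finset G :=
  univ.filter fun x => f x ∈ K ∧ f (x + e) ∈ K'

/-- The ideal sets of the three types: starts of pairs of labels, starts of pairs of labels (usually
with `K' 1 = univ`), negatives of the starts of pairs of sums. -/
noncomputable def cls2 [Fintype G] {M : ℕ} (χ : Bool → G → Fin M) (e : G)
    (K K' : Fin 3 → Finset (Fin M)) : Fin 3 → Finset G :=
  fun i => if i = 2 then univ.filter (fun x => χ false (-x) ∈ K 2 ∧ χ false (-x + e) ∈ K' 2)
    else univ.filter (fun x => χ true x ∈ K i ∧ χ true (x + e) ∈ K' i)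

/-- The offset of a vertex: a double vertex `i` (`mk i`) carries the two labels `g i`, `g i + e`; its
children are attached at `g i + e`. -/
noncomputable def off (e : G) (mk : ℕ → Prop) (i : ℕ) : G := if mk i then e else 0

/-- The sum of the edge from `j` to its parent. -/
noncomputable def es (e : G) (mk : ℕ → Prop) (p : ℕ → ℕ) (g : ℕ → G) (j : ℕ) : G :=
  g j + g (p j) + off e mk (p j)

/-- All the labels of the vertices of `W` are different. -/
def LabInj (e : G) (mk : ℕ → Prop) (W : Finset ℕ) (g : ℕ → G) : Prop :=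
  Set.InjOn g (W : Set ℕ) ∧ ∀ i ∈ W, ∀ j ∈ W, mk j → g i ≠ g j + e

/-- All the sums of the edges in `W` are different (`rt i`: the vertex `i` is a root). -/
def EdgeInj (e : G) (mk rt : ℕ → Prop) (p : ℕ → ℕ) (W : Finset ℕ) (g : ℕ → G) : Prop :=
  ∀ i ∈ W, ∀ j ∈ W, ¬ rt i → ¬ rt j → p i ∈ W → p j ∈ W →
    es e mk p g i = es e mk p g j → i = j

/-- Parity: a homomorphism to `ZMod 2` whose kernel consists of doubles. -/
def Par (e : G) (par : G →+ ZMod 2) : Prop :=
  (∀ g, par g = 0 → ∃ h, h + h = g) ∧ (par = 0 ∨ par e = 1)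

end

/-- The sums of a connector: `inl (i, false)` is the start `s i`, `inl (i, true)` is `s i + e`, `inr i`
is the junk sum `w i`. -/
def fs {G : Type} [AddCommGroup G] (e : G) (s : Fin 4 → G) (w : Fin 3 → G) :
    (Fin 4 × Bool) ⊕ Fin 3 → G
  | Sum.inl (i, b) => s i + (if b then e else 0)
  | Sum.inr i => w i

/-- The order of the sums in a connector. -/
def cd : Fin 11 → (Fin 4 × Bool) ⊕ Fin 3 :=
  ![Sum.inl (0, false), Sum.inl (1, false), Sum.inl (0, true), Sum.inl (2, false),
    Sum.inl (3, false), Sum.inl (1, true), Sum.inl (3, true), Sum.inr 0, Sum.inr 1, Sum.inr 2,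
    Sum.inl (2, true)]

theorem cd_injective : Function.Injective cd := by decide

/-- The kinds of edges: `ed j` from `j` to its parent, `pd i b` from the pending vertex of the double
vertex `i` to one of its two neighbours, `cn k r` an edge of the connector `k`, `lf` the edge of the
last leaf. -/
inductive Ed (N : ℕ) : Type
  | ed (j : ℕ) : Ed N
  | pd (i : ℕ) (b : Bool) : Ed N
  | cn (k : Fin N) (r : Fin 11) : Ed N
  | lf : Ed N

/-- Which edges exist. -/
def Ed.ok {N : ℕ} (I : Finset ℕ) (rt mk : ℕ → Prop) : Ed N → Prop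
  | .ed j => j ∈ I ∧ ¬ rt j
  | .pd i _ => i ∈ I ∧ mk i
  | .cn _ _ => True
  | .lf => True

/-- The sums of the edges. -/
noncomputable def Esum {G : Type} [AddCommGroup G] {N : ℕ} (e : G) (mk : ℕ → Prop) (p : ℕ → ℕ)
    (g y : ℕ → G) (c : Fin N → Fin 12 → G) (l : G) (z : ℕ) : Ed N → G
  | .ed j => es e mk p g j
  | .pd i b => g i + (if b then e else 0) + y i
  | .cn k r => c k r.castSucc + c k r.succ
  | .lf => g z + l

/-- The structure (vertices `I`, parents `p`, roots `rt`, double vertices `mk`, connectors between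
`a k` and `b k`, a last leaf at `z`) has a labelling with different sums and all labels. -/
def Lbl {G : Type} [AddCommGroup G] (e : G) (I : Finset ℕ) (p : ℕ → ℕ) (rt mk : ℕ → Prop)
    {N : ℕ} (a b : Fin N → ℕ) (z : ℕ) : Prop :=
  ∃ (g y : ℕ → G) (c : Fin N → Fin 12 → G) (l : G),
    (∀ k, c k 0 = g (a k) ∧ c k 11 = g (b k)) ∧
    (∀ x y' : Ed N, x.ok I rt mk → y'.ok I rt mk →
      Esum e mk p g y c l z x = Esum e mk p g y c l z y' → x = y') ∧
    ∀ t : G, (∃ i ∈ I, g i = t) ∨ (∃ i ∈ I, mk i ∧ g i + e = t) ∨ (∃ i ∈ I, mk i ∧ y i = t) ∨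
      (∃ k, ∃ r : Fin 12, 0 < r ∧ r < 11 ∧ c k r = t) ∨ l = t

end Pool.Agent.H60.HM
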