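import Pool.Agent.H60.HM.Defs

/-!
# HM-15 GrB: greedy extension of a partial embedding

Compare the finished file `Pool/Agent/H60/HL/TrD.lean` (`greedy_ext`).
Induction on `m ≤ n`: there is `g` which satisfies all the conclusions for the vertex set
`V' = V1 ∪ range m` in the place of `range n` (labels `LabInj e mk V' g`, sums `EdgeInj e mk rt p V' g`, new labels in
`RL`, new sums in `RS`), `g = g1` on `V1`.  Step from `m` to `m + 1`, `v = m ∉ V1` (if `m ∈ V1` nothing has to be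
done).  The neighbours of `v` in `V'` are `p v` (if `v` is not a root; `p v < v`) and the children `w ∈ V1`,
`¬ rt w`, `p w = v`; if `mk v` there are no such children by `h7`.  In the first case the sum of the edge is
`t + r` with `r = g (p v) + off e mk (p v)`; for a child `w` of `v`, `¬ mk v`, the sum is `g w + t`, `r = g w`
(`off e mk v = 0`).  Let `D` be the set of these `r`, `D.card ≤ Δ + 1`; different neighbours have different
`r` (`LabInj`; `g w` and `g (p v) + off` are labels of different vertices).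
At least `c` of the `t ∈ RL` satisfy `t + e ∈ RL` and `r + t ∈ RS` for all `r ∈ D`.  Let `u = ((range n) \ V1).card`.
Exclude the `t` with `t = g w`, `t = g w + e` or `t = g w - e` for some `w ∈ V' \ V1`: at most `3 u` values.
Then `t` (and `t + e`, if `mk v`) is different from all labels `g w`, `g w + e` (if `mk w`): for `w ∈ V1` by `h3`, as
`t, t + e ∈ RL`.  Exclude the `t` with `r + t = es e mk p g i` for an `r ∈ D` and an edge `i` (`i, p i ∈ V'`) whose sum
is in `RS`: by `h4` `i ∉ V1` or `p i ∉ V1`, at most `(Δ + 1) u` values of `i`, so at most `(Δ + 1)² u` values of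
`t`.  As `u (3 + (Δ + 1)²) < c` a good `t` exists; put `g v = t`.
The new edges have different sums `r + t`, also different from the old sums.
-/

namespace Pool.Agent.H60.HM

open Finset Classical Pool.Agent.H60.HL

private theorem GrB_step {G : Type} [AddCommGroup G] [Fintype G] (e : G) (he : e ≠ 0) (Δ n : ℕ)
    (p : ℕ → ℕ) (rt mk : ℕ → Prop) (hp : ∀ i, i < n → ¬ rt i → p i < i)
    (hΔ : ∀ i, ((range n).filter fun j => ¬ rt j ∧ p j = i).card ≤ Δ) (RL RS : Finset G)
    (V1 V' : Finset ℕ) (hV' : V' ⊆ range n) (hsub : V1 ⊆ V') (v : ℕ) (hvn : v < n)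
    (hvV : v ∉ V') (g : ℕ → G)
    (hg1 : ∀ i ∈ V1, g i ∉ RL ∧ (mk i → g i + e ∉ RL)) (hlab : LabInj e mk V' g)
    (hsum : EdgeInj e mk rt p V' g)
    (hV1 : ∀ i ∈ V1, ¬ rt i → p i ∈ V1 → es e mk p g i ∉ RS)
    (hRL : ∀ i ∈ V', i ∉ V1 → g i ∈ RL ∧ g i + e ∈ RL)
    (hRS : ∀ i ∈ V', ¬ rt i → p i ∈ V' → (i ∉ V1 ∨ p i ∉ V1) → es e mk p g i ∈ RS)
    (c : ℕ) (h5 : ∀ D : Finset G, D.card ≤ Δ + 1 →
      c ≤ (RL.filter fun t => t + e ∈ RL ∧ ∀ r ∈ D, r + t ∈ RS).card)
    (h6 : (V' \ V1).card * (3 + (Δ + 1) ^ 2) < c)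
    (h7 : mk v → ∀ w ∈ V', ¬ rt w → p w ≠ v) :
    ∃ g' : ℕ → G, (∀ i ∈ V', g' i = g i) ∧ LabInj e mk (insert v V') g' ∧
      EdgeInj e mk rt p (insert v V') g' ∧
      (∀ i ∈ insert v V', i ∉ V1 → g' i ∈ RL ∧ g' i + e ∈ RL) ∧
      ∀ i ∈ insert v V', ¬ rt i → p i ∈ insert v V' → (i ∉ V1 ∨ p i ∉ V1) →
        es e mk p g' i ∈ RS := by
  have hvV1 : v ∉ V1 := fun h => hvV (hsub h)
  obtain ⟨W, hW⟩ : ∃ W, W = V' \ V1 := ⟨_, rfl⟩
  have hmemW : ∀ i, i ∈ W ↔ i ∈ V' ∧ i ∉ V1 := by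
    intro i
    rw [hW, mem_sdiff]
  -- the new summands
  obtain ⟨N, hNdef⟩ : ∃ N, N = V'.filter (fun w => ¬ rt w ∧ p w = v) := ⟨_, rfl⟩
  have hmemN : ∀ w, w ∈ N ↔ w ∈ V' ∧ ¬ rt w ∧ p w = v := by
    intro w
    rw [hNdef, mem_filter]
  have hN : N.card ≤ Δ := by
    refine le_trans (card_le_card ?_) (hΔ v)
    intro w hw
    rw [hmemN] at hw
    rw [mem_filter]
    exact ⟨hV' hw.1, hw.2⟩
  obtain ⟨D, hDdef⟩ : ∃ D, D = insert (g (p v) + off e mk (p v)) (N.image g) := ⟨_, rfl⟩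
  have hD : D.card ≤ Δ + 1 := by
    rw [hDdef]
    exact (card_insert_le _ _).trans (Nat.add_le_add_right (card_image_le.trans hN) 1)
  obtain ⟨E, hEdef⟩ : ∃ E, E = V'.filter (fun i => ¬ rt i ∧ p i ∈ V' ∧ (i ∉ V1 ∨ p i ∉ V1)) :=
    ⟨_, rfl⟩
  have hmemE : ∀ i, i ∈ E ↔ i ∈ V' ∧ ¬ rt i ∧ p i ∈ V' ∧ (i ∉ V1 ∨ p i ∉ V1) := by
    intro i
    rw [hEdef, mem_filter]
  have hE : E.card ≤ W.card * (Δ + 1) := by
    have h : E ⊆ W ∪ W.biUnion (fun w => (range n).filter fun j => ¬ rt j ∧ p j = w) := by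
      intro i hi
      rw [hmemE] at hi
      obtain ⟨hiV, hi0, hpi, hor⟩ := hi
      rw [mem_union, mem_biUnion]
      rcases hor with h | h
      · exact Or.inl ((hmemW i).2 ⟨hiV, h⟩)
      · refine Or.inr ⟨p i, (hmemW _).2 ⟨hpi, h⟩, ?_⟩
        rw [mem_filter]
        exact ⟨hV' hiV, hi0, rfl⟩
    calc E.card ≤ (W ∪ W.biUnion (fun w => (range n).filter fun j => ¬ rt j ∧ p j = w)).card :=
          card_le_card h
      _ ≤ W.card + (W.biUnion (fun w => (range n).filter fun j => ¬ rt j ∧ p j = w)).card :=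
          card_union_le _ _
      _ ≤ W.card + W.card * Δ :=
          Nat.add_le_add_left (card_biUnion_le_card_mul _ _ _ fun w _ => hΔ w) _
      _ = W.card * (Δ + 1) := by ring
  obtain ⟨B, hBdef⟩ : ∃ B, B = ((W.image g ∪ W.image (fun w => g w + e)) ∪
      W.image (fun w => g w - e)) ∪
      (D ×ˢ E).image (fun x => es e mk p g x.2 - x.1) := ⟨_, rfl⟩
  have hB : B.card ≤ W.card * (3 + (Δ + 1) ^ 2) := by
    rw [hBdef]
    calc _ ≤ ((W.image g ∪ W.image (fun w => g w + e)) ∪ W.image (fun w => g w - e)).card +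
          ((D ×ˢ E).image (fun x => es e mk p g x.2 - x.1)).card := card_union_le _ _
      _ ≤ ((W.card + W.card) + W.card) + (D ×ˢ E).card := by
          refine Nat.add_le_add ?_ card_image_le
          refine (card_union_le _ _).trans (Nat.add_le_add ?_ card_image_le)
          exact (card_union_le _ _).trans (Nat.add_le_add card_image_le card_image_le)
      _ = ((W.card + W.card) + W.card) + D.card * E.card := by rw [card_product]
      _ ≤ ((W.card + W.card) + W.card) + (Δ + 1) * (W.card * (Δ + 1)) :=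
          Nat.add_le_add_left (Nat.mul_le_mul hD hE) _
      _ = W.card * (3 + (Δ + 1) ^ 2) := by ring
  obtain ⟨t, htT, htB⟩ : ∃ t ∈ RL.filter (fun t => t + e ∈ RL ∧ ∀ r ∈ D, r + t ∈ RS), t ∉ B := by
    apply exists_mem_notMem_of_card_lt_card
    refine lt_of_le_of_lt hB ?_
    rw [hW]
    exact lt_of_lt_of_le h6 (h5 D hD)
  rw [mem_filter] at htT
  obtain ⟨htRL, htRLe, htRS⟩ := htT
  rw [hBdef, mem_union, mem_union, mem_union, not_or, not_or, not_or] at htB
  obtain ⟨⟨⟨htB1, htB2⟩, htB3⟩, htB4⟩ := htB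
  have hDp : g (p v) + off e mk (p v) + t ∈ RS := by
    apply htRS
    rw [hDdef]
    exact mem_insert_self _ _
  have hDg : ∀ w ∈ N, g w + t ∈ RS := by
    intro w hw
    apply htRS
    rw [hDdef]
    exact mem_insert_of_mem (mem_image_of_mem g hw)
  -- new sums differ from the old sums
  have hnew : ∀ r ∈ D, ∀ i ∈ V', ¬ rt i → p i ∈ V' → r + t ≠ es e mk p g i := by
    intro r hr i hi hi0 hpi h
    have hiE : i ∈ E := by
      rw [hmemE]
      refine ⟨hi, hi0, hpi, ?_⟩
      by_contra hcon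
      rw [not_or, not_not, not_not] at hcon
      apply hV1 i hcon.1 hi0 hcon.2
      rw [← h]
      exact htRS r hr
    apply htB4
    rw [mem_image]
    refine ⟨(r, i), mem_product.2 ⟨hr, hiE⟩, ?_⟩
    show es e mk p g i - r = t
    rw [← h]
    abel
  have hne : ∀ w ∈ V', g w ≠ t := by
    intro w hw h
    by_cases hw1 : w ∈ V1
    · apply (hg1 w hw1).1
      rw [h]
      exact htRL
    · apply htB1
      rw [mem_image]
      exact ⟨w, (hmemW w).2 ⟨hw, hw1⟩, h⟩
  have hne2 : ∀ w ∈ V', mk w → t ≠ g w + e := by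
    intro w hw hm h
    by_cases hw1 : w ∈ V1
    · apply (hg1 w hw1).2 hm
      rw [← h]
      exact htRL
    · apply htB2
      rw [mem_image]
      exact ⟨w, (hmemW w).2 ⟨hw, hw1⟩, h.symm⟩
  have hne3 : ∀ w ∈ V', g w ≠ t + e := by
    intro w hw h
    by_cases hw1 : w ∈ V1
    · apply (hg1 w hw1).1
      rw [h]
      exact htRLe
    · apply htB3
      rw [mem_image]
      exact ⟨w, (hmemW w).2 ⟨hw, hw1⟩, by rw [h, add_sub_cancel_right]⟩
  have hupd : ∀ i ∈ V', Function.update g v t i = g i := by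
    intro i hi
    apply Function.update_of_ne
    rintro rfl
    exact hvV hi
  have hupv : Function.update g v t v = t := Function.update_self _ _ _
  -- the edges of `insert v V'`
  have hcase : ∀ i ∈ insert v V', ¬ rt i → p i ∈ insert v V' →
      (i ∈ V' ∧ p i ∈ V' ∧ es e mk p (Function.update g v t) i = es e mk p g i) ∨
      (i = v ∧ p v ∈ V' ∧ es e mk p (Function.update g v t) i =
        (g (p v) + off e mk (p v)) + t) ∨
      (i ∈ N ∧ p i = v ∧ es e mk p (Function.update g v t) i = g i + t) := by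
    intro i hi hi0 hpi
    rw [mem_insert] at hi hpi
    rcases hi with hi | hi
    · right; left
      subst hi
      have hlt := hp i hvn hi0
      have hpV : p i ∈ V' := hpi.resolve_left (by omega)
      refine ⟨rfl, hpV, ?_⟩
      unfold es
      rw [hupv, hupd _ hpV]
      abel
    · rcases hpi with hpi | hpi
      · right; right
        refine ⟨(hmemN _).2 ⟨hi, hi0, hpi⟩, hpi, ?_⟩
        have hm : ¬ mk v := fun hm => h7 hm i hi hi0 hpi
        unfold es
        rw [hpi, hupv, hupd _ hi]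
        unfold off
        rw [if_neg hm, add_zero]
      · left
        refine ⟨hi, hpi, ?_⟩
        unfold es
        rw [hupd _ hi, hupd _ hpi]
  have hNV : ∀ w ∈ N, w ∈ V' := fun w hw => ((hmemN w).1 hw).1
  have hND : ∀ w ∈ N, g w ∈ D := by
    intro w hw
    rw [hDdef]
    exact mem_insert_of_mem (mem_image_of_mem g hw)
  have hpD : g (p v) + off e mk (p v) ∈ D := by
    rw [hDdef]
    exact mem_insert_self _ _
  -- the parent and a child
  have hpc : ∀ w ∈ N, ¬ rt v → p v ∈ V' → g (p v) + off e mk (p v) ≠ g w := by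
    intro w hw hv hpv h
    unfold off at h
    split_ifs at h with hm
    · exact hlab.2 w (hNV w hw) (p v) hpv hm h.symm
    · rw [add_zero] at h
      have h1 : p v = w := hlab.1 (mem_coe.2 hpv) (mem_coe.2 (hNV w hw)) h
      obtain ⟨hwV, hw0, hpw⟩ := (hmemN w).1 hw
      have h2 := hp v hvn hv
      have h3 := hp w (mem_range.1 (hV' hwV)) hw0
      omega
  refine ⟨Function.update g v t, hupd, ⟨?_, ?_⟩, ?_, ?_, ?_⟩
  · intro i hi j hj hij
    rw [mem_coe, mem_insert] at hi hj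
    rcases hi with hi | hi
    · rcases hj with hj | hj
      · rw [hi, hj]
      · rw [hi, hupv, hupd j hj] at hij
        exact absurd hij.symm (hne j hj)
    · rcases hj with hj | hj
      · rw [hj, hupv, hupd i hi] at hij
        exact absurd hij (hne i hi)
      · rw [hupd i hi, hupd j hj] at hij
        exact hlab.1 hi hj hij
  · intro i hi j hj hm
    rw [mem_insert] at hi hj
    rcases hi with hi | hi
    · rcases hj with hj | hj
      · rw [hi, hj, hupv]
        intro h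
        exact he (left_eq_add.1 h)
      · rw [hi, hupv, hupd j hj]
        exact hne2 j hj hm
    · rcases hj with hj | hj
      · rw [hj, hupv, hupd i hi]
        exact hne3 i hi
      · rw [hupd i hi, hupd j hj]
        exact hlab.2 i hi j hj hm
  · intro i hi j hj hi0 hj0 hpi hpj hij
    rcases hcase i hi hi0 hpi with ⟨a1, a2, a3⟩ | ⟨a1, a2, a3⟩ | ⟨a1, a2, a3⟩ <;>
      rcases hcase j hj hj0 hpj with ⟨b1, b2, b3⟩ | ⟨b1, b2, b3⟩ | ⟨b1, b2, b3⟩ <;>
      rw [a3, b3] at hij
    · exact hsum i a1 j b1 hi0 hj0 a2 b2 hij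
    · exact absurd hij.symm (hnew _ hpD i a1 hi0 a2)
    · exact absurd hij.symm (hnew _ (hND _ b1) i a1 hi0 a2)
    · exact absurd hij (hnew _ hpD j b1 hj0 b2)
    · rw [a1, b1]
    · exfalso
      rw [a1] at hi0
      exact hpc j b1 hi0 a2 (add_right_cancel hij)
    · exact absurd hij (hnew _ (hND _ a1) j b1 hj0 b2)
    · exfalso
      rw [b1] at hj0
      exact hpc i a1 hj0 b2 (add_right_cancel hij).symm
    · exact hlab.1 (mem_coe.2 (hNV _ a1)) (mem_coe.2 (hNV _ b1)) (add_right_cancel hij)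
  · intro i hi hi1
    rw [mem_insert] at hi
    rcases hi with hi | hi
    · rw [hi, hupv]
      exact ⟨htRL, htRLe⟩
    · rw [hupd i hi]
      exact hRL i hi hi1
  · intro i hi hi0 hpi hor
    rcases hcase i hi hi0 hpi with ⟨a1, a2, a3⟩ | ⟨a1, a2, a3⟩ | ⟨a1, a2, a3⟩
    · rw [a3]
      exact hRS i a1 hi0 a2 hor
    · rw [a3]
      exact hDp
    · rw [a3]
      exact hDg _ a1

theorem greedy_ext2 {G : Type} [AddCommGroup G] [Fintype G] (e : G) (he : e ≠ 0) (Δ n : ℕ)
    (p : ℕ → ℕ) (rt mk : ℕ → Prop) (hp : ∀ i, i < n → ¬ rt i → p i < i)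
    (hΔ : ∀ i, ((range n).filter fun j => ¬ rt j ∧ p j = i).card ≤ Δ) (RL RS : Finset G)
    (V1 : Finset ℕ) (hV1 : V1 ⊆ range n) (g1 : ℕ → G) (h1 : LabInj e mk V1 g1)
    (h2 : EdgeInj e mk rt p V1 g1)
    (h3 : ∀ i ∈ V1, g1 i ∉ RL ∧ (mk i → g1 i + e ∉ RL))
    (h4 : ∀ i ∈ V1, ¬ rt i → p i ∈ V1 → es e mk p g1 i ∉ RS)
    (c : ℕ) (h5 : ∀ D : Finset G, D.card ≤ Δ + 1 →
      c ≤ (RL.filter fun t => t + e ∈ RL ∧ ∀ r ∈ D, r + t ∈ RS).card)
    (h6 : ((range n) \ V1).card * (3 + (Δ + 1) ^ 2) < c)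
    (h7 : ∀ v ∈ (range n) \ V1, mk v → ∀ w ∈ V1, ¬ rt w → p w ≠ v) :
    ∃ g : ℕ → G, (∀ i ∈ V1, g i = g1 i) ∧ LabInj e mk (range n) g ∧
      EdgeInj e mk rt p (range n) g ∧
      (∀ i ∈ range n, i ∉ V1 → g i ∈ RL ∧ g i + e ∈ RL) ∧
      ∀ i ∈ range n, ¬ rt i → (i ∉ V1 ∨ p i ∉ V1) → es e mk p g i ∈ RS := by
  have key : ∀ m : ℕ, m ≤ n → ∃ g : ℕ → G, (∀ i ∈ V1, g i = g1 i) ∧
      LabInj e mk (V1 ∪ range m) g ∧ EdgeInj e mk rt p (V1 ∪ range m) g ∧
      (∀ i ∈ V1 ∪ range m, i ∉ V1 → g i ∈ RL ∧ g i + e ∈ RL) ∧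
      ∀ i ∈ V1 ∪ range m, ¬ rt i → p i ∈ V1 ∪ range m → (i ∉ V1 ∨ p i ∉ V1) →
        es e mk p g i ∈ RS := by
    intro m
    induction m with
    | zero =>
      intro _
      rw [range_zero, union_empty]
      refine ⟨g1, fun _ _ => rfl, h1, h2, fun i hi hi' => absurd hi hi', ?_⟩
      intro i hi _ hpi hor
      rcases hor with h | h
      · exact absurd hi h
      · exact absurd hpi h
    | succ m ih =>
      intro hm
      obtain ⟨g, e1, e2, e3, e4, e5⟩ := ih (by omega)
      rw [range_add_one, union_insert]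
      by_cases hmV : m ∈ V1
      · rw [insert_eq_of_mem (mem_union_left _ hmV)]
        exact ⟨g, e1, e2, e3, e4, e5⟩
      have hsubn : V1 ∪ range m ⊆ range n := by
        apply union_subset hV1
        intro x hx
        rw [mem_range] at hx ⊢
        omega
      have hvV : m ∉ V1 ∪ range m := by
        rw [mem_union, not_or, mem_range]
        exact ⟨hmV, lt_irrefl m⟩
      have hcard : ((V1 ∪ range m) \ V1).card * (3 + (Δ + 1) ^ 2) < c := by
        refine lt_of_le_of_lt (Nat.mul_le_mul_right _ ?_) h6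
        apply card_le_card
        exact sdiff_subset_sdiff hsubn (Subset.refl _)
      have hlab1 : ∀ i ∈ V1, g i ∉ RL ∧ (mk i → g i + e ∉ RL) := by
        intro i hi
        rw [e1 i hi]
        exact h3 i hi
      have hes1 : ∀ i ∈ V1, ¬ rt i → p i ∈ V1 → es e mk p g i ∉ RS := by
        intro i hi hi0 hpi
        have h8 : es e mk p g i = es e mk p g1 i := by
          unfold es
          rw [e1 i hi, e1 _ hpi]
        rw [h8]
        exact h4 i hi hi0 hpi
      have h7' : mk m → ∀ w ∈ V1 ∪ range m, ¬ rt w → p w ≠ m := by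
        intro hmk w hw hw0 hpw
        have hwn := mem_range.1 (hsubn hw)
        have hlt := hp w hwn hw0
        rw [mem_union, mem_range] at hw
        rcases hw with hw | hw
        · exact h7 m (mem_sdiff.2 ⟨mem_range.2 (by omega), hmV⟩) hmk w hw hw0 hpw
        · omega
      obtain ⟨g', f0, f1, f2, f3, f4⟩ := GrB_step e he Δ n p rt mk hp hΔ RL RS V1
        (V1 ∪ range m) hsubn subset_union_left m (by omega) hvV g hlab1 e2 e3 hes1 e4 e5 c h5
        hcard h7'
      exact ⟨g', fun i hi => by rw [f0 i (mem_union_left _ hi), e1 i hi], f1, f2, f3, f4⟩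
  obtain ⟨g, e1, e2, e3, e4, e5⟩ := key n le_rfl
  have hu : V1 ∪ range n = range n := union_eq_right.2 hV1
  rw [hu] at e2 e3 e4 e5
  refine ⟨g, e1, e2, e3, e4, ?_⟩
  intro i hi hi0 hor
  refine e5 i hi hi0 ?_ hor
  have h8 := hp i (mem_range.1 hi) hi0
  rw [mem_range] at hi ⊢
  omega

end Pool.Agent.H60.HM
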