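import Pool.Agent.H60.HM.Defs

/-!
# HM-01 RndB: consequences of randomness for pairs

Adapt the finished file `Pool/Agent/H60/HL/RndUse.lean` (same statements for `cls` instead of `cls2`).

A condition `k + t ∈ cls2 χ e K K' i` (`i = 0, 1`) is the pair of conditions `χ true (k + t) ∈ K i`,
`χ true (k + e + t) ∈ K' i`: the places `(true, true, k)`, `(true, true, k + e)`; with the sign `-`:
`(true, false, k)`, `(true, false, k + e)`, as `(k - t) + e = (k + e) - t`; in general
`pt s k t + e = pt s (k + e) t`.  For `i = 2` the condition on `x = pt s k t` is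
`χ false (-x) ∈ K 2`, `χ false (-x + e) ∈ K' 2`, and `- pt s k t = pt (!s) (-k) t`: the places
`(false, !s, -k)`, `(false, !s, -k + e)`.  Two such pairs of places of the same space and sign with
shifts `k`, `k'` are disjoint iff `k - k' ∉ {0, e, -e}`, and the two places of a pair are different as
`e ≠ 0`.
`cls2_card`: `Rnd` with the two places `(true, true, 0)`, `(true, true, e)` (resp. `false`; `x ↦ -x`).
`qr_of_rnd2`: (1) `cls2_card` and `|κ i * κ' i - ρ| ≤ η` (`κ i = (K i).card / M`).  (2) for
`i = 2`: the number of the `t` with `t ∈ A 0`, `-x - t ∈ A 1`: four places `(true, true, 0)`,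
`(true, true, e)`, `(true, false, -x)`, `(true, false, -x + e)`; for `i = 0`: `t ∈ A 1`, `-x - t ∈ A 2` iff
`χ false (x + t) ∈ K 2`, `χ false (x + t + e) ∈ K' 2`; `i = 1` the same.  (3) autocorrelations:
`k ∉ Θ ⊇ {0, e, -e}`: places `0, e, k, k + e` are different.  Product of two densities: within `2 η` of
`ρ ^ 2`.
`rich_of_rnd2`: index type `ι × Bool`, at most `2 m` places, the product is at least
`α ^ (card ι) ≥ α ^ m`; for each `x : ι` at most `ζ card G` of the `t` have `pt .. ∉ B`.
-/

namespace Pool.Agent.H60.HM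

open Finset Classical Pool.Agent.H60.HL

variable {G : Type} [AddCommGroup G] [Fintype G]

private lemma rndB_mem {M : ℕ} (χ : Bool → G → Fin M) (e : G) (K K' : Fin 3 → Finset (Fin M))
    (i : Fin 3) (x : G) : x ∈ cls2 χ e K K' i ↔
      if i = 2 then (χ false (-x) ∈ K 2 ∧ χ false (-x + e) ∈ K' 2)
      else (χ true x ∈ K i ∧ χ true (x + e) ∈ K' i) := by
  unfold cls2
  split_ifs <;> simp

omit [Fintype G] in
private lemma rndB_M {M : ℕ} (χ : Bool → G → Fin M) : 0 < M :=
  Fin.pos (χ true 0)

omit [Fintype G] in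
private lemma rndB_dens0 {M : ℕ} (χ : Bool → G → Fin M) (K : Finset (Fin M)) :
    0 ≤ (K.card : ℝ) / M ∧ (K.card : ℝ) / M ≤ 1 := by
  have hM : (0 : ℝ) < M := by exact_mod_cast rndB_M χ
  refine ⟨by positivity, ?_⟩
  rw [div_le_one hM]
  have := Finset.card_le_univ K
  rw [Fintype.card_fin] at this
  exact_mod_cast this

omit [Fintype G] in
private lemma rndB_dens {M : ℕ} (χ : Bool → G → Fin M) (K K' : Finset (Fin M)) :
    0 ≤ (K.card : ℝ) / M * ((K'.card : ℝ) / M) ∧
      (K.card : ℝ) / M * ((K'.card : ℝ) / M) ≤ 1 := by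
  have h1 := rndB_dens0 χ K
  have h2 := rndB_dens0 χ K'
  exact ⟨mul_nonneg h1.1 h2.1, mul_le_one₀ h1.2 h2.1 h2.2⟩

omit [Fintype G] in
private lemma rndB_pt (s : Bool) (k t e : G) : pt s (k + e) t = pt s k t + e := by
  cases s
  · simp only [pt, Bool.false_eq_true, if_false]; abel
  · simp only [pt, if_true]; abel

private lemma rndB_gen {M : ℕ} {χ : Bool → G → Fin M} {m : ℕ} {η : ℝ} {ι : Type} [Fintype ι]
    (hm : 2 * Fintype.card ι ≤ m) (h : Rnd χ m η) {e : G} (he : e ≠ 0)
    (v : ι → Bool × Bool × G)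
    (hv : ∀ x y, x ≠ y → (v x).1 = (v y).1 → (v x).2.1 = (v y).2.1 →
      (v x).2.2 ≠ (v y).2.2 ∧ (v x).2.2 ≠ (v y).2.2 + e)
    (K K' : ι → Finset (Fin M)) :
    |((univ.filter fun t : G => ∀ x, χ (v x).1 (pt (v x).2.1 (v x).2.2 t) ∈ K x ∧
        χ (v x).1 (pt (v x).2.1 (v x).2.2 t + e) ∈ K' x).card : ℝ) -
      Fintype.card G * ∏ x, (((K x).card : ℝ) / M * (((K' x).card : ℝ) / M))| ≤
      η * Fintype.card G := by
  have hinj : Function.Injective (fun z : ι × Bool =>
      ((v z.1).1, (v z.1).2.1, if z.2 then (v z.1).2.2 + e else (v z.1).2.2)) := by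
    rintro ⟨x, b⟩ ⟨y, c⟩ hxy
    simp only [Prod.mk.injEq] at hxy
    obtain ⟨h1, h2, h3⟩ := hxy
    by_cases hne : x = y
    · subst hne
      cases b <;> cases c
      · rfl
      · exfalso
        simp only [Bool.false_eq_true, if_false, if_true] at h3
        exact he (by simpa using h3.symm)
      · exfalso
        simp only [Bool.false_eq_true, if_false, if_true] at h3
        exact he (by simpa using h3)
      · rfl
    · exfalso
      have h4 := hv x y hne h1 h2
      have h5 := hv y x (Ne.symm hne) h1.symm h2.symm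
      cases b <;> cases c <;> simp only [Bool.false_eq_true, if_false, if_true] at h3
      · exact h4.1 h3
      · exact h4.2 h3
      · exact h5.2 h3.symm
      · exact h4.1 (add_right_cancel h3)
  have h1 := h (ι × Bool) (by rw [Fintype.card_prod, Fintype.card_bool]; omega) _ hinj
    (fun z => if z.2 then K' z.1 else K z.1)
  have h2 : ∀ inst : DecidablePred fun t : G => ∀ z : ι × Bool,
      χ (v z.1).1 (pt (v z.1).2.1 (if z.2 then (v z.1).2.2 + e else (v z.1).2.2) t) ∈
        (if z.2 then K' z.1 else K z.1),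
      (@Finset.filter G (fun t : G => ∀ z : ι × Bool,
      χ (v z.1).1 (pt (v z.1).2.1 (if z.2 then (v z.1).2.2 + e else (v z.1).2.2) t) ∈
        (if z.2 then K' z.1 else K z.1)) inst univ) =
      univ.filter fun t : G => ∀ x, χ (v x).1 (pt (v x).2.1 (v x).2.2 t) ∈ K x ∧
        χ (v x).1 (pt (v x).2.1 (v x).2.2 t + e) ∈ K' x := by
    intro inst
    ext t
    simp only [mem_filter, mem_univ, true_and]
    constructor
    · intro h3 x
      refine ⟨by simpa using h3 (x, false), ?_⟩
      have h4 := h3 (x, true)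
      simp only [if_true] at h4
      rw [rndB_pt] at h4
      exact h4
    · rintro h3 ⟨x, b⟩
      cases b
      · simpa using (h3 x).1
      · simp only [if_true]
        rw [rndB_pt]
        exact (h3 x).2
  have h3 : ∏ z : ι × Bool, ((((if z.2 then K' z.1 else K z.1) : Finset (Fin M)).card : ℝ) / M) =
      ∏ x, (((K x).card : ℝ) / M * (((K' x).card : ℝ) / M)) := by
    rw [Fintype.prod_prod_type]
    refine Finset.prod_congr rfl fun x _ => ?_
    rw [Fintype.prod_bool]
    simp only [if_true, Bool.false_eq_true, if_false]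
    rw [mul_comm]
  simp only at h1
  rw [h2, h3] at h1
  exact h1

private lemma rndB_one {M : ℕ} {χ : Bool → G → Fin M} {m : ℕ} {η : ℝ} (hm : 2 ≤ m)
    (h : Rnd χ m η) {e : G} (he : e ≠ 0) (v : Bool × Bool × G) (K K' : Finset (Fin M)) :
    |((univ.filter fun t : G => χ v.1 (pt v.2.1 v.2.2 t) ∈ K ∧
        χ v.1 (pt v.2.1 v.2.2 t + e) ∈ K').card : ℝ) -
      Fintype.card G * ((K.card : ℝ) / M * ((K'.card : ℝ) / M))| ≤ η * Fintype.card G := by
  have h1 := rndB_gen (ι := Unit) (by simpa using hm) h he (fun _ => v)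
    (fun _ _ hxy => absurd rfl hxy) (fun _ => K) (fun _ => K')
  simpa using h1

private lemma rndB_two {M : ℕ} {χ : Bool → G → Fin M} {m : ℕ} {η : ℝ} (hm : 4 ≤ m)
    (h : Rnd χ m η) {e : G} (he : e ≠ 0) (v w : Bool × Bool × G)
    (hvw : v.1 = w.1 → v.2.1 = w.2.1 → v.2.2 ≠ w.2.2 ∧ v.2.2 ≠ w.2.2 + e ∧ w.2.2 ≠ v.2.2 + e)
    (K K' L L' : Finset (Fin M)) :
    |((univ.filter fun t : G => (χ v.1 (pt v.2.1 v.2.2 t) ∈ K ∧
        χ v.1 (pt v.2.1 v.2.2 t + e) ∈ K') ∧
        (χ w.1 (pt w.2.1 w.2.2 t) ∈ L ∧ χ w.1 (pt w.2.1 w.2.2 t + e) ∈ L')).card : ℝ) -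
      Fintype.card G * (((K.card : ℝ) / M * ((K'.card : ℝ) / M)) *
        ((L.card : ℝ) / M * ((L'.card : ℝ) / M)))| ≤ η * Fintype.card G := by
  have h1 := rndB_gen (ι := Bool) (by simpa using hm) h he (fun b : Bool => if b then v else w)
    (by
      intro x y hxy h1 h2
      cases x <;> cases y
      · exact absurd rfl hxy
      · simp only [Bool.false_eq_true, if_false, if_true] at h1 h2 ⊢
        have h3 := hvw h1.symm h2.symm
        exact ⟨h3.1.symm, h3.2.2⟩
      · simp only [Bool.false_eq_true, if_false, if_true] at h1 h2 ⊢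
        have h3 := hvw h1 h2
        exact ⟨h3.1, h3.2.1⟩
      · exact absurd rfl hxy)
    (fun b => if b then K else L) (fun b => if b then K' else L')
  have h2 : ∀ inst : DecidablePred fun t : G => ∀ x : Bool,
      χ (if x then v else w).1 (pt (if x then v else w).2.1 (if x then v else w).2.2 t) ∈
        (if x then K else L) ∧
      χ (if x then v else w).1 (pt (if x then v else w).2.1 (if x then v else w).2.2 t + e) ∈
        (if x then K' else L'),
      (@Finset.filter G (fun t : G => ∀ x : Bool,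
      χ (if x then v else w).1 (pt (if x then v else w).2.1 (if x then v else w).2.2 t) ∈
        (if x then K else L) ∧
      χ (if x then v else w).1 (pt (if x then v else w).2.1 (if x then v else w).2.2 t + e) ∈
        (if x then K' else L')) inst univ) =
      univ.filter fun t : G => (χ v.1 (pt v.2.1 v.2.2 t) ∈ K ∧
        χ v.1 (pt v.2.1 v.2.2 t + e) ∈ K') ∧
        (χ w.1 (pt w.2.1 w.2.2 t) ∈ L ∧ χ w.1 (pt w.2.1 w.2.2 t + e) ∈ L') := by
    intro inst
    ext t
    simp only [mem_filter, mem_univ, true_and]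
    constructor
    · intro h3
      exact ⟨by simpa using h3 true, by simpa using h3 false⟩
    · rintro ⟨h3, h4⟩ x
      cases x
      · simpa using h4
      · simpa using h3
  rw [h2, Fintype.prod_bool] at h1
  exact h1

private lemma rndB_prod {a b ρ η : ℝ} (hb0 : 0 ≤ b) (hb : b ≤ 1) (hρ : 0 ≤ ρ) (hρ1 : ρ ≤ 1)
    (h1 : |a - ρ| ≤ η) (h2 : |b - ρ| ≤ η) : |a * b - ρ ^ 2| ≤ 2 * η := by
  have hη : 0 ≤ η := (abs_nonneg _).trans h1
  have e : a * b - ρ ^ 2 = (a - ρ) * b + ρ * (b - ρ) := by ring
  rw [e]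
  calc |(a - ρ) * b + ρ * (b - ρ)| ≤ |(a - ρ) * b| + |ρ * (b - ρ)| := abs_add_le _ _
    _ = |a - ρ| * b + ρ * |b - ρ| := by
        rw [abs_mul, abs_mul, abs_of_nonneg hb0, abs_of_nonneg hρ]
    _ ≤ η * 1 + 1 * η := by
        refine add_le_add (mul_le_mul h1 hb hb0 hη) (mul_le_mul hρ1 h2 (abs_nonneg _) zero_le_one)
    _ = 2 * η := by ring

private lemma rndB_fin {c n d D η κ : ℝ} (hn : 0 ≤ n) (hκ : κ + η ≤ 5 * η)
    (h1 : |c - n * d| ≤ η * n) (h2 : |d - D| ≤ κ) : |c - D * n| ≤ 5 * η * n := by
  have e : c - D * n = (c - n * d) + n * (d - D) := by ring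
  rw [e]
  calc |(c - n * d) + n * (d - D)| ≤ |c - n * d| + |n * (d - D)| := abs_add_le _ _
    _ = |c - n * d| + n * |d - D| := by rw [abs_mul, abs_of_nonneg hn]
    _ ≤ η * n + n * κ := add_le_add h1 (mul_le_mul_of_nonneg_left h2 hn)
    _ = (κ + η) * n := by ring
    _ ≤ 5 * η * n := mul_le_mul_of_nonneg_right hκ hn

private lemma rndB_sum {i : Fin 3} {P : Fin 3 → G → Prop} {x : G} {Q : G → Prop}
    [DecidablePred Q] [DecidablePred fun t : Fin 3 → G => t i = x ∧ (∀ j, j ≠ i → P j (t j)) ∧
      t 0 + t 1 + t 2 = 0]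
    (mk : G → Fin 3 → G) (pr : (Fin 3 → G) → G)
    (h1 : ∀ t, Q t → (mk t i = x ∧ (∀ j, j ≠ i → P j (mk t j)) ∧
      mk t 0 + mk t 1 + mk t 2 = 0))
    (h2 : ∀ t : Fin 3 → G, (t i = x ∧ (∀ j, j ≠ i → P j (t j)) ∧ t 0 + t 1 + t 2 = 0) →
      Q (pr t) ∧ mk (pr t) = t) (h3 : ∀ t, pr (mk t) = t) :
    (univ.filter fun t : Fin 3 → G => t i = x ∧ (∀ j, j ≠ i → P j (t j)) ∧
      t 0 + t 1 + t 2 = 0).card = (univ.filter Q).card := by
  symm
  refine Finset.card_bij' (fun t _ => mk t) (fun t _ => pr t) ?_ ?_ ?_ ?_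
  · intro t ht
    rw [mem_filter] at ht ⊢
    exact ⟨mem_univ _, h1 t ht.2⟩
  · intro t ht
    rw [mem_filter] at ht ⊢
    exact ⟨mem_univ _, (h2 t ht.2).1⟩
  · intro t _
    exact h3 t
  · intro t ht
    rw [mem_filter] at ht
    exact (h2 t ht.2).2

theorem cls2_card {M : ℕ} {χ : Bool → G → Fin M} {m : ℕ} {η : ℝ} (hm : 2 ≤ m) (h : Rnd χ m η)
    {e : G} (he : e ≠ 0) (K K' : Fin 3 → Finset (Fin M)) (i : Fin 3) :
    |((cls2 χ e K K' i).card : ℝ) - (K i).card / M * ((K' i).card / M) * Fintype.card G| ≤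
      η * Fintype.card G := by
  rw [mul_comm ((K i).card / M * ((K' i).card / M) : ℝ)]
  by_cases hi : i = 2
  · subst hi
    have h1 := rndB_one hm h he (false, false, 0) (K 2) (K' 2)
    have h2 : (univ.filter fun t : G => χ false (pt false 0 t) ∈ K 2 ∧
        χ false (pt false 0 t + e) ∈ K' 2) = cls2 χ e K K' 2 := by
      ext t
      rw [rndB_mem]
      simp [pt]
    simp only at h1
    rw [h2] at h1
    exact h1
  · have h1 := rndB_one hm h he (true, true, 0) (K i) (K' i)
    have h2 : (univ.filter fun t : G => χ true (pt true 0 t) ∈ K i ∧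
        χ true (pt true 0 t + e) ∈ K' i) = cls2 χ e K K' i := by
      ext t
      rw [rndB_mem]
      simp [pt, hi]
    simp only at h1
    rw [h2] at h1
    exact h1

theorem dcl_card {M : ℕ} {χ : Bool → G → Fin M} {m : ℕ} {η : ℝ} (hm : 2 ≤ m) (h : Rnd χ m η)
    {e : G} (he : e ≠ 0) (b : Bool) (K K' : Finset (Fin M)) :
    |((dcl (χ b) e K K').card : ℝ) - K.card / M * (K'.card / M) * Fintype.card G| ≤
      η * Fintype.card G := by
  rw [mul_comm (K.card / M * (K'.card / M) : ℝ)]
  have h1 := rndB_one hm h he (b, true, 0) K K'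
  have h2 : (univ.filter fun t : G => χ b (pt true 0 t) ∈ K ∧
      χ b (pt true 0 t + e) ∈ K') = dcl (χ b) e K K' := by
    ext t
    unfold dcl
    simp [pt]
  simp only at h1
  rw [h2] at h1
  exact h1

theorem qr_of_rnd2 {M : ℕ} {χ : Bool → G → Fin M} {m : ℕ} {η ρ : ℝ} (hm : 4 ≤ m) (hη : 0 ≤ η)
    (hη1 : η ≤ 1) (hρ : 0 ≤ ρ) (hρ1 : ρ ≤ 1) (h : Rnd χ m η) {e : G} (he : e ≠ 0)
    (K K' : Fin 3 → Finset (Fin M))
    (hK : ∀ i, |((K i).card : ℝ) / M * ((K' i).card / M) - ρ| ≤ η) {Θ : Finset G}
    (h0 : (0 : G) ∈ Θ) (h1 : e ∈ Θ) (h2 : -e ∈ Θ) :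
    QR (cls2 χ e K K') Θ ρ (5 * η) := by
  have hn : (0 : ℝ) ≤ Fintype.card G := Nat.cast_nonneg _
  have hd := fun i => rndB_dens χ (K i) (K' i)
  have hpr : ∀ i j : Fin 3, |(((K i).card : ℝ) / M * (((K' i).card : ℝ) / M)) *
      (((K j).card : ℝ) / M * (((K' j).card : ℝ) / M)) - ρ ^ 2| ≤ 2 * η :=
    fun i j => rndB_prod (hd j).1 (hd j).2 hρ hρ1 (hK i) (hK j)
  have hΘ1 := h1
  have hΘ2 := h2
  clear h1 h2
  refine ⟨fun i => ?_, fun i x => ?_, fun i k hk => ?_⟩
  · have h1 := cls2_card (le_trans (by norm_num) hm) h he K K' i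
    rw [mul_comm ((K i).card / M * ((K' i).card / M) : ℝ)] at h1
    exact rndB_fin hn (κ := η) (by linarith) h1 (hK i)
  · -- the second condition
    have h012 : i = 0 ∨ i = 1 ∨ i = 2 := by
      fin_cases i <;> simp
    rcases h012 with rfl | rfl | rfl
    · have h1 := rndB_two hm h he (true, true, 0) (false, true, x) (by simp)
        (K 1) (K' 1) (K 2) (K' 2)
      have h2 := rndB_sum (i := (0 : Fin 3)) (P := fun j y => y ∈ cls2 χ e K K' j) (x := x)
        (Q := fun t : G => (χ true (pt true 0 t) ∈ K 1 ∧ χ true (pt true 0 t + e) ∈ K' 1) ∧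
          (χ false (pt true x t) ∈ K 2 ∧ χ false (pt true x t + e) ∈ K' 2))
        (fun t => ![x, t, -x - t]) (fun t => t 1)
        (by
          rintro t ⟨h3, h4⟩
          refine ⟨by simp, ?_, by simp⟩
          intro j hj
          fin_cases j
          · exact absurd rfl hj
          · change t ∈ cls2 χ e K K' 1
            rw [rndB_mem]
            simpa [pt] using h3
          · change -x - t ∈ cls2 χ e K K' 2
            rw [rndB_mem]
            have e' : -(-x - t) = x + t := by abel
            simpa [pt, e'] using h4)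
        (by
          rintro t ⟨h3, h4, h5⟩
          have h6 : t 2 = -x - t 1 := by
            rw [h3] at h5
            have := eq_neg_of_add_eq_zero_right h5
            rw [this]; abel
          refine ⟨⟨?_, ?_⟩, ?_⟩
          · have := h4 1 (by decide)
            rw [rndB_mem] at this
            simpa [pt] using this
          · have := h4 2 (by decide)
            rw [rndB_mem, h6] at this
            have e' : -(-x - t 1) = x + t 1 := by abel
            simpa [pt, e'] using this
          · funext j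
            fin_cases j
            · exact h3.symm
            · rfl
            · exact h6.symm)
        (by intro t; rfl)
      rw [h2]
      exact rndB_fin hn (κ := 2 * η) (by linarith) h1 (hpr 1 2)
    · have h1 := rndB_two hm h he (true, true, 0) (false, true, x) (by simp)
        (K 0) (K' 0) (K 2) (K' 2)
      have h2 := rndB_sum (i := (1 : Fin 3)) (P := fun j y => y ∈ cls2 χ e K K' j) (x := x)
        (Q := fun t : G => (χ true (pt true 0 t) ∈ K 0 ∧ χ true (pt true 0 t + e) ∈ K' 0) ∧
          (χ false (pt true x t) ∈ K 2 ∧ χ false (pt true x t + e) ∈ K' 2))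
        (fun t => ![t, x, -x - t]) (fun t => t 0)
        (by
          rintro t ⟨h3, h4⟩
          refine ⟨by simp, ?_, ?_⟩
          · intro j hj
            fin_cases j
            · change t ∈ cls2 χ e K K' 0
              rw [rndB_mem]
              simpa [pt] using h3
            · exact absurd rfl hj
            · change -x - t ∈ cls2 χ e K K' 2
              rw [rndB_mem]
              have e' : -(-x - t) = x + t := by abel
              simpa [pt, e'] using h4
          · change t + x + (-x - t) = 0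
            abel)
        (by
          rintro t ⟨h3, h4, h5⟩
          have h6 : t 2 = -x - t 0 := by
            rw [h3] at h5
            have := eq_neg_of_add_eq_zero_right h5
            rw [this]; abel
          refine ⟨⟨?_, ?_⟩, ?_⟩
          · have := h4 0 (by decide)
            rw [rndB_mem] at this
            simpa [pt] using this
          · have := h4 2 (by decide)
            rw [rndB_mem, h6] at this
            have e' : -(-x - t 0) = x + t 0 := by abel
            simpa [pt, e'] using this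
          · funext j
            fin_cases j
            · rfl
            · exact h3.symm
            · exact h6.symm)
        (by intro t; rfl)
      rw [h2]
      exact rndB_fin hn (κ := 2 * η) (by linarith) h1 (hpr 0 2)
    · have h1 := rndB_two hm h he (true, true, 0) (true, false, -x) (by simp)
        (K 0) (K' 0) (K 1) (K' 1)
      have h2 := rndB_sum (i := (2 : Fin 3)) (P := fun j y => y ∈ cls2 χ e K K' j) (x := x)
        (Q := fun t : G => (χ true (pt true 0 t) ∈ K 0 ∧ χ true (pt true 0 t + e) ∈ K' 0) ∧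
          (χ true (pt false (-x) t) ∈ K 1 ∧ χ true (pt false (-x) t + e) ∈ K' 1))
        (fun t => ![t, -x - t, x]) (fun t => t 0)
        (by
          rintro t ⟨h3, h4⟩
          refine ⟨by simp, ?_, ?_⟩
          · intro j hj
            fin_cases j
            · change t ∈ cls2 χ e K K' 0
              rw [rndB_mem]
              simpa [pt] using h3
            · change -x - t ∈ cls2 χ e K K' 1
              rw [rndB_mem]
              simpa [pt] using h4
            · exact absurd rfl hj
          · change t + (-x - t) + x = 0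
            abel)
        (by
          rintro t ⟨h3, h4, h5⟩
          have h6 : t 1 = -x - t 0 := by
            rw [h3] at h5
            have h7 : t 1 + (t 0 + x) = 0 := by rw [← h5]; abel
            have := eq_neg_of_add_eq_zero_left h7
            rw [this]; abel
          refine ⟨⟨?_, ?_⟩, ?_⟩
          · have := h4 0 (by decide)
            rw [rndB_mem] at this
            simpa [pt] using this
          · have := h4 1 (by decide)
            rw [rndB_mem, h6] at this
            simpa [pt] using this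
          · funext j
            fin_cases j
            · rfl
            · exact h6.symm
            · exact h3.symm)
        (by intro t; rfl)
      rw [h2]
      exact rndB_fin hn (κ := 2 * η) (by linarith) h1 (hpr 0 1)
  · have hk0 : k ≠ 0 := by
      rintro rfl
      exact hk h0
    have hk1 : k ≠ e := by
      rintro rfl
      exact hk hΘ1
    have hk2 : k ≠ -e := by
      rintro rfl
      exact hk hΘ2
    by_cases hi : i = 2
    · subst hi
      have h1 := rndB_two hm h he (false, false, 0) (false, false, -k)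
        (by
          intro _ _
          refine ⟨fun h3 => hk0 (neg_eq_zero.mp h3.symm), fun h3 => ?_, fun h3 => ?_⟩
          · change (0 : G) = -k + e at h3
            exact hk1 (neg_add_eq_zero.mp h3.symm)
          · change -k = (0 : G) + e at h3
            rw [zero_add] at h3
            exact hk2 (by rw [← h3, neg_neg])) (K 2) (K' 2) (K 2) (K' 2)
      have h2 : (univ.filter fun t : G => (χ false (pt false 0 t) ∈ K 2 ∧
          χ false (pt false 0 t + e) ∈ K' 2) ∧ (χ false (pt false (-k) t) ∈ K 2 ∧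
          χ false (pt false (-k) t + e) ∈ K' 2)) =
          (cls2 χ e K K' 2).filter fun t => k + t ∈ cls2 χ e K K' 2 := by
        ext t
        rw [mem_filter, mem_filter, rndB_mem, rndB_mem]
        have e' : -(k + t) = -k - t := by abel
        simp [pt, e']
      simp only at h1
      rw [h2] at h1
      exact rndB_fin hn (κ := 2 * η) (by linarith) h1 (hpr 2 2)
    · have h1 := rndB_two hm h he (true, true, 0) (true, true, k)
        (by
          intro _ _
          refine ⟨fun h3 => hk0 h3.symm, fun h3 => ?_, fun h3 => ?_⟩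
          · change (0 : G) = k + e at h3
            exact hk2 (eq_neg_of_add_eq_zero_left h3.symm)
          · change k = (0 : G) + e at h3
            rw [zero_add] at h3
            exact hk1 h3) (K i) (K' i) (K i) (K' i)
      have h2 : (univ.filter fun t : G => (χ true (pt true 0 t) ∈ K i ∧
          χ true (pt true 0 t + e) ∈ K' i) ∧ (χ true (pt true k t) ∈ K i ∧
          χ true (pt true k t + e) ∈ K' i)) =
          (cls2 χ e K K' i).filter fun t => k + t ∈ cls2 χ e K K' i := by
        ext t
        rw [mem_filter, mem_filter, rndB_mem, rndB_mem]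
        simp [pt, hi]
      simp only at h1
      rw [h2] at h1
      exact rndB_fin hn (κ := 2 * η) (by linarith) h1 (hpr i i)

theorem rich_of_rnd2 {M : ℕ} {χ : Bool → G → Fin M} {m : ℕ} {η α ζ : ℝ} (hα : 0 ≤ α)
    (hα1 : α ≤ 1) (hζ : 0 ≤ ζ) (h : Rnd χ (2 * m) η) {e : G} (he : e ≠ 0)
    (K K' : Fin 3 → Finset (Fin M))
    (hK : ∀ i, α ≤ ((K i).card : ℝ) / M * ((K' i).card / M)) {Θ : Finset G}
    (h0 : (0 : G) ∈ Θ) (h1 : e ∈ Θ) (h2 : -e ∈ Θ) (B : Fin 3 → Finset G)
    (hB : ∀ i, ((cls2 χ e K K' i \ B i).card : ℝ) ≤ ζ * Fintype.card G) :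
    Rich B Θ m (α ^ m - η - m * ζ) := by
  intro ι _ hι v hv
  have hn : (0 : ℝ) ≤ Fintype.card G := Nat.cast_nonneg _
  have hΘ1 := h1
  have hΘ2 := h2
  clear h1 h2
  let v' : ι → Bool × Bool × G := fun x =>
    if (v x).1 = 2 then (false, !(v x).2.1, -(v x).2.2) else (true, (v x).2.1, (v x).2.2)
  have hv' : ∀ x y, x ≠ y → (v' x).1 = (v' y).1 → (v' x).2.1 = (v' y).2.1 →
      (v' x).2.2 ≠ (v' y).2.2 ∧ (v' x).2.2 ≠ (v' y).2.2 + e := by
    intro x y hne hxy1 hxy2
    have key : ((v x).1 = 2 ↔ (v y).1 = 2) ∧ (v x).2.1 = (v y).2.1 := by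
      simp only [v'] at hxy1 hxy2
      by_cases hx : (v x).1 = 2 <;> by_cases hy : (v y).1 = 2 <;> simp_all
    have h3 := hv x y hne key.1 key.2
    have k0 : (v x).2.2 - (v y).2.2 ≠ 0 := fun h4 => h3 (h4 ▸ h0)
    have k1 : (v x).2.2 - (v y).2.2 ≠ e := fun h4 => h3 (h4 ▸ hΘ1)
    have k2 : (v x).2.2 - (v y).2.2 ≠ -e := fun h4 => h3 (h4 ▸ hΘ2)
    by_cases hx : (v x).1 = 2
    · have hy := key.1.mp hx
      simp only [v', hx, hy, if_true]
      constructor
      · intro h4
        exact k0 (sub_eq_zero.mpr (neg_injective h4))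
      · intro h4
        apply k2
        have h5 : (v x).2.2 = (v y).2.2 - e := by
          rw [← neg_inj, h4]; abel
        rw [h5]; abel
    · have hy : ¬ (v y).1 = 2 := fun hy => hx (key.1.mpr hy)
      simp only [v', hx, hy, if_false]
      constructor
      · intro h4
        exact k0 (sub_eq_zero.mpr h4)
      · intro h4
        apply k1
        rw [h4]; abel
  have h1 := rndB_gen (by omega) h he v' hv' (fun x => K (v x).1) (fun x => K' (v x).1)
  have h2 : (univ.filter fun t : G => ∀ x, χ (v' x).1 (pt (v' x).2.1 (v' x).2.2 t) ∈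
      K (v x).1 ∧ χ (v' x).1 (pt (v' x).2.1 (v' x).2.2 t + e) ∈ K' (v x).1) =
      univ.filter fun t : G => ∀ x, pt (v x).2.1 (v x).2.2 t ∈ cls2 χ e K K' (v x).1 := by
    ext t
    simp only [mem_filter, mem_univ, true_and]
    refine forall_congr' fun x => ?_
    rw [rndB_mem]
    by_cases hx : (v x).1 = 2
    · have e' : -(pt (v x).2.1 (v x).2.2 t) = pt (!(v x).2.1) (-(v x).2.2) t := by
        cases h3 : (v x).2.1
        · simp only [pt, Bool.not_false, if_true, Bool.false_eq_true, if_false]; abel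
        · simp only [pt, Bool.not_true, if_true, Bool.false_eq_true, if_false]; abel
      simp only [v', hx, if_true, e']
    · simp only [v', hx, if_false]
  rw [h2] at h1
  have h3 : α ^ m ≤ ∏ x : ι, (((K (v x).1).card : ℝ) / M * (((K' (v x).1).card : ℝ) / M)) := by
    calc α ^ m ≤ α ^ Fintype.card ι := pow_le_pow_of_le_one hα hα1 hι
      _ = ∏ _x : ι, α := by simp
      _ ≤ _ := Finset.prod_le_prod (fun _ _ => hα) fun x _ => hK _
  have h4 : (α ^ m - η) * Fintype.card G ≤ ((univ.filter fun t : G => ∀ x,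
      pt (v x).2.1 (v x).2.2 t ∈ cls2 χ e K K' (v x).1).card : ℝ) := by
    have h5 := (abs_le.mp h1).1
    have h6 := mul_le_mul_of_nonneg_left h3 hn
    linarith
  have h5 : ∀ x : ι, ((univ.filter fun t : G => pt (v x).2.1 (v x).2.2 t ∈
      cls2 χ e K K' (v x).1 \ B (v x).1).card : ℝ) ≤ ζ * Fintype.card G := by
    intro x
    refine le_trans ?_ (hB (v x).1)
    norm_cast
    refine Finset.card_le_card_of_injOn (fun t => pt (v x).2.1 (v x).2.2 t) ?_ ?_
    · intro t ht
      exact (mem_filter.mp ht).2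
    · intro t _ t' _ htt
      simp only [pt] at htt
      split_ifs at htt
      · exact add_left_cancel htt
      · exact sub_right_injective htt
  have h6 : (univ.filter fun t : G => ∀ x, pt (v x).2.1 (v x).2.2 t ∈
        cls2 χ e K K' (v x).1) ⊆
      (univ.filter fun t : G => ∀ x, pt (v x).2.1 (v x).2.2 t ∈ B (v x).1) ∪
        univ.biUnion fun x : ι => univ.filter fun t : G => pt (v x).2.1 (v x).2.2 t ∈
          cls2 χ e K K' (v x).1 \ B (v x).1 := by
    intro t ht
    rw [mem_filter] at ht
    by_cases h7 : ∀ x, pt (v x).2.1 (v x).2.2 t ∈ B (v x).1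
    · exact mem_union_left _ (mem_filter.mpr ⟨mem_univ _, h7⟩)
    · push Not at h7
      obtain ⟨x, hx⟩ := h7
      refine mem_union_right _ (mem_biUnion.mpr ⟨x, mem_univ _, mem_filter.mpr
        ⟨mem_univ _, mem_sdiff.mpr ⟨ht.2 x, hx⟩⟩⟩)
  have h7 : ((univ.filter fun t : G => ∀ x, pt (v x).2.1 (v x).2.2 t ∈
      cls2 χ e K K' (v x).1).card : ℝ) ≤ ((univ.filter fun t : G => ∀ x,
        pt (v x).2.1 (v x).2.2 t ∈ B (v x).1).card : ℝ) + m * (ζ * Fintype.card G) := by
    have h8 := (Finset.card_le_card h6).trans (Finset.card_union_le _ _)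
    have h9 : ((univ.biUnion fun x : ι => univ.filter fun t : G =>
        pt (v x).2.1 (v x).2.2 t ∈ cls2 χ e K K' (v x).1 \ B (v x).1).card : ℝ) ≤
        m * (ζ * Fintype.card G) := by
      calc ((univ.biUnion fun x : ι => univ.filter fun t : G =>
        pt (v x).2.1 (v x).2.2 t ∈ cls2 χ e K K' (v x).1 \ B (v x).1).card : ℝ) ≤
          ((∑ x : ι, (univ.filter fun t : G => pt (v x).2.1 (v x).2.2 t ∈
            cls2 χ e K K' (v x).1 \ B (v x).1).card : ℕ) : ℝ) := by
            exact_mod_cast Finset.card_biUnion_le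
        _ = ∑ x : ι, ((univ.filter fun t : G => pt (v x).2.1 (v x).2.2 t ∈
            cls2 χ e K K' (v x).1 \ B (v x).1).card : ℝ) := by push_cast; rfl
        _ ≤ ∑ _x : ι, ζ * Fintype.card G := Finset.sum_le_sum fun x _ => h5 x
        _ = Fintype.card ι * (ζ * Fintype.card G) := by simp
        _ ≤ m * (ζ * Fintype.card G) :=
            mul_le_mul_of_nonneg_right (by exact_mod_cast hι) (mul_nonneg hζ hn)
    have h10 : ((univ.filter fun t : G => ∀ x, pt (v x).2.1 (v x).2.2 t ∈
      cls2 χ e K K' (v x).1).card : ℝ) ≤ ((univ.filter fun t : G => ∀ x,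
        pt (v x).2.1 (v x).2.2 t ∈ B (v x).1).card : ℝ) + ((univ.biUnion fun x : ι =>
        univ.filter fun t : G => pt (v x).2.1 (v x).2.2 t ∈
          cls2 χ e K K' (v x).1 \ B (v x).1).card : ℝ) := by exact_mod_cast h8
    linarith
  have h8 : (α ^ m - η - m * ζ) * (Fintype.card G : ℝ) =
      (α ^ m - η) * Fintype.card G - m * (ζ * Fintype.card G) := by ring
  rw [h8]
  linarith

end Pool.Agent.H60.HM
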