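import Pool.Agent.H60.HM.PartB
import Pool.Agent.H60.HM.GrB
import Pool.Agent.H60.HM.RndB

/-!
# HM-16 EmbB: the forest is embedded, the reserved colours are avoided

Compare the finished file `Pool/Agent/H60/HL/TrF.lean` (`embed`).
Proof.  `q = card G`, `c0 = γ^(Δ+3)`, `ζ' = min (ζ / (Δ + 2)) (c0 / (8 (Δ + 2) (3 + (Δ + 1)²)))`.  `M1` from
`partial_embed2 ζ'`; for `M ≥ M1` its `η1`, `q1`; `η = min η1 (c0 / 4)`; `q0 ≥ q1`, `q0` large.
`partial_embed2` with `A1 ∪ A3` in the place of `A1` and `B1 = B3`: `W`, `g1`.  Let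
`V1 = {w ∈ W : rt w ∨ ¬ mk (p w) ∨ p w ∈ W}`.  The elements of `W \ V1` are children of vertices of
`(range n) \ W`, so `((range n) \ V1).card ≤ (Δ + 1) ((range n) \ W).card ≤ (Δ + 1) ζ' q`.
`greedy_ext2` with `RL = {t : χ true t ∈ A3}`, `RS = {t : χ false t ∈ B3}`, `c = ⌊c0 q / 2⌋`:
* `h1`: `g1` is injective; `g1 i ≠ g1 j + e` for `mk j`: `g1 j ∈ dcl (χ true) e A0 A0'`, so `χ true (g1 j + e) ∈ A0'`;
if `mk i` then `χ true (g1 i) ∈ A0`; if not, `g1 i - e ∉ dcl (χ true) e A0 A0'`.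
* `h2`: from `W`.  `h3`: `χ true (g1 i)`, `χ true (g1 i + e)` are in `A0`, `A0'` for double vertices, and
`χ true (g1 i) ∉ A1 ∪ A3` for the others.  `h4`: `χ false (es ..) ∉ B3`.
* `h5`: for `D.card ≤ Δ + 1` the pattern of the places `(true, true, 0)`, `(true, true, e)` with the colours `A3`,
`(false, true, r)`, `r ∈ D`, with the colours `B3` (at most `Δ + 3` places) has at least `(c0 - η) q ≥ c` solutions
(`e + t = t + e`).  `h6`: `(Δ + 1) ζ' q (3 + (Δ + 1)²) < c0 q / 2 - 1`.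
* `h7`: let `v ∉ V1`, `mk v`, `w ∈ V1`, `¬ rt w`, `p w = v`: as `w ∈ V1`, `v ∈ W`; as `v ∉ V1`, `¬ rt v`,
`mk (p v)`, which contradicts `hmk` and `mk v`.
Conclusions: labels of `V1`: colours not in `A1` (as for `h3`); new labels: colours in `A3`.  Sums inside `V1`: by
`partial_embed2`; new sums `σ`: `χ false σ ∈ B3`, so `σ ∉ dcl (χ false) e B0 B0'` and, as `σ - e + e = σ`,
`σ - e ∉ dcl (χ false) e B0 B0'`.  The `i < n` with `mk i`, `g i ∉ dcl (χ true) e A0 A0'` are not in `V1`.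
-/

namespace Pool.Agent.H60.HM

open Finset Classical Pool.Agent.H60.HL

private theorem EmbB_rnd_mono {G : Type} [AddCommGroup G] [Fintype G] {M : ℕ}
    {χ : Bool → G → Fin M} {m m' : ℕ} {η η' : ℝ} (hm : m' ≤ m) (hη : η ≤ η') (h : Rnd χ m η) :
    Rnd χ m' η' := by
  intro ι _ hι v hv K
  refine (h ι (hι.trans hm) v hv K).trans ?_
  exact mul_le_mul_of_nonneg_right hη (Nat.cast_nonneg _)

/-- The number of good labels for a new vertex. -/
private theorem EmbB_count {G : Type} [AddCommGroup G] [Fintype G] {M : ℕ} {χ : Bool → G → Fin M}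
    {Δ : ℕ} {η γ : ℝ} (hγ : 0 < γ) (hγ1 : γ ≤ 1) (h : Rnd χ (Δ + 6) η) {e : G} (he : e ≠ 0)
    (K1 K2 : Finset (Fin M)) (hK1 : γ ≤ (K1.card : ℝ) / M) (hK2 : γ ≤ (K2.card : ℝ) / M)
    (D : Finset G) (hD : D.card ≤ Δ + 1) :
    (γ ^ (Δ + 3) - η) * Fintype.card G ≤
      (((univ.filter fun t : G => χ true t ∈ K1).filter fun t =>
        t + e ∈ (univ.filter fun t : G => χ true t ∈ K1) ∧ ∀ r ∈ D, r + t ∈
        (univ.filter fun s : G => χ false s ∈ K2)).card : ℝ) := by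
  let v : Option (Option {x // x ∈ D}) → Bool × Bool × G := fun o =>
    match o with
    | none => (true, true, 0)
    | some none => (true, true, e)
    | some (some r) => (false, true, r.1)
  let Kf : Option (Option {x // x ∈ D}) → Finset (Fin M) := fun o =>
    match o with
    | none => K1
    | some none => K1
    | some (some _) => K2
  have hv : Function.Injective v := by
    intro a b hab
    match a, b with
    | none, none => rfl
    | none, some none => exact absurd (by simpa [v] using hab) he.symm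
    | some none, none => exact absurd (by simpa [v] using hab) he
    | some none, some none => rfl
    | none, some (some r) => simp [v] at hab
    | some (some r), none => simp [v] at hab
    | some none, some (some r) => simp [v] at hab
    | some (some r), some none => simp [v] at hab
    | some (some r), some (some s) =>
      have : r.1 = s.1 := by simpa [v] using hab
      rw [Subtype.ext this]
  have hc3 : Fintype.card (Option (Option {x // x ∈ D})) ≤ Δ + 3 := by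
    rw [Fintype.card_option, Fintype.card_option, Fintype.card_coe]
    omega
  have hc : Fintype.card (Option (Option {x // x ∈ D})) ≤ Δ + 6 := hc3.trans (by omega)
  have h1 := h (Option (Option {x // x ∈ D})) hc v hv Kf
  have h2 : ((univ.filter fun t : G => ∀ x, χ (v x).1 (pt (v x).2.1 (v x).2.2 t) ∈ Kf x).card : ℝ) ≤
      (((univ.filter fun t : G => χ true t ∈ K1).filter fun t =>
        t + e ∈ (univ.filter fun t : G => χ true t ∈ K1) ∧ ∀ r ∈ D, r + t ∈
        (univ.filter fun s : G => χ false s ∈ K2)).card : ℝ) := by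
    apply Nat.cast_le.2
    apply Finset.card_le_card
    intro t ht
    rw [mem_filter] at ht
    rw [mem_filter, mem_filter, mem_filter]
    refine ⟨⟨mem_univ _, ?_⟩, ⟨mem_univ _, ?_⟩, ?_⟩
    · have := ht.2 none
      simpa [v, Kf, pt] using this
    · have := ht.2 (some none)
      rw [add_comm]
      simpa [v, Kf, pt] using this
    · intro r hr
      rw [mem_filter]
      refine ⟨mem_univ _, ?_⟩
      have := ht.2 (some (some ⟨r, hr⟩))
      simpa [v, Kf, pt] using this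
  have h3 : γ ^ (Δ + 3) ≤ ∏ x, (((Kf x).card : ℝ) / M) := by
    have h4 : ∏ _x : Option (Option {x // x ∈ D}), γ ≤ ∏ x, (((Kf x).card : ℝ) / M) := by
      apply Finset.prod_le_prod
      · intro i _
        exact hγ.le
      · intro i _
        match i with
        | none => exact hK1
        | some none => exact hK1
        | some (some r) => exact hK2
    refine le_trans ?_ h4
    rw [Finset.prod_const, Finset.card_univ]
    exact pow_le_pow_of_le_one hγ.le hγ1 hc3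
  have h5 := (abs_le.1 h1).1
  have h6 : γ ^ (Δ + 3) * Fintype.card G ≤
      Fintype.card G * ∏ x, (((Kf x).card : ℝ) / M) := by
    rw [mul_comm]
    exact mul_le_mul_of_nonneg_left h3 (Nat.cast_nonneg _)
  rw [sub_mul]
  linarith

/-- The vertices which are not in `W` or children of such vertices. -/
private theorem EmbB_kids (Δ n : ℕ) (p : ℕ → ℕ) (rt : ℕ → Prop)
    (hΔ : ∀ i, ((range n).filter fun j => ¬ rt j ∧ p j = i).card ≤ Δ) (U X : Finset ℕ)
    (hX : ∀ j ∈ X, j ∈ range n ∧ (j ∈ U ∨ (¬ rt j ∧ p j ∈ U))) :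
    X.card ≤ U.card * (Δ + 1) := by
  have h1 : X ⊆ U ∪ U.biUnion fun i => (range n).filter fun j => ¬ rt j ∧ p j = i := by
    intro j hj
    obtain ⟨h1, h2⟩ := hX j hj
    rw [mem_union]
    rcases h2 with h | h
    · exact Or.inl h
    · right
      rw [mem_biUnion]
      exact ⟨p j, h.2, mem_filter.2 ⟨h1, h.1, rfl⟩⟩
  calc _ ≤ _ := card_le_card h1
    _ ≤ U.card + (U.biUnion fun i => (range n).filter fun j => ¬ rt j ∧ p j = i).card :=
      card_union_le _ _
    _ ≤ U.card + U.card * Δ := by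
      gcongr
      exact card_biUnion_le_card_mul _ _ _ fun i _ => hΔ i
    _ = U.card * (Δ + 1) := by ring

theorem embed2 (Δ : ℕ) (γ ζ : ℝ) (hγ : 0 < γ) (hγ1 : γ ≤ 1) (hζ : 0 < ζ) (hζ1 : ζ ≤ 1) :
    ∃ M1 : ℕ, ∀ M : ℕ, M1 ≤ M → ∃ η : ℝ, 0 < η ∧ ∃ q0 : ℕ,
      ∀ (G : Type) [AddCommGroup G] [Fintype G] (χ : Bool → G → Fin M),
      q0 ≤ Fintype.card G → Rnd χ (Δ + 6) η → ∀ (e : G), e ≠ 0 →
      ∀ (A0 A0' A1 A3 B0 B0' B3 : Finset (Fin M)), Disjoint A0 A0' → Disjoint A0 A1 →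
      Disjoint A0' A1 → Disjoint A0 A3 → Disjoint A0' A3 → Disjoint A1 A3 → Disjoint B0 B0' →
      Disjoint B0 B3 → Disjoint B0' B3 → γ ≤ (A3.card : ℝ) / M → γ ≤ (B3.card : ℝ) / M →
      ∀ (n : ℕ) (p : ℕ → ℕ) (rt mk : ℕ → Prop), (∀ i, i < n → ¬ rt i → p i < i) →
      (∀ i, ((range n).filter fun j => ¬ rt j ∧ p j = i).card ≤ Δ) →
      (∀ i, i < n → ¬ rt i → mk (p i) → ¬ mk i) →
      (((range n).filter mk).card : ℝ) * M ^ 2 ≤ A0.card * A0'.card * Fintype.card G →
      (((range n).filter fun i => ¬ mk i).card : ℝ) * M ^ 2 ≤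
        ((M : ℝ) ^ 2 - 2 * (A0.card * A0'.card) - (A1.card + A3.card) * M) * Fintype.card G →
      (((range n).filter fun i => ¬ rt i).card : ℝ) * M ^ 2 ≤
        ((M : ℝ) ^ 2 - 2 * (B0.card * B0'.card) - B3.card * M) * Fintype.card G →
      ∃ g : ℕ → G, LabInj e mk (range n) g ∧ EdgeInj e mk rt p (range n) g ∧
        (∀ i, i < n → χ true (g i) ∉ A1 ∧ (mk i → χ true (g i + e) ∉ A1)) ∧
        (∀ i, i < n → ¬ rt i → es e mk p g i ∉ dcl (χ false) e B0 B0' ∧
          es e mk p g i - e ∉ dcl (χ false) e B0 B0') ∧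
        (((range n).filter fun i => mk i ∧ g i ∉ dcl (χ true) e A0 A0').card : ℝ) ≤
          ζ * Fintype.card G := by
  have hα0 : 0 < γ ^ (Δ + 3) := by positivity
  have hΔ0 : (0 : ℝ) ≤ Δ := Nat.cast_nonneg _
  obtain ⟨α, hα⟩ : ∃ α, α = γ ^ (Δ + 3) := ⟨_, rfl⟩
  rw [← hα] at hα0
  obtain ⟨ζ', hζ'0, hz1, hz2⟩ : ∃ ζ' : ℝ, 0 < ζ' ∧ ζ' * (Δ + 2) ≤ ζ ∧
      ζ' * ((Δ + 2) * (3 + (Δ + 1) ^ 2)) ≤ α / 8 := by
    refine ⟨min (ζ / (Δ + 2)) (α / 8 / ((Δ + 2) * (3 + (Δ + 1) ^ 2))), ?_, ?_, ?_⟩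
    · apply lt_min <;> positivity
    · have := min_le_left (ζ / (Δ + 2)) (α / 8 / ((Δ + 2) * (3 + ((Δ : ℝ) + 1) ^ 2)))
      rwa [le_div_iff₀ (by positivity)] at this
    · have := min_le_right (ζ / (Δ + 2)) (α / 8 / ((Δ + 2) * (3 + ((Δ : ℝ) + 1) ^ 2)))
      rwa [le_div_iff₀ (by positivity)] at this
  have hζ'1 : ζ' ≤ 1 := by nlinarith [mul_nonneg hζ'0.le hΔ0]
  obtain ⟨M1, hPE⟩ := partial_embed2 ζ' hζ'0 hζ'1
  refine ⟨M1, fun M hM => ?_⟩
  obtain ⟨η1, hη1, q1, hPE⟩ := hPE M hM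
  refine ⟨min η1 (α / 4), lt_min hη1 (by positivity), max q1 ⌈3 / α⌉₊, ?_⟩
  intro G _ _ χ hq hR e he A0 A0' A1 A3 B0 B0' B3 d1 d2 d3 d4 d5 d6 d7 d8 d9 hA3 hB3 n p rt mk hp
    hΔ hmk hd hs hed
  have hq1 : q1 ≤ Fintype.card G := (le_max_left _ _).trans hq
  have hqR : (0 : ℝ) ≤ Fintype.card G := Nat.cast_nonneg _
  have hq3 : 3 / α ≤ Fintype.card G := by
    refine (Nat.le_ceil _).trans ?_
    exact_mod_cast (le_max_right _ _).trans hq
  have hαq : 3 ≤ α * Fintype.card G := by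
    rw [div_le_iff₀ hα0] at hq3
    linarith
  have hR6 : Rnd χ 6 η1 := EmbB_rnd_mono (by omega) (min_le_left _ _) hR
  have hRΔ : Rnd χ (Δ + 6) (α / 4) := EmbB_rnd_mono le_rfl (min_le_right _ _) hR
  obtain ⟨W, g1, hW, hWc, hinj, hedge, hmd, hms, hse⟩ := hPE G χ hq1 hR6 e he A0 A0' (A1 ∪ A3) B0 B0'
    B3 d1 (Finset.disjoint_union_right.2 ⟨d2, d4⟩) (Finset.disjoint_union_right.2 ⟨d3, d5⟩) d7 d8 d9
    n p rt mk hp hd (by
      rw [Finset.card_union_of_disjoint d6]
      push_cast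
      exact hs) hed
  -- the kept part
  obtain ⟨V1, hV1⟩ : ∃ V1 : Finset ℕ, ∀ w, w ∈ V1 ↔ w ∈ W ∧ (rt w ∨ ¬ mk (p w) ∨ p w ∈ W) :=
    ⟨W.filter fun w => rt w ∨ ¬ mk (p w) ∨ p w ∈ W, fun w => mem_filter⟩
  have hVW : ∀ w ∈ V1, w ∈ W := fun w hw => ((hV1 w).1 hw).1
  have hVn : V1 ⊆ range n := fun w hw => hW (hVW w hw)
  have hcV : (((range n) \ V1).card : ℝ) ≤ ζ' * Fintype.card G * (Δ + 1) := by
    have h1 := EmbB_kids Δ n p rt hΔ ((range n) \ W) ((range n) \ V1) (by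
      intro j hj
      rw [mem_sdiff] at hj
      refine ⟨hj.1, ?_⟩
      by_cases hjW : j ∈ W
      · right
        have h2 : ¬ (rt j ∨ ¬ mk (p j) ∨ p j ∈ W) := fun h => hj.2 ((hV1 j).2 ⟨hjW, h⟩)
        push Not at h2
        refine ⟨h2.1, mem_sdiff.2 ⟨?_, h2.2.2⟩⟩
        have h3 := hp j (mem_range.1 hj.1) h2.1
        exact mem_range.2 (h3.trans (mem_range.1 hj.1))
      · exact Or.inl (mem_sdiff.2 ⟨hj.1, hjW⟩))
    have h2 : (((range n) \ V1).card : ℝ) ≤ ((range n) \ W).card * ((Δ : ℝ) + 1) := by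
      exact_mod_cast h1
    exact h2.trans (mul_le_mul_of_nonneg_right hWc (by positivity))
  have hD1 : ∀ {b : Bool} {K K' : Finset (Fin M)} {x : G},
      x ∈ dcl (χ b) e K K' ↔ χ b x ∈ K ∧ χ b (x + e) ∈ K' := by
    intro b K K' x
    simp [dcl]
  have hmd' : ∀ i ∈ W, mk i → χ true (g1 i) ∈ A0 ∧ χ true (g1 i + e) ∈ A0' :=
    fun i hi hm => hD1.1 (hmd i hi hm)
  have hc : (⌊α * Fintype.card G / 2⌋₊ : ℝ) ≤ α * Fintype.card G / 2 :=
    Nat.floor_le (by positivity)
  have hc' : α * Fintype.card G / 2 < ⌊α * Fintype.card G / 2⌋₊ + 1 := Nat.lt_floor_add_one _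
  obtain ⟨g, hg1, hg2, hg3, hg4, hg5⟩ := greedy_ext2 e he Δ n p rt mk hp hΔ
    (univ.filter fun t : G => χ true t ∈ A3) (univ.filter fun s : G => χ false s ∈ B3) V1 hVn g1
    (by
      refine ⟨hinj.mono fun i hi => hVW i hi, fun i hi j hj hmj h => ?_⟩
      have h1 := hmd' j (hVW j hj) hmj
      by_cases hmi : mk i
      · have h2 := (hmd' i (hVW i hi) hmi).1
        rw [h] at h2
        exact Finset.disjoint_left.1 d1 h2 h1.2
      · have h2 := (hms i (hVW i hi) hmi).2.1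
        apply h2
        rw [h, add_sub_cancel_right]
        exact hD1.2 h1)
    (fun i hi j hj hri hrj hpi hpj h => hedge i (hVW i hi) j (hVW j hj) hri hrj (hVW _ hpi)
      (hVW _ hpj) h)
    (fun i hi => by
      by_cases hmi : mk i
      · have h1 := hmd' i (hVW i hi) hmi
        exact ⟨fun h => Finset.disjoint_left.1 d4 h1.1 (mem_filter.1 h).2,
          fun _ h => Finset.disjoint_left.1 d5 h1.2 (mem_filter.1 h).2⟩
      · have h1 := (hms i (hVW i hi) hmi).2.2
        exact ⟨fun h => h1 (mem_union_right _ (mem_filter.1 h).2), fun h => absurd h hmi⟩)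
    (fun i hi hri hpi h => (hse i (hVW i hi) hri (hVW _ hpi)).2.2 (mem_filter.1 h).2)
    ⌊α * Fintype.card G / 2⌋₊
    (by
      intro D hD
      have h1 := EmbB_count hγ hγ1 hRΔ he A3 B3 hA3 hB3 D hD
      rw [← hα] at h1
      have h2 : (⌊α * Fintype.card G / 2⌋₊ : ℝ) ≤
          (((univ.filter fun t : G => χ true t ∈ A3).filter fun t =>
            t + e ∈ (univ.filter fun t : G => χ true t ∈ A3) ∧ ∀ r ∈ D, r + t ∈
            (univ.filter fun s : G => χ false s ∈ B3)).card : ℝ) := by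
        refine le_trans ?_ h1
        nlinarith
      exact_mod_cast h2)
    (by
      have h3 : ((((range n) \ V1).card * (3 + (Δ + 1) ^ 2) : ℕ) : ℝ) <
          ⌊α * Fintype.card G / 2⌋₊ := by
        push_cast
        have h4 : (((range n) \ V1).card : ℝ) * (3 + ((Δ : ℝ) + 1) ^ 2) ≤
            ζ' * Fintype.card G * (Δ + 1) * (3 + ((Δ : ℝ) + 1) ^ 2) :=
          mul_le_mul_of_nonneg_right hcV (by positivity)
        have h5 : ζ' * ((Δ + 2) * (3 + ((Δ : ℝ) + 1) ^ 2)) * Fintype.card G ≤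
            α / 8 * Fintype.card G :=
          mul_le_mul_of_nonneg_right hz2 hqR
        have h6 : ζ' * Fintype.card G * (Δ + 1) * (3 + ((Δ : ℝ) + 1) ^ 2) ≤
            ζ' * ((Δ + 2) * (3 + ((Δ : ℝ) + 1) ^ 2)) * Fintype.card G := by
          have h7 : 0 ≤ ζ' * Fintype.card G * (3 + ((Δ : ℝ) + 1) ^ 2) := by positivity
          have e7 : ζ' * ((Δ + 2) * (3 + ((Δ : ℝ) + 1) ^ 2)) * Fintype.card G =
              ζ' * Fintype.card G * (Δ + 1) * (3 + ((Δ : ℝ) + 1) ^ 2) +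
                ζ' * Fintype.card G * (3 + ((Δ : ℝ) + 1) ^ 2) := by ring
          rw [e7]
          linarith
        linarith
      exact_mod_cast h3)
    (fun v hv hmv w hw hrw hpw => by
      have h1 := ((hV1 w).1 hw).2
      rw [hpw] at h1
      have hvW : v ∈ W := by
        rcases h1 with h | h | h
        · exact absurd h hrw
        · exact absurd hmv h
        · exact h
      have h2 : ¬ (rt v ∨ ¬ mk (p v) ∨ p v ∈ W) := fun h =>
        (mem_sdiff.1 hv).2 ((hV1 v).2 ⟨hvW, h⟩)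
      push Not at h2
      exact hmk v (mem_range.1 (mem_sdiff.1 hv).1) h2.1 h2.2.1 hmv)
  refine ⟨g, hg2, hg3, fun i hi => ?_, fun i hi hri => ?_, ?_⟩
  · by_cases hiV : i ∈ V1
    · rw [hg1 i hiV]
      by_cases hmi : mk i
      · have h1 := hmd' i (hVW i hiV) hmi
        exact ⟨fun h => Finset.disjoint_left.1 d2 h1.1 h,
          fun _ h => Finset.disjoint_left.1 d3 h1.2 h⟩
      · have h1 := (hms i (hVW i hiV) hmi).2.2
        exact ⟨fun h => h1 (mem_union_left _ h), fun h => absurd h hmi⟩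
    · obtain ⟨h1, h2⟩ := hg4 i (mem_range.2 hi) hiV
      exact ⟨fun h => Finset.disjoint_left.1 d6 h (mem_filter.1 h1).2,
        fun _ h => Finset.disjoint_left.1 d6 h (mem_filter.1 h2).2⟩
  · by_cases hiV : i ∈ V1 ∧ p i ∈ V1
    · have e1 : es e mk p g i = es e mk p g1 i := by
        unfold es
        rw [hg1 i hiV.1, hg1 _ hiV.2]
      rw [e1]
      have h1 := hse i (hVW i hiV.1) hri (hVW _ hiV.2)
      exact ⟨h1.1, h1.2.1⟩
    · have h1 := (mem_filter.1 (hg5 i (mem_range.2 hi) hri (by tauto))).2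
      refine ⟨fun h => ?_, fun h => ?_⟩
      · exact Finset.disjoint_left.1 d8 (hD1.1 h).1 h1
      · have h2 := (hD1.1 h).2
        rw [sub_add_cancel] at h2
        exact Finset.disjoint_left.1 d9 h2 h1
  · have h1 : ((range n).filter fun i => mk i ∧ g i ∉ dcl (χ true) e A0 A0').card ≤
        ((range n) \ V1).card := by
      refine card_le_card fun i hi => ?_
      obtain ⟨h1, h2, h3⟩ := mem_filter.1 hi
      refine mem_sdiff.2 ⟨h1, fun hiV => h3 ?_⟩
      rw [hg1 i hiV]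
      exact hmd i (hVW i hiV) h2
    have h2 : ζ' * (Δ + 2) * Fintype.card G ≤ ζ * Fintype.card G :=
      mul_le_mul_of_nonneg_right hz1 hqR
    have h3 : 0 ≤ ζ' * Fintype.card G := by positivity
    have h4 : ζ' * (Δ + 2) * Fintype.card G =
        ζ' * Fintype.card G * (Δ + 1) + ζ' * Fintype.card G := by ring
    have h5 : ((((range n).filter fun i => mk i ∧ g i ∉ dcl (χ true) e A0 A0').card : ℕ) : ℝ) ≤
        (((range n) \ V1).card : ℝ) := by exact_mod_cast h1
    linarith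

end Pool.Agent.H60.HM
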