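import Pool.Agent.H60.HM.RndB
import Pool.Agent.H60.HL.Emt

/-!
# HM-07 EmtR: the exact matching theorem for pairs

Compare the finished file `Pool/Agent/H60/HL/TrG1.lean` (proof of `pm_main`), which does the same for `cls`.
Proof.  `Θ = {0, e, -e}` (`ThOK`).  `cH = (ρ/2)^12 / 2`; `ζ1` from `emt ρ cH` (we may assume `ζ1 ≤ ρ / 4`: the
hypotheses `QR .. ζ1`, `Near .. ζ1`, `card F ≤ ζ1 q` become stronger for smaller `ζ1`).
`κ = ζ1 / 4`, `αF = κ ρ / 2`, `cF = αF^12 / 2`, `q0` from `emt` for `cF`.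
`ε = min (ζ1 / 10) (min (cF / 30) (cH / 30))`, `η = ε` (`ε ≤ 1`), `M0 ≥ 4 / ζ1`.
Given `K, K'` with `|κ i κ' i - ρ| ≤ ε` (`κ i = (K i).card / M`, `κ' i = (K' i).card / M`, both `≤ 1`, so both are
`≥ ρ - ε ≥ ρ / 2`): choose `KF i ⊆ K i` with `(KF i).card = ⌈κ M⌉` (possible as `κ M + 1 ≤ (ρ / 2) M`), so
`κ κ' i ≤ (KF i).card / M * κ' i ≤ κ + 1 / M ≤ ζ1 / 2`, and `≥ κ ρ / 2 = αF`.  `KH i = K i \ KF i`:
`(KH i).card / M * κ' i ≥ ρ - ε - κ - 1 / M ≥ ρ / 2`.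
`A = cls2 χ e K K'`, `F i = B i ∩ cls2 χ e KF K' i`.
* `QR A Θ ρ ζ1`: `qr_of_rnd2` (`5 ε ≤ ζ1`; monotone in the last argument).
* `Near A B ζ1`: `ε ≤ ζ1`.
* `(F i).card ≤ (cls2 χ e KF K' i).card ≤ (ζ1 / 2 + η) q ≤ ζ1 q` by `cls2_card`.
* `Rich F Θ 12 cF`: `rich_of_rnd2` for `KF`, `K'` (`α = αF`, `ζ = ε`): `cls2 χ e KF K' i \ F i ⊆ cls2 χ e K K' i \ B i`;
`αF^12 - η - 12 ε ≥ cF`.
* `Rich (B \ F) Θ 12 cH`: `rich_of_rnd2` for `KH`, `K'` (`α = ρ / 2`): `cls2 χ e KH K' i` and `cls2 χ e KF K' i` are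
disjoint, so `cls2 χ e KH K' i \ (B i \ F i) ⊆ cls2 χ e K K' i \ B i`; `(ρ/2)^12 - η - 12 ε ≥ cH`.
(`Rich` is monotone in the constant `c`.)  `emt` gives the conclusion.
-/

namespace Pool.Agent.H60.HM

open Finset Classical Pool.Agent.H60.HL

private lemma EmtR_mem {G : Type} [AddCommGroup G] [Fintype G] {M : ℕ} (χ : Bool → G → Fin M)
    (e : G) (K K' : Fin 3 → Finset (Fin M)) (i : Fin 3) (x : G) :
    x ∈ cls2 χ e K K' i ↔ (if i = 2 then χ false (-x) else χ true x) ∈ K i ∧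
      (if i = 2 then χ false (-x + e) else χ true (x + e)) ∈ K' i := by
  unfold cls2
  by_cases h : i = 2
  · subst h; simp
  · simp [h]

private lemma EmtR_rich {G : Type} [AddCommGroup G] [Fintype G] {B : Fin 3 → Finset G}
    {Θ : Finset G} {m : ℕ} {c c' : ℝ} (h : Rich B Θ m c) (hc : c' ≤ c) : Rich B Θ m c' := by
  intro ι _ h1 v hv
  exact (mul_le_mul_of_nonneg_right hc (by positivity)).trans (h ι h1 v hv)

private lemma EmtR_thok {G : Type} [AddCommGroup G] (e : G) : ThOK ({0, e, -e} : Finset G) := by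
  refine ⟨by simp, ?_, Finset.card_le_three⟩
  intro x hx
  simp only [mem_insert, mem_singleton] at hx ⊢
  rcases hx with rfl | rfl | rfl
  · simp
  · simp
  · simp

theorem emtR (ρ : ℝ) (hρ : 0 < ρ) (hρ1 : ρ ≤ 1) :
    ∃ ε : ℝ, 0 < ε ∧ ∃ M0 q0 : ℕ, ∀ (G : Type) [AddCommGroup G] [Fintype G],
      Tor2 G → q0 ≤ Fintype.card G → ∀ (e : G), e ≠ 0 → ∀ (M : ℕ), M0 ≤ M →
      ∀ (χ : Bool → G → Fin M), Rnd χ 24 ε → ∀ (K K' : Fin 3 → Finset (Fin M)),
      (∀ i, |((K i).card : ℝ) / M * ((K' i).card / M) - ρ| ≤ ε) →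
      ∀ B : Fin 3 → Finset G, Near (cls2 χ e K K') B ε →
      (B 0).card = (B 1).card + 1 → (B 2).card = (B 1).card + 1 →
      ∃ x ∈ B 0, ∃ z ∈ B 2, PM (fun i => if i = 0 then (B 0).erase x else
        if i = 2 then (B 2).erase z else B 1) := by
  obtain ⟨cH, hcHd⟩ : ∃ cH : ℝ, cH = (ρ / 2) ^ 12 / 2 := ⟨_, rfl⟩
  have hcH : 0 < cH := by rw [hcHd]; positivity
  obtain ⟨ζ0, hζ0, hemt⟩ := emt ρ cH hρ hρ1 hcH
  obtain ⟨ζ1, hζ1, hζ1a, hζ1b⟩ : ∃ ζ1 : ℝ, 0 < ζ1 ∧ ζ1 ≤ ζ0 ∧ ζ1 ≤ ρ / 4 :=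
    ⟨min ζ0 (ρ / 4), lt_min hζ0 (by positivity), min_le_left _ _, min_le_right _ _⟩
  obtain ⟨κ, hκd⟩ : ∃ κ : ℝ, κ = ζ1 / 4 := ⟨_, rfl⟩
  have hκ : 0 < κ := by rw [hκd]; positivity
  have hκ1 : κ ≤ 1 := by rw [hκd]; linarith
  obtain ⟨αF, hαd⟩ : ∃ αF : ℝ, αF = κ * (ρ / 2) := ⟨_, rfl⟩
  have hα : 0 < αF := by rw [hαd]; positivity
  have hα1 : αF ≤ 1 := by
    rw [hαd]
    calc κ * (ρ / 2) ≤ 1 * 1 := by gcongr; linarith
      _ = 1 := by norm_num
  obtain ⟨cF, hcFd⟩ : ∃ cF : ℝ, cF = αF ^ 12 / 2 := ⟨_, rfl⟩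
  have hcF : 0 < cF := by rw [hcFd]; positivity
  obtain ⟨q1, hemt⟩ := hemt cF hcF
  obtain ⟨ε, hε, hε1, hε2, hε3⟩ : ∃ ε : ℝ, 0 < ε ∧ ε ≤ ζ1 / 10 ∧ ε ≤ cF / 30 ∧ ε ≤ cH / 30 :=
    ⟨min (ζ1 / 10) (min (cF / 30) (cH / 30)),
      lt_min (by positivity) (lt_min (by positivity) (by positivity)), min_le_left _ _,
      (min_le_right _ _).trans (min_le_left _ _), (min_le_right _ _).trans (min_le_right _ _)⟩
  refine ⟨ε, hε, ⌈1 / κ⌉₊, q1, ?_⟩
  intro G _ _ hT hq e he M hM χ hχ K K' hK B hnear hB0 hB2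
  have hM1 : 1 / κ ≤ M := (Nat.le_ceil _).trans (by exact_mod_cast hM)
  have hMp : (0 : ℝ) < M := lt_of_lt_of_le (by positivity) hM1
  have hM3 : 1 / (M : ℝ) ≤ κ := by
    rw [div_le_iff₀ hκ] at hM1
    rw [div_le_iff₀ hMp]
    linarith
  obtain ⟨f, hfd⟩ : ∃ f : ℕ, f = ⌈κ * M⌉₊ := ⟨_, rfl⟩
  have hf1 : κ ≤ (f : ℝ) / M := by
    rw [le_div_iff₀ hMp, hfd]; exact Nat.le_ceil _
  have hf2 : (f : ℝ) / M ≤ 2 * κ := by
    have h1 : (f : ℝ) ≤ κ * M + 1 := by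
      rw [hfd]; exact (Nat.ceil_lt_add_one (by positivity)).le
    have h2 : (f : ℝ) / M ≤ (κ * M + 1) / M := by gcongr
    have h3 : (κ * M + 1) / M = κ + 1 / M := by field_simp
    linarith
  have hle1 : ∀ X : Finset (Fin M), (X.card : ℝ) / M ≤ 1 := by
    intro X
    rw [div_le_one hMp]
    have := X.card_le_univ
    rw [Fintype.card_fin] at this
    exact_mod_cast this
  have hge0 : ∀ X : Finset (Fin M), (0 : ℝ) ≤ (X.card : ℝ) / M := fun X => by positivity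
  have hKl : ∀ i, ρ - ε ≤ ((K i).card : ℝ) / M := by
    intro i
    have h1 := (abs_le.1 (hK i)).1
    have h2 : ((K i).card : ℝ) / M * ((K' i).card / M) ≤ ((K i).card : ℝ) / M * 1 :=
      mul_le_mul_of_nonneg_left (hle1 _) (hge0 _)
    linarith
  have hKl' : ∀ i, ρ - ε ≤ ((K' i).card : ℝ) / M := by
    intro i
    have h1 := (abs_le.1 (hK i)).1
    have h2 : ((K i).card : ℝ) / M * ((K' i).card / M) ≤ 1 * (((K' i).card : ℝ) / M) :=
      mul_le_mul_of_nonneg_right (hle1 _) (hge0 _)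
    linarith
  have hfK : ∀ i, f ≤ (K i).card := by
    intro i
    have h1 : (f : ℝ) / M ≤ ((K i).card : ℝ) / M := by
      have := hKl i
      rw [hκd] at hf2
      linarith
    rw [div_le_div_iff_of_pos_right hMp] at h1
    exact_mod_cast h1
  have hKF : ∀ i, ∃ X ⊆ K i, X.card = f := fun i => Finset.exists_subset_card_eq (hfK i)
  choose KF hKF1 hKF2 using hKF
  have hΘ0 : (0 : G) ∈ ({0, e, -e} : Finset G) := by simp
  have hΘ1 : e ∈ ({0, e, -e} : Finset G) := by simp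
  have hΘ2 : -e ∈ ({0, e, -e} : Finset G) := by simp
  have hQR : QR (cls2 χ e K K') {0, e, -e} ρ ζ0 :=
    emt_QR_mono (by linarith) (qr_of_rnd2 (by norm_num) hε.le (by linarith) hρ.le hρ1 hχ he K K'
      hK hΘ0 hΘ1 hΘ2)
  have hNear : Near (cls2 χ e K K') B ζ0 := by
    intro i
    exact (hnear i).trans (mul_le_mul_of_nonneg_right (by linarith) (Nat.cast_nonneg _))
  have hne : ∀ i, ((cls2 χ e K K' i \ B i).card : ℝ) ≤ ε * Fintype.card G := by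
    intro i
    have h1 := hnear i
    have h2 : (0 : ℝ) ≤ (B i \ cls2 χ e K K' i).card := by positivity
    linarith
  obtain ⟨F, hF⟩ : ∃ F : Fin 3 → Finset G, ∀ i, F i = B i ∩ cls2 χ e KF K' i :=
    ⟨_, fun _ => rfl⟩
  have hFc : ∀ i, ((F i).card : ℝ) ≤ ζ0 * Fintype.card G := by
    intro i
    have h1 : ((F i).card : ℝ) ≤ (cls2 χ e KF K' i).card := by
      rw [hF]; exact_mod_cast Finset.card_le_card Finset.inter_subset_right
    have h2 := (abs_le.mp (cls2_card (by norm_num) hχ he KF K' i)).2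
    rw [hKF2] at h2
    have h3 : (f : ℝ) / M * ((K' i).card / M) ≤ 2 * κ * 1 :=
      mul_le_mul hf2 (hle1 _) (hge0 _) (by positivity)
    have h4 : (f : ℝ) / M * ((K' i).card / M) * Fintype.card G ≤
        2 * κ * 1 * Fintype.card G := mul_le_mul_of_nonneg_right h3 (Nat.cast_nonneg _)
    have h5 : (2 * κ * 1 + ε) * Fintype.card G ≤ ζ0 * Fintype.card G :=
      mul_le_mul_of_nonneg_right (by rw [hκd]; linarith) (Nat.cast_nonneg _)
    linarith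
  have hrF : Rich F {0, e, -e} 12 cF := by
    refine EmtR_rich (rich_of_rnd2 (m := 12) hα.le hα1 hε.le hχ he KF K' ?_ hΘ0 hΘ1 hΘ2 F ?_)
      (c' := cF) ?_
    · intro i
      rw [hKF2, hαd]
      refine mul_le_mul hf1 ?_ (by positivity) (by positivity)
      have := hKl' i
      linarith
    · intro i
      refine le_trans ?_ (hne i)
      have h4 : cls2 χ e KF K' i \ F i ⊆ cls2 χ e K K' i \ B i := by
        intro x hx
        rw [hF] at hx
        simp only [mem_sdiff, mem_inter, EmtR_mem] at hx ⊢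
        exact ⟨⟨hKF1 i hx.1.1, hx.1.2⟩, fun h => hx.2 ⟨h, hx.1⟩⟩
      exact_mod_cast Finset.card_le_card h4
    · push_cast
      linarith
  have hrH : Rich (fun i => B i \ F i) {0, e, -e} 12 cH := by
    refine EmtR_rich (rich_of_rnd2 (m := 12) (α := ρ / 2) (by positivity) (by linarith) hε.le hχ he
      (fun i => K i \ KF i) K' ?_ hΘ0 hΘ1 hΘ2 (fun i => B i \ F i) ?_) (c' := cH) ?_
    · intro i
      have h7 : (K i \ KF i).card + f = (K i).card := by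
        rw [← hKF2 i]; exact Finset.card_sdiff_add_card_eq_card (hKF1 i)
      have h8 : (((K i \ KF i).card : ℕ) : ℝ) = (K i).card - f := by
        rw [← h7]; push_cast; ring
      rw [h8, sub_div, sub_mul]
      have h9 := (abs_le.1 (hK i)).1
      have h10 : (f : ℝ) / M * ((K' i).card / M) ≤ 2 * κ * 1 :=
        mul_le_mul hf2 (hle1 _) (hge0 _) (by positivity)
      rw [hκd] at h10
      linarith
    · intro i
      refine le_trans ?_ (hne i)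
      have h4 : cls2 χ e (fun i => K i \ KF i) K' i \ (B i \ F i) ⊆ cls2 χ e K K' i \ B i := by
        intro x hx
        rw [hF] at hx
        simp only [mem_sdiff, mem_inter, EmtR_mem] at hx ⊢
        refine ⟨⟨hx.1.1.1, hx.1.2⟩, fun h => hx.2 ⟨h, fun h' => hx.1.1.2 h'.2.1⟩⟩
      exact_mod_cast Finset.card_le_card h4
    · push_cast
      linarith
  exact hemt G hT hq {0, e, -e} (cls2 χ e K K') B F (EmtR_thok e) hQR hNear
    (fun i => by rw [hF]; exact Finset.inter_subset_left) hFc hrF hrH hB0 hB2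

end Pool.Agent.H60.HM
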