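import Pool.Agent.H60.HM.FinA
import Pool.Agent.H60.HM.EmtR

/-!
# HM-08 Fin: the group part of the theorem

`X`: labels of the double vertices, `UL`: unused labels, `US`: unused sums, `gz` the label of the
neighbour of the last leaf, `v0 k`, `v11 k` the ends of the connectors.
Constants: `finA (1/64)`: `η1, β1, q1`; `emtR (1/64)`: `ε1, M0, q2`.  `ε = min (min η1 β1) (min (ε1 / 100) 1)`
(`Rnd` is monotone in `m` and `η`), `q0` large.
Proof.  `finA` with `A2 = B0`, `A2' = B0'`: `l`, `v`, `S`.  `Y = UL \ ({l} ∪ {v k r : 0 < r < 11})`;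
all the removed elements have colours in `A1`, so they are in `UL`, and they are different:
`Y.card = L + 10 N - 1 - 10 N = L - 1` (and `L ≥ 1` since `X.card = L`, `L ≥ q / 64 - 1`).
`B = ![X, Y, -S]` (`-S = S.image Neg.neg`), `(B 0).card = (B 1).card + 1 = (B 2).card`.
`K = ![A0, A1, B0]`, `K' = ![A0', univ, B0']`.  `Near (cls2 χ e K K') B ε`:
* type `0`: `cls2 .. 0 = DX = dcl (χ true) e A0 A0'`, `(X \ DX).card ≤ ε q`, so `(X ∩ DX).card ≥ L - ε q` and
`(DX \ X).card ≤ DX.card - L + ε q ≤ (1/64 + ε) q - (q/64 - 1) + ε q` (`cls2_card`); in total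
`≤ 3 ε q + 1 ≤ ε1 q`.
* type `1`: `cls2 .. 1 = YC = {x : χ true x ∈ A1} ⊆ UL`: `YC \ Y` consists of removed elements, at most
`10 N + 1 ≤ 10 ε q + 1`; `(Y \ YC).card = Y.card - YC.card + (YC \ Y).card ≤ L - 1 - (1/64 - ε) q + 10 ε q + 1`.
* type `2`: `cls2 .. 2 = -DS`, `DS = dcl (χ false) e B0 B0'`; `-S ⊆ -DS`, and
`DS.card - S.card ≤ (11 N + 1) / 2` because `2 DS.card ≤ US.card = 2 L + 11 N + 1` (`DS`, `DS + e` are disjoint
subsets of `US`), at most `6 ε q + 1`.
`emtR` gives `x0 ∈ X`, `z0 ∈ -S` and a set `T` of triples (`PM`).  Define `y`: for `x ∈ X`, `x ≠ x0` there is exactly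
one `t ∈ T` with `t 0 = x`, `y x = t 1`, so `x + y x = -t 2 ∈ S`, `-t 2 ≠ -z0`; `y x0 = -z0 - x0`.
So `x ↦ x + y x` is an injective map from `X` to `S`, and every element of `Y` is `y x` for some `x ∈ X`.
-/

namespace Pool.Agent.H60.HM

open Finset Classical Pool.Agent.H60.HL

private theorem Fin_rnd {G : Type} [AddCommGroup G] [Fintype G] {M : ℕ} {χ : Bool → G → Fin M}
    {m m' : ℕ} {η η' : ℝ} (h : Rnd χ m η) (hm : m' ≤ m) (hη : η ≤ η') : Rnd χ m' η' := by
  intro ι _ h1 v hv K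
  exact (h ι (h1.trans hm) v hv K).trans (mul_le_mul_of_nonneg_right hη (by positivity))

/-- the matching gives the labels of the pending vertices -/
private theorem Fin_match {G : Type} [AddCommGroup G] (X Y S : Finset G) (x0 z0 : G)
    (hz0 : z0 ∈ S.image (fun s => -s))
    (hPM : PM (fun i => if i = 0 then X.erase x0 else
      if i = 2 then (S.image (fun s => -s)).erase z0 else Y)) :
    ∃ y : G → G, (∀ x ∈ X, x + y x ∈ S) ∧
      (∀ x ∈ X, ∀ x' ∈ X, x + y x = x' + y x' → x = x') ∧ ∀ t ∈ Y, ∃ x ∈ X, y x = t := by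
  obtain ⟨T, hT0, hTi, hTB⟩ := hPM
  have hB0 : T.image (fun t => t 0) = X.erase x0 := by
    have := hTB 0
    simpa using this
  have hB1 : T.image (fun t => t 1) = Y := by
    have := hTB 1
    simpa using this
  have hB2 : T.image (fun t => t 2) = (S.image (fun s => -s)).erase z0 := by
    have := hTB 2
    simpa using this
  set y : G → G := fun x => if h : ∃ t ∈ T, t 0 = x then (Classical.choose h) 1 else -z0 - x0
    with hy
  have key : ∀ x ∈ X, ∃ w ∈ S.image (fun s => -s), x + y x = -w ∧ (x = x0 → w = z0) ∧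
      (x ≠ x0 → w ≠ z0 ∧ ∃ t ∈ T, t 0 = x ∧ t 1 = y x ∧ t 2 = w) := by
    intro x hx
    by_cases hgx : x = x0
    · have hno : ¬ ∃ t ∈ T, t 0 = x := by
        rintro ⟨t, ht, h0⟩
        have : t 0 ∈ X.erase x0 := by
          rw [← hB0]
          exact Finset.mem_image.mpr ⟨t, ht, rfl⟩
        exact (Finset.mem_erase.mp this).1 (h0.trans hgx)
      refine ⟨z0, hz0, ?_, fun _ => rfl, fun h => absurd hgx h⟩
      have : y x = -z0 - x0 := by
        rw [hy]
        exact dif_neg hno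
      rw [this, hgx]
      abel
    · have hmem : x ∈ X.erase x0 := Finset.mem_erase.mpr ⟨hgx, hx⟩
      rw [← hB0] at hmem
      obtain ⟨t, ht, ht0⟩ := Finset.mem_image.mp hmem
      have hex : ∃ t ∈ T, t 0 = x := ⟨t, ht, ht0⟩
      have hyi : y x = (Classical.choose hex) 1 := by
        rw [hy]
        exact dif_pos hex
      obtain ⟨hc1, hc2⟩ := Classical.choose_spec hex
      set s := Classical.choose hex with hs
      have hs2 : s 2 ∈ (S.image (fun s => -s)).erase z0 := by
        rw [← hB2]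
        exact Finset.mem_image.mpr ⟨s, hc1, rfl⟩
      obtain ⟨hne, hmem2⟩ := Finset.mem_erase.mp hs2
      refine ⟨s 2, hmem2, ?_, fun h => absurd h hgx, fun _ => ⟨hne, s, hc1, hc2, hyi.symm, rfl⟩⟩
      have := hT0 s hc1
      rw [hc2, ← hyi] at this
      exact eq_neg_of_add_eq_zero_left this
  refine ⟨y, ?_, ?_, ?_⟩
  · intro x hx
    obtain ⟨w, hw, h1, -, -⟩ := key x hx
    obtain ⟨s, hs, hsw⟩ := Finset.mem_image.mp hw
    rw [h1, ← hsw]
    simpa using hs
  · intro x hx x' hx' he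
    obtain ⟨w, hw, h1, h2, h3⟩ := key x hx
    obtain ⟨w', hw', h1', h2', h3'⟩ := key x' hx'
    have hww : w = w' := by
      have : -w = -w' := by rw [← h1, ← h1', he]
      exact neg_injective this
    by_cases hix : x = x0 <;> by_cases hjx : x' = x0
    · rw [hix, hjx]
    · exact absurd (hww.symm.trans (h2 hix)) (h3' hjx).1
    · exact absurd (hww.trans (h2' hjx)) (h3 hix).1
    · obtain ⟨-, t, ht, t0, t1, t2⟩ := h3 hix
      obtain ⟨-, t', ht', t0', t1', t2'⟩ := h3' hjx
      have htt : t = t' := hTi 2 ht ht' (by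
        show t 2 = t' 2
        rw [t2, t2', hww])
      rw [← t0, ← t0', htt]
  · intro c hc
    rw [← hB1] at hc
    obtain ⟨t, ht, ht1⟩ := Finset.mem_image.mp hc
    have h0 : t 0 ∈ X.erase x0 := by
      rw [← hB0]
      exact Finset.mem_image.mpr ⟨t, ht, rfl⟩
    obtain ⟨hne, hmem0⟩ := Finset.mem_erase.mp h0
    obtain ⟨w, hw, -, -, h3⟩ := key (t 0) hmem0
    obtain ⟨-, t', ht', t0', t1', -⟩ := h3 hne
    have htt : t' = t := hTi 0 ht' ht t0'
    refine ⟨t 0, hmem0, ?_⟩
    rw [← t1', htt]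
    exact ht1

/-- the number of the inner labels -/
private theorem Fin_card {G : Type} [AddCommGroup G] {N : ℕ} (l : G) (v : Fin N → Fin 12 → G)
    (hinj : ∀ k k' (r r' : Fin 12), 0 < r → r < 11 → 0 < r' → r' < 11 → v k r = v k' r' →
          k = k' ∧ r = r') (hl : ∀ k (r : Fin 12), 0 < r → r < 11 → v k r ≠ l) :
    (insert l (((univ : Finset (Fin N × Fin 12)).filter
      (fun p => 0 < p.2 ∧ p.2 < 11)).image (fun p => v p.1 p.2))).card = 10 * N + 1 := by
  rw [Finset.card_insert_of_notMem, Finset.card_image_of_injOn]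
  · congr 1
    have h1 : ((univ : Finset (Fin N × Fin 12)).filter (fun p => 0 < p.2 ∧ p.2 < 11)) =
        (univ : Finset (Fin N)) ×ˢ ((univ : Finset (Fin 12)).filter (fun r => 0 < r ∧ r < 11)) := by
      ext p
      simp
    rw [h1, Finset.card_product, Finset.card_univ, Fintype.card_fin]
    have h2 : ((univ : Finset (Fin 12)).filter (fun r => 0 < r ∧ r < 11)).card = 10 := by
      decide +kernel
    rw [h2, Nat.mul_comm]
  · intro p hp p' hp' h
    have hp1 := (Finset.mem_filter.1 (Finset.mem_coe.1 hp)).2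
    have hp2 := (Finset.mem_filter.1 (Finset.mem_coe.1 hp')).2
    have := hinj p.1 p'.1 p.2 p'.2 hp1.1 hp1.2 hp2.1 hp2.2 h
    exact Prod.ext this.1 this.2
  · intro h
    obtain ⟨p, hp, hpl⟩ := Finset.mem_image.1 h
    have hp1 := (Finset.mem_filter.1 hp).2
    exact hl p.1 p.2 hp1.1 hp1.2 hpl

private theorem Fin_sdiff {G : Type} (A B : Finset G) :
    ((A \ B).card : ℝ) + B.card = (B \ A).card + A.card := by
  have h1 := Finset.card_sdiff_add_card A B
  have h2 := Finset.card_sdiff_add_card B A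
  rw [Finset.union_comm] at h2
  have h3 : (A \ B).card + B.card = (B \ A).card + A.card := by omega
  exact_mod_cast h3

/-- twice the number of pairs is at most the number of sums -/
private theorem Fin_two {G : Type} [AddCommGroup G] [Fintype G] {M : ℕ} (f : G → Fin M) (e : G)
    (B0 B0' : Finset (Fin M)) (hd : Disjoint B0 B0') (US : Finset G)
    (h : ∀ s ∈ dcl f e B0 B0', s ∈ US ∧ s + e ∈ US) : 2 * (dcl f e B0 B0').card ≤ US.card := by
  have h1 : ((dcl f e B0 B0').image (fun s => s + e)).card = (dcl f e B0 B0').card :=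
    Finset.card_image_of_injective _ (fun a b hab => add_right_cancel hab)
  have h2 : Disjoint (dcl f e B0 B0') ((dcl f e B0 B0').image (fun s => s + e)) := by
    rw [Finset.disjoint_left]
    intro x hx hx'
    obtain ⟨s, hs, rfl⟩ := Finset.mem_image.1 hx'
    have ha := (Finset.mem_filter.1 hx).2.1
    have hb := (Finset.mem_filter.1 hs).2.2
    exact Finset.disjoint_left.1 hd ha hb
  have h3 : (dcl f e B0 B0') ∪ ((dcl f e B0 B0').image (fun s => s + e)) ⊆ US := by
    intro x hx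
    rcases Finset.mem_union.1 hx with hx | hx
    · exact (h x hx).1
    · obtain ⟨s, hs, rfl⟩ := Finset.mem_image.1 hx
      exact (h s hs).2
  have h4 := Finset.card_le_card h3
  rw [Finset.card_union_of_disjoint h2, h1] at h4
  omega

/-- the three sets are close to the ideal ones -/
private theorem Fin_near {G : Type} [AddCommGroup G] [Fintype G] {ε ε1 : ℝ} (hε : ε ≤ ε1 / 100)
    {e : G} (he : e ≠ 0) {M : ℕ} {χ : Bool → G → Fin M} (hR : Rnd χ 24 ε)
    (hq : 2 ≤ ε1 * Fintype.card G)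
    (A0 A0' A1 B0 B0' : Finset (Fin M)) (hB : Disjoint B0 B0')
    (hA0 : (A0.card : ℝ) / M * (A0'.card / M) = 1 / 64) (hA1 : (A1.card : ℝ) / M = 1 / 64)
    (X UL US Y R S : Finset G) (L N : ℕ) (hN : (N : ℝ) ≤ ε * Fintype.card G)
    (hL : L = ⌊(Fintype.card G : ℝ) / 64⌋₊) (hX : X.card = L)
    (hUS : US.card = 2 * L + 11 * N + 1)
    (hXD : ((X \ dcl (χ true) e A0 A0').card : ℝ) ≤ ε * Fintype.card G)
    (hUL : ∀ x, χ true x ∈ A1 → x ∈ UL)
    (hDS : ∀ s ∈ dcl (χ false) e B0 B0', s ∈ US ∧ s + e ∈ US)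
    (hY : Y = UL \ R) (hR1 : R.card = 10 * N + 1) (hYc : Y.card + 1 = L)
    (hS : S ⊆ dcl (χ false) e B0 B0') (hSc : S.card = L) :
    Near (cls2 χ e ![A0, A1, B0] ![A0', univ, B0']) ![X, Y, S.image (fun s => -s)] ε1 := by
  have hM : M ≠ 0 := by
    rintro rfl
    simp at hA1
  have hM' : (M : ℝ) ≠ 0 := by exact_mod_cast hM
  have hq0 : (0 : ℝ) ≤ Fintype.card G := by positivity
  have hL1 : (L : ℝ) ≤ (Fintype.card G : ℝ) / 64 := by
    rw [hL]
    exact Nat.floor_le (by positivity)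
  have hL2 : (Fintype.card G : ℝ) / 64 < L + 1 := by
    rw [hL]
    exact Nat.lt_floor_add_one _
  have hεq : ε * Fintype.card G ≤ ε1 / 100 * Fintype.card G :=
    mul_le_mul_of_nonneg_right hε hq0
  have hc := cls2_card (by norm_num) hR he ![A0, A1, B0] ![A0', univ, B0']
  intro i
  fin_cases i
  · -- type 0
    have h1 : cls2 χ e ![A0, A1, B0] ![A0', univ, B0'] 0 = dcl (χ true) e A0 A0' := by
      ext x
      simp [cls2, dcl]
    have h2 := hc 0
    rw [h1] at h2
    have h3 : ((![A0, A1, B0] 0).card : ℝ) / M * ((![A0', univ, B0'] 0).card / M) = 1 / 64 := by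
      simpa using hA0
    rw [h3] at h2
    have h4 := Fin_sdiff (dcl (χ true) e A0 A0') X
    have h5 := (abs_le.1 h2).2
    show (((cls2 χ e ![A0, A1, B0] ![A0', univ, B0'] 0) \ X).card : ℝ) +
      ((X \ (cls2 χ e ![A0, A1, B0] ![A0', univ, B0'] 0)).card : ℝ) ≤ ε1 * Fintype.card G
    rw [h1]
    have h6 : (X.card : ℝ) = L := by rw [hX]
    rw [h6] at h4
    linarith
  · -- type 1
    have h1 : cls2 χ e ![A0, A1, B0] ![A0', univ, B0'] 1 = univ.filter (fun x => χ true x ∈ A1) := by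
      ext x
      simp [cls2]
    have h2 := hc 1
    rw [h1] at h2
    have h3 : ((![A0, A1, B0] 1).card : ℝ) / M * ((![A0', univ, B0'] 1).card / M) = 1 / 64 := by
      have : (![A0', univ, B0'] 1) = (univ : Finset (Fin M)) := rfl
      rw [this, Finset.card_univ, Fintype.card_fin, div_self hM', mul_one]
      exact hA1
    rw [h3] at h2
    have h4 := Fin_sdiff Y (univ.filter (fun x => χ true x ∈ A1))
    have h5 := (abs_le.1 h2).1
    show (((cls2 χ e ![A0, A1, B0] ![A0', univ, B0'] 1) \ Y).card : ℝ) +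
      ((Y \ (cls2 χ e ![A0, A1, B0] ![A0', univ, B0'] 1)).card : ℝ) ≤ ε1 * Fintype.card G
    rw [h1]
    have h6 : (univ.filter (fun x => χ true x ∈ A1)) \ Y ⊆ R := by
      intro x hx
      rw [Finset.mem_sdiff, hY, Finset.mem_sdiff] at hx
      by_contra hxR
      exact hx.2 ⟨hUL x (Finset.mem_filter.1 hx.1).2, hxR⟩
    have h7 : (((univ.filter (fun x => χ true x ∈ A1)) \ Y).card : ℝ) ≤ 10 * N + 1 := by
      have := Finset.card_le_card h6
      rw [hR1] at this
      exact_mod_cast this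
    have h8 : (Y.card : ℝ) + 1 = L := by exact_mod_cast hYc
    linarith
  · -- type 2
    have h1 : cls2 χ e ![A0, A1, B0] ![A0', univ, B0'] 2 =
        (dcl (χ false) e B0 B0').image (fun s => -s) := by
      ext x
      simp only [cls2, dcl, Finset.mem_image, Finset.mem_filter, Finset.mem_univ, true_and, if_true]
      constructor
      · intro h
        exact ⟨-x, h, neg_neg x⟩
      · rintro ⟨s, hs, rfl⟩
        rw [neg_neg]
        exact hs
    show (((cls2 χ e ![A0, A1, B0] ![A0', univ, B0'] 2) \ (S.image (fun s => -s))).card : ℝ) +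
      (((S.image (fun s => -s)) \ (cls2 χ e ![A0, A1, B0] ![A0', univ, B0'] 2)).card : ℝ) ≤
        ε1 * Fintype.card G
    rw [h1]
    have h2 : S.image (fun s => -s) ⊆ (dcl (χ false) e B0 B0').image (fun s => -s) :=
      Finset.image_subset_image hS
    have h3 : (S.image (fun s => -s)) \ ((dcl (χ false) e B0 B0').image (fun s => -s)) = ∅ :=
      Finset.sdiff_eq_empty_iff_subset.2 h2
    have h4 := Fin_sdiff ((dcl (χ false) e B0 B0').image (fun s => -s)) (S.image (fun s => -s))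
    rw [h3] at h4 ⊢
    have h5 : (S.image (fun s => -s)).card = L := by
      rw [Finset.card_image_of_injective _ neg_injective, hSc]
    have h6 : ((dcl (χ false) e B0 B0').image (fun s => -s)).card =
        (dcl (χ false) e B0 B0').card := Finset.card_image_of_injective _ neg_injective
    rw [h5, h6] at h4
    have h7 := Fin_two (χ false) e B0 B0' hB US hDS
    rw [hUS] at h7
    have h8 : 2 * ((dcl (χ false) e B0 B0').card : ℝ) ≤ 2 * L + 11 * N + 1 := by
      exact_mod_cast h7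
    rw [Finset.card_empty, Nat.cast_zero] at h4 ⊢
    linarith

theorem finish :
    ∃ ε : ℝ, 0 < ε ∧ ∃ M0 q0 : ℕ, ∀ (G : Type) [AddCommGroup G] [Fintype G],
      Tor2 G → q0 ≤ Fintype.card G → ∀ (e : G), e ≠ 0 → ∀ (par : G →+ ZMod 2), Par e par →
      ∀ (M : ℕ), M0 ≤ M → ∀ (χ : Bool → G → Fin M), Rnd χ 24 ε →
      ∀ (A0 A0' A1 B0 B0' : Finset (Fin M)), Disjoint B0 B0' →
      (A0.card : ℝ) / M * (A0'.card / M) = 1 / 64 → (A1.card : ℝ) / M = 1 / 64 →
      1 / 64 ≤ (B0.card : ℝ) / M → 1 / 64 ≤ (B0'.card : ℝ) / M →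
      |(B0.card : ℝ) / M * (B0'.card / M) - 1 / 64| ≤ ε →
      ∀ (X UL US : Finset G) (L N : ℕ), (N : ℝ) ≤ ε * Fintype.card G →
      L = ⌊(Fintype.card G : ℝ) / 64⌋₊ → X.card = L → UL.card = L + 10 * N →
      US.card = 2 * L + 11 * N + 1 →
      2 * L + 10 * N + 2 ≤ 2 * (dcl (χ false) e B0 B0').card →
      (((X \ dcl (χ true) e A0 A0').card : ℝ) ≤ ε * Fintype.card G) →
      (∀ x, χ true x ∈ A1 → x ∈ UL) →
      (∀ s ∈ dcl (χ false) e B0 B0', s ∈ US ∧ s + e ∈ US) →
      ∀ (gz : G) (v0 v11 : Fin N → G),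
      ∃ (l : G) (v : Fin N → Fin 12 → G) (y : G → G),
        (∀ k, v k 0 = v0 k ∧ v k 11 = v11 k) ∧
        (∀ t ∈ UL, l = t ∨ (∃ k, ∃ r : Fin 12, 0 < r ∧ r < 11 ∧ v k r = t) ∨ ∃ x ∈ X, y x = t) ∧
        gz + l ∈ US ∧
        (∀ k (r : Fin 11), v k r.castSucc + v k r.succ ∈ US ∧
          v k r.castSucc + v k r.succ ≠ gz + l) ∧
        (∀ k k' (r r' : Fin 11), v k r.castSucc + v k r.succ = v k' r'.castSucc + v k' r'.succ →
          k = k' ∧ r = r') ∧
        (∀ x ∈ X, ∀ b : Bool, x + (if b then e else 0) + y x ∈ US ∧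
          x + (if b then e else 0) + y x ≠ gz + l ∧
          ∀ k (r : Fin 11), x + (if b then e else 0) + y x ≠ v k r.castSucc + v k r.succ) ∧
        ∀ x ∈ X, ∀ x' ∈ X, ∀ b b' : Bool,
          x + (if b then e else 0) + y x = x' + (if b' then e else 0) + y x' → x = x' ∧ b = b' := by
  obtain ⟨η1, hη1, β1, hβ1, q1, hfin⟩ := finA (1 / 64) (by norm_num) (by norm_num)
  obtain ⟨ε1, hε1, M0, q2, hemt⟩ := emtR (1 / 64) (by norm_num) (by norm_num)
  refine ⟨min (min η1 β1) (min (ε1 / 100) 1), ?_, M0, max (max q1 q2) (max 64 ⌈2 / ε1⌉₊), ?_⟩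
  · exact lt_min (lt_min hη1 hβ1) (lt_min (by positivity) one_pos)
  intro G _ _ hTor hqc e he par hpar M hM χ hRnd A0 A0' A1 B0 B0' hB hA0 hA1 hB0 hB0' hBB X UL US L N
    hN hL hX hUL hUS hDS2 hXD hULA hUSB gz v0 v11
  obtain ⟨ε, hεd⟩ : ∃ ε : ℝ, ε = min (min η1 β1) (min (ε1 / 100) 1) := ⟨_, rfl⟩
  rw [← hεd] at hRnd hBB hN hXD
  have hεη : ε ≤ η1 := hεd ▸ (min_le_left _ _).trans (min_le_left _ _)
  have hεβ : ε ≤ β1 := hεd ▸ (min_le_left _ _).trans (min_le_right _ _)
  have hεε : ε ≤ ε1 / 100 := hεd ▸ (min_le_right _ _).trans (min_le_left _ _)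
  have hεε' : ε ≤ ε1 := by linarith
  have hq1 : q1 ≤ Fintype.card G := ((le_max_left _ _).trans (le_max_left _ _)).trans hqc
  have hq2 : q2 ≤ Fintype.card G := ((le_max_right _ _).trans (le_max_left _ _)).trans hqc
  have hq3 : 64 ≤ Fintype.card G := ((le_max_left _ _).trans (le_max_right _ _)).trans hqc
  have hq4 : 2 ≤ ε1 * Fintype.card G := by
    have h1 : ⌈2 / ε1⌉₊ ≤ Fintype.card G :=
      ((le_max_right _ _).trans (le_max_right _ _)).trans hqc
    have h2 : 2 / ε1 ≤ (Fintype.card G : ℝ) := (Nat.le_ceil _).trans (by exact_mod_cast h1)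
    rw [div_le_iff₀ hε1] at h2
    linarith
  have hq0 : (0 : ℝ) ≤ Fintype.card G := by positivity
  have hL0 : 1 ≤ L := by
    rw [hL, Nat.one_le_floor_iff]
    have : (64 : ℝ) ≤ Fintype.card G := by exact_mod_cast hq3
    linarith
  obtain ⟨l, v, S, hlA, hv0, hvinj, hvA, hSD, hSc, hgz, hSgz, hcinj, hcon⟩ :=
    hfin G hTor hq1 e he par hpar M χ (Fin_rnd hRnd (by norm_num) hεη) A1 B0 B0' hB
      (le_of_eq hA1.symm) hB0 hB0' US L N (hN.trans (mul_le_mul_of_nonneg_right hεβ hq0)) hUSB hUS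
      hDS2 gz v0 v11
  -- the removed labels
  obtain ⟨R, hRd⟩ : ∃ R : Finset G, R = insert l (((univ : Finset (Fin N × Fin 12)).filter
      (fun p => 0 < p.2 ∧ p.2 < 11)).image (fun p => v p.1 p.2)) := ⟨_, rfl⟩
  have hRc : R.card = 10 * N + 1 := by
    rw [hRd]
    exact Fin_card l v hvinj (fun k r h1 h2 => (hvA k r h1 h2).2)
  have hRU : R ⊆ UL := by
    intro x hx
    rw [hRd, Finset.mem_insert] at hx
    rcases hx with rfl | hx
    · exact hULA _ hlA
    · obtain ⟨p, hp, rfl⟩ := Finset.mem_image.1 hx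
      have hp1 := (Finset.mem_filter.1 hp).2
      exact hULA _ (hvA p.1 p.2 hp1.1 hp1.2).1
  have hYc : (UL \ R).card + 1 = L := by
    have := Finset.card_sdiff_add_card_eq_card hRU
    omega
  have hnear := Fin_near hεε he hRnd hq4 A0 A0' A1 B0 B0' hB hA0 hA1 X UL US (UL \ R) R S L N hN hL
    hX hUS hXD hULA hUSB rfl hRc hYc hSD hSc
  have hM1 : (M : ℝ) ≠ 0 := by
    intro h
    rw [h] at hA1
    simp at hA1
  have hSi : (S.image (fun s => -s)).card = L := by
    rw [Finset.card_image_of_injective _ neg_injective, hSc]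
  obtain ⟨x0, hx0, z0, hz0, hPM⟩ := hemt G hTor hq2 e he M hM χ (Fin_rnd hRnd le_rfl hεε')
    ![A0, A1, B0] ![A0', univ, B0'] (by
      intro i
      fin_cases i
      · show |(A0.card : ℝ) / M * (A0'.card / M) - 1 / 64| ≤ ε1
        rw [hA0, sub_self, abs_zero]
        exact hε1.le
      · show |(A1.card : ℝ) / M * ((univ : Finset (Fin M)).card / M) - 1 / 64| ≤ ε1
        rw [hA1, Finset.card_univ, Fintype.card_fin, div_self hM1, mul_one, sub_self, abs_zero]
        exact hε1.le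
      · exact hBB.trans hεε')
    ![X, UL \ R, S.image (fun s => -s)] hnear
    (by
      show X.card = (UL \ R).card + 1
      rw [hYc, hX])
    (by
      show (S.image (fun s => -s)).card = (UL \ R).card + 1
      rw [hYc, hSi])
  have hx0' : x0 ∈ X := hx0
  have hz0' : z0 ∈ S.image (fun s => -s) := hz0
  obtain ⟨y, hy1, hy2, hy3⟩ := Fin_match X (UL \ R) S x0 z0 hz0' hPM
  refine ⟨l, v, y, hv0, ?_, hgz, fun k r => ⟨(hcon k r).1, (hcon k r).2.1⟩, hcinj, ?_, ?_⟩
  · intro t ht
    by_cases hR' : t ∈ R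
    · rw [hRd, Finset.mem_insert] at hR'
      rcases hR' with h | h
      · exact Or.inl h.symm
      · obtain ⟨p, hp, hpt⟩ := Finset.mem_image.1 h
        have hp1 := (Finset.mem_filter.1 hp).2
        exact Or.inr (Or.inl ⟨p.1, p.2, hp1.1, hp1.2, hpt⟩)
    · exact Or.inr (Or.inr (hy3 t (Finset.mem_sdiff.2 ⟨ht, hR'⟩)))
  · intro x hx b
    have h1 := hy1 x hx
    have h2 := hUSB _ (hSD h1)
    have h3 := hSgz _ h1
    cases b with
    | false =>
      have h4 : x + (if false = true then e else 0) + y x = x + y x := by simp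
      rw [h4]
      exact ⟨h2.1, h3.1, fun k r => ((hcon k r).2.2 _ h1).1⟩
    | true =>
      have h4 : x + (if true = true then e else 0) + y x = x + y x + e := by
        simp only [if_true]
        abel
      rw [h4]
      exact ⟨h2.2, h3.2, fun k r => ((hcon k r).2.2 _ h1).2⟩
  · intro x hx x' hx' b b' h
    have h1 := hSD (hy1 x hx)
    have h1' := hSD (hy1 x' hx')
    have h4 : ∀ z : G, z + (if false = true then e else 0) + y z = z + y z := by simp
    have h5 : ∀ z : G, z + (if true = true then e else 0) + y z = z + y z + e := by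
      intro z
      simp only [if_true]
      abel
    have h6 : ∀ a b : G, a ∈ dcl (χ false) e B0 B0' → b ∈ dcl (χ false) e B0 B0' → a + e ≠ b := by
      intro a b ha hb hab
      have ha' := (Finset.mem_filter.1 ha).2.2
      have hb' := (Finset.mem_filter.1 hb).2.1
      rw [hab] at ha'
      exact Finset.disjoint_left.1 hB hb' ha'
    cases b <;> cases b'
    · rw [h4, h4] at h
      exact ⟨hy2 x hx x' hx' h, rfl⟩
    · rw [h4, h5] at h
      exact absurd h.symm (h6 _ _ h1' h1)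
    · rw [h4, h5] at h
      exact absurd h (h6 _ _ h1 h1')
    · rw [h5, h5] at h
      exact ⟨hy2 x hx x' hx' (add_right_cancel h), rfl⟩

end Pool.Agent.H60.HM
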