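import Pool.Agent.H60.HM.EnumB1
import Pool.Agent.H60.HM.Fin

/-!
# HM-17b EnumB: the labelling of an enumerated structure

Proof.  `finish` gives `ε, M0, q1`; `emb_num Δ M0 ε` gives `β, q2`.  Let `q = card G` be large, `e`, `par`, `n`, `p`, ...
be given.  `emb_num`: `M, χ, A0, ..., g`.
`X = g '' {i < n : mk i}` (`X.card = L` as `g` is injective on `range n`), `UL` the complement of
`g '' range n ∪ {g i + e : i < n, mk i}`: by `LabInj` these are `n + L` different elements, so
`UL.card = q - n - L = L + 10 N`; `US` the complement of the set of the sums `es e mk p g i`, `i < n` not a root: by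
`EdgeInj` (`p i < i < n`) these are `n - (N + 1)` different elements, so
`US.card = q - n + N + 1 = 2 L + 11 N + 1`.  `N ≤ β q ≤ ε q`.  `(X \ dcl (χ true) e A0 A0').card` is at most the number of the
`i < n` with `mk i`, `g i ∉ dcl ..`.  The elements with a colour in `A1` are in `UL`; for `s ∈ dcl (χ false) e B0 B0'` the
elements `s`, `s + e` are in `US`.
`finish` with `gz = g z`, `v0 k = g (a k)`, `v11 k = g (b k)`: `l, v, y`.  Take `g`, `y' i = y (g i)`, `c = v`, `l`.
The sums: `ed j` are not in `US`, the other ones are in `US` and different by `finish` (`pd i b`: `x = g i`).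
All labels: an element outside `UL` is `g i` or `g i + e` with `mk i`.
-/

namespace Pool.Agent.H60.HM

open Finset Classical Pool.Agent.H60.HL

theorem enumB (Δ : ℕ) :
    ∃ β : ℝ, 0 < β ∧ β ≤ 1 / 1000 ∧ ∃ q0 : ℕ,
      ∀ (G : Type) [AddCommGroup G] [Fintype G], Tor2 G → q0 ≤ Fintype.card G →
      ∀ (e : G), e ≠ 0 → ∀ (par : G →+ ZMod 2), Par e par →
      ∀ (n : ℕ) (p : ℕ → ℕ) (rt mk : ℕ → Prop) (L N : ℕ) (a b : Fin N → ℕ) (z : ℕ),
      (∀ i, i < n → ¬ rt i → p i < i) →
      (∀ i, ((range n).filter fun j => ¬ rt j ∧ p j = i).card ≤ Δ) →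
      (∀ i, i < n → ¬ rt i → mk (p i) → ¬ mk i) →
      L = ⌊(Fintype.card G : ℝ) / 64⌋₊ → N = ⌊β * Fintype.card G⌋₊ →
      n + 2 * L + 10 * N = Fintype.card G → ((range n).filter mk).card = L →
      ((range n).filter rt).card = N + 1 → (∀ k, a k < n ∧ b k < n) → z < n →
      Lbl e (range n) p rt mk a b z := by
  obtain ⟨ε, hε, M0, q1, hfin⟩ := finish
  obtain ⟨β, hβ0, hβ1, hβε, q2, hemb⟩ := emb_num Δ M0 ε hε
  refine ⟨β, hβ0, hβ1, max q1 q2, ?_⟩
  intro G _ _ ht hq e he par hpar n p rt mk L N a b z hp hdeg hmk hL hN hcount hmkL hrt hab hz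
  obtain ⟨M, hM, χ, hR, A0, A0', A1, B0, B0', hd, hA, hA1, hB0, hB0', hB, H⟩ :=
    hemb G ht (le_trans (le_max_right _ _) hq) e he
  obtain ⟨h2L, g, hLab, hEdge, hcA1, hes, hbad⟩ :=
    H n p rt mk L N hp hdeg hmk hL hN hcount hmkL hrt
  have hgi : Set.InjOn g ((range n : Finset ℕ) : Set ℕ) := hLab.1
  -- the labels
  set X : Finset G := ((range n).filter mk).image g with hX
  set Y : Finset G := ((range n).filter mk).image (fun i => g i + e) with hY
  set Z : Finset G := (range n).image g with hZ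
  have hXc : X.card = L := by
    rw [hX, card_image_of_injOn, hmkL]
    intro i hi j hj hij
    have hi' := (mem_filter.1 (mem_coe.1 hi)).1
    have hj' := (mem_filter.1 (mem_coe.1 hj)).1
    exact hgi (mem_coe.2 hi') (mem_coe.2 hj') hij
  have hYc : Y.card = L := by
    rw [hY, card_image_of_injOn, hmkL]
    intro i hi j hj hij
    have hi' := (mem_filter.1 (mem_coe.1 hi)).1
    have hj' := (mem_filter.1 (mem_coe.1 hj)).1
    exact hgi (mem_coe.2 hi') (mem_coe.2 hj') (add_right_cancel hij)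
  have hZc : Z.card = n := by
    rw [hZ, card_image_of_injOn hgi, card_range]
  have hZY : Disjoint Z Y := by
    rw [disjoint_left]
    intro t h1 h2
    obtain ⟨i, hi, rfl⟩ := mem_image.1 h1
    obtain ⟨j, hj, hj'⟩ := mem_image.1 h2
    exact hLab.2 i hi j (mem_filter.1 hj).1 (mem_filter.1 hj).2 hj'.symm
  set UL : Finset G := (Z ∪ Y)ᶜ with hUL
  have hULc : UL.card = L + 10 * N := by
    rw [hUL, card_compl, card_union_of_disjoint hZY, hZc, hYc]
    omega
  -- the sums
  set ES : Finset G := ((range n).filter fun i => ¬ rt i).image (es e mk p g) with hES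
  have hnr : ((range n).filter fun i => ¬ rt i).card + (N + 1) = n := by
    have h := card_filter_add_card_filter_not (s := range n) (p := rt)
    rw [card_range] at h
    rw [← hrt, add_comm]
    exact h
  have hESc : ES.card + (N + 1) = n := by
    rw [hES, card_image_of_injOn, hnr]
    intro i hi j hj hij
    have hi' := mem_filter.1 (mem_coe.1 hi)
    have hj' := mem_filter.1 (mem_coe.1 hj)
    have hin := mem_range.1 hi'.1
    have hjn := mem_range.1 hj'.1
    exact hEdge i hi'.1 j hj'.1 hi'.2 hj'.2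
      (mem_range.2 ((hp i hin hi'.2).trans hin)) (mem_range.2 ((hp j hjn hj'.2).trans hjn)) hij
  set US : Finset G := ESᶜ with hUS
  have hUSc : US.card = 2 * L + 11 * N + 1 := by
    rw [hUS, card_compl]
    omega
  have hESnot : ∀ j, j < n → ¬ rt j → es e mk p g j ∉ US := by
    intro j hj hr
    rw [hUS, mem_compl, not_not]
    exact mem_image_of_mem _ (mem_filter.2 ⟨mem_range.2 hj, hr⟩)
  have hNle : (N : ℝ) ≤ ε * Fintype.card G := by
    have h0 : (0:ℝ) ≤ β * Fintype.card G := by positivity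
    have h1 : (N : ℝ) ≤ β * Fintype.card G := by
      rw [hN]; exact Nat.floor_le h0
    exact h1.trans (mul_le_mul_of_nonneg_right hβε (Nat.cast_nonneg _))
  have hXD : (((X \ dcl (χ true) e A0 A0').card : ℝ) ≤ ε * Fintype.card G) := by
    refine le_trans ?_ hbad
    have hsub : X \ dcl (χ true) e A0 A0' ⊆
        ((range n).filter fun i => mk i ∧ g i ∉ dcl (χ true) e A0 A0').image g := by
      intro t ht
      obtain ⟨h1, h2⟩ := mem_sdiff.1 ht
      obtain ⟨i, hi, rfl⟩ := mem_image.1 h1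
      have hi' := mem_filter.1 hi
      exact mem_image_of_mem _ (mem_filter.2 ⟨hi'.1, hi'.2, h2⟩)
    exact_mod_cast (card_le_card hsub).trans card_image_le
  have hA1U : ∀ x, χ true x ∈ A1 → x ∈ UL := by
    intro x hx
    rw [hUL, mem_compl, mem_union]
    rintro (h | h)
    · obtain ⟨i, hi, rfl⟩ := mem_image.1 h
      exact (hcA1 i (mem_range.1 hi)).1 hx
    · obtain ⟨i, hi, rfl⟩ := mem_image.1 h
      have hi' := mem_filter.1 hi
      exact (hcA1 i (mem_range.1 hi'.1)).2 hi'.2 hx
  have hDUS : ∀ s ∈ dcl (χ false) e B0 B0', s ∈ US ∧ s + e ∈ US := by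
    intro s hs
    constructor
    · rw [hUS, mem_compl]
      intro h
      obtain ⟨i, hi, rfl⟩ := mem_image.1 h
      have hi' := mem_filter.1 hi
      exact (hes i (mem_range.1 hi'.1) hi'.2).1 hs
    · rw [hUS, mem_compl]
      intro h
      obtain ⟨i, hi, hi2⟩ := mem_image.1 h
      have hi' := mem_filter.1 hi
      have h3 := (hes i (mem_range.1 hi'.1) hi'.2).2
      rw [hi2, add_sub_cancel_right] at h3
      exact h3 hs
  obtain ⟨l, v, y, hv, hcov, hl, hcon, hci, hpd, hpi⟩ :=
    hfin G ht (le_trans (le_max_left _ _) hq) e he par hpar M hM χ hR A0 A0' A1 B0 B0' hd hA hA1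
      hB0 hB0' hB X UL US L N hNle hL hXc hULc hUSc h2L hXD hA1U hDUS (g z)
      (fun k => g (a k)) (fun k => g (b k))
  have hgX : ∀ i ∈ range n, mk i → g i ∈ X := fun i hi hm =>
    mem_image_of_mem _ (mem_filter.2 ⟨hi, hm⟩)
  refine ⟨g, fun i => y (g i), v, l, hv, ?_, ?_⟩
  · rintro (j | ⟨i, c⟩ | ⟨k, r⟩ | _) (j' | ⟨i', c'⟩ | ⟨k', r'⟩ | _) hx hy hE
    · simp only [Ed.ok] at hx hy
      simp only [Esum] at hE
      have hjn := mem_range.1 hx.1
      have hjn' := mem_range.1 hy.1
      rw [hEdge j hx.1 j' hy.1 hx.2 hy.2 (mem_range.2 ((hp j hjn hx.2).trans hjn))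
        (mem_range.2 ((hp j' hjn' hy.2).trans hjn')) hE]
    · simp only [Ed.ok] at hx hy
      simp only [Esum] at hE
      exact absurd (hE ▸ (hpd _ (hgX i' hy.1 hy.2) c').1) (hESnot j (mem_range.1 hx.1) hx.2)
    · simp only [Ed.ok] at hx
      simp only [Esum] at hE
      exact absurd (hE ▸ (hcon k' r').1) (hESnot j (mem_range.1 hx.1) hx.2)
    · simp only [Ed.ok] at hx
      simp only [Esum] at hE
      exact absurd (hE ▸ hl) (hESnot j (mem_range.1 hx.1) hx.2)
    · simp only [Ed.ok] at hx hy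
      simp only [Esum] at hE
      exact absurd (hE ▸ (hpd _ (hgX i hx.1 hx.2) c).1) (hESnot j' (mem_range.1 hy.1) hy.2)
    · simp only [Ed.ok] at hx hy
      simp only [Esum] at hE
      obtain ⟨h1, h2⟩ := hpi _ (hgX i hx.1 hx.2) _ (hgX i' hy.1 hy.2) c c' hE
      rw [hgi (mem_coe.2 hx.1) (mem_coe.2 hy.1) h1, h2]
    · simp only [Ed.ok] at hx
      simp only [Esum] at hE
      exact absurd hE ((hpd _ (hgX i hx.1 hx.2) c).2.2 k' r')
    · simp only [Ed.ok] at hx
      simp only [Esum] at hE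
      exact absurd hE (hpd _ (hgX i hx.1 hx.2) c).2.1
    · simp only [Ed.ok] at hy
      simp only [Esum] at hE
      exact absurd (hE ▸ (hcon k r).1) (hESnot j' (mem_range.1 hy.1) hy.2)
    · simp only [Ed.ok] at hy
      simp only [Esum] at hE
      exact absurd hE.symm ((hpd _ (hgX i' hy.1 hy.2) c').2.2 k r)
    · simp only [Esum] at hE
      obtain ⟨h1, h2⟩ := hci k k' r r' hE
      rw [h1, h2]
    · simp only [Esum] at hE
      exact absurd hE (hcon k r).2
    · simp only [Ed.ok] at hy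
      simp only [Esum] at hE
      exact absurd (hE ▸ hl) (hESnot j' (mem_range.1 hy.1) hy.2)
    · simp only [Ed.ok] at hy
      simp only [Esum] at hE
      exact absurd hE.symm (hpd _ (hgX i' hy.1 hy.2) c').2.1
    · simp only [Esum] at hE
      exact absurd hE.symm (hcon k' r').2
    · rfl
  · intro t
    by_cases h : t ∈ Z ∪ Y
    · rcases mem_union.1 h with h | h
      · obtain ⟨i, hi, hit⟩ := mem_image.1 h
        exact Or.inl ⟨i, hi, hit⟩
      · obtain ⟨i, hi, hit⟩ := mem_image.1 h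
        have hi' := mem_filter.1 hi
        exact Or.inr (Or.inl ⟨i, hi'.1, hi'.2, hit⟩)
    · have htU : t ∈ UL := mem_compl.2 h
      rcases hcov t htU with h1 | h1 | ⟨x, hx, hxt⟩
      · exact Or.inr (Or.inr (Or.inr (Or.inr h1)))
      · exact Or.inr (Or.inr (Or.inr (Or.inl h1)))
      · obtain ⟨i, hi, rfl⟩ := mem_image.1 hx
        have hi' := mem_filter.1 hi
        exact Or.inr (Or.inr (Or.inl ⟨i, hi'.1, hi'.2, hxt⟩))

end Pool.Agent.H60.HM
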