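import Pool.Agent.H60.HM.EmbB
import Pool.Agent.H60.HL.RndEx
import Pool.Agent.H60.HL.TrA

/-!
# HM-17a EnumB1: the choice of the colours, numbers

Proof.  We may assume `ε ≤ 1`.  `H : ℕ`, `H ≥ 50`, `H ≥ 1 / ε`; `β = 1 / (172 H)`, `γ = 1 / (1720 H) = β / 10`.
`embed2 Δ γ ε`: `M1`.  `m ≥ 1`, `m ≥ M1`, `m ≥ M0`; `M = 110080 H m`.  `η1`, `q1` from `embed2`.
`exists_rnd` with `max 24 (Δ + 6)` and `η' = min (min ε η1) (β / 100)` gives `χ` for `q = card G` large (`Rnd` is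
monotone in both arguments).
Colours (`alloc` or `alloc2`): disjoint `A0, A0', A1, A3` with `13760 H m`, `13760 H m`, `1720 H m`, `64 m`
elements; disjoint `B0, B0', B3` with `13760 (H + 1) m`, `13760 (H + 1) m`, `64 m` elements.  So
`A0.card / M = A0'.card / M = 1/8`, `A1.card / M = 1/64`, `A3.card / M = B3.card / M = 1 / (1720 H) = γ`,
`B0.card / M = B0'.card / M = (H + 1) / (8 H) ≥ 1/8`, and its square minus `1/64` is
`(2 / H + 1 / H²) / 64 ≤ 3 / (64 H) ≤ ε`.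
Let `n, p, rt, mk, L, N` be given: `q/64 - 1 ≤ L ≤ q/64`, `β q - 1 ≤ N ≤ β q`.
* number of double vertices: `L M² ≤ (M/8)² q`.
* number of the other vertices: `n - L = q - 3 L - 10 N ≤ q (1 - 3/64 - 10 β) + 13 ≤ q (1 - 3/64 - β/10)` for
large `q`, and `M² - 2 (M/8)² - (1/64 + γ) M² = M² (1 - 3/64 - β/10)`.
* number of the vertices which are not roots: `n - (N + 1) = q - 2 L - 11 N - 1 ≤ q (1 - 1/32 - 11 β) + 12`, and
`1 - 2 ((H + 1) / (8 H))² - γ = 1 - 1/32 - 10.75 β - 5.375 β / H - β/10 ≥ 1 - 1/32 - 10.96 β` for `H ≥ 50`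
(`1 / (16 H) = 10.75 β`, `1 / (32 H²) = 5.375 β / H ≤ 0.1075 β`).
* `2 (dcl (χ false) e B0 B0').card ≥ 2 (1/64 + 5.375 β - η') q ≥ q/32 + 10.7 β q ≥ 2 L + 10 N + 2` (`dcl_card`).
`embed2` gives `g`.
-/

namespace Pool.Agent.H60.HM

open Finset Classical Pool.Agent.H60.HL

private theorem EnumB1_rnd_mono {G : Type} [AddCommGroup G] [Fintype G] {M : ℕ}
    {χ : Bool → G → Fin M} {m m' : ℕ} {η η' : ℝ} (hm : m' ≤ m) (hη : η ≤ η') (h : Rnd χ m η) :
    Rnd χ m' η' := by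
  intro ι _ hι v hv K
  refine (h ι (hι.trans hm) v hv K).trans ?_
  exact mul_le_mul_of_nonneg_right hη (Nat.cast_nonneg _)

private theorem EnumB1_num {x q L N n : ℝ} (hx : 0 < x) (hx1 : x ≤ 1 / 50)
    (hq : 68800 ≤ x * q) (hL1 : q / 64 - 1 ≤ L) (hN1 : x / 172 * q - 1 ≤ N)
    (hn : n + 2 * L + 10 * N = q) :
    n - L ≤ (1 - 2 * (1 / 8 * (1 / 8)) - (1 / 64 + x / 1720)) * q ∧
    n - (N + 1) ≤ (1 - 2 * ((1 + x) / 8 * ((1 + x) / 8)) - x / 1720) * q := by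
  have hxx : x * (x * q) ≤ 1 / 50 * (x * q) :=
    mul_le_mul_of_nonneg_right hx1 (by linarith)
  constructor
  · have e1 : (1 - 2 * (1 / 8 * (1 / 8)) - (1 / 64 + x / 1720)) * q =
        q - 3 / 64 * q - 1 / 1720 * (x * q) := by ring
    have e2 : x / 172 * q = 1 / 172 * (x * q) := by ring
    rw [e1]
    rw [e2] at hN1
    linarith
  · have e1 : (1 - 2 * ((1 + x) / 8 * ((1 + x) / 8)) - x / 1720) * q =
        q - 1 / 32 * q - 1 / 16 * (x * q) - 1 / 32 * (x * (x * q)) - 1 / 1720 * (x * q) := by ring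
    have e2 : x / 172 * q = 1 / 172 * (x * q) := by ring
    rw [e1]
    rw [e2] at hN1
    linarith

private theorem EnumB1_num2 {x q L N D : ℝ} (hx : 0 < x)
    (hq : 68800 ≤ x * q) (hL2 : L ≤ q / 64) (hN2 : N ≤ x / 172 * q)
    (hD : |D - (1 + x) / 8 * ((1 + x) / 8) * q| ≤ x / 17200 * q) :
    2 * L + 10 * N + 2 ≤ 2 * D := by
  have h1 := (abs_le.1 hD).1
  have hxx : 0 ≤ x * (x * q) := mul_nonneg hx.le (by linarith)
  have e1 : (1 + x) / 8 * ((1 + x) / 8) * q =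
      1 / 64 * q + 1 / 32 * (x * q) + 1 / 64 * (x * (x * q)) := by ring
  have e2 : x / 172 * q = 1 / 172 * (x * q) := by ring
  have e3 : x / 17200 * q = 1 / 17200 * (x * q) := by ring
  rw [e1, e3] at h1
  rw [e2] at hN2
  linarith

theorem emb_num (Δ M0 : ℕ) (ε : ℝ) (hε : 0 < ε) :
    ∃ β : ℝ, 0 < β ∧ β ≤ 1 / 1000 ∧ β ≤ ε ∧ ∃ q0 : ℕ,
      ∀ (G : Type) [AddCommGroup G] [Fintype G], Tor2 G → q0 ≤ Fintype.card G →
      ∀ (e : G), e ≠ 0 → ∃ M : ℕ, M0 ≤ M ∧ ∃ χ : Bool → G → Fin M, Rnd χ 24 ε ∧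
      ∃ (A0 A0' A1 B0 B0' : Finset (Fin M)), Disjoint B0 B0' ∧
        (A0.card : ℝ) / M * (A0'.card / M) = 1 / 64 ∧ (A1.card : ℝ) / M = 1 / 64 ∧
        1 / 64 ≤ (B0.card : ℝ) / M ∧ 1 / 64 ≤ (B0'.card : ℝ) / M ∧
        |(B0.card : ℝ) / M * (B0'.card / M) - 1 / 64| ≤ ε ∧
      ∀ (n : ℕ) (p : ℕ → ℕ) (rt mk : ℕ → Prop) (L N : ℕ), (∀ i, i < n → ¬ rt i → p i < i) →
      (∀ i, ((range n).filter fun j => ¬ rt j ∧ p j = i).card ≤ Δ) →
      (∀ i, i < n → ¬ rt i → mk (p i) → ¬ mk i) →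
      L = ⌊(Fintype.card G : ℝ) / 64⌋₊ → N = ⌊β * Fintype.card G⌋₊ →
      n + 2 * L + 10 * N = Fintype.card G → ((range n).filter mk).card = L →
      ((range n).filter rt).card = N + 1 →
      2 * L + 10 * N + 2 ≤ 2 * (dcl (χ false) e B0 B0').card ∧
      ∃ g : ℕ → G, LabInj e mk (range n) g ∧ EdgeInj e mk rt p (range n) g ∧
        (∀ i, i < n → χ true (g i) ∉ A1 ∧ (mk i → χ true (g i + e) ∉ A1)) ∧
        (∀ i, i < n → ¬ rt i → es e mk p g i ∉ dcl (χ false) e B0 B0' ∧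
          es e mk p g i - e ∉ dcl (χ false) e B0 B0') ∧
        (((range n).filter fun i => mk i ∧ g i ∉ dcl (χ true) e A0 A0').card : ℝ) ≤
          ε * Fintype.card G := by
  obtain ⟨H, hH50, hHε⟩ : ∃ H : ℕ, 50 ≤ H ∧ 1 / ε ≤ (H : ℝ) := by
    refine ⟨max 50 ⌈1 / ε⌉₊, le_max_left _ _, (Nat.le_ceil _).trans ?_⟩
    exact_mod_cast le_max_right _ _
  have hH : (50 : ℝ) ≤ H := by exact_mod_cast hH50
  have hH0 : (0 : ℝ) < H := by linarith
  obtain ⟨x, hx⟩ : ∃ x : ℝ, x = 1 / H := ⟨_, rfl⟩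
  have hx0 : 0 < x := by rw [hx]; positivity
  have hxH : x * H = 1 := by rw [hx]; field_simp
  have hx50 : x ≤ 1 / 50 := by
    rw [hx]
    exact one_div_le_one_div_of_le (by norm_num) hH
  have hxε : x ≤ ε := by
    rw [hx, div_le_iff₀ hH0]
    rw [div_le_iff₀ hε] at hHε
    linarith
  have hγ0 : 0 < x / 1720 := by positivity
  have hζ : 0 < min ε 1 := lt_min hε one_pos
  obtain ⟨M1, hM1⟩ := embed2 Δ (x / 1720) (min ε 1) hγ0 (by linarith) hζ (min_le_right _ _)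
  obtain ⟨m, hm1, hmM1, hmM0⟩ : ∃ m : ℕ, 1 ≤ m ∧ M1 ≤ m ∧ M0 ≤ m :=
    ⟨max 1 (max M1 M0), le_max_left _ _, (le_max_left _ _).trans (le_max_right _ _),
      (le_max_right _ _).trans (le_max_right _ _)⟩
  have hHm : m ≤ H * m := Nat.le_mul_of_pos_left _ (by omega)
  obtain ⟨M, hM⟩ : ∃ M : ℕ, M = 110080 * (H * m) := ⟨_, rfl⟩
  have hmM : m ≤ M := by omega
  have hM1' : 1 ≤ M := hm1.trans hmM
  have hMpos : (0 : ℝ) < M := by
    have : (1 : ℝ) ≤ M := by exact_mod_cast hM1'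
    linarith
  have hMr : (M : ℝ) = 110080 * (H * m) := by rw [hM]; push_cast; ring
  obtain ⟨η1, hη1, q1, hemb⟩ := hM1 M (hmM1.trans hmM)
  have hη' : 0 < min (min ε η1) (x / 17200) := lt_min (lt_min hε hη1) (by positivity)
  obtain ⟨q2, hR⟩ := exists_rnd M (max 24 (Δ + 6)) hM1' _ hη'
  refine ⟨x / 172, by positivity, by linarith, by linarith, max q1 (max q2 ⌈68800 / x⌉₊),
    fun G _ _ hT hq e he => ?_⟩
  have hq1 : q1 ≤ Fintype.card G := (le_max_left _ _).trans hq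
  have hq2 : q2 ≤ Fintype.card G := (le_max_left _ _).trans ((le_max_right _ _).trans hq)
  have hq3 : 68800 ≤ x * Fintype.card G := by
    have h3 : 68800 / x ≤ Fintype.card G := by
      refine (Nat.le_ceil _).trans ?_
      exact_mod_cast (le_max_right _ _).trans ((le_max_right _ _).trans hq)
    rw [div_le_iff₀ hx0] at h3
    linarith
  obtain ⟨χ, hχ⟩ := hR G hT hq2
  have hχ24 : Rnd χ 24 ε := EnumB1_rnd_mono (le_max_left _ _)
    ((min_le_left _ _).trans (min_le_left _ _)) hχ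
  have hχΔ : Rnd χ (Δ + 6) η1 := EnumB1_rnd_mono (le_max_right _ _)
    ((min_le_left _ _).trans (min_le_right _ _)) hχ
  have hχ2 : Rnd χ 2 (x / 17200) := EnumB1_rnd_mono ((by norm_num : 2 ≤ 24).trans (le_max_left _ _))
    (min_le_right _ _) hχ
  obtain ⟨KA, hKA, hKAd⟩ := alloc (J := Fin 4)
    ![13760 * (H * m), 13760 * (H * m), 1720 * (H * m), 64 * m] M (by
      simp only [Fin.sum_univ_four, Matrix.cons_val_zero, Matrix.cons_val_one, Matrix.cons_val]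
      omega)
  obtain ⟨KB, hKB, hKBd⟩ := alloc (J := Fin 3)
    ![13760 * (H * m + m), 13760 * (H * m + m), 64 * m] M (by
      simp only [Fin.sum_univ_three, Matrix.cons_val_zero, Matrix.cons_val_one, Matrix.cons_val]
      omega)
  have hA0 : ((KA 0).card : ℝ) = 1 / 8 * M := by
    rw [hKA 0, hMr]
    simp only [Matrix.cons_val_zero]
    push_cast
    ring
  have hA0' : ((KA 1).card : ℝ) = 1 / 8 * M := by
    rw [hKA 1, hMr]
    simp only [Matrix.cons_val_one, Matrix.cons_val_zero]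
    push_cast
    ring
  have hA1 : ((KA 2).card : ℝ) = 1 / 64 * M := by
    rw [hKA 2, hMr]
    simp only [Matrix.cons_val]
    push_cast
    ring
  have hxm : x * ((H : ℝ) * m) = m := by rw [← mul_assoc, hxH, one_mul]
  have hA3 : ((KA 3).card : ℝ) = x / 1720 * M := by
    have e1 : x / 1720 * (M : ℝ) = 64 * (x * ((H : ℝ) * m)) := by rw [hMr]; ring
    rw [e1, hxm, hKA 3]
    simp only [Matrix.cons_val]
    push_cast
    ring
  have hB3 : ((KB 2).card : ℝ) = x / 1720 * M := by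
    have e1 : x / 1720 * (M : ℝ) = 64 * (x * ((H : ℝ) * m)) := by rw [hMr]; ring
    rw [e1, hxm, hKB 2]
    simp only [Matrix.cons_val]
    push_cast
    ring
  have hB0 : ((KB 0).card : ℝ) = (1 + x) / 8 * M := by
    have e1 : (1 + x) / 8 * (M : ℝ) = 13760 * (H * m) + 13760 * (x * ((H : ℝ) * m)) := by
      rw [hMr]; ring
    rw [e1, hxm, hKB 0]
    simp only [Matrix.cons_val_zero]
    push_cast
    ring
  have hB0' : ((KB 1).card : ℝ) = (1 + x) / 8 * M := by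
    have e1 : (1 + x) / 8 * (M : ℝ) = 13760 * (H * m) + 13760 * (x * ((H : ℝ) * m)) := by
      rw [hMr]; ring
    rw [e1, hxm, hKB 1]
    simp only [Matrix.cons_val_one, Matrix.cons_val_zero]
    push_cast
    ring
  have dA0 : ((KA 0).card : ℝ) / M = 1 / 8 := by rw [hA0]; field_simp
  have dA0' : ((KA 1).card : ℝ) / M = 1 / 8 := by rw [hA0']; field_simp
  have dA1 : ((KA 2).card : ℝ) / M = 1 / 64 := by rw [hA1]; field_simp
  have dA3 : ((KA 3).card : ℝ) / M = x / 1720 := by rw [hA3]; field_simp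
  have dB3 : ((KB 2).card : ℝ) / M = x / 1720 := by rw [hB3]; field_simp
  have dB0 : ((KB 0).card : ℝ) / M = (1 + x) / 8 := by rw [hB0]; field_simp
  have dB0' : ((KB 1).card : ℝ) / M = (1 + x) / 8 := by rw [hB0']; field_simp
  refine ⟨M, hmM0.trans hmM, χ, hχ24, KA 0, KA 1, KA 2, KB 0, KB 1, hKBd 0 1 (by decide), ?_, dA1,
    ?_, ?_, ?_, ?_⟩
  · rw [dA0, dA0']
    norm_num
  · rw [dB0]
    linarith
  · rw [dB0']
    linarith
  · rw [dB0, dB0']
    have e1 : (1 + x) / 8 * ((1 + x) / 8) - 1 / 64 = x * (2 + x) / 64 := by ring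
    rw [e1, abs_of_nonneg (by positivity)]
    have e2 : x * (2 + x) ≤ x * 3 := mul_le_mul_of_nonneg_left (by linarith) hx0.le
    linarith
  intro n p rt mk L N hp hΔ hmk hL hN hn hcm hcr
  obtain ⟨q, hqd⟩ : ∃ q : ℝ, q = Fintype.card G := ⟨_, rfl⟩
  have hq0 : 0 ≤ q := by rw [hqd]; exact Nat.cast_nonneg _
  rw [← hqd] at hq3 hL hN
  have hL2 : (L : ℝ) ≤ q / 64 := by
    rw [hL]
    exact Nat.floor_le (by positivity)
  have hL1 : q / 64 - 1 ≤ (L : ℝ) := by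
    rw [hL]
    exact (Nat.sub_one_lt_floor _).le
  have hN2 : (N : ℝ) ≤ x / 172 * q := by
    rw [hN]
    exact Nat.floor_le (by positivity)
  have hN1 : x / 172 * q - 1 ≤ (N : ℝ) := by
    rw [hN]
    exact (Nat.sub_one_lt_floor _).le
  have hnr : (n : ℝ) + 2 * L + 10 * N = q := by
    rw [hqd, ← hn]
    push_cast
    ring
  obtain ⟨n1, n2⟩ := EnumB1_num hx0 hx50 hq3 hL1 hN1 hnr
  constructor
  · have h1 := dcl_card le_rfl hχ2 he false (KB 0) (KB 1)
    rw [dB0, dB0', ← hqd] at h1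
    have h2 := EnumB1_num2 hx0 hq3 hL2 hN2 h1
    exact_mod_cast h2
  · have hnm : (((range n).filter fun i => ¬ mk i).card : ℝ) = n - L := by
      have h1 := Finset.card_filter_add_card_filter_not (s := range n) mk
      rw [card_range] at h1
      rw [eq_sub_iff_add_eq, ← hcm]
      have h2 : (((range n).filter mk).card : ℝ) + ((range n).filter fun i => ¬ mk i).card = n := by
        exact_mod_cast h1
      linarith
    have hnr2 : (((range n).filter fun i => ¬ rt i).card : ℝ) = n - (N + 1) := by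
      have h1 := Finset.card_filter_add_card_filter_not (s := range n) rt
      rw [card_range, hcr] at h1
      have h2 : ((N : ℝ) + 1) + ((range n).filter fun i => ¬ rt i).card = n := by
        exact_mod_cast h1
      linarith
    have hM2 : (0 : ℝ) ≤ (M : ℝ) ^ 2 := by positivity
    obtain ⟨g, g1, g2, g3, g4, g5⟩ := hemb G χ hq1 hχΔ e he (KA 0) (KA 1) (KA 2) (KA 3) (KB 0)
      (KB 1) (KB 2) (hKAd 0 1 (by decide)) (hKAd 0 2 (by decide)) (hKAd 1 2 (by decide))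
      (hKAd 0 3 (by decide)) (hKAd 1 3 (by decide)) (hKAd 2 3 (by decide))
      (hKBd 0 1 (by decide)) (hKBd 0 2 (by decide)) (hKBd 1 2 (by decide))
      (le_of_eq dA3.symm) (le_of_eq dB3.symm) n p rt mk hp hΔ hmk
      (by
        rw [hcm, hA0, hA0', ← hqd]
        have e1 : 1 / 8 * (M : ℝ) * (1 / 8 * M) * q = q / 64 * (M : ℝ) ^ 2 := by ring
        rw [e1]
        exact mul_le_mul_of_nonneg_right hL2 hM2)
      (by
        rw [hnm, hA0, hA0', hA1, hA3, ← hqd]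
        have e1 : ((M : ℝ) ^ 2 - 2 * (1 / 8 * M * (1 / 8 * M)) - (1 / 64 * M + x / 1720 * M) * M) *
            q = (1 - 2 * (1 / 8 * (1 / 8)) - (1 / 64 + x / 1720)) * q * (M : ℝ) ^ 2 := by ring
        rw [e1]
        exact mul_le_mul_of_nonneg_right n1 hM2)
      (by
        rw [hnr2, hB0, hB0', hB3, ← hqd]
        have e1 : ((M : ℝ) ^ 2 - 2 * ((1 + x) / 8 * M * ((1 + x) / 8 * M)) - x / 1720 * M * M) *
            q = (1 - 2 * ((1 + x) / 8 * ((1 + x) / 8)) - x / 1720) * q * (M : ℝ) ^ 2 := by ring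
        rw [e1]
        exact mul_le_mul_of_nonneg_right n2 hM2)
    exact ⟨g, g1, g2, g3, g4, g5.trans
      (mul_le_mul_of_nonneg_right (min_le_left _ _) (Nat.cast_nonneg _))⟩

end Pool.Agent.H60.HM
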