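import Pool.Agent.H60.HM.FinA1

/-!
# HM-06b FinA: the last leaf and the connectors

`DS = dcl (χ false) e A2 A2'`.  `leaf_junk` gives `l, c, w, FS`.  `FS.card = DS.card - L - 4 N ≤ 2 N + 1`
since `2 DS.card ≤ US.card = 2 L + 11 N + 1` (`DS`, `DS + e` are disjoint subsets of `US`).
`conn_fam` with `FL = {l}`, this `FS` and `f' = min f ...` (`β = f / 4`; `2 N + 1 ≤ f q` for `q ≥ 2 / f`): `v`, `s`.
`S = DS \ (FS ∪ {s k j})`, `S.card = DS.card - FS.card - 4 N = L`.
The sums of the connectors are `fs e (s k) (w k) (cd r)`, `cd` is injective.  They are different for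
different `(k, r)`: `s k j = s k' j'` and `s k j + e = s k' j' + e` only for equal indices; `s k j ≠ s k' j' + e` as
both starts are in `DS` and `A2`, `A2'` are disjoint; `w` is injective; `s k j = w k' i` would imply
`w k' i ∈ DS`, so `s k j ∈ FS`, contradiction; `s k j + e = w k' i` would imply `w k' i - e ∈ DS`, so
`s k j ∈ FS`.  They are in `US` and different from `gz + l`: `gz + l` or `gz + l - e` is in `FS ⊆ DS`; if
`s k j = gz + l`: in the first case `s k j ∈ FS`, in the second one `gz + l ∈ DS ∩ (DS + e)`; if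
`s k j + e = gz + l`: in the first case `gz + l ∈ DS ∩ (DS + e)`, in the second one `s k j ∈ FS`.
In the same way none of them, and not `gz + l`, is an element `x` or `x + e` with `x ∈ S`.
-/

namespace Pool.Agent.H60.HM

open Finset Classical Pool.Agent.H60.HL

private theorem FinA_rnd {G : Type} [AddCommGroup G] [Fintype G] {M : ℕ} {χ : Bool → G → Fin M}
    {m m' : ℕ} {η η' : ℝ} (h : Rnd χ m η) (hm : m' ≤ m) (hη : η ≤ η') : Rnd χ m' η' := by
  intro ι _ hι v hv K
  refine (h ι (hι.trans hm) v hv K).trans ?_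
  exact mul_le_mul_of_nonneg_right hη (Nat.cast_nonneg _)

theorem finA (α : ℝ) (hα : 0 < α) (hα1 : α ≤ 1) :
    ∃ η : ℝ, 0 < η ∧ ∃ β : ℝ, 0 < β ∧ ∃ q0 : ℕ,
      ∀ (G : Type) [AddCommGroup G] [Fintype G], Tor2 G →
      q0 ≤ Fintype.card G → ∀ (e : G), e ≠ 0 → ∀ (par : G →+ ZMod 2), Par e par →
      ∀ (M : ℕ) (χ : Bool → G → Fin M), Rnd χ 18 η → ∀ (A1 A2 A2' : Finset (Fin M)),
      Disjoint A2 A2' → α ≤ (A1.card : ℝ) / M →
      α ≤ (A2.card : ℝ) / M → α ≤ (A2'.card : ℝ) / M →
      ∀ (US : Finset G) (L N : ℕ), (N : ℝ) ≤ β * Fintype.card G →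
      (∀ s ∈ dcl (χ false) e A2 A2', s ∈ US ∧ s + e ∈ US) →
      US.card = 2 * L + 11 * N + 1 → 2 * L + 10 * N + 2 ≤ 2 * (dcl (χ false) e A2 A2').card →
      ∀ (gz : G) (v0 v11 : Fin N → G),
      ∃ (l : G) (v : Fin N → Fin 12 → G) (S : Finset G), χ true l ∈ A1 ∧
        (∀ k, v k 0 = v0 k ∧ v k 11 = v11 k) ∧
        (∀ k k' (r r' : Fin 12), 0 < r → r < 11 → 0 < r' → r' < 11 → v k r = v k' r' →
          k = k' ∧ r = r') ∧
        (∀ k (r : Fin 12), 0 < r → r < 11 → χ true (v k r) ∈ A1 ∧ v k r ≠ l) ∧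
        S ⊆ dcl (χ false) e A2 A2' ∧ S.card = L ∧ gz + l ∈ US ∧
        (∀ x ∈ S, x ≠ gz + l ∧ x + e ≠ gz + l) ∧
        (∀ k k' (r r' : Fin 11), v k r.castSucc + v k r.succ = v k' r'.castSucc + v k' r'.succ →
          k = k' ∧ r = r') ∧
        ∀ k (r : Fin 11), v k r.castSucc + v k r.succ ∈ US ∧
          v k r.castSucc + v k r.succ ≠ gz + l ∧
          ∀ x ∈ S, x ≠ v k r.castSucc + v k r.succ ∧ x + e ≠ v k r.castSucc + v k r.succ := by
  obtain ⟨η1, hη1, q1, H1⟩ := leaf_junk α hα hα1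
  obtain ⟨η2, hη2, f, hf, q2, H2⟩ := conn_fam α hα hα1
  refine ⟨min η1 η2, lt_min hη1 hη2, f / 4, by positivity, max (max q1 q2) ⌈2 / f⌉₊, ?_⟩
  intro G _ _ hT hq e he par hpar M χ hR A1 A2 A2' hdis hA1 hA2 hA2' US L N hN hUS hcard hJ gz
    v0 v11
  have hq1 : q1 ≤ Fintype.card G := le_trans (le_trans (le_max_left _ _) (le_max_left _ _)) hq
  have hq2 : q2 ≤ Fintype.card G := le_trans (le_trans (le_max_right _ _) (le_max_left _ _)) hq
  have hq3 : 2 / f ≤ Fintype.card G := by
    have : ⌈2 / f⌉₊ ≤ Fintype.card G := le_trans (le_max_right _ _) hq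
    exact (Nat.le_ceil _).trans (by exact_mod_cast this)
  obtain ⟨l, c, w, FS, h1, h2, h3, h4, h5, h6, h7⟩ := H1 G hq1 e he par hpar M χ
    (FinA_rnd hR (by norm_num) (min_le_left _ _)) A1 A2 A2' hdis hA1 hA2 hA2' US L N hUS hcard hJ
    gz v0 v11
  set DS := dcl (χ false) e A2 A2' with hDS
  have hd : ∀ x ∈ DS, ∀ y ∈ DS, x ≠ y + e := by
    intro x hx y hy hxy
    rw [hDS, dcl, mem_filter] at hx hy
    have h8 := hy.2.2
    rw [← hxy] at h8
    exact Finset.disjoint_left.1 hdis hx.2.1 h8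
  have hDU : 2 * DS.card ≤ US.card := by
    have h8 : Disjoint DS (DS.image (· + e)) := by
      rw [Finset.disjoint_left]
      intro x hx hx'
      obtain ⟨y, hy, rfl⟩ := mem_image.1 hx'
      exact hd _ hx y hy rfl
    have h9 : (DS.image (· + e)).card = DS.card := card_image_of_injective _ (add_left_injective e)
    have h10 : DS ∪ DS.image (· + e) ⊆ US := by
      intro x hx
      rcases mem_union.1 hx with h | h
      · exact (hUS x h).1
      · obtain ⟨y, hy, rfl⟩ := mem_image.1 h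
        exact (hUS y hy).2
    have h11 := card_le_card h10
    rw [card_union_of_disjoint h8, h9] at h11
    omega
  have hFS : FS.card ≤ 2 * N + 1 := by omega
  have hfq : 2 ≤ f * Fintype.card G := by
    rw [div_le_iff₀ hf] at hq3
    linarith
  have hN4 : f / 4 * (Fintype.card G : ℝ) = f * Fintype.card G / 4 := by ring
  rw [hN4] at hN
  have hFSr : (FS.card : ℝ) ≤ f * Fintype.card G := by
    have h8 : (FS.card : ℝ) ≤ 2 * N + 1 := by exact_mod_cast hFS
    linarith
  obtain ⟨v, s, c1, c2, c3, c4, c5, c6⟩ := H2 G hT hq2 e he M χ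
    (FinA_rnd hR le_rfl (min_le_right _ _)) A1 A2 A2' hA1 hA2 hA2' N v0 v11 c w (by linarith) h2
    (fun k h => absurd (h3 k k 0 1 h).2 (by decide))
    (fun k h => absurd (h3 k k 1 2 h).2 (by decide)) {l} FS
    (by rw [card_singleton]; push_cast; linarith) hFSr
  have hB : ∀ x ∈ DS, ∀ (b : Bool) (k : Fin N) (i : Fin 3),
      x + (if b then e else 0) = w k i → x ∈ FS := by
    intro x hx b k i hxw
    cases b
    · simp only [Bool.false_eq_true, if_false, add_zero] at hxw
      rw [hxw]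
      apply (h4 k i).2.2.1
      rw [← hxw]
      exact hx
    · simp only [if_true] at hxw
      have h8 : w k i - e = x := by rw [← hxw, add_sub_cancel_right]
      have h9 := (h4 k i).2.2.2
      rw [h8] at h9
      exact h9 hx
  have hC : ∀ x ∈ DS, ∀ b : Bool, x + (if b then e else 0) = gz + l → x ∈ FS := by
    intro x hx b hxw
    cases b
    · simp only [Bool.false_eq_true, if_false, add_zero] at hxw
      rcases h7 with h | h
      · rw [hxw]
        exact h
      · exfalso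
        apply hd x hx _ (h5 h)
        rw [hxw, sub_add_cancel]
    · simp only [if_true] at hxw
      rcases h7 with h | h
      · exfalso
        exact hd _ (h5 h) x hx hxw.symm
      · rw [← hxw, add_sub_cancel_right] at h
        exact h
  have hE : ∀ x ∈ DS, ∀ y ∈ DS, ∀ b b' : Bool,
      x + (if b then e else 0) = y + (if b' then e else 0) → x = y ∧ b = b' := by
    intro x hx y hy b b' hxy
    cases b <;> cases b' <;>
      simp only [Bool.false_eq_true, if_false, if_true, add_zero] at hxy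
    · exact ⟨hxy, rfl⟩
    · exact absurd hxy (hd x hx y hy)
    · exact absurd hxy.symm (hd y hy x hx)
    · exact ⟨add_right_cancel hxy, rfl⟩
  have hA : ∀ (k k' : Fin N) (a a' : (Fin 4 × Bool) ⊕ Fin 3),
      fs e (s k) (w k) a = fs e (s k') (w k') a' → k = k' ∧ a = a' := by
    intro k k' a a' h
    rcases a with ⟨j, b⟩ | i <;> rcases a' with ⟨j', b'⟩ | i'
    · obtain ⟨h8, h9⟩ := hE _ (c5 k j).1 _ (c5 k' j').1 b b' h
      obtain ⟨h10, h11⟩ := c4 _ _ _ _ h8
      rw [h9, h11]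
      exact ⟨h10, rfl⟩
    · exact absurd (hB _ (c5 k j).1 b k' i' h) (c5 k j).2
    · exact absurd (hB _ (c5 k' j').1 b' k i h.symm) (c5 k' j').2
    · obtain ⟨h10, h11⟩ := h3 _ _ _ _ h
      rw [h11]
      exact ⟨h10, rfl⟩
  set I : Finset G := (univ : Finset (Fin N × Fin 4)).image fun x => s x.1 x.2 with hI
  have hIc : I.card = 4 * N := by
    rw [hI, card_image_of_injective]
    · simp [mul_comm]
    · rintro ⟨k, j⟩ ⟨k', j'⟩ h
      obtain ⟨h8, h9⟩ := c4 _ _ _ _ h
      exact Prod.ext h8 h9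
  have hId : Disjoint FS I := by
    rw [Finset.disjoint_left]
    intro x hx hx'
    obtain ⟨⟨k, j⟩, -, rfl⟩ := mem_image.1 hx'
    exact (c5 k j).2 hx
  have hIs : FS ∪ I ⊆ DS := by
    intro x hx
    rcases mem_union.1 hx with h | h
    · exact h5 h
    · obtain ⟨⟨k, j⟩, -, rfl⟩ := mem_image.1 h
      exact (c5 k j).1
  have hSc : (DS \ (FS ∪ I)).card = L := by
    have h8 := card_sdiff_add_card_eq_card hIs
    rw [card_union_of_disjoint hId, hIc] at h8
    omega
  have hS : ∀ x ∈ DS \ (FS ∪ I), x ∈ DS ∧ x ∉ FS ∧ ∀ k j, x ≠ s k j := by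
    intro x hx
    obtain ⟨h8, h9⟩ := mem_sdiff.1 hx
    rw [mem_union, not_or] at h9
    refine ⟨h8, h9.1, fun k j h => h9.2 ?_⟩
    rw [h, hI]
    exact mem_image.2 ⟨(k, j), mem_univ _, rfl⟩
  refine ⟨l, v, DS \ (FS ∪ I), h1, c1, c2, ?_, sdiff_subset, hSc, ?_, ?_, ?_, ?_⟩
  · intro k r hr hr'
    obtain ⟨h8, h9⟩ := c3 k r hr hr'
    exact ⟨h8, fun h => h9 (mem_singleton.2 h)⟩
  · rcases h7 with h | h
    · exact (hUS _ (h5 h)).1
    · have h8 := (hUS _ (h5 h)).2
      rwa [sub_add_cancel] at h8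
  · intro x hx
    obtain ⟨h8, h9, -⟩ := hS x hx
    refine ⟨fun h => h9 (hC x h8 false ?_), fun h => h9 (hC x h8 true ?_)⟩
    · simpa using h
    · simpa using h
  · intro k k' r r' h
    rw [c6, c6] at h
    obtain ⟨h8, h9⟩ := hA _ _ _ _ h
    exact ⟨h8, cd_injective h9⟩
  · intro k r
    rw [c6]
    generalize cd r = a
    refine ⟨?_, ?_, ?_⟩
    · rcases a with ⟨j, b⟩ | i
      · cases b
        · have h8 := (hUS _ (c5 k j).1).1
          simpa [fs] using h8
        · have h8 := (hUS _ (c5 k j).1).2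
          simpa [fs] using h8
      · exact (h4 k i).1
    · rcases a with ⟨j, b⟩ | i
      · exact fun h => (c5 k j).2 (hC _ (c5 k j).1 b h)
      · exact (h4 k i).2.1
    · intro x hx
      obtain ⟨h8, h9, h10⟩ := hS x hx
      have key : ∀ b' : Bool, x + (if b' then e else 0) ≠ fs e (s k) (w k) a := by
        intro b' h
        rcases a with ⟨j, b⟩ | i
        · exact h10 k j (hE _ h8 _ (c5 k j).1 b' b h).1
        · exact h9 (hB x h8 b' k i h)
      refine ⟨fun h => key false ?_, fun h => key true ?_⟩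
      · simpa using h
      · simpa using h

end Pool.Agent.H60.HM
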