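import Pool.Agent.H60.HM.ConB
import Pool.Agent.H60.HM.Asg
import Pool.Agent.H60.HM.RndB

/-!
# HM-06a FinA1: the last leaf, the junk sums, and their distribution

`DS = dcl (χ false) e A2 A2'` (starts of pairs of sums).  `DS` and `DS + e` are disjoint since `A2` and `A2'`
are, and both are contained in `US`.  `J0 = US \ (DS ∪ (DS + e))`, `J0.card = 2 L + 11 N + 1 - 2 DS.card`.
(1) `Rnd` with the four places `(true, true, 0)`, `(true, true, e)` (colours `A1`), `(false, true, gz)`
(colours `A2`), `(false, true, gz + e)` (colours `A2'`): at least `(α^4 - η) q > 0` values of `t`: `t`, `t + e`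
have colours in `A1`, `σ = t + gz ∈ DS`.
(2) `b = DS.card - L - 4 N - 1`; `b ≥ N` by `hJ`, `b ≤ DS.card - 1`.  Choose `Bk ⊆ DS \ {σ}` with
`Bk.card = b`.  Two options: (i) `l = t`, used sum `σ`, junk element `j = σ + e`; (ii) `l = t + e`, used
sum `σ + e`, junk element `j = σ`.  `J = J0 ∪ {j} ∪ Bk ∪ (Bk + e)` is a disjoint union of
`(2 L + 11 N + 1 - 2 DS.card) + 1 + 2 b = 3 N` elements.
(3) The sum of the parities of `J` for (ii) minus the one for (i) is `par σ - par (σ + e) = - par e`.  If
`par e = 1` exactly one of the two options has `∑ J par = ∑ k, par (v0 k + v11 k)`; if `par = 0` both.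
(4) `assign` with `r k = par (v0 k + v11 k)`: if `par e = 1` then for every `s ∈ Bk` one of `s`, `s + e` has
parity `0` and the other one has parity `1`, so there are at least `b ≥ N` elements of `J` of each parity.
(5) `par (e + e - v0 k - v11 k - w k 0 + w k 1 - w k 2) = par (v0 k + v11 k) + ∑ i, par (w k i) = 0`
(`2 = 0` in `ZMod 2`), so there is a `c k`.
`FS = insert σ Bk`: `FS.card = b + 1 ≤ 2 N + 1` as `2 DS.card ≤ 2 L + 11 N + 1`.
The elements of `J` are in `US`, different from `gz + l`, and if `w ∈ J` is in `DS` or `w - e ∈ DS` then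
`w` resp. `w - e` is in `FS`: for `w ∈ J0` impossible; `w = σ`: in `DS`, `σ ∈ FS`; `w = σ + e`: `w - e ∈ FS`;
`w ∈ Bk`, `w ∈ Bk + e` clear; (an element of `DS` is not in `DS + e`.)
-/

namespace Pool.Agent.H60.HM

open Finset Classical Pool.Agent.H60.HL

private theorem FinA1_two (x : ZMod 2) : x = 0 ∨ x = 1 := by
  revert x
  decide

private theorem FinA1_neg (x : ZMod 2) : -x = x := by
  revert x
  decide

private theorem FinA1_dbl (x : ZMod 2) : x + x = 0 := by
  revert x
  decide

/-- a good element `t` -/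
private theorem FinA1_t {G : Type} [AddCommGroup G] [Fintype G] {α : ℝ} (hα : 0 < α)
    {e : G} (he : e ≠ 0) {M : ℕ} {χ : Bool → G → Fin M} (hR : Rnd χ 4 (α ^ 4 / 2))
    {A1 A2 A2' : Finset (Fin M)} (h1 : α ≤ (A1.card : ℝ) / M) (h2 : α ≤ (A2.card : ℝ) / M)
    (h3 : α ≤ (A2'.card : ℝ) / M) (gz : G) :
    ∃ t : G, χ true t ∈ A1 ∧ χ true (t + e) ∈ A1 ∧ gz + t ∈ dcl (χ false) e A2 A2' := by
  have hv : Function.Injective (![(true, true, 0), (true, true, e), (false, true, gz),
      (false, true, gz + e)] : Fin 4 → Bool × Bool × G) := by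
    intro i j hij
    fin_cases i <;> fin_cases j <;> simp [he, Ne.symm he] at hij ⊢
  have h := hR (Fin 4) (by simp) _ hv ![A1, A1, A2, A2']
  have hq : (0 : ℝ) < Fintype.card G := by
    have : 0 < Fintype.card G := Fintype.card_pos_iff.2 ⟨0⟩
    exact_mod_cast this
  have hprod : α ^ 4 ≤ ∏ x, ((((![A1, A1, A2, A2'] : Fin 4 → Finset (Fin M)) x).card : ℝ) / M) := by
    rw [Fin.prod_univ_four]
    change α ^ 4 ≤ (A1.card : ℝ) / M * ((A1.card : ℝ) / M) * ((A2.card : ℝ) / M) *
      ((A2'.card : ℝ) / M)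
    have e1 : α ^ 4 = α * α * α * α := by ring
    rw [e1]
    have p1 : 0 ≤ (A1.card : ℝ) / M := hα.le.trans h1
    have p2 : 0 ≤ (A2.card : ℝ) / M := hα.le.trans h2
    exact mul_le_mul (mul_le_mul (mul_le_mul h1 h1 hα.le p1) h2 hα.le (by positivity)) h3 hα.le
      (by positivity)
  have h4 := (abs_le.1 h).1
  have h5 : α ^ 4 * (Fintype.card G : ℝ) ≤
      Fintype.card G * ∏ x, ((((![A1, A1, A2, A2'] : Fin 4 → Finset (Fin M)) x).card : ℝ) / M) := by
    rw [mul_comm]
    exact mul_le_mul_of_nonneg_left hprod hq.le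
  have h6 : 0 < α ^ 4 * (Fintype.card G : ℝ) := by positivity
  have h7 : α ^ 4 / 2 * (Fintype.card G : ℝ) = α ^ 4 * (Fintype.card G : ℝ) / 2 := by ring
  rw [h7] at h4
  have h9 : ∀ S : Finset G, -(α ^ 4 * (Fintype.card G : ℝ) / 2) ≤ (S.card : ℝ) -
      Fintype.card G * ∏ x, ((((![A1, A1, A2, A2'] : Fin 4 → Finset (Fin M)) x).card : ℝ) / M) →
      S.Nonempty := by
    intro S hS
    rw [← Finset.card_pos]
    have : (0 : ℝ) < S.card := by linarith
    exact_mod_cast this
  obtain ⟨t, ht⟩ := h9 _ h4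
  have gen : ∀ (p : G → Prop) (inst : DecidablePred p) (t : G),
      t ∈ @Finset.filter G p inst Finset.univ → p t := by
    intro p inst t ht
    exact (Finset.mem_filter.1 ht).2
  have ht' := gen _ _ t ht
  have a0 := ht' 0
  have a1 := ht' 1
  have a2 := ht' 2
  have a3 := ht' 3
  simp only [pt, Matrix.cons_val_zero, Matrix.cons_val_one, Matrix.cons_val, if_true,
    zero_add] at a0 a1 a2 a3
  refine ⟨t, a0, ?_, ?_⟩
  · rw [add_comm]
    exact a1
  · unfold dcl
    rw [Finset.mem_filter]
    refine ⟨Finset.mem_univ _, a2, ?_⟩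
    have e2 : gz + t + e = gz + e + t := by abel
    rw [e2]
    exact a3

private theorem FinA1_core {G : Type} [AddCommGroup G] {e : G} (he : e ≠ 0)
    {par : G →+ ZMod 2} (hp : Par e par)
    {DS US : Finset G} (hd : ∀ s ∈ DS, s + e ∉ DS) (hU : ∀ s ∈ DS, s ∈ US ∧ s + e ∈ US)
    {L N : ℕ} (hc : US.card = 2 * L + 11 * N + 1) (hD : 2 * L + 10 * N + 2 ≤ 2 * DS.card)
    {σ : G} (hσ : σ ∈ DS) (v0 v11 : Fin N → G) :
    ∃ o : G, (o = 0 ∨ o = e) ∧ ∃ (c : Fin N → G) (w : Fin N → Fin 3 → G) (FS : Finset G),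
      (∀ k, c k + c k = e + e - v0 k - v11 k - w k 0 + w k 1 - w k 2) ∧
      (∀ k k' i i', w k i = w k' i' → k = k' ∧ i = i') ∧
      (∀ k i, w k i ∈ US ∧ w k i ≠ σ + o ∧ (w k i ∈ DS → w k i ∈ FS) ∧
        (w k i - e ∈ DS → w k i - e ∈ FS)) ∧
      FS ⊆ DS ∧ FS.card + L + 4 * N = DS.card ∧ (σ + o ∈ FS ∨ σ + o - e ∈ FS) := by
  obtain ⟨b, hb⟩ : ∃ b : ℕ, b + 1 + L + 4 * N = DS.card := ⟨DS.card - 1 - L - 4 * N, by omega⟩
  obtain ⟨Bk, hBk, hBkc⟩ := Finset.exists_subset_card_eq (s := DS.erase σ) (n := b) (by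
    rw [Finset.card_erase_of_mem hσ]
    omega)
  have hBkD : ∀ s ∈ Bk, s ∈ DS := fun s hs => Finset.mem_of_mem_erase (hBk hs)
  have hBkσ : ∀ s ∈ Bk, s ≠ σ := fun s hs => Finset.ne_of_mem_erase (hBk hs)
  have inj : Function.Injective (fun s : G => s + e) := add_left_injective e
  set DE : Finset G := DS.image fun s => s + e with hDE
  set BE : Finset G := Bk.image fun s => s + e with hBE
  have mDE : ∀ x, x ∈ DE ↔ x - e ∈ DS := by
    intro x
    rw [hDE, Finset.mem_image]
    constructor
    · rintro ⟨s, hs, rfl⟩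
      rwa [add_sub_cancel_right]
    · intro h
      exact ⟨x - e, h, sub_add_cancel x e⟩
  have mBE : ∀ x, x ∈ BE ↔ x - e ∈ Bk := by
    intro x
    rw [hBE, Finset.mem_image]
    constructor
    · rintro ⟨s, hs, rfl⟩
      rwa [add_sub_cancel_right]
    · intro h
      exact ⟨x - e, h, sub_add_cancel x e⟩
  have hd' : ∀ x ∈ DS, x - e ∉ DS := by
    intro x hx h
    have := hd _ h
    rw [sub_add_cancel] at this
    exact this hx
  have dis1 : Disjoint DS DE := by
    rw [Finset.disjoint_left]
    intro x hx h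
    rw [mDE] at h
    exact hd' x hx h
  have dis2 : Disjoint Bk BE := by
    rw [Finset.disjoint_left]
    intro x hx h
    rw [mBE] at h
    exact hd' x (hBkD x hx) (hBkD _ h)
  have sub1 : DS ∪ DE ⊆ US := by
    intro x hx
    rcases Finset.mem_union.1 hx with h | h
    · exact (hU x h).1
    · rw [mDE] at h
      have := (hU _ h).2
      rwa [sub_add_cancel] at this
  set J0 : Finset G := US \ (DS ∪ DE) with hJ0
  have cJ0 : J0.card + 2 * DS.card = US.card := by
    have h1 : (DS ∪ DE).card = 2 * DS.card := by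
      rw [Finset.card_union_of_disjoint dis1, hDE, Finset.card_image_of_injective _ inj]
      ring
    have h2 := Finset.card_sdiff_add_card_eq_card sub1
    rw [h1] at h2
    exact h2
  set P : Finset G := Bk ∪ BE with hP
  have cP : P.card = 2 * b := by
    rw [hP, Finset.card_union_of_disjoint dis2, hBE, Finset.card_image_of_injective _ inj, hBkc]
    ring
  have mP : ∀ x ∈ P, (x ∈ DS ∨ x ∈ DE) ∧ x ≠ σ ∧ x ≠ σ + e := by
    intro x hx
    rcases Finset.mem_union.1 hx with h | h
    · refine ⟨Or.inl (hBkD x h), hBkσ x h, ?_⟩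
      rintro rfl
      exact hd σ hσ (hBkD _ h)
    · have h' := (mBE x).1 h
      refine ⟨Or.inr ((mDE x).2 (hBkD _ h')), ?_, ?_⟩
      · rintro rfl
        exact hd' _ hσ (hBkD _ h')
      · rintro rfl
        rw [add_sub_cancel_right] at h'
        exact hBkσ σ h' rfl
  -- the choice of the option
  have hopt : ∃ o : G, (o = 0 ∨ o = e) ∧
      ∑ x ∈ J0, par x + (par (σ + e - o) + ∑ x ∈ P, par x) = ∑ k, par (v0 k + v11 k) := by
    rcases hp.2 with h0 | h1
    · refine ⟨0, Or.inl rfl, ?_⟩
      rw [h0]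
      simp
    · by_cases hcase : ∑ x ∈ J0, par x + (par σ + ∑ x ∈ P, par x) = ∑ k, par (v0 k + v11 k)
      · refine ⟨e, Or.inr rfl, ?_⟩
        rw [add_sub_cancel_right]
        exact hcase
      · refine ⟨0, Or.inl rfl, ?_⟩
        rw [sub_zero, map_add, h1]
        have key : ∀ a b c d : ZMod 2, a + (b + c) ≠ d → a + (b + 1 + c) = d := by decide
        exact key _ _ _ _ hcase
  obtain ⟨o, ho, hsum⟩ := hopt
  set j : G := σ + e - o with hj
  have hjj : (o = 0 ∧ j = σ + e) ∨ (o = e ∧ j = σ) := by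
    rcases ho with h | h
    · left
      exact ⟨h, by rw [hj, h, sub_zero]⟩
    · right
      exact ⟨h, by rw [hj, h, add_sub_cancel_right]⟩
  have hjDD : j ∈ DS ∪ DE := by
    rcases hjj with ⟨-, h⟩ | ⟨-, h⟩
    · rw [h]
      exact Finset.mem_union_right _ ((mDE _).2 (by rwa [add_sub_cancel_right]))
    · rw [h]
      exact Finset.mem_union_left _ hσ
  have hjP : j ∉ P := by
    intro h
    rcases hjj with ⟨-, h1⟩ | ⟨-, h1⟩
    · exact (mP j h).2.2 h1
    · exact (mP j h).2.1 h1
  have disJ : Disjoint J0 (insert j P) := by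
    rw [Finset.disjoint_left]
    intro x hx h
    have hx2 := (Finset.mem_sdiff.1 hx).2
    rcases Finset.mem_insert.1 h with h | h
    · rw [h] at hx2
      exact hx2 hjDD
    · rcases (mP x h).1 with h2 | h2
      · exact hx2 (Finset.mem_union_left _ h2)
      · exact hx2 (Finset.mem_union_right _ h2)
  set J : Finset G := J0 ∪ insert j P with hJ
  have cJ : J.card = 3 * N := by
    rw [hJ, Finset.card_union_of_disjoint disJ, Finset.card_insert_of_notMem hjP, cP]
    omega
  have sJ : ∑ x ∈ J, par x = ∑ k, par (v0 k + v11 k) := by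
    rw [hJ, Finset.sum_union disJ, Finset.sum_insert hjP]
    exact hsum
  have hPJ : P ⊆ J := by
    intro x hx
    exact Finset.mem_union_right _ (Finset.mem_insert_of_mem hx)
  have hNb : N ≤ b := by omega
  have halt : (par = 0 ∧ ∀ k, par (v0 k + v11 k) = 0) ∨
      (N ≤ (J.filter fun w => par w = 0).card ∧ N ≤ (J.filter fun w => par w = 1).card) := by
    rcases hp.2 with h0 | h1
    · left
      refine ⟨h0, fun k => ?_⟩
      rw [h0]
      rfl
    · right
      have gen : ∀ r : ZMod 2, N ≤ (J.filter fun w => par w = r).card := by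
        intro r
        refine hNb.trans ?_
        rw [← hBkc]
        refine Finset.card_le_card_of_injOn (fun s => if par s = r then s else s + e) ?_ ?_
        · intro s hs
          have hs' : s ∈ Bk := hs
          rw [Finset.mem_coe, Finset.mem_filter]
          by_cases h : par s = r
          · simp only [if_pos h]
            exact ⟨hPJ (Finset.mem_union_left _ hs'), h⟩
          · simp only [if_neg h]
            refine ⟨hPJ (Finset.mem_union_right _ ((mBE _).2 (by rwa [add_sub_cancel_right]))), ?_⟩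
            rw [map_add, h1]
            have key : ∀ a r : ZMod 2, a ≠ r → a + 1 = r := by decide
            exact key _ _ h
        · intro s hs s' hs' hss
          have hs1 : s ∈ Bk := hs
          have hs1' : s' ∈ Bk := hs'
          simp only at hss
          split_ifs at hss with h h'
          · exact hss
          · exfalso
            rw [hss] at hs1
            exact hd s' (hBkD _ hs1') (hBkD _ hs1)
          · exfalso
            rw [← hss] at hs1'
            exact hd s (hBkD _ hs1) (hBkD _ hs1')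
          · exact inj hss
      exact ⟨gen 0, gen 1⟩
  obtain ⟨w, hw1, hw2, hw3⟩ := assign par N J (fun k => par (v0 k + v11 k)) cJ sJ halt
  have hcex : ∀ k, ∃ h : G, h + h = e + e - v0 k - v11 k - w k 0 + w k 1 - w k 2 := by
    intro k
    apply hp.1
    have h3 := hw3 k
    rw [map_sub, map_add, map_sub, map_sub, map_sub, map_add, FinA1_dbl]
    rw [map_add] at h3
    have key : ∀ a b x y z : ZMod 2, x + y + z = a + b → 0 - a - b - x + y - z = 0 := by decide
    exact key _ _ _ _ _ h3
  choose c hcc using hcex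
  have mFS : ∀ x, x ∈ insert σ Bk ↔ x = σ ∨ x ∈ Bk := fun x => Finset.mem_insert
  refine ⟨o, ho, c, w, insert σ Bk, hcc, hw1, ?_, ?_, ?_, ?_⟩
  · intro k i
    have hwJ := hw2 k i
    generalize w k i = x at hwJ
    rcases Finset.mem_union.1 hwJ with h | h
    · obtain ⟨hxU, hxn⟩ := Finset.mem_sdiff.1 h
      have n1 : x ∉ DS := fun h2 => hxn (Finset.mem_union_left _ h2)
      have n2 : x - e ∉ DS := fun h2 => hxn (Finset.mem_union_right _ ((mDE x).2 h2))
      refine ⟨hxU, ?_, fun h2 => absurd h2 n1, fun h2 => absurd h2 n2⟩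
      rcases ho with h3 | h3
      · rw [h3, add_zero]
        rintro rfl
        exact n1 hσ
      · rw [h3]
        rintro rfl
        rw [add_sub_cancel_right] at n2
        exact n2 hσ
    · rcases Finset.mem_insert.1 h with h | h
      · subst h
        refine ⟨sub1 hjDD, ?_, ?_, ?_⟩
        · rcases hjj with ⟨h3, h4⟩ | ⟨h3, h4⟩
          · rw [h3, h4, add_zero]
            intro h5
            exact he (by simpa using h5)
          · rw [h3, h4]
            intro h5
            exact he (by simpa using h5.symm)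
        · intro h2
          rcases hjj with ⟨h3, h4⟩ | ⟨h3, h4⟩
          · rw [h4] at h2
            exact absurd h2 (hd σ hσ)
          · rw [h4]
            exact Finset.mem_insert_self _ _
        · intro h2
          rcases hjj with ⟨h3, h4⟩ | ⟨h3, h4⟩
          · rw [h4, add_sub_cancel_right]
            exact Finset.mem_insert_self _ _
          · rw [h4] at h2
            exact absurd h2 (hd' σ hσ)
      · have h5 := mP x h
        have hxU : x ∈ US := by
          apply sub1
          rcases h5.1 with h6 | h6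
          · exact Finset.mem_union_left _ h6
          · exact Finset.mem_union_right _ h6
        refine ⟨hxU, ?_, ?_, ?_⟩
        · rcases ho with h3 | h3
          · rw [h3, add_zero]
            exact h5.2.1
          · rw [h3]
            exact h5.2.2
        · intro h2
          rcases Finset.mem_union.1 h with h6 | h6
          · exact Finset.mem_insert_of_mem h6
          · exact absurd (hBkD _ ((mBE x).1 h6)) (hd' x h2)
        · intro h2
          rcases Finset.mem_union.1 h with h6 | h6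
          · exact absurd h2 (hd' x (hBkD x h6))
          · exact Finset.mem_insert_of_mem ((mBE x).1 h6)
  · intro x hx
    rcases Finset.mem_insert.1 hx with h | h
    · rw [h]
      exact hσ
    · exact hBkD x h
  · rw [Finset.card_insert_of_notMem (fun h => hBkσ σ h rfl), hBkc]
    exact hb
  · rcases ho with h3 | h3
    · left
      rw [h3, add_zero]
      exact Finset.mem_insert_self _ _
    · right
      rw [h3, add_sub_cancel_right]
      exact Finset.mem_insert_self _ _

theorem leaf_junk (α : ℝ) (hα : 0 < α) (hα1 : α ≤ 1) :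
    ∃ η : ℝ, 0 < η ∧ ∃ q0 : ℕ, ∀ (G : Type) [AddCommGroup G] [Fintype G],
      q0 ≤ Fintype.card G → ∀ (e : G), e ≠ 0 → ∀ (par : G →+ ZMod 2), Par e par →
      ∀ (M : ℕ) (χ : Bool → G → Fin M), Rnd χ 4 η → ∀ (A1 A2 A2' : Finset (Fin M)),
      Disjoint A2 A2' → α ≤ (A1.card : ℝ) / M →
      α ≤ (A2.card : ℝ) / M → α ≤ (A2'.card : ℝ) / M →
      ∀ (US : Finset G) (L N : ℕ), (∀ s ∈ dcl (χ false) e A2 A2', s ∈ US ∧ s + e ∈ US) →
      US.card = 2 * L + 11 * N + 1 → 2 * L + 10 * N + 2 ≤ 2 * (dcl (χ false) e A2 A2').card →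
      ∀ (gz : G) (v0 v11 : Fin N → G),
      ∃ (l : G) (c : Fin N → G) (w : Fin N → Fin 3 → G) (FS : Finset G), χ true l ∈ A1 ∧
        (∀ k, c k + c k = e + e - v0 k - v11 k - w k 0 + w k 1 - w k 2) ∧
        (∀ k k' i i', w k i = w k' i' → k = k' ∧ i = i') ∧
        (∀ k i, w k i ∈ US ∧ w k i ≠ gz + l ∧
          (w k i ∈ dcl (χ false) e A2 A2' → w k i ∈ FS) ∧
          (w k i - e ∈ dcl (χ false) e A2 A2' → w k i - e ∈ FS)) ∧
        FS ⊆ dcl (χ false) e A2 A2' ∧
        FS.card + L + 4 * N = (dcl (χ false) e A2 A2').card ∧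
        (gz + l ∈ FS ∨ gz + l - e ∈ FS) := by
  refine ⟨α ^ 4 / 2, by positivity, 0, ?_⟩
  intro G _ _ _ e he par hp M χ hR A1 A2 A2' hdis hA1 hA2 hA2' US L N hUS hcard hDS gz v0 v11
  obtain ⟨t, ht1, ht2, hσ⟩ := FinA1_t hα he hR hA1 hA2 hA2' gz
  have hd : ∀ s ∈ dcl (χ false) e A2 A2', s + e ∉ dcl (χ false) e A2 A2' := by
    intro s hs h
    unfold dcl at hs h
    have h1 := (Finset.mem_filter.1 hs).2.2
    have h2 := (Finset.mem_filter.1 h).2.1
    exact (Finset.disjoint_left.1 hdis h2) h1
  obtain ⟨o, ho, c, w, FS, k1, k2, k3, k4, k5, k6⟩ :=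
    FinA1_core he hp hd hUS hcard hDS hσ v0 v11
  have e1 : gz + (t + o) = gz + t + o := (add_assoc _ _ _).symm
  refine ⟨t + o, c, w, FS, ?_, k1, k2, ?_, k4, k5, ?_⟩
  · rcases ho with h | h
    · rw [h, add_zero]
      exact ht1
    · rw [h]
      exact ht2
  · rw [e1]
    exact k3
  · rw [e1]
    exact k6

end Pool.Agent.H60.HM
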