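import Pool.Agent.H60.HM.Defs

/-!
# HM-23 ParZ: parity in `ZMod q`

`q` even: `par` is the reduction `ZMod q → ZMod 2` (`ZMod.castHom`); `par g = 0` means that the representative
`g.val` is even, `h = (g.val / 2 : ℕ)`.  `q` odd: `par = 0`, and `h = ((q + 1) / 2) • g`.
-/

namespace Pool.Agent.H60.HM

open Finset Classical

theorem par_zmod (q : ℕ) [NeZero q] : ∃ par : ZMod q →+ ZMod 2, Par (1 : ZMod q) par := by
  rcases Nat.even_or_odd q with he | ho
  · have h2 : 2 ∣ q := he.two_dvd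
    refine ⟨(ZMod.castHom h2 (ZMod 2)).toAddMonoidHom, ?_, Or.inr ?_⟩
    · intro g hg
      have h3 : (ZMod.castHom h2 (ZMod 2)) g = 0 := hg
      rw [ZMod.castHom_apply, ← ZMod.natCast_val] at h3
      have h4 : 2 ∣ g.val := (ZMod.natCast_eq_zero_iff g.val 2).1 h3
      obtain ⟨k, hk⟩ := h4
      refine ⟨(k : ZMod q), ?_⟩
      rw [← Nat.cast_add, ← two_mul, ← hk, ZMod.natCast_zmod_val]
    · show (ZMod.castHom h2 (ZMod 2)) 1 = 1
      exact map_one _
  · refine ⟨0, ?_, Or.inl rfl⟩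
    intro g _
    obtain ⟨k, hk⟩ := ho
    refine ⟨(k + 1) • g, ?_⟩
    rw [← add_nsmul]
    have h3 : k + 1 + (k + 1) = q + 1 := by omega
    rw [h3, add_nsmul, one_nsmul]
    have h4 : q • g = 0 := by
      rw [nsmul_eq_mul, ZMod.natCast_self, zero_mul]
    rw [h4, zero_add]

end Pool.Agent.H60.HM
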