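import Pool.Agent.H60.HM.EnumB

/-!
# HM-18 Renum: the same for a finite set of vertices

Proof.  `n = I.card`, `φ : Fin n → ℕ` the increasing enumeration of `I` (`Finset.orderEmbOfFin`), extended to
`ℕ → ℕ`; `φ` is a bijection from `range n` to `I`, and `i < j` iff `φ i < φ j` for `i, j < n`.  Let `ψ` be the
inverse map.  Apply `enumB` to `p' i = ψ (p (φ i))`, `rt' i = rt (φ i)`, `mk' i = mk (φ i)`, `a' k = ψ (a k)`,
`b' k = ψ (b k)`, `z' = ψ z`.  For `i < n` with `¬ rt' i`: `p (φ i) ∈ I`, `φ (p' i) = p (φ i) < φ i`, so `p' i < i`.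
The counting conditions are transported by `φ`.  From `g', y', c, l` define `g x = g' (ψ x)`, `y x = y' (ψ x)`.
For `x ∈ I`, `¬ rt x`: `es e mk p g x = es e mk' p' g' (ψ x)`.
-/

namespace Pool.Agent.H60.HM

open Finset Classical Pool.Agent.H60.HL

private theorem Renum_enum (I : Finset ℕ) : ∃ φ ψ : ℕ → ℕ, (∀ i, i < I.card → φ i ∈ I) ∧
    (∀ i, i < I.card → ψ (φ i) = i) ∧ (∀ x ∈ I, ψ x < I.card) ∧ (∀ x ∈ I, φ (ψ x) = x) ∧
    ∀ i j, i < I.card → j < I.card → φ i < φ j → i < j := by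
  let o := I.orderIsoOfFin rfl
  let φ : ℕ → ℕ := fun i => if h : i < I.card then (o ⟨i, h⟩ : ℕ) else 0
  let ψ : ℕ → ℕ := fun x => if h : x ∈ I then ((o.symm ⟨x, h⟩ : Fin I.card) : ℕ) else 0
  have hφ : ∀ i (h : i < I.card), φ i = (o ⟨i, h⟩ : ℕ) := fun i h => dif_pos h
  have hψ : ∀ x (h : x ∈ I), ψ x = ((o.symm ⟨x, h⟩ : Fin I.card) : ℕ) := fun x h => dif_pos h
  have hm : ∀ i, i < I.card → φ i ∈ I := by
    intro i h
    rw [hφ i h]
    exact (o ⟨i, h⟩).2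
  have hl : ∀ x ∈ I, ψ x < I.card := by
    intro x h
    rw [hψ x h]
    exact (o.symm ⟨x, h⟩).2
  refine ⟨φ, ψ, hm, ?_, hl, ?_, ?_⟩
  · intro i h
    rw [hψ (φ i) (hm i h)]
    have h1 : (⟨φ i, hm i h⟩ : I) = o ⟨i, h⟩ := Subtype.ext (hφ i h)
    rw [h1, OrderIso.symm_apply_apply]
  · intro x h
    rw [hφ (ψ x) (hl x h)]
    have h1 : (⟨ψ x, hl x h⟩ : Fin I.card) = o.symm ⟨x, h⟩ := Fin.ext (hψ x h)
    rw [h1, OrderIso.apply_symm_apply]
  · intro i j hi hj hij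
    rw [hφ i hi, hφ j hj] at hij
    have h1 : o ⟨i, hi⟩ < o ⟨j, hj⟩ := hij
    rw [o.lt_iff_lt] at h1
    exact h1

/-- the renumbered edges -/
private def Renum_map {N : ℕ} (ψ : ℕ → ℕ) : Ed N → Ed N
  | .ed j => .ed (ψ j)
  | .pd i b => .pd (ψ i) b
  | .cn k r => .cn k r
  | .lf => .lf

theorem enumI (Δ : ℕ) :
    ∃ β : ℝ, 0 < β ∧ β ≤ 1 / 1000 ∧ ∃ q0 : ℕ,
      ∀ (G : Type) [AddCommGroup G] [Fintype G], Tor2 G → q0 ≤ Fintype.card G →
      ∀ (e : G), e ≠ 0 → ∀ (par : G →+ ZMod 2), Par e par →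
      ∀ (I : Finset ℕ) (p : ℕ → ℕ) (rt mk : ℕ → Prop) (L N : ℕ) (a b : Fin N → ℕ) (z : ℕ),
      (∀ i ∈ I, ¬ rt i → p i ∈ I ∧ p i < i) →
      (∀ i, (I.filter fun j => ¬ rt j ∧ p j = i).card ≤ Δ) →
      (∀ i ∈ I, ¬ rt i → mk (p i) → ¬ mk i) →
      L = ⌊(Fintype.card G : ℝ) / 64⌋₊ → N = ⌊β * Fintype.card G⌋₊ →
      I.card + 2 * L + 10 * N = Fintype.card G → (I.filter mk).card = L →
      (I.filter rt).card = N + 1 → (∀ k, a k ∈ I ∧ b k ∈ I) → z ∈ I →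
      Lbl e I p rt mk a b z := by
  obtain ⟨β, hβ0, hβ1, q0, H⟩ := enumB Δ
  refine ⟨β, hβ0, hβ1, q0, ?_⟩
  intro G _ _ htor hq e he par hpar I p rt mk L N a b z hp hΔ hmk hL hN hcard hcmk hcrt hab hz
  obtain ⟨φ, ψ, h1, h2, h3, h4, h5⟩ := Renum_enum I
  have hcount : ∀ P : ℕ → Prop, ((range I.card).filter fun i => P (φ i)).card =
      (I.filter P).card := by
    intro P
    refine Finset.card_bij (fun i _ => φ i) ?_ ?_ ?_
    · intro i hi
      rw [mem_filter, mem_range] at hi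
      rw [mem_filter]
      exact ⟨h1 i hi.1, hi.2⟩
    · intro i hi j hj hij
      rw [mem_filter, mem_range] at hi hj
      rw [← h2 i hi.1, ← h2 j hj.1]
      exact congrArg ψ hij
    · intro x hx
      rw [mem_filter] at hx
      refine ⟨ψ x, ?_, h4 x hx.1⟩
      rw [mem_filter, mem_range, h4 x hx.1]
      exact ⟨h3 x hx.1, hx.2⟩
  obtain ⟨g', y', c, l, k1, k2, k3⟩ := H G htor hq e he par hpar I.card (fun i => ψ (p (φ i)))
    (fun i => rt (φ i)) (fun i => mk (φ i)) L N (fun k => ψ (a k)) (fun k => ψ (b k)) (ψ z)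
    (by
      intro i hi hr
      obtain ⟨m1, m2⟩ := hp (φ i) (h1 i hi) hr
      refine h5 _ _ (h3 _ m1) hi ?_
      rw [h4 _ m1]
      exact m2)
    (by
      intro i
      refine le_trans ?_ (hΔ (φ i))
      refine Finset.card_le_card_of_injOn φ ?_ ?_
      · intro j hj
        rw [mem_coe, mem_filter, mem_range] at hj
        obtain ⟨hj1, hj2, hj3⟩ := hj
        obtain ⟨m1, m2⟩ := hp (φ j) (h1 j hj1) hj2
        rw [mem_coe, mem_filter]
        refine ⟨h1 j hj1, hj2, ?_⟩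
        rw [← h4 _ m1]
        exact congrArg φ hj3
      · intro j hj j' hj' hjj
        rw [mem_coe, mem_filter, mem_range] at hj hj'
        rw [← h2 j hj.1, ← h2 j' hj'.1]
        exact congrArg ψ hjj)
    (by
      intro i hi hr hm
      obtain ⟨m1, m2⟩ := hp (φ i) (h1 i hi) hr
      refine hmk (φ i) (h1 i hi) hr ?_
      have hm' : mk (φ (ψ (p (φ i)))) := hm
      rwa [h4 _ m1] at hm')
    hL hN hcard
    (by
      rw [← hcmk]
      exact hcount mk)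
    (by
      rw [← hcrt]
      exact hcount rt)
    (fun k => ⟨h3 _ (hab k).1, h3 _ (hab k).2⟩) (h3 z hz)
  refine ⟨fun x => g' (ψ x), fun x => y' (ψ x), c, l, k1, ?_, ?_⟩
  · have hinj : ∀ i ∈ I, ∀ j ∈ I, ψ i = ψ j → i = j := by
      intro i hi j hj hij
      rw [← h4 i hi, ← h4 j hj, hij]
    have hok : ∀ x : Ed N, x.ok I rt mk →
        (Renum_map ψ x).ok (range I.card) (fun i => rt (φ i)) (fun i => mk (φ i)) := by
      rintro (j | ⟨i, b'⟩ | ⟨k, r⟩ | _) hx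
      · obtain ⟨hx1, hx2⟩ := hx
        refine ⟨mem_range.2 (h3 j hx1), ?_⟩
        show ¬ rt (φ (ψ j))
        rw [h4 j hx1]
        exact hx2
      · obtain ⟨hx1, hx2⟩ := hx
        refine ⟨mem_range.2 (h3 i hx1), ?_⟩
        show mk (φ (ψ i))
        rw [h4 i hx1]
        exact hx2
      · trivial
      · trivial
    have hsum : ∀ x : Ed N, x.ok I rt mk →
        Esum e mk p (fun x => g' (ψ x)) (fun x => y' (ψ x)) c l z x =
        Esum e (fun i => mk (φ i)) (fun i => ψ (p (φ i))) g' y' c l (ψ z) (Renum_map ψ x) := by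
      rintro (j | ⟨i, b'⟩ | ⟨k, r⟩ | _) hx
      · obtain ⟨hx1, hx2⟩ := hx
        obtain ⟨m1, m2⟩ := hp j hx1 hx2
        show g' (ψ j) + g' (ψ (p j)) + (if mk (p j) then e else 0) =
          g' (ψ j) + g' (ψ (p (φ (ψ j)))) + (if mk (φ (ψ (p (φ (ψ j))))) then e else 0)
        rw [h4 j hx1, h4 (p j) m1]
      · rfl
      · rfl
      · rfl
    intro x x' hx hx' hxx
    rw [hsum x hx, hsum x' hx'] at hxx
    have h6 := k2 _ _ (hok x hx) (hok x' hx') hxx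
    rcases x with (j | ⟨i, b'⟩ | ⟨k, r⟩ | _) <;> rcases x' with (j' | ⟨i', b''⟩ | ⟨k', r'⟩ | _) <;>
      simp only [Renum_map, Ed.ed.injEq, Ed.pd.injEq, reduceCtorEq] at h6 ⊢
    · exact hinj j hx.1 j' hx'.1 h6
    · exact ⟨hinj i hx.1 i' hx'.1 h6.1, h6.2⟩
    · exact h6
  · intro t
    rcases k3 t with ⟨i, hi, h⟩ | ⟨i, hi, hm, h⟩ | ⟨i, hi, hm, h⟩ | h | h
    · rw [mem_range] at hi
      refine Or.inl ⟨φ i, h1 i hi, ?_⟩
      show g' (ψ (φ i)) = t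
      rw [h2 i hi, h]
    · rw [mem_range] at hi
      refine Or.inr (Or.inl ⟨φ i, h1 i hi, hm, ?_⟩)
      show g' (ψ (φ i)) + e = t
      rw [h2 i hi, h]
    · rw [mem_range] at hi
      refine Or.inr (Or.inr (Or.inl ⟨φ i, h1 i hi, hm, ?_⟩))
      show y' (ψ (φ i)) = t
      rw [h2 i hi, h]
    · exact Or.inr (Or.inr (Or.inr (Or.inl h)))
    · exact Or.inr (Or.inr (Or.inr (Or.inr h)))

end Pool.Agent.H60.HM
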