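import Pool.Agent.H60.HM.SegC
import Pool.Agent.H60.HM.Renum
import Pool.Agent.H60.HM.ParZ
import Pool.Agent.H60.HL.TrH

/-!
# HM-22 GraphB: all bounded degree trees of large order are harmonious

Proof.  `Δ' = Δ + 1`, `δ = 1 / (13 (2 + 24 Δ'))`.  `N1` from `graph_main Δ δ`; `β`, `q0` from `enumI Δ'`.
`N0 ≥ N1`, `N0 ≥ q0 + 1`, `N0 ≥ 1000`.  Let `T` be given, `N = card V ≥ N0`.  If there are at least `δ N` leaves, use
`graph_main`.  Otherwise `tree_enum` gives `ε : ℕ → V`, `p`.  Every child `j` of `i` gives a neighbour `ε j` of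
`ε i`, so `ch N p i ≤ Δ ≤ Δ'`.  If `i < N` and `ch N p i = 0` then `i > 0` (`1` is a child of `0`) and `ε (p i)` is the only
neighbour of `ε i`: at most `#leaves < δ N` such `i`.  `segs 12 Δ' N`: `N ≤ 12 Sg.card + (2 + 24 Δ') δ N`,
`12 Sg.card ≥ 12 N / 13`, `Sg.card ≥ N / 13`.  `q = N - 1`, `L = ⌊q / 64⌋`, `Nc = ⌊β q⌋`,
`L + Nc ≤ N / 64 + N / 1000 ≤ N / 13`.  Choose disjoint `PL, PC ⊆ Sg` with `L` and `Nc` elements; `Sgm N p PL PC`.
`vc : Fin Nc → ℕ` enumerates `PC`.  `enumI` for `G = ZMod q`, `e = 1`, `par_zmod`, `tor2_zmod`, and the structure of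
`SegB` (`seg_1`, ..., `seg_6`; `I.card + 2 L + 10 Nc = N - 1 = q`), then `seg_label`: `f`.
`F v = f (index of v)`.  Every edge of `T` is `{ε j, ε (p j)}` with `0 < j < N`.
-/

namespace Pool.Agent.H60.HM

open Finset Classical Pool.Agent.H60.HL

theorem graph_all (Δ : ℕ) :
    ∃ N0 : ℕ, ∀ (V : Type) [Fintype V] (T : SimpleGraph V), T.IsTree → N0 ≤ Fintype.card V →
      (∀ v, (T.neighborSet v).ncard ≤ Δ) →
      ∃ f : V → ZMod (Fintype.card V - 1), Function.Surjective f ∧
        ∀ u v x y : V, T.Adj u v → T.Adj x y → f u + f v = f x + f y → s(u, v) = s(x, y) := by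
  have hD : (0 : ℝ) < 2 + 24 * ((Δ : ℝ) + 1) := by positivity
  have hδ : (0 : ℝ) < 1 / (13 * (2 + 24 * ((Δ : ℝ) + 1))) := by positivity
  obtain ⟨N1, hN1⟩ := graph_main Δ (1 / (13 * (2 + 24 * ((Δ : ℝ) + 1)))) hδ
  obtain ⟨β, hβ0, hβ1, q0, hq0⟩ := enumI (Δ + 1)
  refine ⟨max N1 (max (q0 + 1) 1000), fun V _ T hT hN hΔ => ?_⟩
  have hNa : N1 ≤ Fintype.card V := (le_max_left _ _).trans hN
  have hNb : q0 + 1 ≤ Fintype.card V := ((le_max_left _ _).trans (le_max_right _ _)).trans hN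
  have hNc : 1000 ≤ Fintype.card V := ((le_max_right _ _).trans (le_max_right _ _)).trans hN
  by_cases hleaf : 1 / (13 * (2 + 24 * ((Δ : ℝ) + 1))) * (Fintype.card V : ℝ) ≤
      (({v | (T.neighborSet v).ncard = 1} : Set V).ncard : ℝ)
  · exact hN1 V T hT hNa hΔ hleaf
  push Not at hleaf
  obtain ⟨ε, p, hp, hsurj, hinj, hadj⟩ := tree_enum T hT
  have hqne : NeZero (Fintype.card V - 1) := ⟨by omega⟩
  set N := Fintype.card V with hNdef
  -- numbers of children
  have hch : ∀ i, ch N p i ≤ Δ := by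
    intro i
    show ((range N).filter fun j => 0 < j ∧ p j = i).card ≤ Δ
    by_cases hi : i < N
    · refine le_trans ?_ (hΔ (ε i))
      have h4 : ((range N).filter fun j => 0 < j ∧ p j = i).card =
          (((range N).filter fun j => 0 < j ∧ p j = i).image ε).card := by
        refine (Finset.card_image_of_injOn fun a ha b hb hab => hinj ?_ ?_ hab).symm
        · exact (Finset.mem_filter.1 ha).1
        · exact (Finset.mem_filter.1 hb).1
      rw [h4, ← Set.ncard_coe_finset]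
      refine Set.ncard_le_ncard ?_ (Set.toFinite _)
      intro v hv
      obtain ⟨j, hj, rfl⟩ := Finset.mem_image.1 (Finset.mem_coe.1 hv)
      obtain ⟨hj1, hj2⟩ := Finset.mem_filter.1 hj
      exact (hadj i hi j (Finset.mem_range.1 hj1)).2 (Or.inr hj2)
    · have h4 : ((range N).filter fun j => 0 < j ∧ p j = i) = ∅ := by
        rw [Finset.eq_empty_iff_forall_notMem]
        intro j hj
        obtain ⟨hj1, hj2, hj3⟩ := Finset.mem_filter.1 hj
        have h5 := hp j hj2 (Finset.mem_range.1 hj1)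
        have h6 := Finset.mem_range.1 hj1
        omega
      rw [h4, Finset.card_empty]
      exact Nat.zero_le _
  have hch1 : ∀ i, ch N p i ≤ Δ + 1 := fun i => (hch i).trans (Nat.le_succ Δ)
  -- leaves
  have hl : ((range N).filter fun i => ch N p i = 0).card ≤
      ({v | (T.neighborSet v).ncard = 1} : Set V).ncard := by
    have h4 : ((range N).filter fun i => ch N p i = 0).card =
        (((range N).filter fun i => ch N p i = 0).image ε).card := by
      refine (Finset.card_image_of_injOn fun a ha b hb hab => hinj ?_ ?_ hab).symm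
      · exact (Finset.mem_filter.1 ha).1
      · exact (Finset.mem_filter.1 hb).1
    rw [h4, ← Set.ncard_coe_finset]
    refine Set.ncard_le_ncard ?_ (Set.toFinite _)
    intro v hv
    obtain ⟨i, hi, rfl⟩ := Finset.mem_image.1 (Finset.mem_coe.1 hv)
    obtain ⟨hi1, hi2⟩ := Finset.mem_filter.1 hi
    have hiN : i < N := Finset.mem_range.1 hi1
    have hnone : ∀ j, j < N → 0 < j → p j ≠ i := by
      intro j hj hj0 hji
      have h5 : ((range N).filter fun j => 0 < j ∧ p j = i).card = 0 := hi2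
      rw [Finset.card_eq_zero] at h5
      have h6 : j ∈ ((range N).filter fun j => 0 < j ∧ p j = i) :=
        Finset.mem_filter.2 ⟨Finset.mem_range.2 hj, hj0, hji⟩
      rw [h5] at h6
      exact absurd h6 (Finset.notMem_empty j)
    have hi0 : 0 < i := by
      rcases Nat.eq_zero_or_pos i with h0 | h0
      · exfalso
        have h5 := hp 1 one_pos (by omega)
        exact hnone 1 (by omega) one_pos (by omega)
      · exact h0
    have hpi : p i < N := (hp i hi0 hiN).trans hiN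
    show (T.neighborSet (ε i)).ncard = 1
    have h6 : T.neighborSet (ε i) = {ε (p i)} := by
      ext w
      constructor
      · intro hw
        have hw' : T.Adj (ε i) w := hw
        obtain ⟨j, hj, rfl⟩ := hsurj w
        rcases (hadj i hiN j hj).1 hw' with ⟨_, h7⟩ | ⟨h7, h8⟩
        · rw [h7]
          exact rfl
        · exact absurd h8 (hnone j hj h7)
      · intro hw
        have hw' : w = ε (p i) := hw
        rw [hw']
        exact (hadj i hiN (p i) hpi).2 (Or.inl ⟨hi0, rfl⟩)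
    rw [h6, Set.ncard_singleton]
  -- many bare paths
  obtain ⟨Sg, hSgsub, hSg1, hSg2, hSgN⟩ := segs 12 (Δ + 1) N (by norm_num) p hp hch1
  have hNpos : (0 : ℝ) < (N : ℝ) := by
    have : 0 < N := by omega
    exact_mod_cast this
  have hSgR : (N : ℝ) ≤ 13 * (Sg.card : ℝ) := by
    have h5 : (N : ℝ) ≤ 12 * (Sg.card : ℝ) + (2 + 24 * ((Δ : ℝ) + 1)) *
        (((range N).filter fun i => ch N p i = 0).card : ℝ) := by
      have h6 : ((N : ℕ) : ℝ) ≤ ((12 * Sg.card + (2 + 2 * 12 * (Δ + 1)) *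
          ((range N).filter fun i => ch N p i = 0).card : ℕ) : ℝ) := by
        exact_mod_cast hSgN
      push_cast at h6
      linarith
    have h7 : (((range N).filter fun i => ch N p i = 0).card : ℝ) ≤
        1 / (13 * (2 + 24 * ((Δ : ℝ) + 1))) * (N : ℝ) := by
      refine le_trans ?_ hleaf.le
      exact_mod_cast hl
    have h8 : (2 + 24 * ((Δ : ℝ) + 1)) *
        (((range N).filter fun i => ch N p i = 0).card : ℝ) ≤ (N : ℝ) / 13 := by
      calc (2 + 24 * ((Δ : ℝ) + 1)) * (((range N).filter fun i => ch N p i = 0).card : ℝ)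
          ≤ (2 + 24 * ((Δ : ℝ) + 1)) * (1 / (13 * (2 + 24 * ((Δ : ℝ) + 1))) * (N : ℝ)) :=
            mul_le_mul_of_nonneg_left h7 hD.le
        _ = (N : ℝ) / 13 := by
            field_simp
    linarith
  set q := N - 1 with hqdef
  have hqN : (q : ℝ) ≤ (N : ℝ) := by exact_mod_cast Nat.sub_le _ _
  have hq0' : (0 : ℝ) ≤ (q : ℝ) := Nat.cast_nonneg _
  set L := ⌊(q : ℝ) / 64⌋₊ with hLdef
  set Nc := ⌊β * (q : ℝ)⌋₊ with hNcdef
  have hLR : (L : ℝ) ≤ (q : ℝ) / 64 := Nat.floor_le (by positivity)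
  have hNcR : (Nc : ℝ) ≤ β * (q : ℝ) := Nat.floor_le (by positivity)
  have hNcR2 : β * (q : ℝ) ≤ 1 / 1000 * (q : ℝ) := mul_le_mul_of_nonneg_right hβ1 hq0'
  have hLN : L + Nc ≤ Sg.card := by
    have : ((L + Nc : ℕ) : ℝ) ≤ (Sg.card : ℝ) := by
      push_cast
      linarith
    exact_mod_cast this
  obtain ⟨PL, hPL, hPLc⟩ := Finset.exists_subset_card_eq (s := Sg) (n := L) (by omega)
  have hsd : Nc ≤ (Sg \ PL).card := by
    rw [Finset.card_sdiff_of_subset hPL, hPLc]
    omega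
  obtain ⟨PC, hPC, hPCc⟩ := Finset.exists_subset_card_eq (s := Sg \ PL) (n := Nc) hsd
  have hPCS : PC ⊆ Sg := hPC.trans Finset.sdiff_subset
  have hU : ∀ v ∈ PL ∪ PC, v ∈ Sg := by
    intro v hv
    rcases Finset.mem_union.1 hv with h | h
    · exact hPL h
    · exact hPCS h
  have hSgm : Sgm N p PL PC := by
    refine ⟨by omega, hp, ?_, fun v hv => hSg1 v (hU v hv),
      fun v hv v' hv' => hSg2 v (hU v hv) v' (hU v' hv')⟩
    rw [Finset.disjoint_left]
    intro v hv hv'
    exact (Finset.mem_sdiff.1 (hPC hv')).2 hv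
  let vc : Fin Nc → ℕ := fun k => PC.orderEmbOfFin hPCc k
  have hvcinj : Function.Injective vc := fun a b hab => (PC.orderEmbOfFin hPCc).injective hab
  have hvcr : ∀ v, v ∈ PC ↔ ∃ k, vc k = v := by
    intro v
    have h5 := Finset.range_orderEmbOfFin PC hPCc
    constructor
    · intro hv
      have h6 : v ∈ Set.range (PC.orderEmbOfFin hPCc) := by
        rw [h5]
        exact hv
      exact h6
    · rintro ⟨k, rfl⟩
      exact Finset.orderEmbOfFin_mem PC hPCc k
  obtain ⟨par, hpar⟩ := par_zmod q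
  have hcardq : Fintype.card (ZMod q) = q := ZMod.card q
  have hq2 : 2 ≤ q := by omega
  have hone : (1 : ZMod q) ≠ 0 := by
    intro h1
    have h2 : ((1 : ℕ) : ZMod q) = 0 := by
      rw [Nat.cast_one]
      exact h1
    rw [ZMod.natCast_eq_zero_iff] at h2
    have h3 := Nat.le_of_dvd one_pos h2
    omega
  have h6 := seg_6 hSgm
  have h5 := seg_5 hSgm
  have h4 := seg_4 hSgm
  have hLbl : Lbl (1 : ZMod q) (SI N p PL PC) (Sp p PL) (Srt PC) (Smk p PL) vc
      (fun k => p^[11] (vc k)) (p (N - 1)) := by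
    refine hq0 (ZMod q) (tor2_zmod q) (by rw [hcardq]; omega) 1 hone par hpar
      (SI N p PL PC) (Sp p PL) (Srt PC) (Smk p PL) L Nc vc (fun k => p^[11] (vc k)) (p (N - 1))
      (seg_1 hSgm) (seg_2 hSgm (Nat.succ_pos Δ) hch1) (seg_3 hSgm) (by rw [hcardq])
      (by rw [hcardq]) ?_ ?_ ?_ ?_ h6.2.2
    · rw [hcardq]
      rw [hPLc, hPCc] at h4
      omega
    · rw [h5.1, hPLc]
    · rw [h6.1, hPCc]
    · intro k
      exact h6.2.1 (vc k) ((hvcr _).2 ⟨k, rfl⟩)
  obtain ⟨f, hf1, hf2⟩ := seg_label (1 : ZMod q) hSgm vc hvcinj hvcr hLbl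
  -- indices
  have hidx : ∀ v, ∃ i, i < N ∧ ε i = v := by
    intro v
    obtain ⟨i, hi, hiv⟩ := hsurj v
    exact ⟨i, hi, hiv⟩
  choose idx hidx using hidx
  have hidxe : ∀ i, i < N → idx (ε i) = i := by
    intro i hi
    obtain ⟨h7, h8⟩ := hidx (ε i)
    exact hinj (Finset.mem_coe.2 (Finset.mem_range.2 h7)) (Finset.mem_coe.2 (Finset.mem_range.2 hi))
      h8
  have hedge : ∀ u v, T.Adj u v →
      ∃ k, 0 < k ∧ k < N ∧ s(u, v) = s(ε k, ε (p k)) ∧ f (idx u) + f (idx v) = f k + f (p k) := by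
    intro u v huv
    obtain ⟨i1, i2⟩ := hidx u
    obtain ⟨j1, j2⟩ := hidx v
    have h7 : T.Adj (ε (idx u)) (ε (idx v)) := by
      rw [i2, j2]
      exact huv
    rcases (hadj _ i1 _ j1).1 h7 with ⟨h8, h9⟩ | ⟨h8, h9⟩
    · refine ⟨idx u, h8, i1, ?_, ?_⟩
      · rw [h9, i2, j2]
      · rw [h9]
    · refine ⟨idx v, h8, j1, ?_, ?_⟩
      · rw [h9, i2, j2]
        exact Sym2.eq_swap
      · rw [h9, add_comm]
  refine ⟨fun v => f (idx v), ?_, ?_⟩
  · intro t
    obtain ⟨i, hi, hit⟩ := hf2 t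
    refine ⟨ε i, ?_⟩
    show f (idx (ε i)) = t
    rw [hidxe i hi, hit]
  · intro u v x y huv hxy hsum
    obtain ⟨k, k1, k2, k3, k4⟩ := hedge u v huv
    obtain ⟨m, m1, m2, m3, m4⟩ := hedge x y hxy
    have h7 : k = m := hf1 k m k1 k2 m1 m2 (by rw [← k4, ← m4]; exact hsum)
    rw [k3, m3, h7]

end Pool.Agent.H60.HM
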