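import Pool.Agent.H60.HM.Defs

/-!
# HM-02 Multi: patterns with several parameters

Proof of `multi` by induction on `d`.  `q = card G`, `κ x = (K x).card / M ∈ [0, 1]`.
`d = 0`: the condition `a x ≠ 0` is impossible, so `ι` is empty and the count is `1`.
Step from `d` to `d + 1`: write `t = Fin.cons t0 t'`.  Let `ι0 = {x : a x 0 = 0}` and `ι1` the rest.
For `x ∈ ι1` the condition is `χ (sp x) (pt s (r x t') t0) ∈ K x` with `s = true` if `a x 0 = 1`,
`s = false` if `a x 0 = -1`, `r x t' = ∑ i, a x i.succ • t' i + k x`.  Call `t'` bad if two different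
`x, y ∈ ι1` have `sp x = sp y`, `a x 0 = a y 0` and `r x t' = r y t'`.  For given `x, y` this says
`∑ i, (a x i.succ - a y i.succ) • t' i = k y - k x`: if `a x = a y` it is impossible since `k x ≠ k y`;
otherwise some coefficient is `±1` or `±2`, and at most `2 q^(d-1)` (`d ≥ 1`) values of `t'` satisfy it
(`lin_count`).  So at most `2 m^2 q^(d-1)` of the `t'` are bad (none if `d = 0`).
For a `t'` which is not bad the places `(sp x, s, r x t')`, `x ∈ ι1`, are different, and `Rnd` gives the number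
of the `t0`: `q ∏_{ι1} κ ± η q`.  The conditions of `ι0` involve only `t'`, and their vectors
`fun i => a x i.succ` are not zero (as `a x ≠ 0`) and satisfy the hypotheses; the induction hypothesis
counts the `t'` with these conditions.  Together
`|count - q^(d+1) ∏ κ| ≤ η q^(d+1) + (2 m^2 q^(d-1)) * 2 q + q (d η q^d + C_d q^(d-1))`, so
`C_(d+1) = C_d + 4 m^2` works.
`lin_count`: a coordinate `i` with `b i ∈ {±1, ±2}`; for given values of the other coordinates `t i`
satisfies `b i • t i = c'`, at most two solutions (`Tor2`; for `b i = ±1` one solution).  So at most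
`2 q^(d-1)`.
`lin_mem`: sum over the elements of `F` of the number of the `t` with a given value; a coordinate with
`b i = ±1` is determined by the others.
-/

namespace Pool.Agent.H60.HM

open Finset Classical Pool.Agent.H60.HL

private theorem Multi_slice {G : Type} [Fintype G] {n : ℕ} (i0 : Fin (n + 1))
    (P : (Fin (n + 1) → G) → Prop) [DecidablePred P]
    [∀ t' : Fin n → G, DecidablePred fun t0 : G => P (i0.insertNth t0 t')] :
    (univ.filter P).card =
      ∑ t' : Fin n → G, (univ.filter fun t0 : G => P (i0.insertNth t0 t')).card := by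
  rw [Finset.card_filter]
  simp_rw [Finset.card_filter]
  rw [← (Fin.insertNthEquiv (fun _ => G) i0).sum_comp, Fintype.sum_prod_type_right]
  refine Finset.sum_congr rfl fun t' _ => Finset.sum_congr rfl fun t0 _ => ?_
  by_cases h : P (i0.insertNth t0 t')
  · rw [if_pos h]
    exact if_pos h
  · rw [if_neg h]
    exact if_neg h

private theorem Multi_sum {G : Type} [AddCommGroup G] {n : ℕ} (i0 : Fin (n + 1))
    (b : Fin (n + 1) → ℤ) (t0 : G) (t' : Fin n → G) :
    ∑ i, b i • (i0.insertNth t0 t' : Fin (n + 1) → G) i =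
      b i0 • t0 + ∑ i, b (i0.succAbove i) • t' i := by
  rw [Fin.sum_univ_succAbove _ i0]
  simp only [Fin.insertNth_apply_same, Fin.insertNth_apply_succAbove]

theorem lin_count {G : Type} [AddCommGroup G] [Fintype G] (hT : Tor2 G) {d : ℕ} (b : Fin d → ℤ)
    (hb : ∃ i, b i = 1 ∨ b i = -1 ∨ b i = 2 ∨ b i = -2) (c : G) :
    (univ.filter fun t : Fin d → G => ∑ i, b i • t i = c).card ≤
      2 * Fintype.card G ^ (d - 1) := by
  obtain ⟨i0, hi0⟩ := hb
  obtain ⟨n, rfl⟩ : ∃ n, d = n + 1 := ⟨d - 1, by have := i0.pos; omega⟩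
  rw [Multi_slice i0]
  have key : ∀ t' ∈ (univ : Finset (Fin n → G)),
      (univ.filter fun t0 : G => ∑ i, b i • (i0.insertNth t0 t' : Fin (n + 1) → G) i = c).card ≤
        2 := by
    intro t' _
    simp only [Multi_sum]
    obtain ⟨s, hs⟩ : ∃ s, s = ∑ i, b (i0.succAbove i) • t' i := ⟨_, rfl⟩
    rw [← hs]
    rcases hi0 with h | h | h | h
    · refine (Finset.card_le_card (t := {c - s}) ?_).trans (by simp)
      intro t ht
      have h1 := (Finset.mem_filter.mp ht).2
      rw [h, one_smul] at h1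
      rw [Finset.mem_singleton, ← h1]
      abel
    · refine (Finset.card_le_card (t := {s - c}) ?_).trans (by simp)
      intro t ht
      have h1 := (Finset.mem_filter.mp ht).2
      rw [h, neg_smul, one_smul] at h1
      rw [Finset.mem_singleton, ← h1]
      abel
    · refine (Finset.card_le_card ?_).trans (hT (c - s))
      intro t ht
      have h1 := (Finset.mem_filter.mp ht).2
      rw [h, two_zsmul] at h1
      refine Finset.mem_filter.mpr ⟨Finset.mem_univ _, ?_⟩
      rw [← h1]
      abel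
    · refine (Finset.card_le_card ?_).trans (hT (s - c))
      intro t ht
      have h1 := (Finset.mem_filter.mp ht).2
      rw [h, neg_smul, two_zsmul] at h1
      refine Finset.mem_filter.mpr ⟨Finset.mem_univ _, ?_⟩
      rw [← h1]
      abel
  refine (Finset.sum_le_card_nsmul _ _ 2 key).trans ?_
  rw [Finset.card_univ, Fintype.card_pi_const, smul_eq_mul, mul_comm]
  exact le_refl _

theorem lin_mem {G : Type} [AddCommGroup G] [Fintype G] {d : ℕ} (b : Fin d → ℤ)
    (hb : ∃ i, b i = 1 ∨ b i = -1) (k : G) (F : Finset G) :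
    (univ.filter fun t : Fin d → G => ∑ i, b i • t i + k ∈ F).card ≤
      F.card * Fintype.card G ^ (d - 1) := by
  obtain ⟨i0, hi0⟩ := hb
  obtain ⟨n, rfl⟩ : ∃ n, d = n + 1 := ⟨d - 1, by have := i0.pos; omega⟩
  rw [Multi_slice i0]
  have key : ∀ t' ∈ (univ : Finset (Fin n → G)),
      (univ.filter fun t0 : G =>
        ∑ i, b i • (i0.insertNth t0 t' : Fin (n + 1) → G) i + k ∈ F).card ≤ F.card := by
    intro t' _
    simp only [Multi_sum]
    obtain ⟨s, hs⟩ : ∃ s, s = ∑ i, b (i0.succAbove i) • t' i := ⟨_, rfl⟩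
    rw [← hs]
    refine Finset.card_le_card_of_injOn (fun t0 => b i0 • t0 + s + k)
      (fun t ht => (Finset.mem_filter.mp ht).2) ?_
    intro t _ u _ htu
    have h1 : b i0 • t = b i0 • u := add_right_cancel (add_right_cancel htu)
    rcases hi0 with h | h
    · rwa [h, one_smul, one_smul] at h1
    · rw [h, neg_smul, one_smul, neg_smul, one_smul] at h1
      exact neg_injective h1
  refine (Finset.sum_le_card_nsmul _ _ _ key).trans ?_
  rw [Finset.card_univ, Fintype.card_pi_const, smul_eq_mul, mul_comm]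
  exact le_refl _

section Multi_step

variable {G : Type} [AddCommGroup G] [Fintype G] {ι : Type} [Fintype ι] {d : ℕ}

/-- the constant part of the place -/
private def Multi_r (a : ι → Fin (d + 1) → ℤ) (k : ι → G) (x : ι) (t' : Fin d → G) : G :=
  ∑ i, a x ((0 : Fin (d + 1)).succAbove i) • t' i + k x

omit [Fintype G] [Fintype ι] in
private theorem Multi_cond {M : ℕ} (χ : Bool → G → Fin M) (sp : ι → Bool)
    (a : ι → Fin (d + 1) → ℤ) (k : ι → G) (ha : ∀ x i, a x i = 0 ∨ a x i = 1 ∨ a x i = -1)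
    (K : ι → Finset (Fin M)) (t0 : G) (t' : Fin d → G) :
    (∀ x, χ (sp x) (∑ i, a x i • ((0 : Fin (d + 1)).insertNth t0 t' : Fin (d + 1) → G) i + k x) ∈
      K x) ↔
    (∀ x : {x // a x 0 = 0}, χ (sp x) (Multi_r a k x t') ∈ K x) ∧
      ∀ x : {x // ¬ a x 0 = 0},
        χ (sp x) (pt (decide (a x 0 = 1)) (Multi_r a k x t') t0) ∈ K x := by
  have h0 : ∀ x, a x 0 = 0 →
      ∑ i, a x i • ((0 : Fin (d + 1)).insertNth t0 t' : Fin (d + 1) → G) i + k x =
        Multi_r a k x t' := by
    intro x hx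
    rw [Multi_sum, hx, zero_smul, zero_add]
    rfl
  have h1 : ∀ x, ¬ a x 0 = 0 →
      ∑ i, a x i • ((0 : Fin (d + 1)).insertNth t0 t' : Fin (d + 1) → G) i + k x =
        pt (decide (a x 0 = 1)) (Multi_r a k x t') t0 := by
    intro x hx
    rw [Multi_sum]
    unfold pt Multi_r
    rcases ha x 0 with h | h | h
    · exact absurd h hx
    · rw [h, one_smul]
      simp only [decide_true, if_true]
      abel
    · rw [h, neg_smul, one_smul]
      have h2 : decide ((-1 : ℤ) = 1) = false := by decide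
      rw [h2]
      simp only [Bool.false_eq_true, if_false]
      abel
  constructor
  · intro h
    refine ⟨fun x => ?_, fun x => ?_⟩
    · have := h x
      rwa [h0 x x.2] at this
    · have := h x
      rwa [h1 x x.2] at this
  · rintro ⟨h2, h3⟩ x
    by_cases hx : a x 0 = 0
    · rw [h0 x hx]
      exact h2 ⟨x, hx⟩
    · rw [h1 x hx]
      exact h3 ⟨x, hx⟩

/-- the place of `x` -/
private def Multi_v (sp : ι → Bool) (a : ι → Fin (d + 1) → ℤ) (k : ι → G) (t' : Fin d → G)
    (x : {x // ¬ a x 0 = 0}) : Bool × Bool × G :=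
  (sp x, decide (a x 0 = 1), Multi_r a k x t')

omit [Fintype ι] in
private theorem Multi_pair (hT : Tor2 G) (sp : ι → Bool)
    (a : ι → Fin (d + 1) → ℤ) (k : ι → G) (ha : ∀ x i, a x i = 0 ∨ a x i = 1 ∨ a x i = -1)
    (hk : ∀ x y, x ≠ y → sp x = sp y → a x = a y → k x ≠ k y) (x y : {x // ¬ a x 0 = 0})
    (hxy : x ≠ y) :
    Fintype.card G * (univ.filter fun t' : Fin d → G =>
      Multi_v sp a k t' x = Multi_v sp a k t' y).card ≤ 2 * Fintype.card G ^ d := by
  by_cases h1 : sp x = sp y ∧ decide (a x 0 = 1) = decide (a y 0 = 1)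
  swap
  · have : (univ.filter fun t' : Fin d → G => Multi_v sp a k t' x = Multi_v sp a k t' y) = ∅ := by
      rw [Finset.filter_eq_empty_iff]
      intro t' _ h
      exact h1 ⟨congrArg Prod.fst h, congrArg (fun z => z.2.1) h⟩
    rw [this, Finset.card_empty, mul_zero]
    exact Nat.zero_le _
  obtain ⟨hsp, hdec⟩ := h1
  have h0 : a x 0 = a y 0 := by
    have h2 : (a x 0 = 1) ↔ (a y 0 = 1) := by simpa using hdec
    rcases ha x 0 with h | h | h
    · exact absurd h x.2
    · rw [h, h2.mp h]
    · rcases ha y 0 with h' | h' | h'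
      · exact absurd h' y.2
      · rw [h2.mpr h'] at h
        exact absurd h (by norm_num)
      · rw [h, h']
  by_cases hall : ∀ i, a x ((0 : Fin (d + 1)).succAbove i) = a y ((0 : Fin (d + 1)).succAbove i)
  · have hxy' : (x : ι) ≠ y := fun h => hxy (Subtype.ext h)
    have haxy : a x = a y := by
      funext i
      rcases Fin.eq_self_or_eq_succAbove 0 i with h | ⟨j, h⟩
      · rw [h, h0]
      · rw [h, hall j]
    have : (univ.filter fun t' : Fin d → G => Multi_v sp a k t' x = Multi_v sp a k t' y) = ∅ := by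
      rw [Finset.filter_eq_empty_iff]
      intro t' _ h
      have h3 : Multi_r a k x t' = Multi_r a k y t' := congrArg (fun z => z.2.2) h
      unfold Multi_r at h3
      rw [haxy] at h3
      exact hk x y hxy' hsp haxy (add_left_cancel h3)
    rw [this, Finset.card_empty, mul_zero]
    exact Nat.zero_le _
  · push Not at hall
    obtain ⟨i, hi⟩ := hall
    have h4 := lin_count hT (fun i => a x ((0 : Fin (d + 1)).succAbove i) -
      a y ((0 : Fin (d + 1)).succAbove i)) ⟨i, by
        rcases ha x ((0 : Fin (d + 1)).succAbove i) with h | h | h <;>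
        rcases ha y ((0 : Fin (d + 1)).succAbove i) with h' | h' | h' <;>
        rw [h, h'] at hi ⊢ <;> first | exact absurd rfl hi | norm_num⟩ (k y - k x)
    have h5 : (univ.filter fun t' : Fin d → G => Multi_v sp a k t' x = Multi_v sp a k t' y).card ≤
        2 * Fintype.card G ^ (d - 1) := by
      refine (Finset.card_le_card ?_).trans h4
      intro t' ht'
      have h := (Finset.mem_filter.mp ht').2
      have h3 : Multi_r a k x t' = Multi_r a k y t' := congrArg (fun z => z.2.2) h
      refine Finset.mem_filter.mpr ⟨Finset.mem_univ _, ?_⟩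
      unfold Multi_r at h3
      simp only [sub_smul, Finset.sum_sub_distrib]
      rw [sub_eq_sub_iff_add_eq_add, h3]
      abel
    have hd : d = (d - 1) + 1 := by have := i.pos; omega
    calc Fintype.card G * (univ.filter fun t' : Fin d → G =>
        Multi_v sp a k t' x = Multi_v sp a k t' y).card
        ≤ Fintype.card G * (2 * Fintype.card G ^ (d - 1)) := Nat.mul_le_mul_left _ h5
      _ = 2 * Fintype.card G ^ ((d - 1) + 1) := by ring
      _ = 2 * Fintype.card G ^ d := by rw [← hd]

private theorem Multi_bad (hT : Tor2 G) (sp : ι → Bool)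
    (a : ι → Fin (d + 1) → ℤ) (k : ι → G) (ha : ∀ x i, a x i = 0 ∨ a x i = 1 ∨ a x i = -1)
    (hk : ∀ x y, x ≠ y → sp x = sp y → a x = a y → k x ≠ k y) :
    Fintype.card G * (univ.filter fun t' : Fin d → G =>
      ¬ Function.Injective (Multi_v sp a k t')).card ≤
        Fintype.card ι ^ 2 * (2 * Fintype.card G ^ d) := by
  have hsub : (univ.filter fun t' : Fin d → G => ¬ Function.Injective (Multi_v sp a k t')) ⊆
      ((univ : Finset ({x // ¬ a x 0 = 0} × {x // ¬ a x 0 = 0})).filter
        fun z => z.1 ≠ z.2).biUnion fun z =>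
        univ.filter fun t' : Fin d → G => Multi_v sp a k t' z.1 = Multi_v sp a k t' z.2 := by
    intro t' ht'
    have h := (Finset.mem_filter.mp ht').2
    rw [Function.Injective] at h
    push Not at h
    obtain ⟨x, y, h1, h2⟩ := h
    rw [Finset.mem_biUnion]
    exact ⟨(x, y), Finset.mem_filter.mpr ⟨Finset.mem_univ _, h2⟩,
      Finset.mem_filter.mpr ⟨Finset.mem_univ _, h1⟩⟩
  have h1 := (Finset.card_le_card hsub).trans Finset.card_biUnion_le
  refine (Nat.mul_le_mul_left _ h1).trans ?_
  rw [Finset.mul_sum]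
  refine (Finset.sum_le_card_nsmul _ _ (2 * Fintype.card G ^ d) ?_).trans ?_
  · intro z hz
    exact Multi_pair hT sp a k ha hk z.1 z.2 (Finset.mem_filter.mp hz).2
  · rw [smul_eq_mul]
    refine Nat.mul_le_mul_right _ ((Finset.card_filter_le _ _).trans ?_)
    rw [Finset.card_univ, Fintype.card_prod, pow_two]
    exact Nat.mul_le_mul (Fintype.card_subtype_le _) (Fintype.card_subtype_le _)

end Multi_step

private theorem Multi_aux {G : Type} [AddCommGroup G] [Fintype G] (hT : Tor2 G) {M m : ℕ}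
    (χ : Bool → G → Fin M) {η : ℝ} (hη : 0 ≤ η) (hR : Rnd χ m η) (d : ℕ) :
    ∀ (ι : Type) [Fintype ι], Fintype.card ι ≤ m → ∀ (sp : ι → Bool) (a : ι → Fin d → ℤ)
      (k : ι → G), (∀ x i, a x i = 0 ∨ a x i = 1 ∨ a x i = -1) → (∀ x, ∃ i, a x i ≠ 0) →
    (∀ x y, x ≠ y → sp x = sp y → a x = a y → k x ≠ k y) → ∀ K : ι → Finset (Fin M),
    |((univ.filter fun t : Fin d → G => ∀ x, χ (sp x) (∑ i, a x i • t i + k x) ∈ K x).card : ℝ) -
      (Fintype.card G : ℝ) ^ d * ∏ x, (((K x).card : ℝ) / M)| ≤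
      d * η * (Fintype.card G : ℝ) ^ d +
        2 * (m : ℝ) ^ 2 * (d * (Fintype.card G : ℝ) ^ (d - 1)) := by
  induction d with
  | zero =>
    intro ι _ _ sp a k _ hne _ K
    have : IsEmpty ι := ⟨fun x => by obtain ⟨i, _⟩ := hne x; exact i.elim0⟩
    simp
  | succ d ih =>
    intro ι _ hm sp a k ha hne hk K
    obtain ⟨q, hq⟩ : ∃ q : ℝ, q = (Fintype.card G : ℝ) := ⟨_, rfl⟩
    have hq0 : 0 ≤ q := by rw [hq]; positivity
    obtain ⟨κ, hκ⟩ : ∃ κ : ι → ℝ, κ = fun x => ((K x).card : ℝ) / M := ⟨_, rfl⟩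
    have hκ0 : ∀ x, 0 ≤ κ x := by intro x; rw [hκ]; positivity
    have hκ1 : ∀ x, κ x ≤ 1 := by
      intro x
      rw [hκ]
      refine div_le_one_of_le₀ ?_ (Nat.cast_nonneg _)
      have := Finset.card_le_univ (K x)
      rw [Fintype.card_fin] at this
      exact_mod_cast this
    obtain ⟨κa, hκa⟩ : ∃ κa : ℝ, κa = ∏ x : {x // a x 0 = 0}, κ x := ⟨_, rfl⟩
    obtain ⟨κb, hκb⟩ : ∃ κb : ℝ, κb = ∏ x : {x // ¬ a x 0 = 0}, κ x := ⟨_, rfl⟩
    have hprod : ∏ x, (((K x).card : ℝ) / M) = κa * κb := by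
      rw [hκa, hκb, Fintype.prod_subtype_mul_prod_subtype (fun x => a x 0 = 0) κ, hκ]
    have hκb0 : 0 ≤ κb := by
      rw [hκb]; exact Finset.prod_nonneg fun x _ => hκ0 x
    have hκb1 : κb ≤ 1 := by
      rw [hκb]; exact Finset.prod_le_one (fun x _ => hκ0 x) fun x _ => hκ1 x
    -- the predicates
    obtain ⟨P, hP⟩ : ∃ P : (Fin d → G) → Prop, P = fun t' =>
      ∀ x : {x // a x 0 = 0}, χ (sp x) (Multi_r a k x t') ∈ K x := ⟨_, rfl⟩
    obtain ⟨N, hN⟩ : ∃ N : (Fin d → G) → ℝ, N = fun t' =>
      ((univ.filter fun t0 : G => ∀ x : {x // ¬ a x 0 = 0},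
        χ (sp x) (pt (decide (a x 0 = 1)) (Multi_r a k x t') t0) ∈ K x).card : ℝ) := ⟨_, rfl⟩
    have hcount : ((univ.filter fun t : Fin (d + 1) → G =>
        ∀ x, χ (sp x) (∑ i, a x i • t i + k x) ∈ K x).card : ℝ) =
        ∑ t' ∈ univ.filter P, N t' := by
      rw [Multi_slice 0, Nat.cast_sum, Finset.sum_filter]
      refine Finset.sum_congr rfl fun t' _ => ?_
      have h1 : ∀ t0 : G, (∀ x, χ (sp x)
          (∑ i, a x i • ((0 : Fin (d + 1)).insertNth t0 t' : Fin (d + 1) → G) i + k x) ∈ K x) ↔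
          P t' ∧ ∀ x : {x // ¬ a x 0 = 0},
            χ (sp x) (pt (decide (a x 0 = 1)) (Multi_r a k x t') t0) ∈ K x := by
        intro t0
        rw [hP]
        exact Multi_cond χ sp a k ha K t0 t'
      by_cases hPt : P t'
      · rw [if_pos hPt, hN]
        dsimp only
        congr 2
        ext t0
        rw [Finset.mem_filter, Finset.mem_filter, h1]
        exact ⟨fun h => ⟨h.1, h.2.2⟩, fun h => ⟨h.1, hPt, h.2⟩⟩
      · rw [if_neg hPt, Nat.cast_eq_zero, Finset.card_eq_zero, Finset.filter_eq_empty_iff]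
        intro t0 _ h
        exact hPt ((h1 t0).mp h).1
    have hN0 : ∀ t', 0 ≤ N t' := by intro t'; rw [hN]; positivity
    have hNq : ∀ t', N t' ≤ q := by
      intro t'
      rw [hN, hq]
      dsimp only
      exact_mod_cast Finset.card_le_univ _
    have hNe : ∀ (t' : Fin d → G) (s : Finset G), (∀ t0, t0 ∈ s ↔ ∀ x : {x // ¬ a x 0 = 0},
        χ (sp x) (pt (decide (a x 0 = 1)) (Multi_r a k x t') t0) ∈ K x) → N t' = (s.card : ℝ) := by
      intro t' s hs
      rw [hN]
      dsimp only
      rw [Nat.cast_inj]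
      refine congrArg Finset.card (Finset.ext fun t0 => ?_)
      rw [Finset.mem_filter, hs]
      exact ⟨fun h => h.2, fun h => ⟨Finset.mem_univ _, h⟩⟩
    have hPe : ∀ (s : Finset (Fin d → G)), (∀ t', t' ∈ s ↔ ∀ x : {x // a x 0 = 0},
        χ (sp x) (Multi_r a k x t') ∈ K x) → ((univ.filter P).card : ℝ) = (s.card : ℝ) := by
      intro s hs
      rw [Nat.cast_inj]
      refine congrArg Finset.card (Finset.ext fun t' => ?_)
      rw [Finset.mem_filter, hs, hP]
      exact ⟨fun h => h.2, fun h => ⟨Finset.mem_univ _, h⟩⟩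
    -- good parameters
    have hgood : ∀ t', Function.Injective (Multi_v sp a k t') → |N t' - q * κb| ≤ η * q := by
      intro t' ht'
      have h := hR {x // ¬ a x 0 = 0} ((Fintype.card_subtype_le _).trans hm)
        (Multi_v sp a k t') ht' (fun x => K x)
      have e3 : q * κb = (Fintype.card G : ℝ) * ∏ x : {x // ¬ a x 0 = 0},
          (((K x).card : ℝ) / M) := by
        rw [hκb, hq, hκ]
      rw [e3]
      rw [← hq] at h ⊢
      refine le_trans (le_of_eq (congrArg (fun z : ℝ => |z - _|) ?_)) h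
      refine hNe t' _ fun t0 => ?_
      rw [Finset.mem_filter]
      exact ⟨fun h => h.2, fun h => ⟨Finset.mem_univ _, h⟩⟩
    have hbad : ∀ t', |N t' - q * κb| ≤ q := by
      intro t'
      have h1 : q * κb ≤ q := by nlinarith
      have h2 : 0 ≤ q * κb := mul_nonneg hq0 hκb0
      rw [abs_le]
      constructor
      · linarith [hN0 t']
      · linarith [hNq t']
    have hstep : ∀ t', |N t' - q * κb| ≤ η * q +
        if ¬ Function.Injective (Multi_v sp a k t') then q else 0 := by
      intro t'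
      by_cases h : ¬ Function.Injective (Multi_v sp a k t')
      · rw [if_pos h]
        linarith [hbad t', mul_nonneg hη hq0]
      · rw [if_neg h, add_zero]
        exact hgood t' (not_not.mp h)
    have hfirst : |∑ t' ∈ univ.filter P, N t' - q * κb * (univ.filter P).card| ≤
        η * q ^ (d + 1) + 2 * (m : ℝ) ^ 2 * q ^ d := by
      have e1 : ∑ t' ∈ univ.filter P, N t' - q * κb * (univ.filter P).card =
          ∑ t' ∈ univ.filter P, (N t' - q * κb) := by
        rw [Finset.sum_sub_distrib, Finset.sum_const, nsmul_eq_mul]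
        ring
      rw [e1]
      refine (Finset.abs_sum_le_sum_abs _ _).trans ?_
      refine (Finset.sum_le_sum_of_subset_of_nonneg (Finset.filter_subset _ _)
        fun t' _ _ => abs_nonneg _).trans ?_
      refine (Finset.sum_le_sum fun t' _ => hstep t').trans ?_
      rw [Finset.sum_add_distrib, Finset.sum_const, Finset.card_univ, Fintype.card_pi_const,
        nsmul_eq_mul, ← Finset.sum_filter, Finset.sum_const, nsmul_eq_mul]
      have hb := Multi_bad hT sp a k ha hk
      have hb' : q * ((univ.filter fun t' : Fin d → G =>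
          ¬ Function.Injective (Multi_v sp a k t')).card : ℝ) ≤
            (Fintype.card ι : ℝ) ^ 2 * (2 * q ^ d) := by
        rw [hq]
        exact_mod_cast hb
      have hm' : (Fintype.card ι : ℝ) ^ 2 ≤ (m : ℝ) ^ 2 := by
        have : (Fintype.card ι : ℝ) ≤ m := by exact_mod_cast hm
        gcongr
      have hqd : 0 ≤ 2 * q ^ d := by positivity
      have h3 := mul_le_mul_of_nonneg_right hm' hqd
      rw [Nat.cast_pow, ← hq]
      have e2 : q ^ d * (η * q) = η * q ^ (d + 1) := by ring
      rw [e2]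
      have e3 : (m : ℝ) ^ 2 * (2 * q ^ d) = 2 * (m : ℝ) ^ 2 * q ^ d := by ring
      linarith
    -- the induction hypothesis
    have hih := ih {x // a x 0 = 0} ((Fintype.card_subtype_le _).trans hm) (fun x => sp x)
      (fun x i => a x ((0 : Fin (d + 1)).succAbove i)) (fun x => k x) (fun x i => ha x _)
      (fun x => by
        obtain ⟨i, hi⟩ := hne x
        rcases Fin.eq_self_or_eq_succAbove 0 i with h | ⟨j, h⟩
        · rw [h] at hi
          exact absurd x.2 hi
        · exact ⟨j, by rw [← h]; exact hi⟩)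
      (fun x y hxy hs hxya => hk x y (fun h => hxy (Subtype.ext h)) hs (by
        funext i
        rcases Fin.eq_self_or_eq_succAbove 0 i with h | ⟨j, h⟩
        · rw [h, x.2, y.2]
        · rw [h]
          exact congrFun hxya j)) (fun x => K x)
    have hsecond : |q * κb * (univ.filter P).card - q ^ (d + 1) * (κa * κb)| ≤
        d * η * q ^ (d + 1) + 2 * (m : ℝ) ^ 2 * (d * q ^ d) := by
      have e1 : q * κb * (univ.filter P).card - q ^ (d + 1) * (κa * κb) =
          (q * κb) * ((univ.filter P).card - q ^ d * κa) := by ring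
      rw [e1, abs_mul, abs_of_nonneg (mul_nonneg hq0 hκb0)]
      have h1 : |((univ.filter P).card : ℝ) - q ^ d * κa| ≤
          d * η * q ^ d + 2 * (m : ℝ) ^ 2 * (d * q ^ (d - 1)) := by
        have e3 : q ^ d * κa = (Fintype.card G : ℝ) ^ d * ∏ x : {x // a x 0 = 0},
            (((K x).card : ℝ) / M) := by
          rw [hκa, hq, hκ]
        rw [e3]
        rw [← hq] at hih ⊢
        refine le_trans (le_of_eq (congrArg (fun z : ℝ => |z - _|) ?_)) hih
        refine hPe _ fun t' => ?_
        rw [Finset.mem_filter]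
        exact ⟨fun h => h.2, fun h => ⟨Finset.mem_univ _, h⟩⟩
      have h2 : q * κb ≤ q := by nlinarith
      have h3 : (0 : ℝ) ≤ d * η * q ^ d + 2 * (m : ℝ) ^ 2 * (d * q ^ (d - 1)) := by positivity
      refine (mul_le_mul h2 h1 (abs_nonneg _) hq0).trans ?_
      rcases Nat.eq_zero_or_pos d with hd | hd
      · rw [hd]
        simp
      · obtain ⟨e, rfl⟩ : ∃ e, d = e + 1 := ⟨d - 1, by omega⟩
        rw [Nat.add_sub_cancel]
        apply le_of_eq
        ring
    rw [hcount, hprod, ← hq]
    have h4 := abs_sub_le (∑ t' ∈ univ.filter P, N t') (q * κb * (univ.filter P).card)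
      (q ^ (d + 1) * (κa * κb))
    rw [Nat.add_sub_cancel]
    push_cast
    nlinarith [h4, hfirst, hsecond]

theorem multi (d m : ℕ) : ∃ C : ℝ, 0 ≤ C ∧ ∀ (G : Type) [AddCommGroup G] [Fintype G], Tor2 G →
    ∀ (M : ℕ) (χ : Bool → G → Fin M) (η : ℝ), 0 ≤ η → Rnd χ m η →
    ∀ (ι : Type) [Fintype ι], Fintype.card ι ≤ m → ∀ (sp : ι → Bool) (a : ι → Fin d → ℤ)
      (k : ι → G), (∀ x i, a x i = 0 ∨ a x i = 1 ∨ a x i = -1) → (∀ x, ∃ i, a x i ≠ 0) →
    (∀ x y, x ≠ y → sp x = sp y → a x = a y → k x ≠ k y) → ∀ K : ι → Finset (Fin M),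
    |((univ.filter fun t : Fin d → G => ∀ x, χ (sp x) (∑ i, a x i • t i + k x) ∈ K x).card : ℝ) -
      (Fintype.card G : ℝ) ^ d * ∏ x, (((K x).card : ℝ) / M)| ≤
      d * η * (Fintype.card G : ℝ) ^ d + C * (Fintype.card G : ℝ) ^ (d - 1) := by
  refine ⟨2 * (m : ℝ) ^ 2 * d, by positivity, ?_⟩
  intro G _ _ hT M χ η hη hR ι _ hm sp a k ha hne hk K
  refine (Multi_aux hT χ hη hR d ι hm sp a k ha hne hk K).trans (le_of_eq ?_)
  ring

end Pool.Agent.H60.HM
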