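import Pool.Agent.H60.HM.CodeB
import Pool.Agent.H60.HL.TrC

/-!
# HM-10 NibB2: near perfect packings of copies of a small tree, with sets and offsets

Adapt the finished file `Pool/Agent/H60/HL/TrC.lean`.
Proof.  We may assume `ν ≤ 1`, `κ ≤ 1`; it is enough to find `η`, `q0` for each `k ≤ K` (finitely many; the hypothesis
`QS` is monotone in `η`).  `k = 1`: all the `x` with `x 0 ∈ A 0`, at least `(α - η) q`.
`k ≥ 2`: `nibble` with `r = 2 k - 1`, `κ' = κ^(2 k)`, `ν / 2`.
`I = Fin k ⊕ {j : Fin k // 0 < (j : ℕ)}`, `E = Cpy2 P o A B`, `V = G`, `π x (inl j) = x j`,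
`π x (inr j) = x j + x (P j) + o j`, `i0 = inl 0`, `D = (α² q)^(k-1)`, `Λ = q^(k-2) ≥ 1`.
`Reg`: by `code_count2` (a vertex of a class is in `A j` resp. `B j`), codegrees by `code_codeg2`.
`vx E π i0 = A 0` (every `z ∈ A 0` has degree `≥ (1 - ε) D > 0`), so it has between `(α - η) q` and `q` elements;
`κ' q q^(k-2) ≤ α^(2(k-1)) q^(k-1)`.  The matching has at least `(1 - ν/2) (α - η) q ≥ (α - ν) q` elements.
-/

namespace Pool.Agent.H60.HM

open Finset Classical Pool.Agent.H60.HL

private theorem NibB2_mono {G : Type} [AddCommGroup G] [Fintype G] {k : ℕ}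
    {A B : Fin k → Finset G} {α η η' : ℝ} (h : QS A B α η) (hle : η ≤ η') : QS A B α η' := by
  have hq : (0 : ℝ) ≤ Fintype.card G := Nat.cast_nonneg _
  have hm : η * Fintype.card G ≤ η' * Fintype.card G := mul_le_mul_of_nonneg_right hle hq
  exact ⟨fun j => (h.1 j).trans hm, fun j j' z hj => (h.2.1 j j' z hj).trans hm,
    fun j j' z => (h.2.2 j j' z).trans hm⟩

private theorem NibB2_one {G : Type} [AddCommGroup G] [Fintype G] {k : ℕ}
    {A B : Fin k → Finset G} {α η : ℝ} (h : QS A B α η) (j : Fin k) :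
    (α - η) * Fintype.card G ≤ ((A j).card : ℝ) := by
  have h2 := (abs_le.mp (h.1 j)).1
  linarith

/-- The hyperedges: values and sums of a copy. -/
private def NibB2_pi {G : Type} [AddCommGroup G] {k : ℕ} (P : Fin k → Fin k) (o : Fin k → G)
    (x : Fin k → G) : (Fin k ⊕ {j : Fin k // 0 < (j : ℕ)}) → G :=
  Sum.elim (fun j => x j) (fun j => x j.1 + x (P j.1) + o j.1)

private theorem NibB2_k (k : ℕ) (hk : 1 ≤ k) (κ₀ ν : ℝ) (hκ₀ : 0 < κ₀) (hν : 0 < ν)
    (hν1 : ν ≤ 1) :
    ∃ η : ℝ, 0 < η ∧ ∃ q0 : ℕ, ∀ (G : Type) [AddCommGroup G] [Fintype G],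
      q0 ≤ Fintype.card G →
      ∀ (P : Fin k → Fin k), (∀ j : Fin k, 0 < (j : ℕ) → P j < j) → ∀ (o : Fin k → G)
      (A B : Fin k → Finset G) (α : ℝ), κ₀ ≤ α → α ≤ 1 → QS A B α η →
      ∃ S ⊆ Cpy2 P o A B, (∀ j, Set.InjOn (fun x : Fin k → G => x j) (S : Set (Fin k → G))) ∧
        (∀ j : Fin k, 0 < (j : ℕ) →
          Set.InjOn (fun x : Fin k → G => x j + x (P j) + o j) (S : Set (Fin k → G))) ∧
        (α - ν) * Fintype.card G ≤ S.card := by
  rcases Nat.lt_or_ge k 2 with hk2 | hk2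
  · -- one vertex
    obtain rfl : k = 1 := by omega
    refine ⟨ν, hν, 0, ?_⟩
    intro G _ _ _ P hP o A B α hα hα1 hR
    refine ⟨Cpy2 P o A B, Finset.Subset.refl _, ?_, ?_, ?_⟩
    · intro j x _ y _ hxy
      funext i
      have : i = j := Subsingleton.elim _ _
      rw [this]
      exact hxy
    · intro j hj
      have := j.2
      omega
    · have h1 := NibB2_one hR 0
      refine h1.trans ?_
      norm_cast
      refine Finset.card_le_card_of_injOn (fun t => fun _ => t) ?_ ?_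
      · intro t ht
        have ht' : t ∈ A 0 := by simpa using ht
        simp only [Cpy2, Finset.coe_filter, Finset.mem_univ, true_and, Set.mem_ofPred_eq]
        refine ⟨fun j => ?_, fun j hj => ?_⟩
        · have : j = 0 := Subsingleton.elim _ _
          rw [this]
          exact ht'
        · have := j.2
          omega
      · intro s _ t _ hst
        exact _root_.congrFun hst 0
  · -- at least two vertices: the nibble
    set κ : ℝ := κ₀ ^ (2 * (k - 1)) with hκdef
    have hκ : 0 < κ := by positivity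
    obtain ⟨ηn, hηn, n0, hnib⟩ := nibble
      (Fintype.card (Fin k ⊕ {j : Fin k // 0 < (j : ℕ)})) κ (ν / 2) hκ (by linarith)
    obtain ⟨ηc, hηc, hcount⟩ := code_count2 k κ₀ (min ηn (1 / 2)) hκ₀ (by positivity)
    refine ⟨min ηc (min (ν / 2) (κ₀ / 2)), by positivity, ⌈2 * (n0 : ℝ) / κ₀⌉₊ + 1, ?_⟩
    intro G _ _ hq P hP o A B α hα hα1 hR
    have hRc : QS A B α ηc := NibB2_mono hR (min_le_left _ _)
    have hRν : QS A B α (ν / 2) := NibB2_mono hR ((min_le_right _ _).trans (min_le_left _ _))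
    have hRM : QS A B α (κ₀ / 2) := NibB2_mono hR ((min_le_right _ _).trans (min_le_right _ _))
    have hqpos : 0 < Fintype.card G := by omega
    have hq0 : (0 : ℝ) < Fintype.card G := by exact_mod_cast hqpos
    have hq1 : (1 : ℝ) ≤ Fintype.card G := by exact_mod_cast hqpos
    have hα0 : 0 < α := lt_of_lt_of_le hκ₀ hα
    set q : ℝ := (Fintype.card G : ℝ) with hqdef
    set D : ℝ := (α ^ 2 * q) ^ (k - 1) with hD
    have hD0 : 0 < D := by positivity
    obtain ⟨hc1, hc2⟩ := hcount G k (by omega) le_rfl P hP o A B α hα hα1 hRc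
    obtain ⟨g1, g2, g3⟩ := code_codeg2 (G := G) k hk2 P hP o
    set E : Finset (Fin k → G) := Cpy2 P o A B with hE
    have hmemE : ∀ x ∈ E, (∀ j, x j ∈ A j) ∧
        ∀ j : Fin k, 0 < (j : ℕ) → x j + x (P j) + o j ∈ B j := by
      intro x hx
      rw [hE, Cpy2, Finset.mem_filter] at hx
      exact hx.2
    set i0 : Fin k ⊕ {j : Fin k // 0 < (j : ℕ)} := Sum.inl ⟨0, by omega⟩ with hi0
    have hεn : min ηn (1 / 2) * D ≤ ηn * D :=
      mul_le_mul_of_nonneg_right (min_le_left _ _) hD0.le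
    have hdeg1 : ∀ (j : Fin k) (v : G), v ∈ A j →
        |(dg E (NibB2_pi P o) (Sum.inl j) v : ℝ) - D| ≤ min ηn (1 / 2) * D := by
      intro j v hv
      exact hc1 j v hv
    have hdeg2 : ∀ (j : {j : Fin k // 0 < (j : ℕ)}) (v : G), v ∈ B j.1 →
        |(dg E (NibB2_pi P o) (Sum.inr j) v : ℝ) - D| ≤ min ηn (1 / 2) * D := by
      intro j v hv
      exact hc2 j.1 j.2 v hv
    have hReg : Reg E (NibB2_pi P o) D ηn (q ^ (k - 2)) := by
      refine ⟨?_, ?_⟩
      · intro i v hv
        rw [vx, Finset.mem_image] at hv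
        obtain ⟨x, hx, hxv⟩ := hv
        rcases i with j | j
        · refine (hdeg1 j v ?_).trans hεn
          rw [← hxv]
          exact (hmemE x hx).1 j
        · refine (hdeg2 j v ?_).trans hεn
          rw [← hxv]
          exact (hmemE x hx).2 j.1 j.2
      · intro i j hij v w
        have key : ∀ (p : (Fin k → G) → Prop) [DecidablePred p],
            (univ.filter p).card ≤ Fintype.card G ^ (k - 2) →
            ((E.filter p).card : ℝ) ≤ q ^ (k - 2) := by
          intro p _ hp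
          have h1 : (E.filter p).card ≤ (univ.filter p).card :=
            Finset.card_le_card (Finset.filter_subset_filter _ (Finset.subset_univ _))
          have h2 : ((E.filter p).card : ℝ) ≤ ((Fintype.card G ^ (k - 2) : ℕ) : ℝ) := by
            exact_mod_cast h1.trans hp
          refine h2.trans (le_of_eq ?_)
          push_cast
          rfl
        rcases i with i | i
        · rcases j with j | j
          · exact key _ (g1 i j (fun h => hij (by rw [h])) v w)
          · exact key _ (g2 i j.1 j.2 v w)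
        · rcases j with j | j
          · refine key (fun x => NibB2_pi P o x (Sum.inr i) = v ∧
              NibB2_pi P o x (Sum.inl j) = w) ?_
            have h3 := g2 j i.1 i.2 w v
            refine le_trans (le_of_eq ?_) h3
            refine _root_.congrArg _ (Finset.filter_congr fun x _ => ?_)
            exact And.comm
          · exact key _ (g3 i.1 j.1 (fun h => hij (by rw [Subtype.ext h])) i.2 j.2 v w)
    have hvx : A ⟨0, by omega⟩ ⊆ vx E (NibB2_pi P o) i0 := by
      intro t ht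
      have h1 := hdeg1 ⟨0, by omega⟩ t ht
      have h2 := (abs_le.mp h1).1
      have h3 : min ηn (1 / 2) * D ≤ 1 / 2 * D :=
        mul_le_mul_of_nonneg_right (min_le_right _ _) hD0.le
      have h4 : 0 < (dg E (NibB2_pi P o) i0 t : ℝ) := by
        rw [hi0]
        linarith
      have h5 : 0 < dg E (NibB2_pi P o) i0 t := by exact_mod_cast h4
      rw [dg, Finset.card_pos] at h5
      obtain ⟨x, hx⟩ := h5
      rw [Finset.mem_filter] at hx
      rw [vx, Finset.mem_image]
      exact ⟨x, hx.1, hx.2⟩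
    have hvxc : ((A ⟨0, by omega⟩).card : ℝ) ≤
        (vx E (NibB2_pi P o) i0).card := by exact_mod_cast Finset.card_le_card hvx
    have hn1 : (α - ν / 2) * q ≤ (vx E (NibB2_pi P o) i0).card :=
      (NibB2_one hRν ⟨0, by omega⟩).trans hvxc
    have hn2 : (α - κ₀ / 2) * q ≤ (vx E (NibB2_pi P o) i0).card :=
      (NibB2_one hRM ⟨0, by omega⟩).trans hvxc
    have hn0 : n0 ≤ (vx E (NibB2_pi P o) i0).card := by
      have h1 : κ₀ / 2 ≤ α - κ₀ / 2 := by linarith
      have h2 : κ₀ / 2 * q ≤ (vx E (NibB2_pi P o) i0).card :=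
        (mul_le_mul_of_nonneg_right h1 hq0.le).trans hn2
      have h3 : (n0 : ℝ) ≤ κ₀ / 2 * q := by
        have h4 : ((⌈2 * (n0 : ℝ) / κ₀⌉₊ + 1 : ℕ) : ℝ) ≤ q := by
          rw [hqdef]; exact_mod_cast hq
        push_cast at h4
        have h5 := Nat.le_ceil (2 * (n0 : ℝ) / κ₀)
        have h6 : 2 * (n0 : ℝ) / κ₀ ≤ q := by linarith
        rw [div_le_iff₀ hκ₀] at h6
        linarith
      exact_mod_cast h3.trans h2
    have hcard : κ * (vx E (NibB2_pi P o) i0).card * q ^ (k - 2) ≤ D := by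
      have h1 : ((vx E (NibB2_pi P o) i0).card : ℝ) ≤ q := by
        rw [hqdef]
        exact_mod_cast Finset.card_le_univ _
      have h2 : κ ≤ α ^ (2 * (k - 1)) := by
        rw [hκdef]
        exact pow_le_pow_left₀ hκ₀.le hα _
      calc κ * (vx E (NibB2_pi P o) i0).card * q ^ (k - 2)
          ≤ α ^ (2 * (k - 1)) * q * q ^ (k - 2) := by gcongr
        _ = α ^ (2 * (k - 1)) * q ^ (k - 1) := by
            have : k - 1 = (k - 2) + 1 := by omega
            rw [this, pow_succ q]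
            ring
        _ = D := by
            rw [hD, mul_pow, ← pow_mul]
    obtain ⟨S, hSE, hSM, hSc⟩ := hnib (Fin k → G) (Fin k ⊕ {j : Fin k // 0 < (j : ℕ)}) G rfl i0 E
      (NibB2_pi P o) D (q ^ (k - 2)) (one_le_pow₀ hq1) hReg hn0 hcard
    refine ⟨S, hSE, fun j => hSM (Sum.inl j), fun j hj => hSM (Sum.inr ⟨j, hj⟩), ?_⟩
    refine le_trans ?_ hSc
    have h1 : (1 - ν / 2) * ((α - ν / 2) * q) ≤
        (1 - ν / 2) * (vx E (NibB2_pi P o) i0).card :=
      mul_le_mul_of_nonneg_left hn1 (by linarith)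
    refine le_trans ?_ h1
    have h2 : α - ν ≤ (1 - ν / 2) * (α - ν / 2) := by nlinarith
    nlinarith [mul_le_mul_of_nonneg_right h2 hq0.le]

theorem code_nibble2 (K : ℕ) (κ ν : ℝ) (hκ : 0 < κ) (hν : 0 < ν) :
    ∃ η : ℝ, 0 < η ∧ ∃ q0 : ℕ, ∀ (G : Type) [AddCommGroup G] [Fintype G],
      q0 ≤ Fintype.card G → ∀ (k : ℕ), 1 ≤ k → k ≤ K →
      ∀ (P : Fin k → Fin k), (∀ j : Fin k, 0 < (j : ℕ) → P j < j) → ∀ (o : Fin k → G)
      (A B : Fin k → Finset G) (α : ℝ), κ ≤ α → α ≤ 1 → QS A B α η →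
      ∃ S ⊆ Cpy2 P o A B, (∀ j, Set.InjOn (fun x : Fin k → G => x j) (S : Set (Fin k → G))) ∧
        (∀ j : Fin k, 0 < (j : ℕ) →
          Set.InjOn (fun x : Fin k → G => x j + x (P j) + o j) (S : Set (Fin k → G))) ∧
        (α - ν) * Fintype.card G ≤ S.card := by
  obtain ⟨ν', hν', hν'1, hν'ν⟩ : ∃ ν' : ℝ, 0 < ν' ∧ ν' ≤ 1 ∧ ν' ≤ ν :=
    ⟨min ν 1, by positivity, min_le_right _ _, min_le_left _ _⟩
  induction K with
  | zero => exact ⟨1, one_pos, 0, fun G _ _ _ k hk1 hk2 => by omega⟩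
  | succ K ih =>
    obtain ⟨η1, hη1, q1, h1⟩ := ih
    obtain ⟨η2, hη2, q2, h2⟩ := NibB2_k (K + 1) (by omega) κ ν' hκ hν' hν'1
    refine ⟨min η1 η2, lt_min hη1 hη2, max q1 q2, ?_⟩
    intro G _ _ hq k hk1 hk2 P hP o A B α hα hα1 hR
    rcases Nat.lt_or_ge k (K + 1) with hlt | hge
    · exact h1 G ((le_max_left _ _).trans hq) k hk1 (by omega)
        P hP o A B α hα hα1 (NibB2_mono hR (min_le_left _ _))
    · obtain rfl : k = K + 1 := by omega
      obtain ⟨S, hS, hS1, hS2, hS3⟩ := h2 G ((le_max_right _ _).trans hq)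
        P hP o A B α hα hα1 (NibB2_mono hR (min_le_right _ _))
      refine ⟨S, hS, hS1, hS2, le_trans ?_ hS3⟩
      exact mul_le_mul_of_nonneg_right (by linarith) (Nat.cast_nonneg _)

end Pool.Agent.H60.HM
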