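import Pool.Agent.H60.HM.CodesB
import Pool.Agent.H60.HM.NibB2
import Pool.Agent.H60.HM.AtomB

/-!
# HM-14 PartB: almost all of the forest is embedded with the prescribed colours

The forest has the vertices `0, ..., n - 1`, parents `p`, roots `rt`; a double vertex (`mk`) gets the label
`x` and the second label `x + e`.  `A0, A0'` are the colours of the starts and ends of the pairs of labels
(double vertices), `A1` the colours which are not used; `B0, B0'` are the colours of the starts and ends of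
the pairs of sums, which are not used, `B1` other colours of sums which are not used.
Compare the finished file `Pool/Agent/H60/HL/TrE.lean` (`partial_embed`).

Proof.  `q = card G`.  `K = ⌈4 / ζ⌉ + 1`, `N ≥ 1` from `codes2 K`.  `M1 = ⌈8 K N / ζ⌉ + 1`.  Let `M ≥ M1`.
`ν = ζ / (8 K N)`, `κ = 1 / M²`.  `η'`, `q0` from `code_nibble2 K κ ν`; `η = η' / M^4`, so that `atom_pat` has the
error `η' q`.  `ψL = atom (χ true) e A0'`, `ψS = atom (χ false) e B0'`.
`codes2`: `C`, `T`, `k`, `c`, `P`, `mt`, `ee`.  `a τ = ⌊c τ * M² / q⌋`, so `c τ ≤ (a τ + 1) q / M²`,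
`a τ ≤ c τ M² / q`.  Choose sets of atoms (`alloc2`, three times):
* for the pairs `(τ, j)` with `mt τ j`: disjoint subsets of `A0 ×ˢ A0'` with `a τ` elements each; possible since
`q ∑ a τ ≤ M² ∑ c τ ≤ M² #{i < n : mk i} ≤ A0.card * A0'.card * q` (`hd`);
* for the `(τ, j)` with `¬ mt τ j`: disjoint subsets with `a τ` elements of the set `SL` of the pairs which are
not in `A0 ×ˢ A0'`, `A0' ×ˢ A0`, `A1 ×ˢ univ`; `SL.card = M² - 2 A0.card A0'.card - A1.card M`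
(the three sets are disjoint), `hs`;
* for the `(τ, j)` with `j > 0`: disjoint subsets with `a τ` elements of the set `SS` of the pairs which are not in
`B0 ×ˢ B0'`, `B0' ×ˢ B0`, `B1 ×ˢ univ`; the vertices `ee τ s j` with `j > 0` are not roots; `he`.
(Natural number subtraction does not occur: the hypotheses are in `ℝ`.)
For every `τ` with `a τ ≥ 1`: `A j = {x : ψL x ∈ W τ j}`, `B j = {x : ψS x ∈ W' τ j}`, `α = a τ / M²`,
`o j = if mt τ (P τ j) then e else 0`; `QS` by `atom_pat`; `code_nibble2` gives `S τ` with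
`(S τ).card ≥ (a τ / M² - ν) q`; for the other `τ` let `S τ = ∅`.  `c' τ = min (c τ) (S τ).card`, choose different
elements `x τ s ∈ S τ`, `s < c' τ`.  `V1 = {ee τ s j : s < c' τ}`, `g1 (ee τ s j) = x τ s j`.
* `(range n \ V1).card ≤ C.card + ∑ τ, k τ (c τ - c' τ) ≤ n / K + K N (q / M² + ν q) ≤ ζ q`
(`n ≤ q`: add `hd` and `hs`).
* `g1` is injective on `V1`: different `(τ, j)` have disjoint sets of atoms (`A0 ×ˢ A0'` and `SL` are disjoint).
* an edge `i, p i` in `V1`, `i` not a root: `i = ee τ s j` with `j > 0` (if `j = 0` then `rt i` or `p i ∈ C`), so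
`p i = ee τ s (P τ j)`, `off e mk (p i) = o j`, and `es e mk p g1 i = x j + x (P j) + o j ∈ B j`.
* the three last conclusions: `atom_dcl`, `atom_end`, `atom_fst`.
-/

namespace Pool.Agent.H60.HM

open Finset Classical Pool.Agent.H60.HL


private lemma PartB_alloc {X J : Type} [Fintype J] (S : Finset X) (f : J → ℕ)
    (h : ∑ j, f j ≤ S.card) :
    ∃ A : J → Finset X, (∀ j, (A j).card = f j) ∧ (∀ j, A j ⊆ S) ∧
      ∀ j j' c, c ∈ A j → c ∈ A j' → j = j' := by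
  have h1 : Fintype.card (Σ j, Fin (f j)) ≤ Fintype.card S := by
    simpa [Fintype.card_sigma] using h
  obtain ⟨φ⟩ := Function.Embedding.nonempty_of_card_le h1
  refine ⟨fun j => (univ : Finset (Fin (f j))).image (fun i => (φ ⟨j, i⟩ : X)), ?_, ?_, ?_⟩
  · intro j
    rw [Finset.card_image_of_injective]
    · simp
    · intro x y hxy
      have := φ.injective (Subtype.ext hxy)
      simpa using this
  · intro j c hc
    simp only [mem_image, mem_univ, true_and] at hc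
    obtain ⟨i, hi⟩ := hc
    rw [← hi]
    exact (φ ⟨j, i⟩).2
  · intro j j' c hc hc'
    simp only [mem_image, mem_univ, true_and] at hc hc'
    obtain ⟨i, hi⟩ := hc
    obtain ⟨i', hi'⟩ := hc'
    have := φ.injective (Subtype.ext (hi.trans hi'.symm))
    exact congrArg Sigma.fst this

private lemma PartB_fin (c S : ℕ) :
    (univ.filter fun s : Fin c => S ≤ (s : ℕ)).card ≤ c - S := by
  have : (univ.filter fun s : Fin c => S ≤ (s : ℕ)).card ≤ (Finset.Ico S c).card := by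
    apply Finset.card_le_card_of_injOn (fun s : Fin c => (s : ℕ))
    · intro s hs
      simp only [coe_filter, mem_univ, true_and, Set.mem_ofPred_eq] at hs
      simp [hs, s.2]
    · intro s _ s' _ h
      exact Fin.ext h
  simpa using this

private lemma PartB_enum {X : Type} [Nonempty X] (S : Finset X) :
    ∃ x : ℕ → X, (∀ s < S.card, x s ∈ S) ∧
      ∀ s < S.card, ∀ s' < S.card, x s = x s' → s = s' := by
  refine ⟨fun s => if h : s < S.card then (S.equivFin.symm ⟨s, h⟩ : X) else Classical.arbitrary X,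
    ?_, ?_⟩
  · intro s hs
    simp [hs]
  · intro s hs s' hs' h
    simp only [hs, hs', dite_true] at h
    have := S.equivFin.symm.injective (Subtype.ext h)
    simpa using this

private lemma PartB_core {G X : Type} [AddCommGroup G] [Fintype G] (ψL ψS : G → X) (e : G)
    (n : ℕ) (p : ℕ → ℕ) (rt mk : ℕ → Prop)
    (C : Finset ℕ) (T : ℕ) (k c : Fin T → ℕ) (P : ∀ τ, Fin (k τ) → Fin (k τ))
    (mt : ∀ τ, Fin (k τ) → Prop) (ee : ∀ τ, Fin (c τ) → Fin (k τ) → ℕ)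
    (he1 : ∀ τ s j, ee τ s j < n ∧ ee τ s j ∉ C ∧ (mk (ee τ s j) ↔ mt τ j))
    (he2 : ∀ i < n, i ∉ C → ∃ τ s j, ee τ s j = i)
    (he3 : ∀ τ s j, ∀ τ' s' j', ee τ s j = ee τ' s' j' →
        τ = τ' ∧ (s : ℕ) = s' ∧ (j : ℕ) = j')
    (he4 : ∀ τ s, ∀ j : Fin (k τ), 0 < (j : ℕ) →
      ¬ rt (ee τ s j) ∧ p (ee τ s j) = ee τ s (P τ j))
    (he5 : ∀ τ s, ∀ j : Fin (k τ), (j : ℕ) = 0 → rt (ee τ s j) ∨ p (ee τ s j) ∈ C)
    (W W' : (Σ τ, Fin (k τ)) → Finset X)
    (hW : ∀ z z' c, c ∈ W z → c ∈ W z' → z = z')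
    (hW' : ∀ z z' c, c ∈ W' z → c ∈ W' z' → z = z')
    (S : ∀ τ, Finset (Fin (k τ) → G))
    (hS1 : ∀ τ, ∀ x ∈ S τ, (∀ j, ψL (x j) ∈ W ⟨τ, j⟩) ∧ ∀ j : Fin (k τ), 0 < (j : ℕ) →
      ψS (x j + x (P τ j) + (if mt τ (P τ j) then e else 0)) ∈ W' ⟨τ, j⟩)
    (hS2 : ∀ τ j, Set.InjOn (fun x : Fin (k τ) → G => x j) (S τ : Set (Fin (k τ) → G)))
    (hS3 : ∀ τ, ∀ j : Fin (k τ), 0 < (j : ℕ) →
      Set.InjOn (fun x : Fin (k τ) → G => x j + x (P τ j) + (if mt τ (P τ j) then e else 0))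
        (S τ : Set (Fin (k τ) → G))) :
    ∃ (V1 : Finset ℕ) (g1 : ℕ → G),
        V1 ⊆ range n ∧ (((range n) \ V1).card : ℕ) ≤ C.card + ∑ τ, (c τ - (S τ).card) * k τ ∧
        Set.InjOn g1 (V1 : Set ℕ) ∧ EdgeInj e mk rt p V1 g1 ∧
        (∀ i ∈ V1, ∃ z : (Σ τ, Fin (k τ)), (mk i ↔ mt z.1 z.2) ∧ ψL (g1 i) ∈ W z) ∧
        (∀ i ∈ V1, ¬ rt i → p i ∈ V1 →
          ∃ z : (Σ τ, Fin (k τ)), 0 < (z.2 : ℕ) ∧ ψS (es e mk p g1 i) ∈ W' z) := by
  choose x hx1 hx2 using fun τ => PartB_enum (S τ)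
  have hE : Function.Injective
      (fun z : (Σ τ : Fin T, Fin (c τ) × Fin (k τ)) => ee z.1 z.2.1 z.2.2) := by
    rintro ⟨τ, s, j⟩ ⟨τ', s', j'⟩ h
    obtain ⟨rfl, hs, hj⟩ := he3 _ _ _ _ _ _ h
    have hs' := Fin.ext hs
    have hj' := Fin.ext hj
    subst hs' hj'
    rfl
  obtain ⟨g1, hg1⟩ : ∃ g1 : ℕ → G, ∀ τ (s : Fin (c τ)) (j : Fin (k τ)),
      g1 (ee τ s j) = x τ s j := by
    refine ⟨Function.extend (fun z : (Σ τ : Fin T, Fin (c τ) × Fin (k τ)) => ee z.1 z.2.1 z.2.2)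
      (fun z => x z.1 z.2.1 z.2.2) 0, ?_⟩
    intro τ s j
    exact hE.extend_apply (fun z => x z.1 z.2.1 z.2.2) 0 ⟨τ, s, j⟩
  have hcol : ∀ τ (s : ℕ), s < (S τ).card → ∀ j : Fin (k τ), ψL (x τ s j) ∈ W ⟨τ, j⟩ := by
    intro τ s hs j
    exact (hS1 τ _ (hx1 τ s hs)).1 j
  have hcol2 : ∀ τ (s : ℕ), s < (S τ).card → ∀ j : Fin (k τ), 0 < (j : ℕ) →
      ψS (x τ s j + x τ s (P τ j) + (if mt τ (P τ j) then e else 0)) ∈ W' ⟨τ, j⟩ := by
    intro τ s hs j hj
    exact (hS1 τ _ (hx1 τ s hs)).2 j hj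
  have hes : ∀ τ (s : Fin (c τ)) (j : Fin (k τ)), 0 < (j : ℕ) →
      es e mk p g1 (ee τ s j) =
        x τ s j + x τ s (P τ j) + (if mt τ (P τ j) then e else 0) := by
    intro τ s j hj
    unfold es off
    rw [(he4 τ s j hj).2, hg1, hg1]
    by_cases h : mt τ (P τ j)
    · rw [if_pos h, if_pos ((he1 τ s (P τ j)).2.2.2 h)]
    · rw [if_neg h, if_neg fun h' => h ((he1 τ s (P τ j)).2.2.1 h')]
  have hV : ∀ i, i ∈ (range n).filter (fun i => ∃ τ, ∃ (s : Fin (c τ)) (j : Fin (k τ)),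
      (s : ℕ) < (S τ).card ∧ ee τ s j = i) ↔ ∃ τ, ∃ (s : Fin (c τ)) (j : Fin (k τ)),
      (s : ℕ) < (S τ).card ∧ ee τ s j = i := by
    intro i
    simp only [mem_filter, mem_range, and_iff_right_iff_imp]
    rintro ⟨τ, s, j, _, rfl⟩
    exact (he1 τ s j).1
  have hedge : ∀ τ (s : Fin (c τ)) (j : Fin (k τ)), ¬ rt (ee τ s j) →
      p (ee τ s j) ∈ (range n).filter (fun i => ∃ τ, ∃ (s : Fin (c τ)) (j : Fin (k τ)),
      (s : ℕ) < (S τ).card ∧ ee τ s j = i) → 0 < (j : ℕ) := by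
    intro τ s j h0 hp
    by_contra hj
    rcases he5 τ s j (by omega) with h | h
    · exact h0 h
    · rw [hV] at hp
      obtain ⟨τ', s', j', _, h'⟩ := hp
      rw [← h'] at h
      exact (he1 τ' s' j').2.1 h
  refine ⟨(range n).filter (fun i => ∃ τ, ∃ (s : Fin (c τ)) (j : Fin (k τ)),
      (s : ℕ) < (S τ).card ∧ ee τ s j = i), g1, ?_, ?_, ?_, ?_, ?_, ?_⟩
  · exact Finset.filter_subset _ _
  · have hsub : (range n) \ (range n).filter (fun i => ∃ τ, ∃ (s : Fin (c τ)) (j : Fin (k τ)),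
      (s : ℕ) < (S τ).card ∧ ee τ s j = i) ⊆ C ∪ univ.biUnion (fun τ : Fin T =>
        ((univ.filter fun s : Fin (c τ) => (S τ).card ≤ (s : ℕ)) ×ˢ
          (univ : Finset (Fin (k τ)))).image (fun z => ee τ z.1 z.2)) := by
      intro i hi
      rw [mem_sdiff, mem_range, hV] at hi
      rw [mem_union]
      by_cases hC : i ∈ C
      · exact Or.inl hC
      · right
        obtain ⟨τ, s, j, h⟩ := he2 i hi.1 hC
        simp only [mem_biUnion, mem_univ, true_and, mem_image, mem_product, mem_filter, and_true]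
        refine ⟨τ, (s, j), ?_, h⟩
        by_contra hlt
        exact hi.2 ⟨τ, s, j, by simpa using hlt, h⟩
    refine (Finset.card_le_card hsub).trans ((Finset.card_union_le _ _).trans ?_)
    refine Nat.add_le_add_left ((Finset.card_biUnion_le).trans ?_) _
    apply Finset.sum_le_sum
    intro τ _
    refine Finset.card_image_le.trans ?_
    rw [Finset.card_product]
    simp only [Finset.card_univ, Fintype.card_fin]
    exact Nat.mul_le_mul_right _ (PartB_fin _ _)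
  · intro i hi i' hi' h
    rw [Finset.mem_coe, hV] at hi hi'
    obtain ⟨τ, s, j, hs, rfl⟩ := hi
    obtain ⟨τ', s', j', hs', rfl⟩ := hi'
    rw [hg1, hg1] at h
    have h1 := hcol τ s hs j
    rw [h] at h1
    have h2 := hW _ _ _ h1 (hcol τ' s' hs' j')
    obtain ⟨rfl, h3⟩ := Sigma.mk.inj_iff.mp h2
    have h3 := eq_of_heq h3
    subst h3
    have h4 := hS2 τ j (hx1 τ s hs) (hx1 τ s' hs') h
    have h5 := hx2 τ s hs s' hs' h4
    rw [Fin.ext h5]
  · intro i hi i' hi' h0 h0' hp hp' h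
    rw [hV] at hi hi'
    obtain ⟨τ, s, j, hs, rfl⟩ := hi
    obtain ⟨τ', s', j', hs', rfl⟩ := hi'
    have hj := hedge _ _ _ h0 hp
    have hj' := hedge _ _ _ h0' hp'
    rw [hes _ _ _ hj, hes _ _ _ hj'] at h
    have h1 := hcol2 τ s hs j hj
    rw [h] at h1
    have h2 := hW' _ _ _ h1 (hcol2 τ' s' hs' j' hj')
    obtain ⟨rfl, h3⟩ := Sigma.mk.inj_iff.mp h2
    have h3 := eq_of_heq h3
    subst h3
    have h4 := hS3 τ j hj (hx1 τ s hs) (hx1 τ s' hs') h
    have h5 := hx2 τ s hs s' hs' h4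
    rw [Fin.ext h5]
  · intro i hi
    rw [hV] at hi
    obtain ⟨τ, s, j, hs, rfl⟩ := hi
    refine ⟨⟨τ, j⟩, (he1 τ s j).2.2, ?_⟩
    rw [hg1]
    exact hcol τ s hs j
  · intro i hi h0 hp
    rw [hV] at hi
    obtain ⟨τ, s, j, hs, rfl⟩ := hi
    have hj := hedge _ _ _ h0 hp
    refine ⟨⟨τ, j⟩, hj, ?_⟩
    rw [hes _ _ _ hj]
    exact hcol2 τ s hs j hj

/-- the number of places of one kind -/
private lemma PartB_count (q M : ℕ) (T : ℕ) (k c a : Fin T → ℕ)
    (ee : ∀ τ, Fin (c τ) → Fin (k τ) → ℕ)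
    (he3 : ∀ τ s j, ∀ τ' s' j', ee τ s j = ee τ' s' j' →
        τ = τ' ∧ (s : ℕ) = s' ∧ (j : ℕ) = j')
    (ha : ∀ τ, a τ * q ≤ c τ * M ^ 2) (Q : (Σ τ, Fin (k τ)) → Prop) (R : Finset ℕ)
    (hQ : ∀ τ s j, Q ⟨τ, j⟩ → ee τ s j ∈ R) :
    (∑ z : (Σ τ, Fin (k τ)), if Q z then a z.1 else 0) * q ≤ R.card * M ^ 2 := by
  have h1 : (∑ z : (Σ τ, Fin (k τ)), if Q z then c z.1 else 0) ≤ R.card := by
    have h2 : (∑ z : (Σ τ, Fin (k τ)), if Q z then c z.1 else 0) =
        ((univ.filter Q).sigma fun z : (Σ τ, Fin (k τ)) => (univ : Finset (Fin (c z.1)))).card := by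
      rw [Finset.card_sigma, Finset.sum_filter]
      simp
    rw [h2]
    apply Finset.card_le_card_of_injOn
      (fun z : (Σ z : (Σ τ, Fin (k τ)), Fin (c z.1)) => ee z.1.1 z.2 z.1.2)
    · rintro ⟨⟨τ, j⟩, s⟩ hz
      rw [Finset.mem_coe, Finset.mem_sigma, mem_filter] at hz
      exact hQ τ s j hz.1.2
    · rintro ⟨⟨τ, j⟩, s⟩ _ ⟨⟨τ', j'⟩, s'⟩ _ h
      obtain ⟨rfl, hs, hj⟩ := he3 _ _ _ _ _ _ h
      have hs' := Fin.ext hs
      have hj' := Fin.ext hj
      subst hs' hj'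
      rfl
  calc (∑ z : (Σ τ, Fin (k τ)), if Q z then a z.1 else 0) * q
      = ∑ z : (Σ τ, Fin (k τ)), (if Q z then a z.1 * q else 0) := by
        rw [Finset.sum_mul]
        refine Finset.sum_congr rfl fun z _ => ?_
        split_ifs <;> simp
    _ ≤ ∑ z : (Σ τ, Fin (k τ)), (if Q z then c z.1 * M ^ 2 else 0) := by
        refine Finset.sum_le_sum fun z _ => ?_
        split_ifs
        · exact ha _
        · exact le_rfl
    _ = (∑ z : (Σ τ, Fin (k τ)), if Q z then c z.1 else 0) * M ^ 2 := by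
        rw [Finset.sum_mul]
        refine Finset.sum_congr rfl fun z _ => ?_
        split_ifs <;> simp
    _ ≤ R.card * M ^ 2 := Nat.mul_le_mul_right _ h1

/-- the number of the remaining atoms -/
private lemma PartB_rest (M : ℕ) (A0 A0' A1 : Finset (Fin M)) :
    (M : ℝ) ^ 2 - 2 * (A0.card * A0'.card) - A1.card * M ≤
      (((univ : Finset (Fin M × Fin M)) \ ((A0 ×ˢ A0') ∪ (A0' ×ˢ A0) ∪ (A1 ×ˢ univ))).card : ℝ) := by
  have h1 : ((univ : Finset (Fin M × Fin M)).card : ℕ) ≤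
      (((univ : Finset (Fin M × Fin M)) \ ((A0 ×ˢ A0') ∪ (A0' ×ˢ A0) ∪ (A1 ×ˢ univ))).card) +
        ((A0 ×ˢ A0') ∪ (A0' ×ˢ A0) ∪ (A1 ×ˢ (univ : Finset (Fin M)))).card := by
    rw [Finset.card_sdiff_add_card_eq_card (Finset.subset_univ _)]
  have h2 : ((A0 ×ˢ A0') ∪ (A0' ×ˢ A0) ∪ (A1 ×ˢ (univ : Finset (Fin M)))).card ≤
      A0.card * A0'.card + A0'.card * A0.card + A1.card * M := by
    refine (Finset.card_union_le _ _).trans (Nat.add_le_add ((Finset.card_union_le _ _).trans ?_) ?_)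
    · rw [Finset.card_product, Finset.card_product]
    · rw [Finset.card_product, Finset.card_univ, Fintype.card_fin]
  rw [Finset.card_univ, Fintype.card_prod, Fintype.card_fin] at h1
  have h3 : M * M ≤ (((univ : Finset (Fin M × Fin M)) \
      ((A0 ×ˢ A0') ∪ (A0' ×ˢ A0) ∪ (A1 ×ˢ univ))).card) +
      (A0.card * A0'.card + A0'.card * A0.card + A1.card * M) := h1.trans (Nat.add_le_add_left h2 _)
  have h4 : (M : ℝ) * M ≤ (((univ : Finset (Fin M × Fin M)) \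
      ((A0 ×ˢ A0') ∪ (A0' ×ˢ A0) ∪ (A1 ×ˢ univ))).card : ℝ) +
      (A0.card * A0'.card + A0'.card * A0.card + A1.card * M) := by exact_mod_cast h3
  nlinarith

theorem partial_embed2 (ζ : ℝ) (hζ : 0 < ζ) (hζ1 : ζ ≤ 1) :
    ∃ M1 : ℕ, ∀ M : ℕ, M1 ≤ M → ∃ η : ℝ, 0 < η ∧ ∃ q0 : ℕ,
      ∀ (G : Type) [AddCommGroup G] [Fintype G] (χ : Bool → G → Fin M),
      q0 ≤ Fintype.card G → Rnd χ 6 η → ∀ (e : G), e ≠ 0 →
      ∀ (A0 A0' A1 B0 B0' B1 : Finset (Fin M)), Disjoint A0 A0' → Disjoint A0 A1 →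
      Disjoint A0' A1 → Disjoint B0 B0' → Disjoint B0 B1 → Disjoint B0' B1 →
      ∀ (n : ℕ) (p : ℕ → ℕ) (rt mk : ℕ → Prop), (∀ i, i < n → ¬ rt i → p i < i) →
      (((range n).filter mk).card : ℝ) * M ^ 2 ≤ A0.card * A0'.card * Fintype.card G →
      (((range n).filter fun i => ¬ mk i).card : ℝ) * M ^ 2 ≤
        ((M : ℝ) ^ 2 - 2 * (A0.card * A0'.card) - A1.card * M) * Fintype.card G →
      (((range n).filter fun i => ¬ rt i).card : ℝ) * M ^ 2 ≤
        ((M : ℝ) ^ 2 - 2 * (B0.card * B0'.card) - B1.card * M) * Fintype.card G →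
      ∃ (V1 : Finset ℕ) (g1 : ℕ → G), V1 ⊆ range n ∧
        (((range n) \ V1).card : ℝ) ≤ ζ * Fintype.card G ∧
        Set.InjOn g1 (V1 : Set ℕ) ∧ EdgeInj e mk rt p V1 g1 ∧
        (∀ i ∈ V1, mk i → g1 i ∈ dcl (χ true) e A0 A0') ∧
        (∀ i ∈ V1, ¬ mk i → g1 i ∉ dcl (χ true) e A0 A0' ∧
          g1 i - e ∉ dcl (χ true) e A0 A0' ∧ χ true (g1 i) ∉ A1) ∧
        ∀ i ∈ V1, ¬ rt i → p i ∈ V1 → es e mk p g1 i ∉ dcl (χ false) e B0 B0' ∧
          es e mk p g1 i - e ∉ dcl (χ false) e B0 B0' ∧ χ false (es e mk p g1 i) ∉ B1 := by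
  obtain ⟨KK, hKK1, hKK2⟩ : ∃ KK : ℕ, 1 ≤ KK ∧ 4 / ζ ≤ (KK : ℝ) :=
    ⟨max 1 ⌈4 / ζ⌉₊, le_max_left _ _, (Nat.le_ceil _).trans (by exact_mod_cast le_max_right _ _)⟩
  obtain ⟨N0, hN0⟩ := codes2 KK hKK1
  obtain ⟨N, hN1, hNN⟩ : ∃ N : ℕ, 1 ≤ N ∧ N0 ≤ N := ⟨max 1 N0, le_max_left _ _, le_max_right _ _⟩
  have hKKp : (0 : ℝ) < KK := by exact_mod_cast hKK1
  have hNp : (0 : ℝ) < N := by exact_mod_cast hN1
  obtain ⟨ν, hνdef⟩ : ∃ ν : ℝ, ν = ζ / (8 * KK * N) := ⟨_, rfl⟩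
  have hν : 0 < ν := by rw [hνdef]; positivity
  have hν1 : (N : ℝ) * KK * ν = ζ / 8 := by
    rw [hνdef]; field_simp
  refine ⟨max 1 ⌈8 * KK * N / ζ⌉₊, ?_⟩
  intro M hM
  have hM2 : 1 ≤ M := (le_max_left _ _).trans hM
  have hM3 : 8 * KK * N / ζ ≤ (M : ℝ) :=
    (Nat.le_ceil _).trans (by exact_mod_cast (le_max_right _ _).trans hM)
  have hMp : (0 : ℝ) < M := by exact_mod_cast hM2
  have hMp2 : (0 : ℝ) < (M : ℝ) ^ 2 := by positivity
  have hM4 : (N : ℝ) * KK * (1 / M ^ 2) ≤ ζ / 8 := by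
    rw [div_le_iff₀ hζ] at hM3
    have h1 : (M : ℝ) ≤ (M : ℝ) ^ 2 := by
      have : (1 : ℝ) ≤ M := by exact_mod_cast hM2
      nlinarith
    rw [mul_one_div, div_le_iff₀ hMp2]
    nlinarith
  obtain ⟨η', hη', q00, hnib⟩ := code_nibble2 KK (1 / M ^ 2) ν (by positivity) hν
  refine ⟨η' / M ^ 4, by positivity, max 1 q00, ?_⟩
  intro G _ _ χ hq hR e he A0 A0' A1 B0 B0' B1 hA01 hA02 hA03 hB01 hB02 hB03 n p rt mk hp hd hs hedg
  have hq1 : q00 ≤ Fintype.card G := (le_max_right _ _).trans hq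
  have hq2 : 1 ≤ Fintype.card G := (le_max_left _ _).trans hq
  have hpat := fun (W W' : Finset (Fin M × Fin M)) =>
    atom_pat hR (by positivity) he A0' B0' W W'
  have hηM : (M : ℝ) ^ 4 * (η' / M ^ 4) = η' := by field_simp
  simp only [hηM] at hpat
  obtain ⟨q, hqd⟩ : ∃ q : ℕ, q = Fintype.card G := ⟨_, rfl⟩
  rw [← hqd] at hq1 hq2 hd hs hedg hpat ⊢
  have hqp : (0 : ℝ) < q := by exact_mod_cast hq2
  obtain ⟨C, T, k, c, P, mt, ee, hC1, hC2, hT, hk, hP, he1, he2, he3, he4, he5⟩ :=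
    hN0 n p rt mk hp
  obtain ⟨a, had⟩ : ∃ a : Fin T → ℕ, ∀ τ, a τ = c τ * M ^ 2 / q := ⟨_, fun _ => rfl⟩
  have ha1 : ∀ τ, a τ * q ≤ c τ * M ^ 2 := fun τ => by
    rw [had]; exact Nat.div_mul_le_self _ _
  have ha2 : ∀ τ, c τ * M ^ 2 < (a τ + 1) * q := fun τ => by
    rw [had, mul_comm (_ + 1)]; exact Nat.lt_mul_div_succ _ hq2
  have ha2' : ∀ τ, (c τ : ℝ) ≤ (a τ : ℝ) / M ^ 2 * q + 1 / M ^ 2 * q := fun τ => by
    have h1 : (c τ : ℝ) * M ^ 2 ≤ ((a τ : ℝ) + 1) * q := by exact_mod_cast (ha2 τ).le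
    rw [← add_mul, ← add_div, div_mul_eq_mul_div, le_div_iff₀ hMp2]
    exact h1
  -- allocation of the atoms
  obtain ⟨Q2, hQ2⟩ : ∃ Q2 : (Σ τ, Fin (k τ)) → Prop, ∀ z, Q2 z ↔ ¬ mt z.1 z.2 :=
    ⟨_, fun _ => Iff.rfl⟩
  obtain ⟨Q3, hQ3⟩ : ∃ Q3 : (Σ τ, Fin (k τ)) → Prop, ∀ z, Q3 z ↔ 0 < (z.2 : ℕ) :=
    ⟨_, fun _ => Iff.rfl⟩
  have hal1 : ∑ z : (Σ τ, Fin (k τ)), (if mt z.1 z.2 then a z.1 else 0) ≤ (A0 ×ˢ A0').card := by
    have h1 := PartB_count q M T k c a ee he3 ha1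
      (fun z => mt z.1 z.2) ((range n).filter mk)
      (fun τ s j h => mem_filter.2 ⟨mem_range.2 (he1 τ s j).1, (he1 τ s j).2.2.2 h⟩)
    have h2 : ((∑ z : (Σ τ, Fin (k τ)), (if mt z.1 z.2 then a z.1 else 0) : ℕ) : ℝ) * q ≤
        ((range n).filter mk).card * M ^ 2 := by exact_mod_cast h1
    have h3 := le_of_mul_le_mul_right (h2.trans hd) hqp
    rw [Finset.card_product]
    exact_mod_cast h3
  have hal2 : ∑ z : (Σ τ, Fin (k τ)), (if Q2 z then a z.1 else 0) ≤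
      ((univ : Finset (Fin M × Fin M)) \ ((A0 ×ˢ A0') ∪ (A0' ×ˢ A0) ∪ (A1 ×ˢ univ))).card := by
    have h1 := PartB_count q M T k c a ee he3 ha1
      Q2 ((range n).filter fun i => ¬ mk i)
      (fun τ s j h => mem_filter.2 ⟨mem_range.2 (he1 τ s j).1,
        fun h' => (hQ2 _).1 h ((he1 τ s j).2.2.1 h')⟩)
    have h2 : ((∑ z : (Σ τ, Fin (k τ)), (if Q2 z then a z.1 else 0) : ℕ) : ℝ) * q ≤
        ((range n).filter fun i => ¬ mk i).card * M ^ 2 := by exact_mod_cast h1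
    have h3 := le_of_mul_le_mul_right (h2.trans hs) hqp
    exact_mod_cast h3.trans (PartB_rest M A0 A0' A1)
  have hal3 : ∑ z : (Σ τ, Fin (k τ)), (if Q3 z then a z.1 else 0) ≤
      ((univ : Finset (Fin M × Fin M)) \ ((B0 ×ˢ B0') ∪ (B0' ×ˢ B0) ∪ (B1 ×ˢ univ))).card := by
    have h1 := PartB_count q M T k c a ee he3 ha1
      Q3 ((range n).filter fun i => ¬ rt i)
      (fun τ s j h => mem_filter.2 ⟨mem_range.2 (he1 τ s j).1, (he4 τ s j ((hQ3 _).1 h)).1⟩)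
    have h2 : ((∑ z : (Σ τ, Fin (k τ)), (if Q3 z then a z.1 else 0) : ℕ) : ℝ) * q ≤
        ((range n).filter fun i => ¬ rt i).card * M ^ 2 := by exact_mod_cast h1
    have h3 := le_of_mul_le_mul_right (h2.trans hedg) hqp
    exact_mod_cast h3.trans (PartB_rest M B0 B0' B1)
  obtain ⟨W1, hW1a, hW1b, hW1c⟩ := PartB_alloc _ _ hal1
  obtain ⟨W2, hW2a, hW2b, hW2c⟩ := PartB_alloc _ _ hal2
  obtain ⟨W3, hW3a, hW3b, hW3c⟩ := PartB_alloc _ _ hal3
  obtain ⟨W, hWdef⟩ : ∃ W : (Σ τ, Fin (k τ)) → Finset (Fin M × Fin M),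
      ∀ z, W z = if mt z.1 z.2 then W1 z else W2 z := ⟨_, fun _ => rfl⟩
  have hWcard : ∀ z, (W z).card = a z.1 := by
    intro z
    rw [hWdef]
    split_ifs with h
    · rw [hW1a, if_pos h]
    · rw [hW2a, if_pos ((hQ2 z).2 h)]
  have hWinj : ∀ z z' c, c ∈ W z → c ∈ W z' → z = z' := by
    intro z z' c hc hc'
    rw [hWdef] at hc hc'
    split_ifs at hc hc' with h1 h2 h2
    · exact hW1c _ _ _ hc hc'
    · exfalso
      have h3 := hW1b _ hc
      have h4 := hW2b _ hc'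
      rw [mem_sdiff, mem_union, mem_union] at h4
      exact h4.2 (Or.inl (Or.inl h3))
    · exfalso
      have h3 := hW1b _ hc'
      have h4 := hW2b _ hc
      rw [mem_sdiff, mem_union, mem_union] at h4
      exact h4.2 (Or.inl (Or.inl h3))
    · exact hW2c _ _ _ hc hc'
  have hS : ∀ τ, ∃ S : Finset (Fin (k τ) → G),
      (∀ x ∈ S, (∀ j, atom (χ true) e A0' (x j) ∈ W ⟨τ, j⟩) ∧ ∀ j : Fin (k τ), 0 < (j : ℕ) →
        atom (χ false) e B0' (x j + x (P τ j) + (if mt τ (P τ j) then e else 0)) ∈ W3 ⟨τ, j⟩) ∧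
      (∀ j, Set.InjOn (fun x : Fin (k τ) → G => x j) (S : Set (Fin (k τ) → G))) ∧
      (∀ j : Fin (k τ), 0 < (j : ℕ) →
          Set.InjOn (fun x : Fin (k τ) → G => x j + x (P τ j) + (if mt τ (P τ j) then e else 0))
            (S : Set (Fin (k τ) → G))) ∧
      (1 ≤ a τ → ((a τ : ℝ) / M ^ 2 - ν) * q ≤ S.card) := by
    intro τ
    by_cases h : 1 ≤ a τ
    · have hQ : QS (fun j => univ.filter fun x => atom (χ true) e A0' x ∈ W ⟨τ, j⟩)
          (fun j => univ.filter fun x => atom (χ false) e B0' x ∈ W3 ⟨τ, j⟩)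
          ((a τ : ℝ) / M ^ 2) η' := by
        refine ⟨?_, ?_, ?_⟩
        · intro j
          have h1 := (hpat (W ⟨τ, j⟩) ∅).1
          rw [hWcard, hqd] at h1
          exact h1
        · intro j j' z hj'
          have h1 := (hpat (W ⟨τ, j⟩) (W3 ⟨τ, j'⟩)).2.1 z
          rw [hWcard, hW3a, if_pos ((hQ3 ⟨τ, j'⟩).2 hj'), hqd] at h1
          rw [Finset.filter_filter, pow_two ((a τ : ℝ) / M ^ 2)]
          simp only [mem_filter, mem_univ, true_and]
          exact h1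
        · intro j j' z
          have h1 := (hpat (W ⟨τ, j⟩) (W ⟨τ, j'⟩)).2.2 z
          rw [hWcard, hWcard, hqd] at h1
          rw [Finset.filter_filter, pow_two ((a τ : ℝ) / M ^ 2)]
          simp only [mem_filter, mem_univ, true_and]
          exact h1
      have hα : 1 / (M : ℝ) ^ 2 ≤ (a τ : ℝ) / M ^ 2 := by
        apply div_le_div_of_nonneg_right _ hMp2.le
        exact_mod_cast h
      have hα1 : (a τ : ℝ) / M ^ 2 ≤ 1 := by
        rw [div_le_one hMp2]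
        have h1 : (W ⟨τ, ⟨0, (hk τ).1⟩⟩).card ≤ M * M := by
          have := Finset.card_le_univ (W ⟨τ, ⟨0, (hk τ).1⟩⟩)
          rwa [Fintype.card_prod, Fintype.card_fin] at this
        rw [hWcard] at h1
        rw [pow_two]
        exact_mod_cast h1
      obtain ⟨S, h1, h2, h3, h4⟩ := hnib G (hqd ▸ hq1) (k τ) (hk τ).1 (hk τ).2 (P τ) (hP τ)
        (fun j => if mt τ (P τ j) then e else 0) _ _ _ hα hα1 hQ
      refine ⟨S, ?_, h2, h3, fun _ => hqd ▸ h4⟩
      intro x hx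
      have h5 := h1 hx
      simp only [Cpy2, mem_filter, mem_univ, true_and] at h5
      exact h5
    · exact ⟨∅, by simp, by simp, by simp, fun h' => absurd h' h⟩
  choose S hS1 hS2 hS3 hS4 using hS
  obtain ⟨V1, g1, c1, c2, c3, c4, c5, c6⟩ :=
    PartB_core (atom (χ true) e A0') (atom (χ false) e B0') e n p rt mk C T k c P mt ee
      he1 he2 he3 he4 he5 W W3 hWinj hW3c S hS1 hS2 hS3
  have hnq : n ≤ q := by
    have h1 : ((range n).filter mk).card + ((range n).filter fun i => ¬ mk i).card = n := by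
      rw [Finset.card_filter_add_card_filter_not, Finset.card_range]
    have h2 : (((range n).filter mk).card : ℝ) + ((range n).filter fun i => ¬ mk i).card = n := by
      exact_mod_cast h1
    have h3 : (n : ℝ) * M ^ 2 ≤ q * M ^ 2 := by
      rw [← h2, add_mul]
      have h4 : (0 : ℝ) ≤ A0.card * A0'.card * q := by positivity
      have h5 : (0 : ℝ) ≤ A1.card * M * q := by positivity
      nlinarith
    exact_mod_cast le_of_mul_le_mul_right h3 hMp2
  refine ⟨V1, g1, c1, ?_, c3, c4, ?_, ?_, ?_⟩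
  · have h1 : ((((range n) \ V1).card : ℕ) : ℝ) ≤
        C.card + ∑ τ, (((c τ - (S τ).card : ℕ)) : ℝ) * k τ := by exact_mod_cast c2
    have h2 : (C.card : ℝ) ≤ ζ / 4 * q := by
      have h3 : (C.card : ℝ) * KK ≤ q := by exact_mod_cast hC2.trans hnq
      rw [div_le_iff₀ hζ] at hKK2
      have h5 : (C.card : ℝ) * 4 ≤ C.card * (KK * ζ) :=
        mul_le_mul_of_nonneg_left (by linarith) (by positivity)
      nlinarith
    have h3 : ∀ τ, (((c τ - (S τ).card : ℕ)) : ℝ) ≤ (1 / M ^ 2 + ν) * q := by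
      intro τ
      by_cases hcs : c τ ≤ (S τ).card
      · rw [Nat.sub_eq_zero_of_le hcs]
        simp only [Nat.cast_zero]
        positivity
      · rw [Nat.cast_sub (by omega)]
        by_cases h : 1 ≤ a τ
        · have h4 := hS4 τ h
          have h5 := ha2' τ
          linarith
        · have h5 := ha2' τ
          have h6 : a τ = 0 := by omega
          rw [h6] at h5
          simp only [Nat.cast_zero, zero_div, zero_mul, zero_add] at h5
          have h7 : (0 : ℝ) ≤ (S τ).card := by positivity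
          have h8 : (0 : ℝ) ≤ ν * q := by positivity
          linarith
    have h4 : ∑ τ, (((c τ - (S τ).card : ℕ)) : ℝ) * k τ ≤ N * KK * ((1 / M ^ 2 + ν) * q) := by
      calc ∑ τ, (((c τ - (S τ).card : ℕ)) : ℝ) * k τ ≤
            ∑ _τ : Fin T, ((1 / M ^ 2 + ν) * q) * KK := by
            apply Finset.sum_le_sum
            intro τ _
            apply mul_le_mul (h3 τ) (by exact_mod_cast (hk τ).2) (by positivity) (by positivity)
        _ = T * (((1 / M ^ 2 + ν) * q) * KK) := by simp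
        _ ≤ N * (((1 / M ^ 2 + ν) * q) * KK) := by
            apply mul_le_mul_of_nonneg_right
            · exact_mod_cast hT.trans hNN
            · positivity
        _ = N * KK * ((1 / M ^ 2 + ν) * q) := by ring
    have h5 : (N * KK : ℝ) * ((1 / M ^ 2 + ν) * q) ≤ ζ / 4 * q := by
      have : (N * KK : ℝ) * ((1 / M ^ 2 + ν) * q) = (N * KK * (1 / M ^ 2) + N * KK * ν) * q := by
        ring
      rw [this]
      apply mul_le_mul_of_nonneg_right _ hqp.le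
      linarith
    have h6 : (0 : ℝ) ≤ ζ * q := by positivity
    linarith
  · intro i hi hm
    obtain ⟨z, hz1, hz2⟩ := c5 i hi
    rw [atom_dcl _ _ _ _ hA01]
    rw [hWdef, if_pos (hz1.1 hm)] at hz2
    exact hW1b _ hz2
  · intro i hi hm
    obtain ⟨z, hz1, hz2⟩ := c5 i hi
    rw [hWdef, if_neg (fun h => hm (hz1.2 h))] at hz2
    have h1 := hW2b _ hz2
    rw [mem_sdiff, mem_union, mem_union] at h1
    refine ⟨?_, ?_, ?_⟩
    · rw [atom_dcl _ _ _ _ hA01]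
      exact fun h => h1.2 (Or.inl (Or.inl h))
    · rw [atom_end _ _ _ _ hA01]
      exact fun h => h1.2 (Or.inl (Or.inr h))
    · intro h
      apply h1.2
      right
      rw [mem_product, atom_fst]
      exact ⟨h, mem_univ _⟩
  · intro i hi hr hpi
    obtain ⟨z, hz1, hz2⟩ := c6 i hi hr hpi
    have h1 := hW3b _ hz2
    rw [mem_sdiff, mem_union, mem_union] at h1
    refine ⟨?_, ?_, ?_⟩
    · rw [atom_dcl _ _ _ _ hB01]
      exact fun h => h1.2 (Or.inl (Or.inl h))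
    · rw [atom_end _ _ _ _ hB01]
      exact fun h => h1.2 (Or.inl (Or.inr h))
    · intro h
      apply h1.2
      right
      rw [mem_product, atom_fst]
      exact ⟨h, mem_univ _⟩

end Pool.Agent.H60.HM
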