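import Mathlib

/-!
# HM-19 SegA: a tree with few leaves has many disjoint bare paths

The tree has the vertices `0, ..., N - 1`, parents `p`; `ch i` is the number of children of `i`.
`N = 0`: clear (`Sg = ∅`); let `N ≥ 1`.  Call `i < N` good if `0 < i` and `ch i = 1`, otherwise bad.  Let `l` be the
number of the `i < N` with `ch i = 0`.  `∑_{i < N} ch i = N - 1`, so the number of the `i` with `ch i ≥ 2` is at most
`l - 1`, and there are at most `2 l` bad vertices.
Let `h i = 0` for bad `i` and `h i = h (p i) + 1` for good `i` (recursion; `p i < i`).  If `h i = r + 1` then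
`h (p i) = r`; if `h i ≥ r + 1` then `p^[s] i` is good and `h (p^[s] i) = h i - s` for all `s ≤ r`.  Let
`a_r = #{i < N : i good, h i = r}` (`r ≥ 1`).
* `a_1 ≤ Δ * #bad ≤ 2 Δ l`: these are children of bad vertices.
* `a_(r+1) ≤ a_r` for `r ≥ 1`: `i ↦ p i` maps the good vertices with `h = r + 1` injectively (a good vertex has only
one child) to the good vertices with `h = r`.
`Sg = {v < N : v good, K ∣ h v}` (so `h v ≥ K`).  For `r < K` and `v ∈ Sg`, `p^[r] v` is good.  If
`p^[r] v = p^[r'] v'` then `h v - r = h v' - r'` with `0 ≤ r, r' < K`, so `r = r'` and `h v = h v'`, and `v = v'` since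
the vertices on the way are good and have only one child.
Counting: the number of the good vertices is `∑_{r ≥ 1} a_r ≤ K a_1 + K ∑_{j ≥ 1} a_{j K} ≤ K a_1 + K Sg.card`: the
levels `1, ..., K` and for `j ≥ 1` the levels `j K + 1, ..., j K + K`, each of size `≤ a_{j K}`.  (Or: the map
`v ↦ p^[h v % K] v` from the good `v` with `h v ≥ K` to `Sg` has fibres with at most `K` elements, and
`v ↦ p^[h v - 1] v` from the good `v` with `1 ≤ h v < K` to the good vertices with `h = 1` has fibres with at most
`K - 1` elements.)  So `N ≤ 2 l + K Sg.card + K (2 Δ l)`.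
-/

namespace Pool.Agent.H60.HM

open Finset Classical

/-- The number of children. -/
noncomputable def ch (N : ℕ) (p : ℕ → ℕ) (i : ℕ) : ℕ :=
  ((range N).filter fun j => 0 < j ∧ p j = i).card

/-- A good vertex. -/
private def SegA_good (N : ℕ) (p : ℕ → ℕ) (i : ℕ) : Prop := 0 < i ∧ i < N ∧ ch N p i = 1

private theorem SegA_ex (N : ℕ) (p : ℕ → ℕ) (hp : ∀ i, 0 < i → i < N → p i < i) (v : ℕ) :
    ∃ r, ¬ SegA_good N p (p^[r] v) := by
  induction v using Nat.strong_induction_on with
  | _ v ih =>
    by_cases hv : SegA_good N p v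
    · obtain ⟨r, hr⟩ := ih (p v) (hp v hv.1 hv.2.1)
      exact ⟨r + 1, by rwa [Function.iterate_succ_apply]⟩
    · exact ⟨0, hv⟩

/-- The number of good vertices on the way up from `v`. -/
private noncomputable def SegA_h (N : ℕ) (p : ℕ → ℕ) (v : ℕ) : ℕ :=
  sInf {r | ¬ SegA_good N p (p^[r] v)}

private theorem SegA_le (N : ℕ) (p : ℕ → ℕ) (hp : ∀ i, 0 < i → i < N → p i < i) (v n : ℕ) :
    n ≤ SegA_h N p v ↔ ∀ s < n, SegA_good N p (p^[s] v) := by
  constructor
  · intro h s hs
    have : s ∉ {r | ¬ SegA_good N p (p^[r] v)} := Nat.notMem_of_lt_sInf (lt_of_lt_of_le hs h)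
    simpa using this
  · intro h
    by_contra hc
    push Not at hc
    have h1 : SegA_h N p v ∈ {r | ¬ SegA_good N p (p^[r] v)} := Nat.sInf_mem (SegA_ex N p hp v)
    exact h1 (h _ hc)

private theorem SegA_iter (N : ℕ) (p : ℕ → ℕ) (hp : ∀ i, 0 < i → i < N → p i < i) (v s : ℕ)
    (hs : s ≤ SegA_h N p v) : SegA_h N p (p^[s] v) + s = SegA_h N p v := by
  apply le_antisymm
  · rw [SegA_le N p hp]
    intro u hu
    by_cases h : u < s
    · exact (SegA_le N p hp v _).1 le_rfl u (lt_of_lt_of_le h hs)
    · push Not at h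
      obtain ⟨t, rfl⟩ := Nat.exists_eq_add_of_le' h
      rw [Function.iterate_add_apply]
      exact (SegA_le N p hp (p^[s] v) _).1 le_rfl t (by omega)
  · have h1 : SegA_h N p v - s ≤ SegA_h N p (p^[s] v) := by
      rw [SegA_le N p hp]
      intro t ht
      rw [← Function.iterate_add_apply]
      exact (SegA_le N p hp v _).1 le_rfl (t + s) (by omega)
    omega

private theorem SegA_inj (N : ℕ) (p : ℕ → ℕ) (r : ℕ) : ∀ v v' : ℕ,
    (∀ s ≤ r, SegA_good N p (p^[s] v)) → (∀ s ≤ r, SegA_good N p (p^[s] v')) →
    p^[r] v = p^[r] v' → v = v' := by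
  induction r with
  | zero => intro v v' _ _ h; simpa using h
  | succ r ih =>
    intro v v' h1 h2 h
    have hx := h1 r (by omega)
    have hx' := h2 r (by omega)
    have hw := h1 (r + 1) le_rfl
    rw [Function.iterate_succ_apply', Function.iterate_succ_apply'] at h
    rw [Function.iterate_succ_apply'] at hw
    have hc : ch N p (p (p^[r] v)) = 1 := hw.2.2
    unfold ch at hc
    obtain ⟨a, ha⟩ := card_eq_one.1 hc
    have m1 : p^[r] v ∈ ((range N).filter fun j => 0 < j ∧ p j = p (p^[r] v)) :=
      mem_filter.2 ⟨mem_range.2 hx.2.1, hx.1, rfl⟩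
    have m2 : p^[r] v' ∈ ((range N).filter fun j => 0 < j ∧ p j = p (p^[r] v)) :=
      mem_filter.2 ⟨mem_range.2 hx'.2.1, hx'.1, h.symm⟩
    rw [ha, mem_singleton] at m1 m2
    exact ih v v' (fun s hs => h1 s (by omega)) (fun s hs => h2 s (by omega)) (m1.trans m2.symm)

private theorem SegA_sum (N : ℕ) (p : ℕ → ℕ) (hp : ∀ i, 0 < i → i < N → p i < i) :
    ∑ i ∈ range N, ch N p i = N - 1 := by
  unfold ch
  have h1 : ∀ i ∈ range N, ((range N).filter fun j => 0 < j ∧ p j = i).card =
      (((range N).filter fun j => 0 < j).filter fun j => p j = i).card := by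
    intro i _
    rw [filter_filter]
  rw [sum_congr rfl h1, ← card_eq_sum_card_fiberwise]
  · have : (range N).filter (fun j => 0 < j) = (range N).erase 0 := by
      ext j
      simp only [mem_filter, mem_range, mem_erase]
      omega
    rw [this]
    by_cases hN : 0 < N
    · rw [card_erase_of_mem (mem_range.2 hN), card_range]
    · have : N = 0 := by omega
      subst this
      simp
  · intro j hj
    have hj' := mem_filter.1 (mem_coe.1 hj)
    have h2 := hp j hj'.2 (mem_range.1 hj'.1)
    exact mem_coe.2 (mem_range.2 (by have := mem_range.1 hj'.1; omega))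

private theorem SegA_bad (N : ℕ) (p : ℕ → ℕ) (hN : 0 < N)
    (hp : ∀ i, 0 < i → i < N → p i < i) :
    ((range N).filter fun i => ¬ SegA_good N p i).card ≤
      2 * ((range N).filter fun i => ch N p i = 0).card := by
  have hs := SegA_sum N p hp
  set l0 := ((range N).filter fun i => ch N p i = 0).card with hl0
  set l2 := ((range N).filter fun i => 2 ≤ ch N p i).card with hl2
  have h1 : l2 + N ≤ (N - 1) + l0 := by
    have e1 : l2 = ∑ i ∈ range N, if 2 ≤ ch N p i then 1 else 0 := by
      rw [hl2, card_filter]
    have e2 : l0 = ∑ i ∈ range N, if ch N p i = 0 then 1 else 0 := by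
      rw [hl0, card_filter]
    have e3 : N = ∑ i ∈ range N, 1 := by simp
    rw [← hs, e1, e2]
    calc (∑ i ∈ range N, if 2 ≤ ch N p i then 1 else 0) + N
        = ∑ i ∈ range N, ((if 2 ≤ ch N p i then 1 else 0) + 1) := by
          rw [sum_add_distrib, ← e3]
      _ ≤ ∑ i ∈ range N, (ch N p i + if ch N p i = 0 then 1 else 0) := by
          apply sum_le_sum
          intro i _
          split_ifs <;> omega
      _ = _ := by rw [sum_add_distrib]
  have h2 : ((range N).filter fun i => ¬ SegA_good N p i) ⊆
      {0} ∪ (((range N).filter fun i => ch N p i = 0) ∪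
        ((range N).filter fun i => 2 ≤ ch N p i)) := by
    intro i hi
    rw [mem_filter, mem_range] at hi
    simp only [mem_union, mem_singleton, mem_filter, mem_range]
    by_cases h0 : i = 0
    · exact Or.inl h0
    · right
      have : ch N p i ≠ 1 := fun h => hi.2 ⟨by omega, hi.1, h⟩
      by_cases h3 : ch N p i = 0
      · exact Or.inl ⟨hi.1, h3⟩
      · exact Or.inr ⟨hi.1, by omega⟩
  have h3 := (card_le_card h2).trans (card_union_le _ _)
  have h4 := card_union_le ((range N).filter fun i => ch N p i = 0)
    ((range N).filter fun i => 2 ≤ ch N p i)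
  rw [card_singleton] at h3
  omega

theorem segs (K Δ N : ℕ) (hK : 1 ≤ K) (p : ℕ → ℕ) (hp : ∀ i, 0 < i → i < N → p i < i)
    (hΔ : ∀ i, ch N p i ≤ Δ) :
    ∃ Sg ⊆ range N,
      (∀ v ∈ Sg, ∀ r < K, 0 < p^[r] v ∧ p^[r] v < N ∧ ch N p (p^[r] v) = 1) ∧
      (∀ v ∈ Sg, ∀ v' ∈ Sg, ∀ r < K, ∀ r' < K, p^[r] v = p^[r'] v' → v = v' ∧ r = r') ∧
      N ≤ K * Sg.card + (2 + 2 * K * Δ) * ((range N).filter fun i => ch N p i = 0).card := by
  rcases Nat.eq_zero_or_pos N with hN | hN
  · subst hN
    exact ⟨∅, by simp, by simp, by simp, by simp⟩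
  have hle := SegA_le N p hp
  have hbad := SegA_bad N p hN hp
  set B := (range N).filter fun i => ¬ SegA_good N p i with hB
  set l0 := ((range N).filter fun i => ch N p i = 0).card with hl0
  set Sg := (range N).filter fun v => SegA_good N p v ∧ K ∣ SegA_h N p v with hSg
  set A1 := (range N).filter fun v => SegA_good N p v ∧ SegA_h N p v = 1 with hA1
  have hpos : ∀ v, SegA_good N p v → 1 ≤ SegA_h N p v := by
    intro v hv
    rw [hle]
    intro s hs
    have : s = 0 := by omega
    subst this
    exact hv
  have hgd : ∀ v, 1 ≤ SegA_h N p v → SegA_good N p v := by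
    intro v hv
    exact (hle v 1).1 hv 0 (by omega)
  have hKle : ∀ v ∈ Sg, K ≤ SegA_h N p v := by
    intro v hv
    have h := (mem_filter.1 hv).2
    exact Nat.le_of_dvd (hpos v h.1) h.2
  refine ⟨Sg, filter_subset _ _, ?_, ?_, ?_⟩
  · intro v hv r hr
    exact (hle v K).1 (hKle v hv) r hr
  · intro v hv v' hv' r hr r' hr' he
    have h1 := SegA_iter N p hp v r ((le_of_lt hr).trans (hKle v hv))
    have h2 := SegA_iter N p hp v' r' ((le_of_lt hr').trans (hKle v' hv'))
    have hd := (mem_filter.1 hv).2.2
    have hd' := (mem_filter.1 hv').2.2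
    rw [← he] at h2
    have hrr : r = r' := by
      have e1 : (SegA_h N p (p^[r] v) + r) % K = 0 := by rw [h1]; exact Nat.mod_eq_zero_of_dvd hd
      have e2 : (SegA_h N p (p^[r] v) + r') % K = 0 := by rw [h2]; exact Nat.mod_eq_zero_of_dvd hd'
      have e3 : (SegA_h N p (p^[r] v) + r) ≡ (SegA_h N p (p^[r] v) + r') [MOD K] := by
        unfold Nat.ModEq; rw [e1, e2]
      have e4 : r ≡ r' [MOD K] := Nat.ModEq.add_left_cancel' _ e3
      exact Nat.ModEq.eq_of_lt_of_lt e4 hr hr'
    subst hrr
    exact ⟨SegA_inj N p r v v'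
      (fun s hs => (hle v K).1 (hKle v hv) s (by omega))
      (fun s hs => (hle v' K).1 (hKle v' hv') s (by omega)) he, rfl⟩
  · -- the counting
    have hA1c : A1.card ≤ Δ * B.card := by
      have h1 : ∀ v ∈ A1, p v ∈ B := by
        intro v hv
        rw [hA1, mem_filter, mem_range] at hv
        rw [hB, mem_filter, mem_range]
        have h2 := hp v hv.2.1.1 hv.1
        refine ⟨by omega, fun hg => ?_⟩
        have h3 := SegA_iter N p hp v 1 (by omega)
        have h4 := hpos _ hg
        simp only [Function.iterate_one] at h3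
        omega
      have h2 : A1.card = ∑ b ∈ B, (A1.filter fun v => p v = b).card :=
        card_eq_sum_card_fiberwise (fun v hv => h1 v hv)
      rw [h2, mul_comm]
      calc ∑ b ∈ B, (A1.filter fun v => p v = b).card ≤ ∑ b ∈ B, Δ := by
            apply sum_le_sum
            intro b _
            refine le_trans (card_le_card ?_) (hΔ b)
            intro v hv
            rw [mem_filter, hA1, mem_filter] at hv
            rw [mem_filter]
            exact ⟨hv.1.1, hv.1.2.1.1, hv.2⟩
        _ = B.card * Δ := by rw [sum_const, smul_eq_mul]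
    set G1 := (range N).filter fun v => SegA_good N p v ∧ K ≤ SegA_h N p v with hG1
    set G2 := (range N).filter fun v => SegA_good N p v ∧ SegA_h N p v < K with hG2
    have hG1c : G1.card ≤ Sg.card * K := by
      have h1 : G1.card ≤ (Sg ×ˢ range K).card := by
        apply card_le_card_of_injOn (fun v => (p^[SegA_h N p v % K] v, SegA_h N p v % K))
        · intro v hv
          have hv' := (mem_filter.1 (mem_coe.1 hv))
          have hm : SegA_h N p v % K < K := Nat.mod_lt _ hK
          have h2 := SegA_iter N p hp v (SegA_h N p v % K) (by omega)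
          have h3 := Nat.div_add_mod (SegA_h N p v) K
          have h4 : SegA_h N p (p^[SegA_h N p v % K] v) = K * (SegA_h N p v / K) := by omega
          have hg : SegA_good N p (p^[SegA_h N p v % K] v) :=
            (hle v _).1 le_rfl _ (by omega)
          refine mem_coe.2 (mem_product.2 ⟨mem_filter.2 ⟨mem_range.2 hg.2.1, hg, ?_⟩,
            mem_range.2 hm⟩)
          rw [h4]
          exact dvd_mul_right _ _
        · intro v hv v' hv' he
          have hv1 := (mem_filter.1 (mem_coe.1 hv))
          have hv2 := (mem_filter.1 (mem_coe.1 hv'))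
          simp only [Prod.mk.injEq] at he
          have hm : SegA_h N p v % K < K := Nat.mod_lt _ hK
          have hm' : SegA_h N p v' % K < K := Nat.mod_lt _ hK
          obtain ⟨he1, he2⟩ := he
          rw [← he2] at he1
          exact SegA_inj N p _ v v'
            (fun s hs => (hle v _).1 le_rfl s (by omega))
            (fun s hs => (hle v' _).1 le_rfl s (by omega)) he1
      rwa [card_product, card_range] at h1
    have hG2c : G2.card ≤ A1.card * K := by
      have h1 : G2.card ≤ (A1 ×ˢ range K).card := by
        apply card_le_card_of_injOn (fun v => (p^[SegA_h N p v - 1] v, SegA_h N p v - 1))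
        · intro v hv
          have hv' := (mem_filter.1 (mem_coe.1 hv))
          have hh := hpos v hv'.2.1
          have h2 := SegA_iter N p hp v (SegA_h N p v - 1) (by omega)
          have hg : SegA_good N p (p^[SegA_h N p v - 1] v) :=
            (hle v _).1 le_rfl _ (by omega)
          refine mem_coe.2 (mem_product.2 ⟨mem_filter.2 ⟨mem_range.2 hg.2.1, hg, ?_⟩,
            mem_range.2 ?_⟩)
          · show SegA_h N p (p^[SegA_h N p v - 1] v) = 1
            omega
          · show SegA_h N p v - 1 < K
            omega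
        · intro v hv v' hv' he
          have hv1 := (mem_filter.1 (mem_coe.1 hv))
          have hv2 := (mem_filter.1 (mem_coe.1 hv'))
          have hh := hpos v hv1.2.1
          have hh' := hpos v' hv2.2.1
          simp only [Prod.mk.injEq] at he
          obtain ⟨he1, he2⟩ := he
          rw [← he2] at he1
          exact SegA_inj N p _ v v'
            (fun s hs => (hle v _).1 le_rfl s (by omega))
            (fun s hs => (hle v' _).1 le_rfl s (by omega)) he1
      rwa [card_product, card_range] at h1
    have hcov : range N ⊆ B ∪ (G1 ∪ G2) := by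
      intro v hv
      rw [mem_union, mem_union, hB, hG1, hG2, mem_filter, mem_filter, mem_filter]
      by_cases hg : SegA_good N p v
      · by_cases h : K ≤ SegA_h N p v
        · exact Or.inr (Or.inl ⟨hv, hg, h⟩)
        · exact Or.inr (Or.inr ⟨hv, hg, by omega⟩)
      · exact Or.inl ⟨hv, hg⟩
    have h1 := (card_le_card hcov).trans (card_union_le _ _)
    have h2 := card_union_le G1 G2
    rw [card_range] at h1
    have h3 : A1.card * K ≤ (Δ * (2 * l0)) * K :=
      Nat.mul_le_mul_right _ (hA1c.trans (Nat.mul_le_mul_left _ hbad))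
    calc N ≤ B.card + (G1.card + G2.card) := by omega
      _ ≤ 2 * l0 + (Sg.card * K + (Δ * (2 * l0)) * K) := by
          have := hG2c.trans h3
          omega
      _ = K * Sg.card + (2 + 2 * K * Δ) * l0 := by ring

end Pool.Agent.H60.HM
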