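import Pool.Agent.H60.HM.SegA
import Pool.Agent.H60.HM.Defs

/-!
# HM-20 SegB: the structure obtained from a tree with many bare paths

The tree has the vertices `0, ..., N - 1`, parents `p`; `PL`, `PC` are disjoint sets of bottoms of bare paths
`v, p v, ..., p^[11] v` (`Sgm`).  For `v ∈ PL` the vertex `p^[5] v` is the pending vertex; its neighbours
`p^[4] v` and `p^[6] v` form the double vertex `p^[6] v`; the child `p^[3] v` of `p^[4] v` gets the parent `p^[6] v`
(`Sp`).  For `v ∈ PC` the vertices `p^[r] v`, `1 ≤ r ≤ 10`, are the inner vertices of a connector between `v` and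
`p^[11] v`; `v` becomes a root.  The last vertex `N - 1` (which has no children) is the last leaf.  `SI` is the set
of the other vertices.

Basic facts: (a) if `0 < i < N` and `p i = p^[r] v` with `1 ≤ r ≤ 11`, `v ∈ PL ∪ PC`, then `i = p^[r-1] v`
(`p^[r] v` has only one child, and `p^[r-1] v` is a child of it: `Function.iterate_succ_apply'`); `p^[0] v = v`.
(b) `p^[r] v ≠ N - 1`: `ch N p (N - 1) = 0` since `p j < j ≤ N - 1`.  (c) the `p^[r] v`, `v ∈ PL ∪ PC`, `r < 12`, are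
different and positive.
`seg_1`: let `i ∈ SI`, not a root.  If `i = p^[3] v`, `v ∈ PL`, then `Sp i = p^[6] v` (`p^[3] (p^[3] v) = p^[6] v`),
which is in `SI` by (b), (c), and `p^[3] i < i` since `p j < j` for `j = i, p i, p (p i)`, which are positive and
`< N`.  Otherwise `Sp i = p i < i`; if `p i = p^[4] v` then `i = p^[3] v`, excluded; if `p i = p^[5] v` then
`i = p^[4] v ∉ SI`; if `p i = p^[r] v`, `v ∈ PC`, `1 ≤ r ≤ 10` then `i = p^[r-1] v`, for `r ≥ 2` not in `SI`, for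
`r = 1` a root.
`seg_2`: if `Sp j = i` then `p j = i`, or `j = p^[3] v`, `i = p^[6] v`, `v ∈ PL`.  If `i = p^[6] v` with `v ∈ PL`, then
the only child of `i` is `p^[5] v ∉ SI`, so only `j = p^[3] v` is possible (by (c)): at most one `j`, `Δ ≥ 1`.  For
the other `i` all the `j` are children: at most `Δ`.
`seg_3`: `Sp i = p^[6] v`, `v ∈ PL`: if `i = p^[3] v'`, then it is not of the form `p^[6] v''`; otherwise `p i = p^[6] v`,
so `i = p^[5] v ∉ SI`.
`seg_4`: the removed elements of `range N` are `N - 1`, `p^[4] v`, `p^[5] v` (`v ∈ PL`) and `p^[r] v` (`v ∈ PC`,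
`1 ≤ r ≤ 10`), all different.  `seg_5`: `v ↦ p^[6] v` is injective on `PL`.  `seg_6`: `0 ∈ SI`, `PC ⊆ SI`.
-/

namespace Pool.Agent.H60.HM

open Finset Classical

/-- `PL` and `PC` are sets of bottoms of disjoint bare paths with `12` vertices. -/
def Sgm (N : ℕ) (p : ℕ → ℕ) (PL PC : Finset ℕ) : Prop :=
  2 ≤ N ∧ (∀ i, 0 < i → i < N → p i < i) ∧ Disjoint PL PC ∧
  (∀ v ∈ PL ∪ PC, ∀ r < 12, 0 < p^[r] v ∧ p^[r] v < N ∧ ch N p (p^[r] v) = 1) ∧
  ∀ v ∈ PL ∪ PC, ∀ v' ∈ PL ∪ PC, ∀ r < 12, ∀ r' < 12, p^[r] v = p^[r'] v' → v = v' ∧ r = r'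

noncomputable def SI (N : ℕ) (p : ℕ → ℕ) (PL PC : Finset ℕ) : Finset ℕ :=
  (range (N - 1)).filter fun i => (∀ v ∈ PL, i ≠ p^[4] v ∧ i ≠ p^[5] v) ∧
    ∀ v ∈ PC, ∀ r, 1 ≤ r → r ≤ 10 → i ≠ p^[r] v

def Smk (p : ℕ → ℕ) (PL : Finset ℕ) (i : ℕ) : Prop := ∃ v ∈ PL, i = p^[6] v

def Srt (PC : Finset ℕ) (i : ℕ) : Prop := i = 0 ∨ i ∈ PC

noncomputable def Sp (p : ℕ → ℕ) (PL : Finset ℕ) (i : ℕ) : ℕ :=
  if ∃ v ∈ PL, i = p^[3] v then p^[3] i else p i

section aux

variable {N : ℕ} {p : ℕ → ℕ} {PL PC : Finset ℕ}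

private theorem SegB_child (h : Sgm N p PL PC) {v : ℕ} (hv : v ∈ PL ∪ PC) {r : ℕ} (hr : r + 1 < 12)
    {i : ℕ} (hi0 : 0 < i) (hiN : i < N) (hp : p i = p^[r + 1] v) : i = p^[r] v := by
  have h1 := (h.2.2.2.1 v hv (r + 1) hr).2.2
  have h2 := h.2.2.2.1 v hv r (by omega)
  unfold ch at h1
  have h3 : ((range N).filter fun j => 0 < j ∧ p j = p^[r + 1] v).card ≤ 1 := h1.le
  rw [Finset.card_le_one] at h3
  apply h3
  · rw [mem_filter, mem_range]
    exact ⟨hiN, hi0, hp⟩
  · rw [mem_filter, mem_range]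
    exact ⟨h2.2.1, h2.1, (Function.iterate_succ_apply' p r v).symm⟩

private theorem SegB_last (h : Sgm N p PL PC) {v : ℕ} (hv : v ∈ PL ∪ PC) {r : ℕ} (hr : r < 12) :
    p^[r] v < N - 1 := by
  have h2 := h.2.2.2.1 v hv r hr
  by_contra hc
  have h3 : p^[r] v = N - 1 := by omega
  have h4 := h2.2.2
  rw [h3] at h4
  unfold ch at h4
  have h5 : ((range N).filter fun j => 0 < j ∧ p j = N - 1) = ∅ := by
    rw [Finset.filter_eq_empty_iff]
    intro j hj hj2
    rw [mem_range] at hj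
    have := h.2.1 j hj2.1 hj
    omega
  rw [h5] at h4
  simp at h4

private theorem SegB_desc (h : Sgm N p PL PC) {v : ℕ} (hv : v ∈ PL ∪ PC) {r : ℕ} (hr : r < 12) :
    p^[r + 1] v < p^[r] v := by
  have h2 := h.2.2.2.1 v hv r hr
  rw [Function.iterate_succ_apply']
  exact h.2.1 _ h2.1 h2.2.1

private theorem SegB_ne (h : Sgm N p PL PC) {v v' : ℕ} (hv : v ∈ PL ∪ PC) (hv' : v' ∈ PL ∪ PC)
    {r r' : ℕ} (hr : r < 12) (hr' : r' < 12) (hne : r ≠ r') : p^[r] v ≠ p^[r'] v' :=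
  fun he => hne (h.2.2.2.2 v hv v' hv' r hr r' hr' he).2

private theorem SegB_mem {i : ℕ} : i ∈ SI N p PL PC ↔ i < N - 1 ∧
    (∀ v ∈ PL, i ≠ p^[4] v ∧ i ≠ p^[5] v) ∧ ∀ v ∈ PC, ∀ r, 1 ≤ r → r ≤ 10 → i ≠ p^[r] v := by
  simp only [SI, mem_filter, mem_range]

private theorem SegB_six (h : Sgm N p PL PC) {v : ℕ} (hv : v ∈ PL) : p^[6] v ∈ SI N p PL PC := by
  have hvu : v ∈ PL ∪ PC := mem_union_left _ hv
  rw [SegB_mem]
  refine ⟨SegB_last h hvu (by norm_num), fun v' hv' => ⟨?_, ?_⟩, fun v' hv' r h1 h2 => ?_⟩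
  · exact SegB_ne h hvu (mem_union_left _ hv') (by norm_num) (by norm_num) (by norm_num)
  · exact SegB_ne h hvu (mem_union_left _ hv') (by norm_num) (by norm_num) (by norm_num)
  · intro he
    have h3 := (h.2.2.2.2 v hvu v' (mem_union_right _ hv') 6 (by norm_num) r (by omega) he).1
    subst h3
    exact Finset.disjoint_left.1 h.2.2.1 hv hv'

private theorem SegB_three (v : ℕ) : p^[3] (p^[3] v) = p^[6] v := by
  rw [← Function.iterate_add_apply]

private theorem SegB_Sp {i : ℕ} : (∃ v ∈ PL, i = p^[3] v ∧ Sp p PL i = p^[6] v) ∨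
    ((¬ ∃ v ∈ PL, i = p^[3] v) ∧ Sp p PL i = p i) := by
  by_cases hi : ∃ v ∈ PL, i = p^[3] v
  · left
    obtain ⟨v, hv, hiv⟩ := hi
    refine ⟨v, hv, hiv, ?_⟩
    unfold Sp
    rw [if_pos ⟨v, hv, hiv⟩, hiv, SegB_three]
  · right
    refine ⟨hi, ?_⟩
    unfold Sp
    rw [if_neg hi]

end aux

theorem seg_1 {N : ℕ} {p : ℕ → ℕ} {PL PC : Finset ℕ} (h : Sgm N p PL PC) :
    ∀ i ∈ SI N p PL PC, ¬ Srt PC i → Sp p PL i ∈ SI N p PL PC ∧ Sp p PL i < i := by
  intro i hi hrt
  have hi' := SegB_mem.1 hi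
  have hi0 : 0 < i := by
    rcases Nat.eq_zero_or_pos i with h0 | h0
    · exact absurd (Or.inl h0) hrt
    · exact h0
  have hiPC : i ∉ PC := fun hh => hrt (Or.inr hh)
  have hiN : i < N := by omega
  rcases SegB_Sp (p := p) (PL := PL) (i := i) with ⟨v, hv, hiv, hS⟩ | ⟨hno, hS⟩
  · have hvu : v ∈ PL ∪ PC := mem_union_left _ hv
    rw [hS]
    refine ⟨SegB_six h hv, ?_⟩
    rw [hiv]
    have h1 := SegB_desc h hvu (r := 3) (by norm_num)
    have h2 := SegB_desc h hvu (r := 4) (by norm_num)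
    have h3 := SegB_desc h hvu (r := 5) (by norm_num)
    exact h3.trans (h2.trans h1)
  · rw [hS]
    have hlt := h.2.1 i hi0 hiN
    refine ⟨?_, hlt⟩
    rw [SegB_mem]
    refine ⟨by omega, fun v hv => ⟨fun he => ?_, fun he => ?_⟩, fun v hv r h1 h2 he => ?_⟩
    · exact hno ⟨v, hv, SegB_child h (mem_union_left _ hv) (r := 3) (by norm_num) hi0 hiN he⟩
    · exact (hi'.2.1 v hv).1
        (SegB_child h (mem_union_left _ hv) (r := 4) (by norm_num) hi0 hiN he)
    · obtain ⟨s, rfl⟩ : ∃ s, r = s + 1 := ⟨r - 1, by omega⟩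
      have h3 := SegB_child h (mem_union_right _ hv) (r := s) (by omega) hi0 hiN he
      rcases Nat.eq_zero_or_pos s with h0 | h0
      · subst h0
        apply hiPC
        rw [h3]
        exact hv
      · exact hi'.2.2 v hv s h0 (by omega) h3

theorem seg_2 {N : ℕ} {p : ℕ → ℕ} {PL PC : Finset ℕ} (h : Sgm N p PL PC) {Δ : ℕ} (hΔ1 : 1 ≤ Δ)
    (hΔ : ∀ i, ch N p i ≤ Δ) :
    ∀ i, ((SI N p PL PC).filter fun j => ¬ Srt PC j ∧ Sp p PL j = i).card ≤ Δ := by
  intro i
  by_cases hi : ∃ v ∈ PL, i = p^[6] v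
  · obtain ⟨v, hv, hiv⟩ := hi
    have hvu : v ∈ PL ∪ PC := mem_union_left _ hv
    refine le_trans (Finset.card_le_card (t := {p^[3] v}) ?_) (by simpa using hΔ1)
    intro j hj
    rw [mem_filter] at hj
    obtain ⟨hjS, hrt, hSj⟩ := hj
    have hj' := SegB_mem.1 hjS
    rw [mem_singleton]
    rcases SegB_Sp (p := p) (PL := PL) (i := j) with ⟨v', hv', hjv, hS⟩ | ⟨hno, hS⟩
    · rw [hSj, hiv] at hS
      have h3 := (h.2.2.2.2 v hvu v' (mem_union_left _ hv') 6 (by norm_num) 6 (by norm_num) hS).1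
      rw [hjv, h3]
    · exfalso
      have hj0 : 0 < j := by
        rcases Nat.eq_zero_or_pos j with h0 | h0
        · exact absurd (Or.inl h0) hrt
        · exact h0
      rw [hSj, hiv] at hS
      exact (hj'.2.1 v hv).2
        (SegB_child h hvu (r := 5) (by norm_num) hj0 (by omega) hS.symm)
  · refine le_trans (Finset.card_le_card ?_) (hΔ i)
    intro j hj
    rw [mem_filter] at hj
    obtain ⟨hjS, hrt, hSj⟩ := hj
    have hj' := SegB_mem.1 hjS
    have hj0 : 0 < j := by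
      rcases Nat.eq_zero_or_pos j with h0 | h0
      · exact absurd (Or.inl h0) hrt
      · exact h0
    rw [mem_filter, mem_range]
    refine ⟨by omega, hj0, ?_⟩
    rcases SegB_Sp (p := p) (PL := PL) (i := j) with ⟨v', hv', hjv, hS⟩ | ⟨hno, hS⟩
    · exact absurd ⟨v', hv', hSj.symm.trans hS⟩ hi
    · exact hS.symm.trans hSj

theorem seg_3 {N : ℕ} {p : ℕ → ℕ} {PL PC : Finset ℕ} (h : Sgm N p PL PC) :
    ∀ i ∈ SI N p PL PC, ¬ Srt PC i → Smk p PL (Sp p PL i) → ¬ Smk p PL i := by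
  intro i hi hrt hmk hmk'
  have hi' := SegB_mem.1 hi
  have hi0 : 0 < i := by
    rcases Nat.eq_zero_or_pos i with h0 | h0
    · exact absurd (Or.inl h0) hrt
    · exact h0
  obtain ⟨v, hv, hvS⟩ := hmk
  obtain ⟨v2, hv2, hvi⟩ := hmk'
  rcases SegB_Sp (p := p) (PL := PL) (i := i) with ⟨v', hv', hjv, hS⟩ | ⟨hno, hS⟩
  · exact SegB_ne h (mem_union_left PC hv') (mem_union_left PC hv2) (r := 3) (r' := 6) (by norm_num)
      (by norm_num) (by norm_num) (hjv.symm.trans hvi)
  · exact (hi'.2.1 v hv).2 (SegB_child h (mem_union_left _ hv) (r := 5) (by norm_num) hi0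
      (by omega) (hS.symm.trans hvS))

theorem seg_4 {N : ℕ} {p : ℕ → ℕ} {PL PC : Finset ℕ} (h : Sgm N p PL PC) :
    (SI N p PL PC).card + 2 * PL.card + 10 * PC.card + 1 = N := by
  have hN := h.1
  have hC : ((PC ×ˢ Finset.Icc 1 10).image fun z : ℕ × ℕ => p^[z.2] z.1).card = 10 * PC.card := by
    rw [Finset.card_image_of_injOn, Finset.card_product, Nat.card_Icc]
    · ring
    · rintro ⟨v, r⟩ hz ⟨v', r'⟩ hz' he
      rw [Finset.mem_coe, Finset.mem_product, Finset.mem_Icc] at hz hz'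
      have h3 := h.2.2.2.2 v (mem_union_right _ hz.1) v' (mem_union_right _ hz'.1) r
        (by have := hz.2.2; simp only at this; omega) r'
        (by have := hz'.2.2; simp only at this; omega) he
      rw [Prod.mk.injEq]
      exact h3
  have hL : ∀ s < 12, (PL.image fun v => p^[s] v).card = PL.card := by
    intro s hs
    apply Finset.card_image_of_injOn
    intro v hv v' hv' he
    exact (h.2.2.2.2 v (mem_union_left _ hv) v' (mem_union_left _ hv') s hs s hs he).1
  have hd45 : Disjoint (PL.image fun v => p^[4] v) (PL.image fun v => p^[5] v) := by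
    rw [Finset.disjoint_left]
    intro x hx hx'
    rw [mem_image] at hx hx'
    obtain ⟨v, hv, rfl⟩ := hx
    obtain ⟨v', hv', he⟩ := hx'
    exact SegB_ne h (mem_union_left _ hv') (mem_union_left _ hv) (by norm_num) (by norm_num)
      (by norm_num) he
  have hdC : Disjoint ((PL.image fun v => p^[4] v) ∪ (PL.image fun v => p^[5] v))
      ((PC ×ˢ Finset.Icc 1 10).image fun z : ℕ × ℕ => p^[z.2] z.1) := by
    rw [Finset.disjoint_left]
    intro x hx hx'
    rw [mem_image] at hx'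
    obtain ⟨⟨v', r⟩, hz, he⟩ := hx'
    rw [Finset.mem_product, Finset.mem_Icc] at hz
    simp only at hz he
    have hv' := hz.1
    have hr : r < 12 := by omega
    rw [mem_union, mem_image, mem_image] at hx
    rcases hx with ⟨v, hv, hx⟩ | ⟨v, hv, hx⟩
    · have h3 := (h.2.2.2.2 v (mem_union_left _ hv) v' (mem_union_right _ hv') 4 (by norm_num) r hr
        (hx.trans he.symm)).1
      subst h3
      exact Finset.disjoint_left.1 h.2.2.1 hv hv'
    · have h3 := (h.2.2.2.2 v (mem_union_left _ hv) v' (mem_union_right _ hv') 5 (by norm_num) r hr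
        (hx.trans he.symm)).1
      subst h3
      exact Finset.disjoint_left.1 h.2.2.1 hv hv'
  have hcard : (((PL.image fun v => p^[4] v) ∪ (PL.image fun v => p^[5] v)) ∪
      ((PC ×ˢ Finset.Icc 1 10).image fun z : ℕ × ℕ => p^[z.2] z.1)).card =
      PL.card + PL.card + 10 * PC.card := by
    rw [Finset.card_union_of_disjoint hdC, Finset.card_union_of_disjoint hd45, hL 4 (by norm_num),
      hL 5 (by norm_num), hC]
  have hdS : Disjoint (SI N p PL PC) (((PL.image fun v => p^[4] v) ∪ (PL.image fun v => p^[5] v)) ∪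
      ((PC ×ˢ Finset.Icc 1 10).image fun z : ℕ × ℕ => p^[z.2] z.1)) := by
    rw [Finset.disjoint_left]
    intro x hx hx'
    have hx2 := SegB_mem.1 hx
    rw [mem_union, mem_union, mem_image, mem_image, mem_image] at hx'
    rcases hx' with (⟨v, hv, he⟩ | ⟨v, hv, he⟩) | ⟨⟨v, r⟩, hz, he⟩
    · exact (hx2.2.1 v hv).1 he.symm
    · exact (hx2.2.1 v hv).2 he.symm
    · rw [Finset.mem_product, Finset.mem_Icc] at hz
      exact hx2.2.2 v hz.1 r hz.2.1 hz.2.2 he.symm
  have hun : SI N p PL PC ∪ (((PL.image fun v => p^[4] v) ∪ (PL.image fun v => p^[5] v)) ∪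
      ((PC ×ˢ Finset.Icc 1 10).image fun z : ℕ × ℕ => p^[z.2] z.1)) = range (N - 1) := by
    ext x
    rw [mem_union, mem_union, mem_union, mem_image, mem_image, mem_image, mem_range]
    constructor
    · rintro (hx | (⟨v, hv, he⟩ | ⟨v, hv, he⟩) | ⟨⟨v, r⟩, hz, he⟩)
      · exact (SegB_mem.1 hx).1
      · rw [← he]; exact SegB_last h (mem_union_left _ hv) (by norm_num)
      · rw [← he]; exact SegB_last h (mem_union_left _ hv) (by norm_num)
      · rw [Finset.mem_product, Finset.mem_Icc] at hz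
        rw [← he]
        exact SegB_last h (mem_union_right _ hz.1) (by have := hz.2.2; simp only at this ⊢; omega)
    · intro hx
      by_cases h4 : ∃ v ∈ PL, p^[4] v = x
      · exact Or.inr (Or.inl (Or.inl h4))
      by_cases h5 : ∃ v ∈ PL, p^[5] v = x
      · exact Or.inr (Or.inl (Or.inr h5))
      by_cases h6 : ∃ z ∈ PC ×ˢ Finset.Icc 1 10, p^[z.2] z.1 = x
      · exact Or.inr (Or.inr h6)
      left
      rw [SegB_mem]
      refine ⟨hx, fun v hv => ⟨fun he => h4 ⟨v, hv, he.symm⟩, fun he => h5 ⟨v, hv, he.symm⟩⟩,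
        fun v hv r h1 h2 he => h6 ⟨(v, r), ?_, he.symm⟩⟩
      rw [Finset.mem_product, Finset.mem_Icc]
      exact ⟨hv, h1, h2⟩
  have hfin := congrArg Finset.card hun
  rw [Finset.card_union_of_disjoint hdS, hcard, card_range] at hfin
  omega

theorem seg_5 {N : ℕ} {p : ℕ → ℕ} {PL PC : Finset ℕ} (h : Sgm N p PL PC) :
    ((SI N p PL PC).filter (Smk p PL)).card = PL.card ∧
      ∀ v ∈ PL, p^[6] v ∈ SI N p PL PC := by
  refine ⟨?_, fun v hv => SegB_six h hv⟩
  have h1 : (SI N p PL PC).filter (Smk p PL) = PL.image fun v => p^[6] v := by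
    ext x
    rw [mem_filter, mem_image]
    constructor
    · rintro ⟨-, v, hv, he⟩
      exact ⟨v, hv, he.symm⟩
    · rintro ⟨v, hv, he⟩
      rw [← he]
      exact ⟨SegB_six h hv, v, hv, rfl⟩
  rw [h1]
  apply Finset.card_image_of_injOn
  intro v hv v' hv' he
  exact (h.2.2.2.2 v (mem_union_left _ hv) v' (mem_union_left _ hv') 6 (by norm_num) 6
    (by norm_num) he).1

theorem seg_6 {N : ℕ} {p : ℕ → ℕ} {PL PC : Finset ℕ} (h : Sgm N p PL PC) :
    ((SI N p PL PC).filter (Srt PC)).card = PC.card + 1 ∧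
      (∀ v ∈ PC, v ∈ SI N p PL PC ∧ p^[11] v ∈ SI N p PL PC) ∧ p (N - 1) ∈ SI N p PL PC := by
  have hN := h.1
  have hPC : ∀ v ∈ PC, v ∈ SI N p PL PC := by
    intro v hv
    have hvu : v ∈ PL ∪ PC := mem_union_right _ hv
    rw [SegB_mem]
    refine ⟨SegB_last h hvu (r := 0) (by norm_num), fun v' hv' => ⟨?_, ?_⟩, fun v' hv' r h1 h2 => ?_⟩
    · exact SegB_ne h hvu (mem_union_left _ hv') (r := 0) (by norm_num) (by norm_num) (by norm_num)
    · exact SegB_ne h hvu (mem_union_left _ hv') (r := 0) (by norm_num) (by norm_num) (by norm_num)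
    · exact SegB_ne h hvu (mem_union_right _ hv') (r := 0) (by norm_num) (by omega) (by omega)
  refine ⟨?_, fun v hv => ⟨hPC v hv, ?_⟩, ?_⟩
  · have h1 : (SI N p PL PC).filter (Srt PC) = insert 0 PC := by
      ext x
      rw [mem_filter, mem_insert]
      constructor
      · rintro ⟨-, hx⟩
        exact hx
      · rintro (hx | hx)
        · subst hx
          refine ⟨?_, Or.inl rfl⟩
          rw [SegB_mem]
          refine ⟨by omega, fun v hv => ⟨?_, ?_⟩, fun v hv r h1 h2 => ?_⟩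
          · exact (h.2.2.2.1 v (mem_union_left _ hv) 4 (by norm_num)).1.ne
          · exact (h.2.2.2.1 v (mem_union_left _ hv) 5 (by norm_num)).1.ne
          · exact (h.2.2.2.1 v (mem_union_right _ hv) r (by omega)).1.ne
        · exact ⟨hPC x hx, Or.inr hx⟩
    rw [h1, Finset.card_insert_of_notMem]
    intro h0
    exact lt_irrefl 0 (h.2.2.2.1 0 (mem_union_right _ h0) 0 (by norm_num)).1
  · have hvu : v ∈ PL ∪ PC := mem_union_right _ hv
    rw [SegB_mem]
    refine ⟨SegB_last h hvu (by norm_num), fun v' hv' => ⟨?_, ?_⟩, fun v' hv' r h1 h2 => ?_⟩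
    · exact SegB_ne h hvu (mem_union_left _ hv') (by norm_num) (by norm_num) (by norm_num)
    · exact SegB_ne h hvu (mem_union_left _ hv') (by norm_num) (by norm_num) (by norm_num)
    · exact SegB_ne h hvu (mem_union_right _ hv') (by norm_num) (by omega) (by omega)
  · have hlt := h.2.1 (N - 1) (by omega) (by omega)
    have key : ∀ v ∈ PL ∪ PC, ∀ r, r + 1 < 12 → p (N - 1) ≠ p^[r + 1] v := by
      intro v hv r hr he
      have h1 := SegB_child h hv hr (by omega : 0 < N - 1) (by omega) he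
      have h2 := SegB_last h hv (r := r) (by omega)
      omega
    rw [SegB_mem]
    refine ⟨by omega, fun v hv => ⟨?_, ?_⟩, fun v hv r h1 h2 => ?_⟩
    · exact key v (mem_union_left _ hv) 3 (by norm_num)
    · exact key v (mem_union_left _ hv) 4 (by norm_num)
    · obtain ⟨s, rfl⟩ : ∃ s, r = s + 1 := ⟨r - 1, by omega⟩
      exact key v (mem_union_right _ hv) s (by omega)

end Pool.Agent.H60.HM
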