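import Pool.Agent.H60.HM.SegB

/-!
# HM-21 SegC: from the labelling of the structure to the labelling of the tree

`vc : Fin Nc → ℕ` enumerates `PC`.  `Lbl` gives `g, y, c, l`.  Define `f j` for `j < N`:
`l` for `j = N - 1`; `y (p^[6] v)` for `j = p^[5] v`, `v ∈ PL`; `g (p^[6] v) + e` for `j = p^[4] v`, `v ∈ PL`;
`c k r` for `j = p^[r] (vc k)`, `1 ≤ r ≤ 10`; `g j` for `j ∈ SI`.  (All these cases are different: `Sgm`.)
Also `f (vc k) = g (vc k) = c k 0` and `f (p^[11] (vc k)) = g (p^[11] (vc k)) = c k 11`.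
For every `0 < j < N` there is an edge `E j : Ed Nc` with `(E j).ok`, `f j + f (p j) = Esum .. (E j)`, and `E` is
injective:
* `j = N - 1`: `lf` (`p (N - 1) ∈ SI`, `f (p (N - 1)) = g z`).
* `j = p^[4] v`, `v ∈ PL`: `pd (p^[6] v) true` (`p j = p^[5] v`): `g (p^[6] v) + e + y (p^[6] v)`.
* `j = p^[5] v`, `v ∈ PL`: `pd (p^[6] v) false`: `y (p^[6] v) + g (p^[6] v)`.
* `j = p^[r] (vc k)`, `0 ≤ r ≤ 10`: `cn k r`: `c k r + c k (r + 1)`.
* otherwise `j ∈ SI`, not a root: `ed j`.  If `j = p^[3] v`, `v ∈ PL`: `p j = p^[4] v`,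
`f j + f (p j) = g j + (g (p^[6] v) + e) = es ..`, as `Sp j = p^[6] v` is a double vertex.  Otherwise `Sp j = p j ∈ SI`
(`seg_1`), `f (p j) = g (p j)`, and `p j` is not a double vertex: `p j = p^[6] v` would imply `j = p^[5] v`.
So different `j` have different sums.  All values: by the last part of `Lbl`: `g i` for `i ∈ SI` is `f i`;
`g i + e` with `Smk i`, `i = p^[6] v`, is `f (p^[4] v)`; `y i` is `f (p^[5] v)`; `c k r` (`0 < r < 11`) is
`f (p^[r] (vc k))`; `l = f (N - 1)`.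
-/

namespace Pool.Agent.H60.HM

open Finset Classical

private theorem SegC_child {N : ℕ} {p : ℕ → ℕ} {PL PC : Finset ℕ} (h : Sgm N p PL PC)
    {v : ℕ} (hv : v ∈ PL ∪ PC) {r : ℕ} (hr : r < 11) {i : ℕ} (hi0 : 0 < i) (hiN : i < N)
    (hi : p i = p^[r + 1] v) : i = p^[r] v := by
  obtain ⟨-, -, -, h4, -⟩ := h
  have h1 := h4 v hv r (by omega)
  have h2 := h4 v hv (r + 1) (by omega)
  have hch := h2.2.2
  rw [ch, Finset.card_eq_one] at hch
  obtain ⟨a, ha⟩ := hch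
  have m1 : i ∈ ({a} : Finset ℕ) := by
    rw [← ha]
    simp only [Finset.mem_filter, Finset.mem_range]
    exact ⟨hiN, hi0, hi⟩
  have m2 : p^[r] v ∈ ({a} : Finset ℕ) := by
    rw [← ha]
    simp only [Finset.mem_filter, Finset.mem_range]
    exact ⟨h1.2.1, h1.1, (Function.iterate_succ_apply' p r v).symm⟩
  rw [Finset.mem_singleton] at m1 m2
  rw [m1, m2]

private theorem SegC_last {N : ℕ} {p : ℕ → ℕ} {PL PC : Finset ℕ} (h : Sgm N p PL PC)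
    {v : ℕ} (hv : v ∈ PL ∪ PC) {r : ℕ} (hr : r < 12) : p^[r] v ≠ N - 1 := by
  obtain ⟨hN, hp, -, h4, -⟩ := h
  intro he
  have h1 := (h4 v hv r hr).2.2
  rw [he, ch, Finset.card_eq_one] at h1
  obtain ⟨a, ha⟩ := h1
  have m : a ∈ ({a} : Finset ℕ) := Finset.mem_singleton_self a
  rw [← ha] at m
  simp only [Finset.mem_filter, Finset.mem_range] at m
  have := hp a m.2.1 m.1
  omega

private theorem SegC_memSI {N : ℕ} {p : ℕ → ℕ} {PL PC : Finset ℕ} {i : ℕ} :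
    i ∈ SI N p PL PC ↔ i < N - 1 ∧ (∀ v ∈ PL, i ≠ p^[4] v ∧ i ≠ p^[5] v) ∧
      ∀ v ∈ PC, ∀ r, 1 ≤ r → r ≤ 10 → i ≠ p^[r] v := by
  simp only [SI, Finset.mem_filter, Finset.mem_range]

private theorem SegC_f {G : Type} [AddCommGroup G] (e : G) {N : ℕ} {p : ℕ → ℕ} {PL PC : Finset ℕ}
    (h : Sgm N p PL PC) {Nc : ℕ} (vc : Fin Nc → ℕ) (hvc : Function.Injective vc)
    (hPC : ∀ v, v ∈ PC ↔ ∃ k, vc k = v) (g y : ℕ → G) (c : Fin Nc → Fin 12 → G) (l : G)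
    (h0 : ∀ k, c k 0 = g (vc k) ∧ c k 11 = g (p^[11] (vc k))) :
    ∃ f : ℕ → G, f (N - 1) = l ∧ (∀ v ∈ PL, f (p^[4] v) = g (p^[6] v) + e) ∧
      (∀ v ∈ PL, f (p^[5] v) = y (p^[6] v)) ∧
      (∀ k (r : ℕ) (hr : r < 12), f (p^[r] (vc k)) = c k ⟨r, hr⟩) ∧
      ∀ j ∈ SI N p PL PC, f j = g j := by
  have hinj := h.2.2.2.2
  have hdis := h.2.2.1
  have hmL : ∀ v ∈ PL, v ∈ PL ∪ PC := fun v hv => Finset.mem_union_left _ hv
  have hmC : ∀ k, vc k ∈ PL ∪ PC := fun k => Finset.mem_union_right _ ((hPC _).2 ⟨k, rfl⟩)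
  have hne : ∀ v ∈ PL, ∀ k, v ≠ vc k := by
    intro v hv k hk
    exact (Finset.disjoint_left.1 hdis hv) ((hPC _).2 ⟨k, hk.symm⟩)
  let f : ℕ → G := fun j =>
    if j = N - 1 then l else
    if ∃ v ∈ PL, j = p^[4] v then g (p^[2] j) + e else
    if ∃ v ∈ PL, j = p^[5] v then y (p j) else
    if hD : ∃ kr : Fin Nc × Fin 12, 1 ≤ (kr.2 : ℕ) ∧ (kr.2 : ℕ) ≤ 10 ∧ j = p^[(kr.2 : ℕ)] (vc kr.1)
      then c hD.choose.1 hD.choose.2 else g j
  have fSI : ∀ j ∈ SI N p PL PC, f j = g j := by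
    intro j hj
    rw [SegC_memSI] at hj
    obtain ⟨a1, a2, a3⟩ := hj
    have b1 : ¬ j = N - 1 := by omega
    have b2 : ¬ ∃ v ∈ PL, j = p^[4] v := by
      rintro ⟨v, hv, hj⟩
      exact (a2 v hv).1 hj
    have b3 : ¬ ∃ v ∈ PL, j = p^[5] v := by
      rintro ⟨v, hv, hj⟩
      exact (a2 v hv).2 hj
    have b4 : ¬ ∃ kr : Fin Nc × Fin 12, 1 ≤ (kr.2 : ℕ) ∧ (kr.2 : ℕ) ≤ 10 ∧
        j = p^[(kr.2 : ℕ)] (vc kr.1) := by
      rintro ⟨⟨k, r⟩, hr1, hr2, hj⟩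
      exact a3 (vc k) ((hPC _).2 ⟨k, rfl⟩) r hr1 hr2 hj
    simp only [f]
    rw [if_neg b1, if_neg b2, if_neg b3, dif_neg b4]
  refine ⟨f, ?_, ?_, ?_, ?_, fSI⟩
  · simp only [f, if_true]
  · intro v hv
    have b1 : ¬ p^[4] v = N - 1 := SegC_last h (hmL v hv) (by norm_num)
    have b2 : ∃ v' ∈ PL, p^[4] v = p^[4] v' := ⟨v, hv, rfl⟩
    simp only [f]
    rw [if_neg b1, if_pos b2, ← Function.iterate_add_apply p 2 4 v]
  · intro v hv
    have b1 : ¬ p^[5] v = N - 1 := SegC_last h (hmL v hv) (by norm_num)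
    have b2 : ¬ ∃ v' ∈ PL, p^[5] v = p^[4] v' := by
      rintro ⟨v', hv', he⟩
      have := (hinj v (hmL v hv) v' (hmL v' hv') 5 (by norm_num) 4 (by norm_num) he).2
      omega
    have b3 : ∃ v' ∈ PL, p^[5] v = p^[5] v' := ⟨v, hv, rfl⟩
    simp only [f]
    rw [if_neg b1, if_neg b2, if_pos b3, ← Function.iterate_succ_apply' p 5 v]
  · intro k r hr
    rcases Nat.eq_zero_or_pos r with hr0 | hr0
    · subst hr0
      have hm : vc k ∈ SI N p PL PC := ((seg_6 h).2.1 (vc k) ((hPC _).2 ⟨k, rfl⟩)).1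
      rw [Function.iterate_zero_apply, fSI _ hm]
      exact (h0 k).1.symm
    rcases Nat.lt_or_ge 10 r with hr1 | hr1
    · have hr11 : r = 11 := by omega
      subst hr11
      have hm : p^[11] (vc k) ∈ SI N p PL PC := ((seg_6 h).2.1 (vc k) ((hPC _).2 ⟨k, rfl⟩)).2
      rw [fSI _ hm]
      exact (h0 k).2.symm
    · have b1 : ¬ p^[r] (vc k) = N - 1 := SegC_last h (hmC k) hr
      have b2 : ¬ ∃ v' ∈ PL, p^[r] (vc k) = p^[4] v' := by
        rintro ⟨v', hv', he⟩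
        have := (hinj (vc k) (hmC k) v' (hmL v' hv') r hr 4 (by norm_num) he).1
        exact hne v' hv' k this.symm
      have b3 : ¬ ∃ v' ∈ PL, p^[r] (vc k) = p^[5] v' := by
        rintro ⟨v', hv', he⟩
        have := (hinj (vc k) (hmC k) v' (hmL v' hv') r hr 5 (by norm_num) he).1
        exact hne v' hv' k this.symm
      have b4 : ∃ kr : Fin Nc × Fin 12, 1 ≤ (kr.2 : ℕ) ∧ (kr.2 : ℕ) ≤ 10 ∧
          p^[r] (vc k) = p^[(kr.2 : ℕ)] (vc kr.1) := ⟨(k, ⟨r, hr⟩), hr0, hr1, rfl⟩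
      have b5 := b4.choose_spec
      have b6 := hinj (vc k) (hmC k) (vc b4.choose.1) (hmC _) r hr b4.choose.2
        b4.choose.2.isLt b5.2.2
      have b7 : b4.choose.1 = k := hvc b6.1.symm
      have b8 : b4.choose.2 = ⟨r, hr⟩ := Fin.ext b6.2.symm
      simp only [f]
      rw [if_neg b1, if_neg b2, if_neg b3, dif_pos b4, b7, b8]

/-- The vertex `j` belongs to the edge `E`. -/
private def SegC_Rel (N : ℕ) (p : ℕ → ℕ) (PL : Finset ℕ) {Nc : ℕ} (vc : Fin Nc → ℕ) :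
    Ed Nc → ℕ → Prop
  | .ed i, j => j = i
  | .pd i b, j => ∃ v ∈ PL, i = p^[6] v ∧ j = p^[if b then 4 else 5] v
  | .cn k r, j => j = p^[(r : ℕ)] (vc k)
  | .lf, j => j = N - 1

private theorem SegC_Rel_unique {N : ℕ} {p : ℕ → ℕ} {PL PC : Finset ℕ} (h : Sgm N p PL PC)
    {Nc : ℕ} (vc : Fin Nc → ℕ) (E : Ed Nc) (i j : ℕ) (hi : SegC_Rel N p PL vc E i)
    (hj : SegC_Rel N p PL vc E j) : i = j := by
  cases E with
  | ed a => exact hi.trans hj.symm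
  | pd a b =>
    obtain ⟨v, hv, e1, e2⟩ := hi
    obtain ⟨v', hv', e1', e2'⟩ := hj
    have := (h.2.2.2.2 v (Finset.mem_union_left _ hv) v' (Finset.mem_union_left _ hv') 6
      (by norm_num) 6 (by norm_num) (e1.symm.trans e1')).1
    rw [e2, e2', this]
  | cn k r => exact hi.trans hj.symm
  | lf => exact hi.trans hj.symm

theorem seg_label {G : Type} [AddCommGroup G] (e : G) {N : ℕ} {p : ℕ → ℕ} {PL PC : Finset ℕ}
    (h : Sgm N p PL PC) {Nc : ℕ} (vc : Fin Nc → ℕ) (hvc : Function.Injective vc)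
    (hPC : ∀ v, v ∈ PC ↔ ∃ k, vc k = v)
    (hL : Lbl e (SI N p PL PC) (Sp p PL) (Srt PC) (Smk p PL) vc (fun k => p^[11] (vc k))
      (p (N - 1))) :
    ∃ f : ℕ → G,
      (∀ i j, 0 < i → i < N → 0 < j → j < N → f i + f (p i) = f j + f (p j) → i = j) ∧
      ∀ t : G, ∃ i < N, f i = t := by
  obtain ⟨g, y, c, l, h0, hE, hall⟩ := hL
  obtain ⟨f, f1, f2, f3, f4, f5⟩ := SegC_f e h vc hvc hPC g y c l h0
  have hN2 : 2 ≤ N := h.1
  have hp := h.2.1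
  have h4 := h.2.2.2.1
  have hmL : ∀ v ∈ PL, v ∈ PL ∪ PC := fun v hv => Finset.mem_union_left _ hv
  have hmC : ∀ k, vc k ∈ PL ∪ PC := fun k => Finset.mem_union_right _ ((hPC _).2 ⟨k, rfl⟩)
  have key : ∀ j, 0 < j → j < N → ∃ E : Ed Nc, E.ok (SI N p PL PC) (Srt PC) (Smk p PL) ∧
      Esum e (Smk p PL) (Sp p PL) g y c l (p (N - 1)) E = f j + f (p j) ∧
      SegC_Rel N p PL vc E j := by
    intro j hj0 hjN
    by_cases c1 : j = N - 1
    · refine ⟨Ed.lf, trivial, ?_, c1⟩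
      have hm : p (N - 1) ∈ SI N p PL PC := (seg_6 h).2.2
      simp only [Esum]
      rw [c1, f1, f5 _ hm, add_comm]
    by_cases c2 : ∃ v ∈ PL, j = p^[4] v
    · obtain ⟨v, hv, rfl⟩ := c2
      refine ⟨Ed.pd (p^[6] v) true, ⟨(seg_5 h).2 v hv, v, hv, rfl⟩, ?_, v, hv, rfl, rfl⟩
      have e1 : p (p^[4] v) = p^[5] v := (Function.iterate_succ_apply' p 4 v).symm
      simp only [Esum]
      rw [e1, f2 v hv, f3 v hv, if_pos trivial]
    by_cases c3 : ∃ v ∈ PL, j = p^[5] v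
    · obtain ⟨v, hv, rfl⟩ := c3
      refine ⟨Ed.pd (p^[6] v) false, ⟨(seg_5 h).2 v hv, v, hv, rfl⟩, ?_, v, hv, rfl, rfl⟩
      have e1 : p (p^[5] v) = p^[6] v := (Function.iterate_succ_apply' p 5 v).symm
      simp only [Esum]
      rw [e1, f3 v hv, f5 _ ((seg_5 h).2 v hv), if_neg (by simp), add_zero, add_comm]
    by_cases c4 : ∃ k : Fin Nc, ∃ r : ℕ, r ≤ 10 ∧ j = p^[r] (vc k)
    · obtain ⟨k, r, hr, rfl⟩ := c4
      refine ⟨Ed.cn k ⟨r, by omega⟩, trivial, ?_, rfl⟩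
      have e1 : p (p^[r] (vc k)) = p^[r + 1] (vc k) := (Function.iterate_succ_apply' p r _).symm
      simp only [Esum]
      rw [e1, f4 k r (by omega), f4 k (r + 1) (by omega)]
      rfl
    have hSI : j ∈ SI N p PL PC := by
      rw [SegC_memSI]
      refine ⟨by omega, ?_, ?_⟩
      · intro v hv
        exact ⟨fun he => c2 ⟨v, hv, he⟩, fun he => c3 ⟨v, hv, he⟩⟩
      · intro v hv r _ hr2 he
        obtain ⟨k, rfl⟩ := (hPC v).1 hv
        exact c4 ⟨k, r, hr2, he⟩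
    have hrt : ¬ Srt PC j := by
      rintro (h1 | h1)
      · omega
      · obtain ⟨k, hk⟩ := (hPC j).1 h1
        exact c4 ⟨k, 0, by omega, hk.symm⟩
    refine ⟨Ed.ed j, ⟨hSI, hrt⟩, ?_, rfl⟩
    simp only [Esum, es]
    by_cases c5 : ∃ v ∈ PL, j = p^[3] v
    · have hSp : Sp p PL j = p^[3] j := if_pos c5
      obtain ⟨v, hv, rfl⟩ := c5
      have e2 : p^[3] (p^[3] v) = p^[6] v := (Function.iterate_add_apply p 3 3 v).symm
      have e3 : p (p^[3] v) = p^[4] v := (Function.iterate_succ_apply' p 3 v).symm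
      have hoff : off e (Smk p PL) (p^[6] v) = e := if_pos ⟨v, hv, rfl⟩
      rw [hSp, e2, e3, hoff, f2 v hv, f5 _ hSI, add_assoc]
    · have hSp : Sp p PL j = p j := if_neg c5
      have hm := (seg_1 h j hSI hrt).1
      rw [hSp] at hm
      have hoff : off e (Smk p PL) (p j) = 0 := by
        refine if_neg ?_
        rintro ⟨v, hv, he⟩
        have := SegC_child h (hmL v hv) (r := 5) (by norm_num) hj0 hjN he
        exact c3 ⟨v, hv, this⟩
      rw [hSp, hoff, f5 _ hSI, f5 _ hm, add_zero]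
  refine ⟨f, ?_, ?_⟩
  · intro i j hi0 hiN hj0 hjN hs
    obtain ⟨E, o1, s1, r1⟩ := key i hi0 hiN
    obtain ⟨E', o2, s2, r2⟩ := key j hj0 hjN
    have hEE : E = E' := hE E E' o1 o2 (by rw [s1, s2, hs])
    subst hEE
    exact SegC_Rel_unique h vc E i j r1 r2
  · intro t
    rcases hall t with ⟨i, hi, ht⟩ | ⟨i, _, ⟨v, hv, rfl⟩, ht⟩ | ⟨i, _, ⟨v, hv, rfl⟩, ht⟩ |
      ⟨k, r, _, _, ht⟩ | ht
    · refine ⟨i, ?_, by rw [f5 i hi, ht]⟩
      have := (SegC_memSI.1 hi).1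
      omega
    · exact ⟨p^[4] v, (h4 v (hmL v hv) 4 (by norm_num)).2.1, by rw [f2 v hv, ht]⟩
    · exact ⟨p^[5] v, (h4 v (hmL v hv) 5 (by norm_num)).2.1, by rw [f3 v hv, ht]⟩
    · exact ⟨p^[(r : ℕ)] (vc k), (h4 (vc k) (hmC k) r r.isLt).2.1, by rw [f4 k r r.isLt]; exact ht⟩
    · exact ⟨N - 1, by omega, by rw [f1, ht]⟩

end Pool.Agent.H60.HM
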